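import Pool.Agent.H10R3.SC.Stmts3

/-!
Project H10-CX, task tyC.
-/

set_option autoImplicit false
set_option linter.unusedSectionVars false

open Finset

namespace Pool.Agent.H218R3.CX13

open Pool.Agent.Helper347.Sab
open Pool.Agent.H444.FA
open Pool.Agent.H10R3.SC

lemma two_elem {α : Type} [DecidableEq α] {p : Finset α} {a c : α} (hp : p.card = 2) (ha : a ∈ p)
    (hc : c ∈ p) (hac : a ≠ c) : p = {a, c} := by
  symm
  apply Finset.eq_of_subset_of_card_le
  · intro t ht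
    rw [Finset.mem_insert, Finset.mem_singleton] at ht
    rcases ht with rfl | rfl
    · exact ha
    · exact hc
  · rw [hp, Finset.card_pair hac]

lemma exists_other {α : Type} [DecidableEq α] {p : Finset α} (hp : p.card = 2) (a : α) :
    ∃ c ∈ p, c ≠ a := by
  obtain ⟨u, v, huv, rfl⟩ := Finset.card_eq_two.mp hp
  by_cases h : u = a
  · exact ⟨v, by simp, fun h' => huv (h.trans h'.symm)⟩
  · exact ⟨u, by simp, h⟩

lemma comb {α : Type} [DecidableEq α] {p2 p3 p4 : Finset α} {a b : α} (hab : a ≠ b)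
    (h2 : ∀ c, c ∈ p2 ↔ (c = a ∨ c = b))
    (h : ∀ c, (c ∈ p2 ↔ ((c ∈ p3 ∧ c ∉ p4) ∨ (c ∈ p4 ∧ c ∉ p3)))) (h3 : p3.card = 2)
    (h4 : p4.card = 2) :
    ∃ c, c ≠ a ∧ c ≠ b ∧ ((p3 = {a, c} ∧ p4 = {b, c}) ∨ (p3 = {b, c} ∧ p4 = {a, c})) := by
  have ha := (h a).mp ((h2 a).mpr (Or.inl rfl))
  have hb := (h b).mp ((h2 b).mpr (Or.inr rfl))
  have hout : ∀ c, c ≠ a → c ≠ b → (c ∈ p3 ↔ c ∈ p4) := by
    intro c hca hcb
    have h1 : c ∉ p2 := by
      rw [h2]
      rintro (h' | h')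
      · exact hca h'
      · exact hcb h'
    have h5 := (h c).not.mp h1
    tauto
  rcases ha with ⟨ha3, ha4⟩ | ⟨ha4, ha3⟩
  · rcases hb with ⟨hb3, hb4⟩ | ⟨hb4, hb3⟩
    · exfalso
      obtain ⟨t, ht, hta⟩ := exists_other h4 a
      have htb : t ≠ b := by rintro rfl; exact hb4 ht
      have h5 := (hout t hta htb).mpr ht
      rw [two_elem h3 ha3 hb3 hab, Finset.mem_insert, Finset.mem_singleton] at h5
      rcases h5 with h5 | h5
      · exact hta h5
      · exact htb h5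
    · obtain ⟨c, hc, hca⟩ := exists_other h3 a
      have hcb : c ≠ b := by rintro rfl; exact hb3 hc
      have hc4 := (hout c hca hcb).mp hc
      exact ⟨c, hca, hcb, Or.inl ⟨two_elem h3 ha3 hc hca.symm, two_elem h4 hb4 hc4 hcb.symm⟩⟩
  · rcases hb with ⟨hb3, hb4⟩ | ⟨hb4, hb3⟩
    · obtain ⟨c, hc, hca⟩ := exists_other h4 a
      have hcb : c ≠ b := by rintro rfl; exact hb4 hc
      have hc3 := (hout c hca hcb).mpr hc
      exact ⟨c, hca, hcb, Or.inr ⟨two_elem h3 hb3 hc3 hcb.symm, two_elem h4 ha4 hc hca.symm⟩⟩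
    · exfalso
      obtain ⟨t, ht, hta⟩ := exists_other h3 a
      have htb : t ≠ b := by rintro rfl; exact hb3 ht
      have h5 := (hout t hta htb).mp ht
      rw [two_elem h4 ha4 hb4 hab, Finset.mem_insert, Finset.mem_singleton] at h5
      rcases h5 with h5 | h5
      · exact hta h5
      · exact htb h5

theorem tyC (h1 : TRead) (h2 : TPad) : TTyC := by
  intro V E _ _ _ _ G C X y x ℓ hcr hgdt hg hgood
  obtain ⟨n, Z, p, hPC, hcard, hpat, heven⟩ := h1 V E G C X 4 y x ℓ hcr 2 5 (gTree y 1 2 3) hgdt hg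
    {0, 1} hgood
  have c0 : (p 0).card = 1 := by rw [hcard]; simp
  have c1 : (p 1).card = 1 := by rw [hcard]; simp
  have c2 : (p 2).card = 2 := by rw [hcard]; rfl
  have c3 : (p 3).card = 2 := by rw [hcard]; rfl
  have c4 : (p 4).card = 2 := by rw [hcard]; rfl
  have q0 : pat G y Z 0 = p 0 := hpat 0 0 (by simp [gTree])
  have q1 : pat G y Z 1 = p 1 := hpat 1 1 (by simp [gTree])
  have q2 : pat G y Z 2 = p 3 := hpat 2 3 (by simp [gTree])
  have q3 : pat G y Z 3 = p 4 := hpat 3 4 (by simp [gTree])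
  obtain ⟨a, ha⟩ := Finset.card_eq_one.mp c0
  obtain ⟨b, hb⟩ := Finset.card_eq_one.mp c1
  have e0 : ∀ c, Even ((if c ∈ p 0 then 1 else 0) + (if c ∈ p 1 then 1 else 0) +
      (if c ∈ p 2 then 1 else 0)) := by
    intro c
    have h := heven 0 c
    rw [Finset.card_filter] at h
    simpa [Fin.sum_univ_five, gTree] using h
  have e1 : ∀ c, Even ((if c ∈ p 2 then 1 else 0) + (if c ∈ p 3 then 1 else 0) +
      (if c ∈ p 4 then 1 else 0)) := by
    intro c
    have h := heven 1 c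
    rw [Finset.card_filter] at h
    simpa [Fin.sum_univ_five, gTree] using h
  have x0 : ∀ c, (c ∈ p 2 ↔ ((c ∈ p 0 ∧ c ∉ p 1) ∨ (c ∈ p 1 ∧ c ∉ p 0))) := by
    intro c
    have h := e0 c
    by_cases h0 : c ∈ p 0 <;> by_cases h1 : c ∈ p 1 <;> by_cases h2 : c ∈ p 2 <;>
      simp [h0, h1, h2] at h ⊢ <;> exact absurd h (by decide)
  have x1 : ∀ c, (c ∈ p 2 ↔ ((c ∈ p 3 ∧ c ∉ p 4) ∨ (c ∈ p 4 ∧ c ∉ p 3))) := by
    intro c
    have h := e1 c
    by_cases h0 : c ∈ p 3 <;> by_cases h1 : c ∈ p 4 <;> by_cases h2 : c ∈ p 2 <;>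
      simp [h0, h1, h2] at h ⊢ <;> exact absurd h (by decide)
  have hab : a ≠ b := by
    rintro rfl
    have h3 : p 2 = ∅ := by
      ext c
      rw [x0 c, ha, hb]
      simp
    rw [h3] at c2
    simp at c2
  have h3 : ∀ c, c ∈ p 2 ↔ (c = a ∨ c = b) := by
    intro c
    rw [x0 c, ha, hb, Finset.mem_singleton, Finset.mem_singleton]
    constructor
    · rintro (h | h)
      · exact Or.inl h.1
      · exact Or.inr h.1
    · rintro (rfl | rfl)
      · exact Or.inl ⟨rfl, hab⟩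
      · exact Or.inr ⟨rfl, hab.symm⟩
  obtain ⟨c, hca, hcb, hc⟩ := comb hab h3 x1 c3 c4
  have hinj : ∀ s ∈ (univ : Finset (Fin 3)), ∀ t ∈ (univ : Finset (Fin 3)),
      (![a, b, c] : Fin 3 → Fin n) s = (![a, b, c] : Fin 3 → Fin n) t → s = t := by
    intro s _ t _ hst
    fin_cases s <;> fin_cases t <;> simp_all
  rcases hc with ⟨h5, h6⟩ | ⟨h5, h6⟩
  · left
    refine h2 V E G C X 4 y n Z hPC PQ univ ![a, b, c] (fun _ => subset_univ _) hinj ?_
    intro i
    fin_cases i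
    · change pat G y Z 0 = _
      rw [q0, ha]; simp [PQ]
    · change pat G y Z 1 = _
      rw [q1, hb]; simp [PQ]
    · change pat G y Z 2 = _
      rw [q2, h5]; simp [PQ]
    · change pat G y Z 3 = _
      rw [q3, h6]; simp [PQ]
  · right
    refine h2 V E G C X 4 y n Z hPC PR univ ![a, b, c] (fun _ => subset_univ _) hinj ?_
    intro i
    fin_cases i
    · change pat G y Z 0 = _
      rw [q0, ha]; simp [PR]
    · change pat G y Z 1 = _
      rw [q1, hb]; simp [PR]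
    · change pat G y Z 2 = _
      rw [q2, h5]; simp [PR]
    · change pat G y Z 3 = _
      rw [q3, h6]; simp [PR]

end Pool.Agent.H218R3.CX13
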