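import Mathlib

set_option autoImplicit false
open Filter Topology Set

namespace Pool.Agent.H218R3

noncomputable section

/-- The entire function `((2 e^z - 1)^2 - 1)^2 = 16 e^{2z} (e^z - 1)^2`. -/
def F (z : ℂ) : ℂ := ((2 * Complex.exp z - 1) ^ 2 - 1) ^ 2

/-- Folding onto the closed upper half-plane. -/
def fold (z : ℂ) : ℂ := ⟨z.re, |z.im|⟩

/-- The folded square root: first quadrant root of `fold z`. -/
def sq (z : ℂ) : ℂ := ⟨√((‖z‖ + z.re) / 2), √((‖z‖ - z.re) / 2)⟩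

/-- The folded logarithm. -/
def lg (z : ℂ) : ℂ := ⟨Real.log ‖z‖, Real.arccos (z.re / ‖z‖)⟩

/-- The escaping set. -/
def Esc : Set ℂ := {z : ℂ | Tendsto (fun n : ℕ => F^[n] z) atTop (cocompact ℂ)}

lemma fold_of_im_nonneg {z : ℂ} (h : 0 ≤ z.im) : fold z = z := by
  apply Complex.ext <;> simp [fold, abs_of_nonneg h]

lemma fold_of_im_nonpos {z : ℂ} (h : z.im ≤ 0) : fold z = (starRingEnd ℂ) z := by
  apply Complex.ext <;> simp [fold, abs_of_nonpos h]

lemma fold_conj (z : ℂ) : fold ((starRingEnd ℂ) z) = fold z := by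
  apply Complex.ext <;> simp [fold]

lemma fold_eq_or (z : ℂ) : fold z = z ∨ fold z = (starRingEnd ℂ) z := by
  rcases le_total 0 z.im with h | h
  · exact Or.inl (fold_of_im_nonneg h)
  · exact Or.inr (fold_of_im_nonpos h)

lemma fold_im_nonneg (z : ℂ) : 0 ≤ (fold z).im := by simp [fold]

lemma norm_fold (z : ℂ) : ‖fold z‖ = ‖z‖ := by
  rcases fold_eq_or z with h | h <;> rw [h]
  simp

lemma continuous_fold : Continuous fold := by
  have : fold = fun z : ℂ => (z.re : ℂ) + ((|z.im| : ℝ) : ℂ) * Complex.I := by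
    funext z
    apply Complex.ext <;> simp [fold]
  rw [this]
  fun_prop

lemma sq_re_nonneg (z : ℂ) : 0 ≤ (sq z).re := Real.sqrt_nonneg _
lemma sq_im_nonneg (z : ℂ) : 0 ≤ (sq z).im := Real.sqrt_nonneg _

lemma continuous_sq : Continuous sq := by
  have : sq = fun z : ℂ => ((√((‖z‖ + z.re) / 2) : ℝ) : ℂ)
      + ((√((‖z‖ - z.re) / 2) : ℝ) : ℂ) * Complex.I := by
    funext z
    apply Complex.ext <;> simp [sq]
  rw [this]
  fun_prop

lemma sq_mul_self (z : ℂ) : sq z ^ 2 = fold z := by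
  have h1 : 0 ≤ (‖z‖ + z.re) / 2 := by
    have := Complex.abs_re_le_norm z
    have := neg_abs_le z.re
    linarith
  have h2 : 0 ≤ (‖z‖ - z.re) / 2 := by
    have := Complex.abs_re_le_norm z
    have := le_abs_self z.re
    linarith
  have h3 := Real.mul_self_sqrt h1
  have h4 := Real.mul_self_sqrt h2
  have h5 : √((‖z‖ + z.re) / 2) * √((‖z‖ - z.re) / 2) = |z.im| / 2 := by
    rw [← Real.sqrt_mul h1]
    have : (‖z‖ + z.re) / 2 * ((‖z‖ - z.re) / 2) = (|z.im| / 2) ^ 2 := by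
      have h := Complex.sq_norm z
      rw [Complex.normSq_apply] at h
      have h' := sq_abs z.im
      nlinarith
    rw [this, Real.sqrt_sq (by positivity)]
  apply Complex.ext
  · simp only [sq, fold, pow_two, Complex.mul_re]
    rw [h3, h4]; ring
  · simp only [sq, fold, pow_two, Complex.mul_im]
    rw [h5, mul_comm, h5]; ring

/-- Uniqueness of the first quadrant root. -/
lemma sq_sq {t : ℂ} (h1 : 0 ≤ t.re) (h2 : 0 ≤ t.im) : sq (t ^ 2) = t := by
  have hn : ‖t ^ 2‖ = t.re ^ 2 + t.im ^ 2 := by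
    rw [norm_pow, Complex.sq_norm, Complex.normSq_apply]; ring
  have hr : (t ^ 2).re = t.re ^ 2 - t.im ^ 2 := by
    simp [pow_two, Complex.mul_re]
  apply Complex.ext
  · simp only [sq, hn, hr]
    rw [show (t.re ^ 2 + t.im ^ 2 + (t.re ^ 2 - t.im ^ 2)) / 2 = t.re ^ 2 by ring]
    exact Real.sqrt_sq h1
  · simp only [sq, hn, hr]
    rw [show (t.re ^ 2 + t.im ^ 2 - (t.re ^ 2 - t.im ^ 2)) / 2 = t.im ^ 2 by ring]
    exact Real.sqrt_sq h2

lemma sq_fold (z : ℂ) : sq (fold z) = sq z := by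
  simp only [sq, norm_fold]
  simp [fold]

lemma sq_eq_zero {z : ℂ} (h : sq z = 0) : z = 0 := by
  have := sq_mul_self z
  rw [h] at this
  have h2 : ‖fold z‖ = 0 := by rw [← this]; simp
  rw [norm_fold] at h2
  simpa using h2

lemma lg_im_nonneg (z : ℂ) : 0 ≤ (lg z).im := Real.arccos_nonneg _
lemma lg_im_le_pi (z : ℂ) : (lg z).im ≤ Real.pi := Real.arccos_le_pi _

lemma continuousAt_lg {z : ℂ} (h : z ≠ 0) : ContinuousAt lg z := by
  have : lg = fun z : ℂ => ((Real.log ‖z‖ : ℝ) : ℂ)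
      + ((Real.arccos (z.re / ‖z‖) : ℝ) : ℂ) * Complex.I := by
    funext z
    apply Complex.ext <;> simp [lg]
  rw [this]
  have h1 : ContinuousAt (fun z : ℂ => Real.log ‖z‖) z :=
    ContinuousAt.log (by fun_prop) (norm_ne_zero_iff.mpr h)
  have h2 : ContinuousAt (fun z : ℂ => z.re / ‖z‖) z :=
    ContinuousAt.div (by fun_prop) (by fun_prop) (norm_ne_zero_iff.mpr h)
  have h3 : ContinuousAt (fun z : ℂ => Real.arccos (z.re / ‖z‖)) z :=
    (Real.continuous_arccos.continuousAt).comp h2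
  have h4 : ContinuousAt (fun z : ℂ => ((Real.log ‖z‖ : ℝ) : ℂ)) z :=
    (Complex.continuous_ofReal.continuousAt).comp h1
  have h5 : ContinuousAt (fun z : ℂ => ((Real.arccos (z.re / ‖z‖) : ℝ) : ℂ)) z :=
    (Complex.continuous_ofReal.continuousAt).comp h3
  exact h4.add (h5.mul continuousAt_const)

lemma exp_lg {z : ℂ} (h : z ≠ 0) : Complex.exp (lg z) = fold z := by
  have hz : 0 < ‖z‖ := norm_pos_iff.mpr h
  have h1 : |z.re / ‖z‖| ≤ 1 := by
    rw [abs_div, abs_of_pos hz, div_le_one hz]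
    exact Complex.abs_re_le_norm z
  have hcos : Real.cos (Real.arccos (z.re / ‖z‖)) = z.re / ‖z‖ :=
    Real.cos_arccos (by linarith [neg_abs_le (z.re / ‖z‖)]) (by linarith [le_abs_self (z.re / ‖z‖)])
  have hsin : Real.sin (Real.arccos (z.re / ‖z‖)) = |z.im| / ‖z‖ := by
    rw [Real.sin_arccos]
    have : 1 - (z.re / ‖z‖) ^ 2 = (|z.im| / ‖z‖) ^ 2 := by
      field_simp
      rw [Complex.sq_norm, Complex.normSq_apply, sq_abs]
      ring
    rw [this, Real.sqrt_sq (by positivity)]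
  apply Complex.ext
  · rw [Complex.exp_re]
    simp only [lg, fold]
    rw [Real.exp_log hz, hcos]
    field_simp
  · rw [Complex.exp_im]
    simp only [lg, fold]
    rw [Real.exp_log hz, hsin]
    field_simp

lemma lg_exp {z : ℂ} (h1 : 0 ≤ z.im) (h2 : z.im ≤ Real.pi) : lg (Complex.exp z) = z := by
  apply Complex.ext
  · simp only [lg, Complex.norm_exp, Real.log_exp]
  · simp only [lg, Complex.norm_exp, Complex.exp_re]
    rw [mul_div_assoc, mul_comm, div_mul_cancel₀ _ (Real.exp_pos _).ne', Real.arccos_cos h1 h2]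

lemma F_zero : F 0 = 0 := by simp [F]; norm_num

lemma F_conj (z : ℂ) : F ((starRingEnd ℂ) z) = (starRingEnd ℂ) (F z) := by
  have h2 : (starRingEnd ℂ) (2 : ℂ) = 2 := Complex.conj_ofNat 2
  simp [F, Complex.exp_conj, h2]

lemma F_iter_conj (n : ℕ) (z : ℂ) : F^[n] ((starRingEnd ℂ) z) = (starRingEnd ℂ) (F^[n] z) := by
  induction n generalizing z with
  | zero => simp
  | succ n ih => rw [Function.iterate_succ_apply, Function.iterate_succ_apply, F_conj, ih]

lemma F_add_period (z : ℂ) : F (z + 2 * Real.pi * Complex.I) = F z := by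
  simp [F, Complex.exp_add, Complex.exp_two_pi_mul_I]

lemma differentiable_F : Differentiable ℂ F := by
  unfold F
  fun_prop

lemma continuous_F : Continuous F := differentiable_F.continuous

lemma mem_Esc_iff {z : ℂ} : z ∈ Esc ↔ Tendsto (fun n : ℕ => ‖F^[n] z‖) atTop atTop := by
  rw [Esc, mem_ofPred_eq, tendsto_norm_atTop_iff_cobounded, Metric.cobounded_eq_cocompact]

lemma F_mem_Esc {z : ℂ} : F z ∈ Esc ↔ z ∈ Esc := by
  rw [mem_Esc_iff, mem_Esc_iff]
  rw [← tendsto_add_atTop_iff_nat (f := fun n : ℕ => ‖F^[n] z‖) 1]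
  simp only [Function.iterate_succ_apply]

lemma conj_mem_Esc {z : ℂ} : (starRingEnd ℂ) z ∈ Esc ↔ z ∈ Esc := by
  rw [mem_Esc_iff, mem_Esc_iff]
  simp only [F_iter_conj, RCLike.norm_conj]

lemma fold_mem_Esc {z : ℂ} : fold z ∈ Esc ↔ z ∈ Esc := by
  rcases fold_eq_or z with h | h <;> rw [h]
  exact conj_mem_Esc

lemma zero_not_mem_Esc : (0 : ℂ) ∉ Esc := by
  rw [mem_Esc_iff]
  have : ∀ n : ℕ, F^[n] 0 = 0 := fun n => Function.iterate_fixed F_zero n
  simp only [this, norm_zero]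
  exact not_tendsto_const_atTop _ _

lemma ne_zero_of_mem_Esc {z : ℂ} (h : z ∈ Esc) : z ≠ 0 := by
  rintro rfl
  exact zero_not_mem_Esc h

/-- The real version. -/
def Fr (x : ℝ) : ℝ := ((2 * Real.exp x - 1) ^ 2 - 1) ^ 2

lemma F_ofReal (x : ℝ) : F (x : ℂ) = (Fr x : ℂ) := by
  simp [F, Fr]

/-- The escaping real ray. -/
def ray : Set ℂ := {z : ℂ | 1 ≤ z.re ∧ z.im = 0}

lemma Fr_ge {x : ℝ} (hx : 1 ≤ x) : x + 1 ≤ Fr x := by
  have h1 : x + 1 ≤ Real.exp x := Real.add_one_le_exp x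
  have h2 : 4 * x ≤ (2 * Real.exp x - 1) ^ 2 - 1 := by nlinarith
  unfold Fr
  nlinarith

lemma ray_eq {z : ℂ} (h : z ∈ ray) : z = (z.re : ℂ) := by
  apply Complex.ext <;> simp [h.2]

lemma F_ray {z : ℂ} (h : z ∈ ray) : F z ∈ ray ∧ z.re + 1 ≤ (F z).re := by
  have h1 := Fr_ge h.1
  rw [ray_eq h, F_ofReal]
  simp only [Complex.ofReal_re]
  refine ⟨⟨?_, ?_⟩, h1⟩
  · simp only [Complex.ofReal_re]; linarith [h.1]
  · simp

lemma F_iter_ray (n : ℕ) {z : ℂ} (h : z ∈ ray) : F^[n] z ∈ ray ∧ z.re + n ≤ (F^[n] z).re := by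
  induction n with
  | zero => simpa using h
  | succ n ih =>
    rw [Function.iterate_succ_apply']
    have := F_ray ih.1
    refine ⟨this.1, ?_⟩
    push_cast
    linarith [ih.2, this.2]

lemma ray_subset_Esc : ray ⊆ Esc := by
  intro z hz
  rw [mem_Esc_iff]
  refine tendsto_atTop_mono (f := fun n : ℕ => (n : ℝ)) ?_ tendsto_natCast_atTop_atTop
  intro n
  have := (F_iter_ray n hz).2
  have h2 := Complex.re_le_norm (F^[n] z)
  linarith [hz.1]

lemma one_mem_ray : (1 : ℂ) ∈ ray := by simp [ray]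

lemma isPreconnected_ray : IsPreconnected ray := by
  apply Convex.isPreconnected
  intro x hx y hy a b ha hb hab
  refine ⟨?_, ?_⟩
  · simp only [Complex.add_re, Complex.real_smul, Complex.re_ofReal_mul]
    nlinarith [hx.1, hy.1]
  · simp only [Complex.add_im, Complex.real_smul, Complex.im_ofReal_mul, hx.2, hy.2]
    simp

lemma mem_Esc_of_iter {z : ℂ} {n : ℕ} (h : F^[n] z ∈ Esc) : z ∈ Esc := by
  induction n generalizing z with
  | zero => simpa using h
  | succ n ih =>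
    rw [Function.iterate_succ_apply] at h
    exact F_mem_Esc.mp (ih h)

end

end Pool.Agent.H218R3
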