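import Pool.Agent.H218R3.Branches

set_option autoImplicit false
open Filter Topology Set

namespace Pool.Agent.H218R3

noncomputable section

lemma le_of_sqs {a b : ℝ} (h : a ^ 2 ≤ b ^ 2) (hb : 0 ≤ b) : a ≤ b := by
  by_contra hc
  push Not at hc
  nlinarith

/-- Lower levels. -/
def lo : ℕ → ℝ
  | 0 => 1
  | n + 1 => (1 + 4 * Real.exp (lo n) ^ 2) ^ 2

/-- Upper levels. -/
def hi : ℕ → ℝ
  | 0 => 2
  | n + 1 => ((2 * Real.exp (hi n) - 1) ^ 2 - 1) ^ 2 - 2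

lemma lo_step (n : ℕ) (h : 1 ≤ lo n) : lo n + 1 ≤ lo (n + 1) := by
  have h1 : lo n + 1 ≤ Real.exp (lo n) := Real.add_one_le_exp _
  have h2 : (lo n + 1) ^ 2 ≤ Real.exp (lo n) ^ 2 := by
    apply pow_le_pow_left₀ (by linarith) h1
  have h3 : 1 ≤ 1 + 4 * Real.exp (lo n) ^ 2 := by nlinarith [sq_nonneg (Real.exp (lo n))]
  show lo n + 1 ≤ (1 + 4 * Real.exp (lo n) ^ 2) ^ 2
  nlinarith

lemma lo_ge (n : ℕ) : (n : ℝ) + 1 ≤ lo n := by
  induction n with
  | zero => simp [lo]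
  | succ n ih =>
    have h : (1:ℝ) ≤ lo n := by
      have : (0:ℝ) ≤ n := Nat.cast_nonneg n
      linarith
    have := lo_step n h
    push_cast
    linarith

lemma one_le_lo (n : ℕ) : 1 ≤ lo n := by
  have := lo_ge n
  have : (0:ℝ) ≤ n := Nat.cast_nonneg n
  linarith

lemma lo_add_one_le_hi (n : ℕ) : lo n + 1 ≤ hi n := by
  induction n with
  | zero => norm_num [lo, hi]
  | succ n ih =>
    show (1 + 4 * Real.exp (lo n) ^ 2) ^ 2 + 1 ≤ ((2 * Real.exp (hi n) - 1) ^ 2 - 1) ^ 2 - 2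
    have h0 := one_le_lo n
    have hE1 : 2 ≤ Real.exp (lo n) := by
      have := Real.add_one_le_exp (lo n)
      linarith
    have h1 : Real.exp (lo n) * 2 ≤ Real.exp (hi n) := by
      have h2 : Real.exp (lo n + 1) ≤ Real.exp (hi n) := Real.exp_le_exp.mpr ih
      rw [Real.exp_add] at h2
      have h3 : (1:ℝ) + 1 ≤ Real.exp 1 := Real.add_one_le_exp 1
      nlinarith [Real.exp_pos (lo n)]
    set E := Real.exp (lo n) with hE
    set G := Real.exp (hi n) with hG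
    have h4 : 3 * E + 1 ≤ 2 * G - 1 := by nlinarith
    have h5 : 9 * E ^ 2 + 1 ≤ (2 * G - 1) ^ 2 - 1 := by nlinarith
    have h6 : (9 * E ^ 2 + 1) ^ 2 ≤ ((2 * G - 1) ^ 2 - 1) ^ 2 := by
      apply pow_le_pow_left₀ (by positivity) h5
    nlinarith [sq_nonneg E]

/-- The boxes. -/
def Box (n : ℕ) : Set ℂ := {z : ℂ | lo n ≤ z.re ∧ z.re ≤ hi n ∧ 0 ≤ z.im ∧ z.im ≤ Real.pi / 2}

lemma Box_subset_Xs (n : ℕ) : Box n ⊆ Xs := by
  intro z hz
  refine ⟨hz.2.2.1, ?_⟩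
  rintro rfl
  have h1 := hz.1
  have h2 := one_le_lo n
  simp at h1
  linarith

lemma convex_Box (n : ℕ) : Convex ℝ (Box n) := by
  intro x hx y hy a b ha hb hab
  obtain ⟨h1, h2, h3, h4⟩ := hx
  obtain ⟨g1, g2, g3, g4⟩ := hy
  have e1 : (a • x + b • y).re = a * x.re + b * y.re := by
    simp
  have e2 : (a • x + b • y).im = a * x.im + b * y.im := by
    simp
  have hb' : b = 1 - a := by linarith
  subst hb'
  refine ⟨?_, ?_, ?_, ?_⟩
  · rw [e1]; nlinarith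
  · rw [e1]; nlinarith
  · rw [e2]; nlinarith
  · rw [e2]; nlinarith

lemma isCompact_Box (n : ℕ) : IsCompact (Box n) := by
  have h1 : IsClosed (Box n) := by
    have : Box n = {z : ℂ | lo n ≤ z.re} ∩ {z : ℂ | z.re ≤ hi n} ∩ {z : ℂ | 0 ≤ z.im}
        ∩ {z : ℂ | z.im ≤ Real.pi / 2} := by
      ext z
      simp only [Box, mem_ofPred_eq, mem_inter_iff]
      tauto
    rw [this]
    refine ((IsClosed.inter ?_ ?_).inter ?_).inter ?_
    · exact isClosed_le continuous_const Complex.continuous_re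
    · exact isClosed_le Complex.continuous_re continuous_const
    · exact isClosed_le continuous_const Complex.continuous_im
    · exact isClosed_le Complex.continuous_im continuous_const
  refine (isCompact_closedBall (0:ℂ) (hi n + Real.pi / 2)).of_isClosed_subset h1 ?_
  intro z hz
  rw [mem_closedBall_zero_iff]
  have h2 := Complex.norm_le_abs_re_add_abs_im z
  have h3 := one_le_lo n
  rw [abs_of_nonneg (by linarith [hz.1]), abs_of_nonneg hz.2.2.1] at h2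
  linarith [hz.2.1, hz.2.2.2]

/-- general estimate -/
lemma box_of_q {n : ℕ} {t q : ℂ} (ht : t ∈ Box (n + 1)) (hq1 : 0 ≤ q.re)
    (hq : ‖q ^ 2 - 1‖ ^ 2 = ‖t‖) : lg ((1 + q) / 2) ∈ Box n := by
  have hlo := one_le_lo n
  have hu_re : ((1 + q) / 2).re = (1 + q.re) / 2 := by simp
  have hune : (1 + q) / 2 ≠ 0 := ne_of_re_pos (by rw [hu_re]; linarith)
  have hupos : 0 < ‖(1 + q) / 2‖ := norm_pos_iff.mpr hune
  have hnorm : ‖(1 + q) / 2‖ = ‖1 + q‖ / 2 := by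
    rw [norm_div]; norm_num
  -- lower bound
  have htlo : lo (n + 1) ≤ ‖t‖ := ht.1.trans (Complex.re_le_norm t)
  have hthi : ‖t‖ ≤ hi (n + 1) + 2 := by
    have h2 := Complex.norm_le_abs_re_add_abs_im t
    rw [abs_of_nonneg (by linarith [ht.1, one_le_lo (n+1)]), abs_of_nonneg ht.2.2.1] at h2
    have := Real.pi_le_four
    linarith [ht.2.1, ht.2.2.2]
  have hlow : 4 * Real.exp (lo n) ^ 2 ≤ ‖q‖ ^ 2 := by
    have h1 : 1 + 4 * Real.exp (lo n) ^ 2 ≤ ‖q ^ 2 - 1‖ := by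
      have : (1 + 4 * Real.exp (lo n) ^ 2) ^ 2 ≤ ‖q ^ 2 - 1‖ ^ 2 := by
        rw [hq]; exact htlo
      exact le_of_sqs this (norm_nonneg _)
    have h2 : ‖q ^ 2 - 1‖ ≤ ‖q ^ 2‖ + ‖(1:ℂ)‖ := norm_sub_le _ _
    rw [norm_pow, norm_one] at h2
    linarith
  have hlow2 : 2 * Real.exp (lo n) ≤ ‖q‖ := by
    apply le_of_sqs _ (norm_nonneg _)
    calc (2 * Real.exp (lo n)) ^ 2 = 4 * Real.exp (lo n) ^ 2 := by ring
      _ ≤ _ := hlow
  have hq1q : ‖q‖ ≤ ‖1 + q‖ := by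
    apply le_of_sqs _ (norm_nonneg _)
    rw [Complex.sq_norm, Complex.sq_norm, Complex.normSq_apply, Complex.normSq_apply]
    simp only [Complex.add_re, Complex.one_re, Complex.add_im, Complex.one_im, zero_add]
    nlinarith
  have hhigh : ‖q‖ ^ 2 ≤ (2 * Real.exp (hi n) - 1) ^ 2 := by
    have hhi := lo_add_one_le_hi n
    have hE : 2 ≤ Real.exp (hi n) := by
      have := Real.add_one_le_exp (hi n)
      linarith
    have h1 : ‖q ^ 2 - 1‖ ≤ (2 * Real.exp (hi n) - 1) ^ 2 - 1 := by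
      have : ‖q ^ 2 - 1‖ ^ 2 ≤ ((2 * Real.exp (hi n) - 1) ^ 2 - 1) ^ 2 := by
        rw [hq]
        have : hi (n + 1) + 2 = ((2 * Real.exp (hi n) - 1) ^ 2 - 1) ^ 2 := by
          show ((2 * Real.exp (hi n) - 1) ^ 2 - 1) ^ 2 - 2 + 2 = _
          ring
        linarith
      exact le_of_sqs this (by nlinarith)
    have h2 : ‖q ^ 2‖ ≤ ‖q ^ 2 - 1‖ + ‖(1:ℂ)‖ := by
      have := norm_add_le (q ^ 2 - 1) 1
      simpa using this
    rw [norm_pow, norm_one] at h2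
    linarith
  have hhigh2 : ‖q‖ ≤ 2 * Real.exp (hi n) - 1 := by
    have hhi := lo_add_one_le_hi n
    have hE : 2 ≤ Real.exp (hi n) := by
      have := Real.add_one_le_exp (hi n)
      linarith
    exact le_of_sqs hhigh (by linarith)
  refine ⟨?_, ?_, lg_im_nonneg _, ?_⟩
  · show lo n ≤ Real.log ‖(1 + q) / 2‖
    rw [Real.le_log_iff_exp_le hupos, hnorm]
    linarith
  · show Real.log ‖(1 + q) / 2‖ ≤ hi n
    rw [Real.log_le_iff_le_exp hupos, hnorm]
    have := norm_add_le (1:ℂ) q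
    rw [norm_one] at this
    linarith
  · show Real.arccos _ ≤ _
    rw [Real.arccos_le_pi_div_two, hu_re]
    positivity

lemma al0_box {n : ℕ} {t : ℂ} (ht : t ∈ Box (n + 1)) : al0 t ∈ Box n := by
  apply box_of_q ht (sq_re_nonneg _)
  rw [sq_one_add]
  have : 1 + sq t - 1 = sq t := by ring
  rw [this, ← norm_pow, sq_mul_self, norm_fold]

lemma al1_box {n : ℕ} {t : ℂ} (ht : t ∈ Box (n + 1)) : al1 t ∈ Box n := by
  apply box_of_q ht (sq_re_nonneg _)
  rw [sq_one_sub]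
  have : 1 - (starRingEnd ℂ) (sq t) - 1 = -(starRingEnd ℂ) (sq t) := by ring
  rw [this, norm_neg, RCLike.norm_conj, ← norm_pow, sq_mul_self, norm_fold]

/-- The end point of the cross-cut at level `n`. -/
def ept (n : ℕ) : ℂ := al1 ((16 * Real.exp (lo n) ^ 4 : ℝ) : ℂ)

lemma ept_arg_mem_ray (n : ℕ) : ((16 * Real.exp (lo n) ^ 4 : ℝ) : ℂ) ∈ ray := by
  have h := one_le_lo n
  have hE : 1 ≤ Real.exp (lo n) := by
    have := Real.add_one_le_exp (lo n)
    linarith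
  have : 1 ≤ Real.exp (lo n) ^ 4 := one_le_pow₀ hE
  refine ⟨?_, Complex.ofReal_im _⟩
  rw [Complex.ofReal_re]
  linarith

lemma ept_mem_box (n : ℕ) : ept n ∈ Box n ∧ (ept n).re = lo n := by
  have h := one_le_lo n
  have hE : 2 ≤ Real.exp (lo n) := by
    have := Real.add_one_le_exp (lo n)
    linarith
  set E := Real.exp (lo n) with hEdef
  have h1 : sq ((16 * E ^ 4 : ℝ) : ℂ) = ((4 * E ^ 2 : ℝ) : ℂ) := by
    rw [sq_ofReal_nonneg (by positivity)]
    congr 1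
    rw [show (16 * E ^ 4 : ℝ) = (4 * E ^ 2) ^ 2 by ring, Real.sqrt_sq (by positivity)]
  have h2 : 1 - (starRingEnd ℂ) (sq ((16 * E ^ 4 : ℝ) : ℂ)) = ((1 - 4 * E ^ 2 : ℝ) : ℂ) := by
    rw [h1, Complex.conj_ofReal]; push_cast; ring
  have h3 : (1 - 4 * E ^ 2 : ℝ) ≤ 0 := by nlinarith
  have h4 : sq (1 - (starRingEnd ℂ) (sq ((16 * E ^ 4 : ℝ) : ℂ)))
      = ((√(4 * E ^ 2 - 1) : ℝ) : ℂ) * Complex.I := by
    rw [h2, sq_ofReal_nonpos h3]
    congr 3
    ring
  have hre : (ept n).re = lo n := by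
    rw [ept, al1, ← hEdef, h4]
    show Real.log ‖_‖ = _
    have h5 : ‖(1 + ((√(4 * E ^ 2 - 1) : ℝ) : ℂ) * Complex.I) / 2‖ = E := by
      have h6 : ‖(1 + ((√(4 * E ^ 2 - 1) : ℝ) : ℂ) * Complex.I) / 2‖ ^ 2 = E ^ 2 := by
        rw [Complex.sq_norm, Complex.normSq_apply]
        have h7 := Real.mul_self_sqrt (show 0 ≤ 4 * E ^ 2 - 1 by nlinarith)
        simp only [Complex.div_ofNat_re, Complex.add_re, Complex.one_re, Complex.mul_re,
          Complex.ofReal_re, Complex.I_re, mul_zero, Complex.ofReal_im, Complex.I_im, mul_one,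
          sub_self, add_zero, Complex.div_ofNat_im, Complex.add_im, Complex.one_im,
          Complex.mul_im, zero_add]
        nlinarith
      have h8 : 0 ≤ ‖(1 + ((√(4 * E ^ 2 - 1) : ℝ) : ℂ) * Complex.I) / 2‖ := norm_nonneg _
      exact (pow_left_inj₀ h8 (by linarith) (by norm_num)).mp h6
    rw [h5, hEdef, Real.log_exp]
  refine ⟨⟨hre.ge, ?_, lg_im_nonneg _, ?_⟩, hre⟩
  · rw [hre]; linarith [lo_add_one_le_hi n]
  · show Real.arccos _ ≤ _
    rw [Real.arccos_le_pi_div_two]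
    have := u1_re ((16 * E ^ 4 : ℝ) : ℂ)
    have h0 : 0 ≤ ((1 + sq (1 - (starRingEnd ℂ) (sq ((16 * E ^ 4 : ℝ) : ℂ)))) / 2).re := by
      linarith
    exact div_nonneg h0 (norm_nonneg _)

lemma lo_mem_box (n : ℕ) : ((lo n : ℝ) : ℂ) ∈ Box n := by
  refine ⟨by simp, ?_, by simp, ?_⟩
  · rw [Complex.ofReal_re]; linarith [lo_add_one_le_hi n]
  · rw [Complex.ofReal_im]; positivity

lemma lo_mem_ray (n : ℕ) : ((lo n : ℝ) : ℂ) ∈ ray :=
  ⟨by simpa using one_le_lo n, by simp⟩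

/-- The connected set joining `1` to the critical point at level `n`. -/
def Cut (n : ℕ) : Set ℂ := (ray ∪ segment ℝ ((lo n : ℝ) : ℂ) (ept n)) ∪ al1 '' ray

lemma isPreconnected_al1_ray : IsPreconnected (al1 '' ray) :=
  isPreconnected_ray.image _ (good_al1.cont.mono ray_subset_Xs)

lemma isPreconnected_Cut (n : ℕ) : IsPreconnected (Cut n) := by
  have h1 : IsPreconnected (segment ℝ ((lo n : ℝ) : ℂ) (ept n)) :=
    (convex_segment _ _).isPreconnected
  have h2 : IsPreconnected (ray ∪ segment ℝ ((lo n : ℝ) : ℂ) (ept n)) :=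
    IsPreconnected.union ((lo n : ℝ) : ℂ) (lo_mem_ray n) (left_mem_segment _ _ _)
      isPreconnected_ray h1
  refine IsPreconnected.union (ept n) (Or.inr (right_mem_segment _ _ _)) ?_ h2
    isPreconnected_al1_ray
  exact ⟨_, ept_arg_mem_ray n, rfl⟩

lemma segment_subset_box (n : ℕ) : segment ℝ ((lo n : ℝ) : ℂ) (ept n) ⊆ Box n :=
  (convex_Box n).segment_subset (lo_mem_box n) (ept_mem_box n).1

lemma Cut_subset_Xs (n : ℕ) : Cut n ⊆ Xs := by
  rintro z ((h | h) | h)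
  · exact ray_subset_Xs h
  · exact Box_subset_Xs n (segment_subset_box n h)
  · obtain ⟨w, hw, rfl⟩ := h
    exact good_al1.maps (ray_subset_Xs hw)

lemma one_mem_Cut (n : ℕ) : (1:ℂ) ∈ Cut n := Or.inl (Or.inl one_mem_ray)
lemma cpt_mem_Cut (n : ℕ) : cpt ∈ Cut n := Or.inr ⟨1, one_mem_ray, al1_one⟩

end

end Pool.Agent.H218R3
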