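import Pool.Agent.H218R3.Basic

set_option autoImplicit false
open Filter Topology Set

namespace Pool.Agent.H218R3

noncomputable section

/-- The punctured closed upper half-plane. -/
def Xs : Set ℂ := {z : ℂ | 0 ≤ z.im ∧ z ≠ 0}

def al0 (w : ℂ) : ℂ := lg ((1 + sq (1 + sq w)) / 2)
def al1 (w : ℂ) : ℂ := lg ((1 + sq (1 - (starRingEnd ℂ) (sq w))) / 2)
def al2 (w : ℂ) : ℂ := lg ((1 - (starRingEnd ℂ) (sq (1 - (starRingEnd ℂ) (sq w)))) / 2)
def al3 (w : ℂ) : ℂ := lg ((1 - (starRingEnd ℂ) (sq (1 + sq w))) / 2)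

/-- Good maps. -/
structure Good (ψ : ℂ → ℂ) : Prop where
  cont : ContinuousOn ψ Xs
  maps : MapsTo ψ Xs Xs
  esc : ∀ w ∈ Xs, ψ w ∈ Esc ↔ w ∈ Esc

lemma Good.comp {ψ φ : ℂ → ℂ} (h1 : Good ψ) (h2 : Good φ) : Good (ψ ∘ φ) where
  cont := h1.cont.comp h2.cont h2.maps
  maps := h1.maps.comp h2.maps
  esc := fun w hw => (h1.esc _ (h2.maps hw)).trans (h2.esc w hw)

lemma Good.id : Good (fun z => z) where
  cont := continuousOn_id
  maps := fun _ h => h
  esc := fun _ _ => Iff.rfl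

lemma good_translate : Good (fun z => z + 2 * Real.pi * Complex.I) where
  cont := by fun_prop
  maps := by
    intro z hz
    have him : (z + 2 * Real.pi * Complex.I).im = z.im + 2 * Real.pi := by simp
    refine ⟨by rw [him]; linarith [hz.1, Real.pi_pos], ?_⟩
    intro h
    have h' : z + 2 * Real.pi * Complex.I = 0 := h
    rw [h'] at him
    simp at him
    linarith [hz.1, Real.pi_pos]
  esc := by
    intro w _
    rw [← F_mem_Esc, F_add_period, F_mem_Esc]

/-- Key algebra: `p = q ^ 2 - 1`. -/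
lemma F_lg {u : ℂ} (hu : u ≠ 0) (him : 0 ≤ u.im) : F (lg u) = ((2 * u - 1) ^ 2 - 1) ^ 2 := by
  rw [F, exp_lg hu, fold_of_im_nonneg him]

lemma one_add_sq_im (w : ℂ) : 0 ≤ (1 + sq w).im := by
  simpa using sq_im_nonneg w

lemma one_sub_conj_sq_im (w : ℂ) : 0 ≤ (1 - (starRingEnd ℂ) (sq w)).im := by
  simpa using sq_im_nonneg w

lemma sq_one_add (w : ℂ) : sq (1 + sq w) ^ 2 = 1 + sq w := by
  rw [sq_mul_self, fold_of_im_nonneg (one_add_sq_im w)]

lemma sq_one_sub (w : ℂ) :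
    sq (1 - (starRingEnd ℂ) (sq w)) ^ 2 = 1 - (starRingEnd ℂ) (sq w) := by
  rw [sq_mul_self, fold_of_im_nonneg (one_sub_conj_sq_im w)]

lemma ne_of_re_pos {u : ℂ} (h : 0 < u.re) : u ≠ 0 := by
  rintro rfl
  simp at h

lemma u0_re (w : ℂ) : 1 / 2 ≤ ((1 + sq (1 + sq w)) / 2).re := by
  have := sq_re_nonneg (1 + sq w)
  simp; linarith
lemma u1_re (w : ℂ) : 1 / 2 ≤ ((1 + sq (1 - (starRingEnd ℂ) (sq w))) / 2).re := by
  have := sq_re_nonneg (1 - (starRingEnd ℂ) (sq w))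
  simp; linarith
lemma u0_im (w : ℂ) : 0 ≤ ((1 + sq (1 + sq w)) / 2).im := by
  have := sq_im_nonneg (1 + sq w)
  simp; linarith
lemma u1_im (w : ℂ) : 0 ≤ ((1 + sq (1 - (starRingEnd ℂ) (sq w))) / 2).im := by
  have := sq_im_nonneg (1 - (starRingEnd ℂ) (sq w))
  simp; linarith
lemma u2_im (w : ℂ) :
    0 ≤ ((1 - (starRingEnd ℂ) (sq (1 - (starRingEnd ℂ) (sq w)))) / 2).im := by
  have := sq_im_nonneg (1 - (starRingEnd ℂ) (sq w))
  simp; linarith
lemma u3_im (w : ℂ) : 0 ≤ ((1 - (starRingEnd ℂ) (sq (1 + sq w))) / 2).im := by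
  have := sq_im_nonneg (1 + sq w)
  simp; linarith

lemma u0_ne (w : ℂ) : (1 + sq (1 + sq w)) / 2 ≠ 0 :=
  ne_of_re_pos (by linarith [u0_re w])
lemma u1_ne (w : ℂ) : (1 + sq (1 - (starRingEnd ℂ) (sq w))) / 2 ≠ 0 :=
  ne_of_re_pos (by linarith [u1_re w])

lemma u2_ne {w : ℂ} (hw : w ≠ 0) :
    (1 - (starRingEnd ℂ) (sq (1 - (starRingEnd ℂ) (sq w)))) / 2 ≠ 0 := by
  intro h
  have h1 : (starRingEnd ℂ) (sq (1 - (starRingEnd ℂ) (sq w))) = 1 := by
    have : 1 - (starRingEnd ℂ) (sq (1 - (starRingEnd ℂ) (sq w))) = 0 := by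
      rcases div_eq_zero_iff.mp h with h | h
      · exact h
      · norm_num at h
    linear_combination -this
  have h2 : sq (1 - (starRingEnd ℂ) (sq w)) = 1 := by
    have := congrArg (starRingEnd ℂ) h1
    simpa using this
  have h3 := sq_one_sub w
  rw [h2] at h3
  have h4 : (starRingEnd ℂ) (sq w) = 0 := by linear_combination h3
  have h5 : sq w = 0 := by simpa using h4
  exact hw (sq_eq_zero h5)

lemma u3_ne {w : ℂ} (hw : w ≠ 0) : (1 - (starRingEnd ℂ) (sq (1 + sq w))) / 2 ≠ 0 := by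
  intro h
  have h1 : (starRingEnd ℂ) (sq (1 + sq w)) = 1 := by
    have : 1 - (starRingEnd ℂ) (sq (1 + sq w)) = 0 := by
      rcases div_eq_zero_iff.mp h with h | h
      · exact h
      · norm_num at h
    linear_combination -this
  have h2 : sq (1 + sq w) = 1 := by
    have := congrArg (starRingEnd ℂ) h1
    simpa using this
  have h3 := sq_one_add w
  rw [h2] at h3
  have h4 : sq w = 0 := by linear_combination -h3
  exact hw (sq_eq_zero h4)

lemma F_al0 {w : ℂ} (hw : w ∈ Xs) : F (al0 w) = w := by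
  rw [al0, F_lg (u0_ne w) (u0_im w)]
  have h : 2 * ((1 + sq (1 + sq w)) / 2) - 1 = sq (1 + sq w) := by ring
  rw [h, sq_one_add]
  have : (1 + sq w - 1) ^ 2 = sq w ^ 2 := by ring
  rw [this, sq_mul_self, fold_of_im_nonneg hw.1]

lemma F_al1 {w : ℂ} (hw : w ∈ Xs) : F (al1 w) = (starRingEnd ℂ) w := by
  rw [al1, F_lg (u1_ne w) (u1_im w)]
  have h : 2 * ((1 + sq (1 - (starRingEnd ℂ) (sq w))) / 2) - 1
      = sq (1 - (starRingEnd ℂ) (sq w)) := by ring
  rw [h, sq_one_sub]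
  have : (1 - (starRingEnd ℂ) (sq w) - 1) ^ 2 = (starRingEnd ℂ) (sq w ^ 2) := by
    rw [map_pow]; ring
  rw [this, sq_mul_self, fold_of_im_nonneg hw.1]

lemma F_al2 {w : ℂ} (hw : w ∈ Xs) : F (al2 w) = w := by
  rw [al2, F_lg (u2_ne hw.2) (u2_im w)]
  have h : (2 * ((1 - (starRingEnd ℂ) (sq (1 - (starRingEnd ℂ) (sq w)))) / 2) - 1) ^ 2
      = (starRingEnd ℂ) (sq (1 - (starRingEnd ℂ) (sq w)) ^ 2) := by
    rw [map_pow]; ring
  rw [h, sq_one_sub]
  have : ((starRingEnd ℂ) (1 - (starRingEnd ℂ) (sq w)) - 1) ^ 2 = sq w ^ 2 := by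
    simp
  rw [this, sq_mul_self, fold_of_im_nonneg hw.1]

lemma F_al3 {w : ℂ} (hw : w ∈ Xs) : F (al3 w) = (starRingEnd ℂ) w := by
  rw [al3, F_lg (u3_ne hw.2) (u3_im w)]
  have h : (2 * ((1 - (starRingEnd ℂ) (sq (1 + sq w))) / 2) - 1) ^ 2
      = (starRingEnd ℂ) (sq (1 + sq w) ^ 2) := by
    rw [map_pow]; ring
  rw [h, sq_one_add]
  have : ((starRingEnd ℂ) (1 + sq w) - 1) ^ 2 = (starRingEnd ℂ) (sq w ^ 2) := by
    simp
  rw [this, sq_mul_self, fold_of_im_nonneg hw.1]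

lemma good_of_inverse {φ : ℂ → ℂ} (hc : ContinuousOn φ Xs) (him : ∀ w ∈ Xs, 0 ≤ (φ w).im)
    (hF : ∀ w ∈ Xs, F (φ w) = w ∨ F (φ w) = (starRingEnd ℂ) w) : Good φ where
  cont := hc
  maps := by
    intro w hw
    refine ⟨him w hw, ?_⟩
    intro h
    have h1 := hF w hw
    rw [h, F_zero] at h1
    rcases h1 with h1 | h1
    · exact hw.2 h1.symm
    · have : w = 0 := by simpa using h1.symm
      exact hw.2 this
  esc := by
    intro w hw
    rw [← F_mem_Esc]
    rcases hF w hw with h | h <;> rw [h]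
    exact conj_mem_Esc

lemma continuousOn_lg_comp {g : ℂ → ℂ} (hg : Continuous g) (h : ∀ w ∈ Xs, g w ≠ 0) :
    ContinuousOn (fun w => lg (g w)) Xs := by
  intro w hw
  exact (ContinuousAt.comp (continuousAt_lg (h w hw)) hg.continuousAt).continuousWithinAt

lemma good_al0 : Good al0 := by
  refine good_of_inverse ?_ (fun w _ => lg_im_nonneg _) (fun w hw => Or.inl (F_al0 hw))
  refine continuousOn_lg_comp ?_ (fun w _ => u0_ne w)
  have := continuous_sq
  fun_prop

lemma good_al1 : Good al1 := by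
  refine good_of_inverse ?_ (fun w _ => lg_im_nonneg _) (fun w hw => Or.inr (F_al1 hw))
  refine continuousOn_lg_comp ?_ (fun w _ => u1_ne w)
  have := continuous_sq
  have h2 := Complex.continuous_conj
  have h3 : Continuous (fun w => 1 - (starRingEnd ℂ) (sq w)) := continuous_const.sub (h2.comp this)
  exact (continuous_const.add (this.comp h3)).div_const _

lemma good_al2 : Good al2 := by
  refine good_of_inverse ?_ (fun w _ => lg_im_nonneg _) (fun w hw => Or.inl (F_al2 hw))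
  refine continuousOn_lg_comp ?_ (fun w hw => u2_ne hw.2)
  have := continuous_sq
  have h2 := Complex.continuous_conj
  have h3 : Continuous (fun w => 1 - (starRingEnd ℂ) (sq w)) := continuous_const.sub (h2.comp this)
  exact (continuous_const.sub (h2.comp (this.comp h3))).div_const _

lemma good_al3 : Good al3 := by
  refine good_of_inverse ?_ (fun w _ => lg_im_nonneg _) (fun w hw => Or.inr (F_al3 hw))
  refine continuousOn_lg_comp ?_ (fun w hw => u3_ne hw.2)
  have := continuous_sq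
  have h2 := Complex.continuous_conj
  have h3 : Continuous (fun w => 1 + sq w) := continuous_const.add this
  exact (continuous_const.sub (h2.comp (this.comp h3))).div_const _

/-- reflection of a branch. -/
def refl (φ : ℂ → ℂ) (w : ℂ) : ℂ := (starRingEnd ℂ) (φ w) + 2 * Real.pi * Complex.I

lemma F_refl (φ : ℂ → ℂ) (w : ℂ) : F (refl φ w) = (starRingEnd ℂ) (F (φ w)) := by
  rw [refl, F_add_period, F_conj]

lemma good_refl {φ : ℂ → ℂ} (hφ : Good φ) (hpi : ∀ w ∈ Xs, (φ w).im ≤ Real.pi) :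
    Good (refl φ) where
  cont := by
    have h2 := Complex.continuous_conj
    exact (h2.comp_continuousOn hφ.cont).add continuousOn_const
  maps := by
    intro w hw
    have him : (refl φ w).im = 2 * Real.pi - (φ w).im := by simp [refl]; ring
    have h1 := hpi w hw
    have h2 := (hφ.maps hw).1
    refine ⟨by rw [him]; linarith [Real.pi_pos], ?_⟩
    intro h
    rw [h] at him
    simp at him
    linarith [Real.pi_pos]
  esc := by
    intro w hw
    rw [← F_mem_Esc, F_refl, conj_mem_Esc, F_mem_Esc]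
    exact hφ.esc w hw

/-- the point `-log 2`, a critical point. -/
def cpt : ℂ := ((-Real.log 2 : ℝ) : ℂ)

lemma cpt_re : cpt.re = -Real.log 2 := Complex.ofReal_re _
lemma cpt_im : cpt.im = 0 := Complex.ofReal_im _

lemma cpt_mem_Xs : cpt ∈ Xs := by
  refine ⟨cpt_im.ge, ?_⟩
  intro h
  have : (cpt).re = 0 := by rw [h]; simp
  rw [cpt_re] at this
  have := Real.log_pos (show (1:ℝ) < 2 by norm_num)
  linarith
  
lemma one_mem_Xs : (1 : ℂ) ∈ Xs := by
  refine ⟨by simp, by simp⟩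

lemma sq_ofReal_nonneg {x : ℝ} (hx : 0 ≤ x) : sq (x : ℂ) = ((√x : ℝ) : ℂ) := by
  apply Complex.ext
  · simp [sq, abs_of_nonneg hx]
  · simp [sq, abs_of_nonneg hx]

lemma sq_ofReal_nonpos {x : ℝ} (hx : x ≤ 0) : sq (x : ℂ) = ((√(-x) : ℝ) : ℂ) * Complex.I := by
  apply Complex.ext
  · simp [sq, abs_of_nonpos hx]
  · simp only [sq, Complex.norm_real, Real.norm_eq_abs, abs_of_nonpos hx, Complex.ofReal_re]
    rw [show (-x - x) / 2 = -x by ring]
    simp

lemma ray_subset_Xs : ray ⊆ Xs := by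
  intro z hz
  refine ⟨hz.2.ge, ?_⟩
  rintro rfl
  have := hz.1
  simp at this
  linarith

/-- on the negative axis the adjacent branches agree -/
lemma al0_cpt : al0 cpt = al1 cpt := by
  have h : sq cpt = ((√(-(-Real.log 2)) : ℝ) : ℂ) * Complex.I :=
    sq_ofReal_nonpos (by have := Real.log_pos (show (1:ℝ) < 2 by norm_num); linarith)
  have h2 : 1 - (starRingEnd ℂ) (sq cpt) = 1 + sq cpt := by
    rw [h]; simp
  rw [al0, al1, h2]

lemma al2_cpt : al2 cpt = al3 cpt := by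
  have h : sq cpt = ((√(-(-Real.log 2)) : ℝ) : ℂ) * Complex.I :=
    sq_ofReal_nonpos (by have := Real.log_pos (show (1:ℝ) < 2 by norm_num); linarith)
  have h2 : 1 - (starRingEnd ℂ) (sq cpt) = 1 + sq cpt := by
    rw [h]; simp
  rw [al2, al3, h2]

lemma sq_one : sq 1 = 1 := by
  have := sq_ofReal_nonneg (show (0:ℝ) ≤ 1 by norm_num)
  simpa using this

lemma sq_zero : sq 0 = 0 := by
  have := sq_ofReal_nonneg (show (0:ℝ) ≤ 0 by norm_num)
  simpa using this

lemma lg_half : lg ((1 : ℂ) / 2) = cpt := by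
  apply Complex.ext
  · rw [cpt_re]
    simp [lg]
  · rw [cpt_im]
    simp [lg]

lemma al1_one : al1 1 = cpt := by
  rw [al1, sq_one]
  simp only [map_one, sub_self, sq_zero, add_zero]
  exact lg_half

lemma al2_one : al2 1 = cpt := by
  rw [al2, sq_one]
  simp only [map_one, sub_self, sq_zero, sub_zero, map_zero]
  exact lg_half

lemma cpt_mem_Esc : cpt ∈ Esc := by
  rw [← al1_one]
  exact (good_al1.esc 1 one_mem_Xs).mpr (ray_subset_Esc one_mem_ray)

/-- `al3 1` lies on the line `Im = π`. -/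
lemma al3_one_im : (al3 1).im = Real.pi := by
  rw [al3, sq_one]
  have h := sq_ofReal_nonneg (show (0:ℝ) ≤ 2 by norm_num)
  have h1 : sq (1 + 1) = ((√2 : ℝ) : ℂ) := by
    rw [← h]; norm_num
  rw [h1]
  have h2 : (1 - (starRingEnd ℂ) ((√2 : ℝ) : ℂ)) / 2 = (((1 - √2) / 2 : ℝ) : ℂ) := by
    rw [Complex.conj_ofReal]; push_cast; ring
  rw [h2]
  have h3 : (1 - √2) / 2 < 0 := by
    have : 1 < √2 := by
      rw [Real.lt_sqrt (by norm_num)]; norm_num
    linarith
  simp only [lg, Complex.norm_real, Real.norm_eq_abs, Complex.ofReal_re]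
  rw [abs_of_neg h3, div_neg, div_self h3.ne, Real.arccos_neg_one]

/-- `al0 (F 1) = 1`. -/
lemma al0_F_one : al0 (F 1) = 1 := by
  have hE : (1:ℝ) + 1 ≤ Real.exp 1 := Real.add_one_le_exp 1
  have hF : F 1 = ((((2 * Real.exp 1 - 1) ^ 2 - 1) ^ 2 : ℝ) : ℂ) := by
    have := F_ofReal 1
    simpa [Fr] using this
  have h1 : 0 ≤ (2 * Real.exp 1 - 1) ^ 2 - 1 := by nlinarith
  have h2 : sq (F 1) = (((2 * Real.exp 1 - 1) ^ 2 - 1 : ℝ) : ℂ) := by
    rw [hF, sq_ofReal_nonneg (by positivity), Real.sqrt_sq h1]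
  have h3 : sq (1 + sq (F 1)) = ((2 * Real.exp 1 - 1 : ℝ) : ℂ) := by
    have : 1 + sq (F 1) = (((2 * Real.exp 1 - 1) ^ 2 : ℝ) : ℂ) := by
      rw [h2]; push_cast; ring
    rw [this, sq_ofReal_nonneg (by positivity), Real.sqrt_sq (by linarith)]
  rw [al0, h3]
  have h4 : (1 + ((2 * Real.exp 1 - 1 : ℝ) : ℂ)) / 2 = Complex.exp 1 := by
    push_cast; ring
  rw [h4]
  exact lg_exp (by simp) (by simpa using Real.pi_pos.le)

lemma F_one_mem_ray : F 1 ∈ ray := (F_ray one_mem_ray).1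

end

end Pool.Agent.H218R3
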