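import Pool.Agent.H487R3.Cau.Stmts

set_option autoImplicit false

/-! Task `TaskCover` of the project on the Cauchy integral on rectifiable curves. -/

namespace Pool.Agent.H218R3.CauCover

open MeasureTheory Filter Set Topology Pool.Agent.H487R3.Cau

/-- the good set with parameters `u`, `ρ`, `m`, `q` -/
def EE (L : ℝ) (γ : ℝ → ℂ) (u : ℂ) (ρ m : ℝ) (q : ℕ) : Set ℝ :=
  {t | t ∈ Icc (0 : ℝ) L ∧ t ∈ Icc ((q : ℝ) * (ρ / 2)) (((q : ℝ) + 1) * (ρ / 2)) ∧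
    m ≤ ‖γ t - γ L‖ ∧ ∀ s ∈ Icc (0 : ℝ) L, |s - t| < ρ →
      ‖γ s - γ t - u * ((s : ℂ) - t)‖ ≤ |s - t| / 20}

lemma EE_closed (L : ℝ) (γ : ℝ → ℂ) (hγ : Continuous γ) (u : ℂ) (ρ m : ℝ) (q : ℕ) :
    IsClosed (EE L γ u ρ m q) := by
  have h1 : EE L γ u ρ m q = Icc (0 : ℝ) L ∩ (Icc ((q : ℝ) * (ρ / 2)) (((q : ℝ) + 1) * (ρ / 2)) ∩
      ({t | m ≤ ‖γ t - γ L‖} ∩ ⋂ s ∈ Icc (0 : ℝ) L, ({t | ρ ≤ |s - t|} ∪
        {t | ‖γ s - γ t - u * ((s : ℂ) - t)‖ ≤ |s - t| / 20}))) := by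
    ext t
    simp only [EE, mem_ofPred_eq, mem_inter_iff, mem_iInter, mem_union]
    refine and_congr_right fun _ => and_congr_right fun _ => and_congr_right fun _ => ?_
    refine forall_congr' fun s => forall_congr' fun _ => ?_
    constructor
    · intro h
      by_cases h2 : |s - t| < ρ
      · exact Or.inr (h h2)
      · exact Or.inl (not_lt.1 h2)
    · rintro (h | h) h2
      · exact absurd h2 (not_lt.2 h)
      · exact h
  rw [h1]
  refine isClosed_Icc.inter (isClosed_Icc.inter (IsClosed.inter ?_ ?_))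
  · exact isClosed_le continuous_const (by fun_prop)
  · refine isClosed_biInter fun s _ => IsClosed.union ?_ ?_
    · exact isClosed_le continuous_const (by fun_prop)
    · exact isClosed_le (by fun_prop) (by fun_prop)

lemma good (L : ℝ) (γ : ℝ → ℂ) (hγ : LipschitzWith 1 γ) (hinj : Set.InjOn γ (Ico (0 : ℝ) L))
    (u : ℂ) (hu : ‖u‖ = 1) (ρ m : ℝ) (hρ : 0 < ρ) (hρ8 : ρ ≤ 1 / 8) (hm : 0 < m) (q : ℕ) :
    ∃ κ : ℝ, Good L γ (EE L γ u ρ m q) u ρ κ := by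
  have hcl := EE_closed L γ hγ.continuous u ρ m q
  have hK : IsCompact {x : ℝ × ℝ | x ∈ Icc (0 : ℝ) L ×ˢ Icc (0 : ℝ) L ∧
      x.2 ∈ EE L γ u ρ m q ∧ ρ ≤ |x.1 - x.2|} := by
    refine (isCompact_Icc.prod isCompact_Icc).of_isClosed_subset ?_ (fun x hx => hx.1)
    refine IsClosed.inter (isClosed_Icc.prod isClosed_Icc) (IsClosed.inter
      (hcl.preimage continuous_snd) ?_)
    have h1 : Continuous (fun x : ℝ × ℝ => |x.1 - x.2|) := by fun_prop
    exact isClosed_le continuous_const h1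
  have hcont : ContinuousOn (fun x : ℝ × ℝ => ‖γ x.1 - γ x.2‖)
      {x : ℝ × ℝ | x ∈ Icc (0 : ℝ) L ×ˢ Icc (0 : ℝ) L ∧
      x.2 ∈ EE L γ u ρ m q ∧ ρ ≤ |x.1 - x.2|} := by
    have hc := hγ.continuous
    have h1 : Continuous (fun x : ℝ × ℝ => ‖γ x.1 - γ x.2‖) := by fun_prop
    exact h1.continuousOn
  obtain ⟨κ, hκ, hκ2⟩ := hK.exists_forall_le' hcont (a := 0) (by
    rintro ⟨s, t⟩ ⟨⟨hs, ht⟩, hE, hst⟩
    simp only at hs ht hE hst ⊢
    rw [norm_pos_iff, sub_ne_zero]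
    intro he
    obtain ⟨-, -, h3, -⟩ := hE
    have htL : t ≠ L := by
      rintro rfl
      rw [sub_self, norm_zero] at h3
      linarith
    have htI : t ∈ Ico (0 : ℝ) L := ⟨ht.1, lt_of_le_of_ne ht.2 htL⟩
    by_cases hsL : s = L
    · rw [hsL] at he
      rw [he, sub_self, norm_zero] at h3
      linarith
    · have hsI : s ∈ Ico (0 : ℝ) L := ⟨hs.1, lt_of_le_of_ne hs.2 hsL⟩
      have := hinj hsI htI he
      rw [this, sub_self, abs_zero] at hst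
      linarith)
  refine ⟨κ, hcl, fun t ht => ht.1, hu, hρ, hρ8, hκ, ?_, fun t ht => ht.2.2.2, ?_⟩
  · rintro s ⟨-, hs, -⟩ t ⟨-, ht, -⟩
    rw [abs_lt]
    constructor
    · have h1 := hs.1; have h2 := ht.2; nlinarith
    · have h1 := hs.2; have h2 := ht.1; nlinarith
  · intro t ht s hs hst
    exact hκ2 (s, t) ⟨⟨hs, ht.1⟩, ht, hst⟩

theorem taskCover : TaskCover := by
  classical
  intro L hL γ hγ hder hinj
  obtain ⟨D, hDc, hDd⟩ := TopologicalSpace.exists_countable_dense (Metric.sphere (0 : ℂ) 1)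
  have hDne : D.Nonempty := hDd.nonempty
  obtain ⟨d, hd⟩ := hDc.exists_eq_range hDne
  have hι : ∀ i : ℕ × ℕ × ℕ × ℕ, ∃ κ : ℝ, Good L γ
      (EE L γ (d i.1 : ℂ) (1 / ((i.2.1 : ℝ) + 8)) (1 / ((i.2.2.1 : ℝ) + 1)) i.2.2.2) (d i.1 : ℂ)
        (1 / ((i.2.1 : ℝ) + 8)) κ := by
    intro i
    refine good L γ hγ hinj _ ?_ _ _ (by positivity) ?_ (by positivity) _
    · have := (d i.1).2
      rwa [mem_sphere_zero_iff_norm] at this
    · refine one_div_le_one_div_of_le (by norm_num) ?_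
      have : (0 : ℝ) ≤ (i.2.1 : ℝ) := Nat.cast_nonneg _
      linarith
  choose κ hκ using hι
  let e := (Denumerable.eqv (ℕ × ℕ × ℕ × ℕ)).symm
  refine ⟨fun n => EE L γ (d (e n).1 : ℂ) (1 / (((e n).2.1 : ℝ) + 8))
    (1 / (((e n).2.2.1 : ℝ) + 1)) (e n).2.2.2, fun n => (d (e n).1 : ℂ),
    fun n => 1 / (((e n).2.1 : ℝ) + 8), fun n => κ (e n), fun n => hκ (e n), ?_⟩
  have hnull : volume {t : ℝ | t ∈ Ico (0 : ℝ) L ∧ γ t = γ L} = 0 := by
    refine Set.Subsingleton.measure_zero ?_ _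
    rintro s ⟨hs, hs2⟩ t ⟨ht, ht2⟩
    exact hinj hs ht (hs2.trans ht2.symm)
  have h1 : ∀ᵐ t ∂(volume.restrict (Icc (0 : ℝ) L)),
      t ∉ {t : ℝ | t ∈ Ico (0 : ℝ) L ∧ γ t = γ L} :=
    ae_restrict_of_ae (measure_eq_zero_iff_ae_notMem.1 hnull)
  have h2 : ∀ᵐ t ∂(volume.restrict (Icc (0 : ℝ) L)), t ≠ L := by
    refine ae_restrict_of_ae ?_
    have : volume ({L} : Set ℝ) = 0 := measure_singleton _
    exact measure_eq_zero_iff_ae_notMem.1 this
  have h3 : ∀ᵐ t ∂(volume.restrict (Icc (0 : ℝ) L)), t ∈ Icc (0 : ℝ) L :=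
    ae_restrict_mem measurableSet_Icc
  filter_upwards [hder, h1, h2, h3] with t hdt h1t h2t h3t
  have hne : γ t ≠ γ L := fun h => h1t ⟨⟨h3t.1, lt_of_le_of_ne h3t.2 h2t⟩, h⟩
  have hpos : 0 < ‖γ t - γ L‖ := norm_pos_iff.2 (sub_ne_zero.2 hne)
  obtain ⟨k, hk⟩ := exists_nat_one_div_lt hpos
  -- direction
  have hvS : deriv γ t ∈ Metric.sphere (0 : ℂ) 1 := by
    rw [mem_sphere_zero_iff_norm]; exact hdt
  obtain ⟨x, hx, hxd⟩ := hDd.exists_dist_lt (⟨deriv γ t, hvS⟩ : Metric.sphere (0 : ℂ) 1)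
    (show (0 : ℝ) < 1 / 40 by norm_num)
  rw [hd] at hx
  obtain ⟨j, rfl⟩ := hx
  have hxd' : ‖deriv γ t - (d j : ℂ)‖ < 1 / 40 := by
    rw [← dist_eq_norm]; exact hxd
  -- differentiability
  have hdiff : DifferentiableAt ℝ γ t := by
    by_contra h
    rw [deriv_zero_of_not_differentiableAt h, norm_zero] at hdt
    exact zero_ne_one hdt
  have ho := hdiff.hasDerivAt.isLittleO
  have ho2 := ho.def (show (0 : ℝ) < 1 / 40 by norm_num)
  obtain ⟨δ, hδ, hδ2⟩ := Metric.eventually_nhds_iff.1 ho2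
  obtain ⟨n, hn⟩ := exists_nat_one_div_lt hδ
  have hn8 : 1 / ((n : ℝ) + 8) < δ := by
    refine lt_of_le_of_lt ?_ hn
    exact one_div_le_one_div_of_le (by positivity) (by linarith)
  set ρ : ℝ := 1 / ((n : ℝ) + 8) with hρ
  have hρpos : 0 < ρ := by positivity
  refine ⟨Denumerable.eqv (ℕ × ℕ × ℕ × ℕ) (j, n, k, ⌊t / (ρ / 2)⌋₊), ?_⟩
  simp only [e, Equiv.symm_apply_apply]
  refine ⟨h3t, ⟨?_, ?_⟩, hk.le, ?_⟩
  · have := Nat.floor_le (show 0 ≤ t / (ρ / 2) from div_nonneg h3t.1 (by positivity))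
    rwa [le_div_iff₀ (by positivity)] at this
  · have := (Nat.lt_floor_add_one (t / (ρ / 2))).le
    rwa [div_le_iff₀ (by positivity)] at this
  · intro s hs hst
    have h5 := hδ2 (y := s) (by rw [Real.dist_eq]; exact hst.trans hn8)
    have h6 : γ s - γ t - (d j : ℂ) * ((s : ℂ) - t) =
        (γ s - γ t - (s - t) • deriv γ t) + (deriv γ t - (d j : ℂ)) * ((s : ℂ) - t) := by
      rw [Complex.real_smul]; push_cast; ring
    rw [h6]
    refine (norm_add_le _ _).trans ?_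
    rw [norm_mul]
    have h7 : ‖((s : ℂ) - t)‖ = |s - t| := by
      rw [← Complex.ofReal_sub, Complex.norm_real, Real.norm_eq_abs]
    rw [h7]
    rw [Real.norm_eq_abs] at h5
    have h8 : ‖deriv γ t - (d j : ℂ)‖ * |s - t| ≤ 1 / 40 * |s - t| :=
      mul_le_mul_of_nonneg_right hxd'.le (abs_nonneg _)
    linarith

end Pool.Agent.H218R3.CauCover
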