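import Mathlib

/-!
Critical points of a real polynomial with real zeros: the sum of reciprocal distances to a zero.
-/

set_option autoImplicit false

open Polynomial

namespace Pool.Agent.H218R3.Col

/-- the positive part of `σ / t` -/
noncomputable def ip (σ t : ℝ) : ℝ := max (σ * t⁻¹) 0

lemma ip_nonneg (σ t : ℝ) : 0 ≤ ip σ t := le_max_right _ _

lemma ip_eq {σ t : ℝ} (h : 0 < σ * t) : ip σ t = σ * t⁻¹ := by
  unfold ip
  apply max_eq_left
  have ht : t ≠ 0 := by rintro rfl; simp at h
  have : σ * t⁻¹ = (σ * t) * (t⁻¹) ^ 2 := by field_simp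
  rw [this]
  positivity

lemma ip_zero {σ t : ℝ} (h : ¬ 0 < σ * t) : ip σ t = 0 := by
  unfold ip
  apply max_eq_right
  by_cases ht : t = 0
  · simp [ht]
  · have : σ * t⁻¹ = (σ * t) * (t⁻¹) ^ 2 := by field_simp
    rw [this]
    have h2 : 0 < (t⁻¹) ^ 2 := by positivity
    nlinarith [not_lt.mp h]

lemma ip_anti {σ x z : ℝ} (hσ : σ = 1 ∨ σ = -1) (hz : 0 < σ * z) (hzx : σ * z < σ * x) :
    ip σ x ≤ ip σ z := by
  rw [ip_eq hz, ip_eq (hz.trans hzx)]
  rcases hσ with rfl | rfl
  · rw [one_mul, one_mul] at *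
    exact inv_anti₀ hz hzx.le
  · have h1 : 0 < -z := by linarith
    have h2 : -z < -x := by linarith
    have h3 := inv_anti₀ h1 h2.le
    rw [inv_neg, inv_neg] at h3
    linarith

lemma rolle_sigma {Q : ℝ[X]} {σ x y : ℝ} (hσ : σ = 1 ∨ σ = -1) (hx : Q.IsRoot x)
    (hy : Q.IsRoot y) (h : σ * y < σ * x) :
    ∃ z, Q.derivative.IsRoot z ∧ σ * y < σ * z ∧ σ * z < σ * x := by
  rcases hσ with rfl | rfl
  · simp only [one_mul] at *
    obtain ⟨z, hz1, hz2⟩ := exists_deriv_eq_zero h Q.continuousOn (hy.trans hx.symm)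
    exact ⟨z, by rwa [IsRoot, ← Q.deriv], hz1.1, hz1.2⟩
  · have h' : x < y := by linarith
    obtain ⟨z, hz1, hz2⟩ := exists_deriv_eq_zero h' Q.continuousOn (hx.trans hy.symm)
    exact ⟨z, by rwa [IsRoot, ← Q.deriv], by linarith [hz1.2], by linarith [hz1.1]⟩

lemma sum_le_total (M : Multiset ℝ) (σ : ℝ) (U : Finset ℝ) :
    ∑ z ∈ U, (M.count z : ℝ) * ip σ z ≤ (M.map (ip σ)).sum := by
  rw [Finset.sum_multiset_map_count]
  simp only [nsmul_eq_mul]
  calc ∑ z ∈ U, (M.count z : ℝ) * ip σ z
      ≤ ∑ z ∈ U ∪ M.toFinset, (M.count z : ℝ) * ip σ z := by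
        apply Finset.sum_le_sum_of_subset_of_nonneg Finset.subset_union_left
        intro z _ _
        exact mul_nonneg (Nat.cast_nonneg _) (ip_nonneg _ _)
    _ = ∑ z ∈ M.toFinset, (M.count z : ℝ) * ip σ z := by
        symm
        apply Finset.sum_subset Finset.subset_union_right
        intro z _ hz
        rw [Multiset.mem_toFinset] at hz
        rw [Multiset.count_eq_zero_of_notMem hz]
        simp

/-- interlacing -/
lemma inter {Q : ℝ[X]} {σ : ℝ} (hσ : σ = 1 ∨ σ = -1) (hQ : Q ≠ 0) (hQ' : Q.derivative ≠ 0)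
    (h0 : Q.IsRoot 0) :
    (Q.roots.map (ip σ)).sum ≤ (Q.derivative.roots.map (ip σ)).sum := by
  classical
  set F := Q.roots.toFinset with hF
  set Fp := F.filter (fun x => 0 < σ * x) with hFp
  have hmem : ∀ x, x ∈ F ↔ Q.IsRoot x := by
    intro x
    rw [hF, Multiset.mem_toFinset, mem_roots hQ]
  have hex : ∀ x, ∃ z, x ∈ Fp → (Q.derivative.IsRoot z ∧ 0 < σ * z ∧ σ * z < σ * x ∧
      ∀ y ∈ F, σ * y < σ * x → σ * y < σ * z) := by
    intro x
    by_cases hx : x ∈ Fp
    · have hxF := (Finset.mem_filter.mp hx).1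
      have hx0 := (Finset.mem_filter.mp hx).2
      have hne : (F.filter (fun y => σ * y < σ * x)).Nonempty :=
        ⟨0, Finset.mem_filter.mpr ⟨(hmem 0).mpr h0, by simpa using hx0⟩⟩
      obtain ⟨y, hy, hymax⟩ := Finset.exists_max_image _ (fun y => σ * y) hne
      have hyF := (Finset.mem_filter.mp hy).1
      have hyx := (Finset.mem_filter.mp hy).2
      obtain ⟨z, hz, hyz, hzx⟩ := rolle_sigma hσ ((hmem x).mp hxF) ((hmem y).mp hyF) hyx
      refine ⟨z, fun _ => ⟨hz, ?_, hzx, ?_⟩⟩
      · have := hymax 0 (Finset.mem_filter.mpr ⟨(hmem 0).mpr h0, by simpa using hx0⟩)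
        simp only [mul_zero] at this
        linarith
      · intro w hw hwx
        have := hymax w (Finset.mem_filter.mpr ⟨hw, hwx⟩)
        linarith
    · exact ⟨0, fun h => absurd h hx⟩
  choose ξ hξ using hex
  have hinj : Set.InjOn ξ Fp := by
    intro x hx x' hx' he
    obtain ⟨_, _, h3, h4⟩ := hξ x hx
    obtain ⟨_, _, h3', h4'⟩ := hξ x' hx'
    have hxF := (Finset.mem_filter.mp hx).1
    have hxF' := (Finset.mem_filter.mp hx').1
    rcases lt_trichotomy (σ * x) (σ * x') with h | h | h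
    · have := h4' x hxF h
      rw [← he] at this
      linarith
    · rcases hσ with rfl | rfl <;> linarith
    · have := h4 x' hxF' h
      rw [he] at this
      linarith
  have hdisj : Disjoint Fp (Fp.image ξ) := by
    rw [Finset.disjoint_left]
    intro z hz hz'
    obtain ⟨x, hx, rfl⟩ := Finset.mem_image.mp hz'
    obtain ⟨_, _, h3, h4⟩ := hξ x hx
    have := h4 (ξ x) (Finset.mem_filter.mp hz).1 h3
    linarith
  have hcount : ∀ x, (Q.roots.count x : ℝ) ≤ (Q.derivative.roots.count x : ℝ) + 1 := by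
    intro x
    have h1 := rootMultiplicity_sub_one_le_derivative_rootMultiplicity Q x
    rw [← count_roots, ← count_roots] at h1
    have h2 : Q.roots.count x ≤ Q.derivative.roots.count x + 1 := by omega
    exact_mod_cast h2
  calc (Q.roots.map (ip σ)).sum = ∑ x ∈ F, (Q.roots.count x : ℝ) * ip σ x := by
        rw [Finset.sum_multiset_map_count]
        simp only [nsmul_eq_mul]
        rfl
    _ = ∑ x ∈ Fp, (Q.roots.count x : ℝ) * ip σ x := by
        symm
        apply Finset.sum_subset (Finset.filter_subset _ _)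
        intro x hx hx'
        rw [Finset.mem_filter, not_and] at hx'
        rw [ip_zero (hx' hx), mul_zero]
    _ ≤ ∑ x ∈ Fp, ((Q.derivative.roots.count x : ℝ) + 1) * ip σ x := by
        apply Finset.sum_le_sum
        intro x _
        exact mul_le_mul_of_nonneg_right (hcount x) (ip_nonneg _ _)
    _ = ∑ x ∈ Fp, (Q.derivative.roots.count x : ℝ) * ip σ x + ∑ x ∈ Fp, ip σ x := by
        rw [← Finset.sum_add_distrib]
        apply Finset.sum_congr rfl
        intro x _
        ring
    _ ≤ ∑ x ∈ Fp, (Q.derivative.roots.count x : ℝ) * ip σ x +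
        ∑ z ∈ Fp.image ξ, (Q.derivative.roots.count z : ℝ) * ip σ z := by
        gcongr
        rw [Finset.sum_image hinj]
        apply Finset.sum_le_sum
        intro x hx
        obtain ⟨h1, h2, h3, h4⟩ := hξ x hx
        have h5 : 1 ≤ Q.derivative.roots.count (ξ x) := by
          rw [Nat.one_le_iff_ne_zero, Ne, Multiset.count_eq_zero, not_not, mem_roots hQ']
          exact h1
        have h6 : (1 : ℝ) ≤ (Q.derivative.roots.count (ξ x) : ℝ) := by exact_mod_cast h5
        calc ip σ x ≤ ip σ (ξ x) := ip_anti hσ h2 h3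
          _ = 1 * ip σ (ξ x) := (one_mul _).symm
          _ ≤ _ := mul_le_mul_of_nonneg_right h6 (ip_nonneg _ _)
    _ = ∑ z ∈ Fp ∪ Fp.image ξ, (Q.derivative.roots.count z : ℝ) * ip σ z := by
        rw [Finset.sum_union hdisj]
    _ ≤ _ := sum_le_total _ _ _

lemma inv_split (t : ℝ) : t⁻¹ = ip 1 t - ip (-1) t := by
  unfold ip
  rcases le_total 0 (t⁻¹) with h | h
  · rw [one_mul, max_eq_left h, max_eq_right (by linarith), sub_zero]
  · rw [one_mul, max_eq_right h, max_eq_left (by linarith)]; ring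

lemma abs_split (t : ℝ) : |t|⁻¹ = ip 1 t + ip (-1) t := by
  unfold ip
  rw [← abs_inv]
  rcases le_total 0 (t⁻¹) with h | h
  · rw [one_mul, max_eq_left h, max_eq_right (by linarith), abs_of_nonneg h, add_zero]
  · rw [one_mul, max_eq_right h, max_eq_left (by linarith), abs_of_nonpos h]; ring

lemma sum_inv_split (M : Multiset ℝ) :
    (M.map (fun t => t⁻¹)).sum = (M.map (ip 1)).sum - (M.map (ip (-1))).sum := by
  rw [← Multiset.sum_map_sub]
  congr 1
  apply Multiset.map_congr rfl
  intro t _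
  exact inv_split t

lemma sum_abs_split (M : Multiset ℝ) :
    (M.map (fun t => |t|⁻¹)).sum = (M.map (ip 1)).sum + (M.map (ip (-1))).sum := by
  rw [← Multiset.sum_map_add]
  congr 1
  apply Multiset.map_congr rfl
  intro t _
  exact abs_split t

lemma count_le (M : Multiset ℝ) {d₁ d₂ : ℝ}
    (hM : ∀ t ∈ M, t ≠ 0 ∧ -d₂ ≤ t ∧ t ≤ d₁) :
    (Multiset.card M : ℝ) ≤ d₁ * (M.map (ip 1)).sum + d₂ * (M.map (ip (-1))).sum := by
  induction M using Multiset.induction_on with
  | empty => simp
  | cons t M ih =>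
    have h1 := ih (fun s hs => hM s (Multiset.mem_cons_of_mem hs))
    obtain ⟨ht0, ht1, ht2⟩ := hM t (Multiset.mem_cons_self _ _)
    rw [Multiset.card_cons, Multiset.map_cons, Multiset.sum_cons, Multiset.map_cons,
      Multiset.sum_cons]
    have h2 : 1 ≤ d₁ * ip 1 t + d₂ * ip (-1) t := by
      rcases lt_or_gt_of_ne ht0 with h | h
      · rw [ip_zero (by linarith), ip_eq (by linarith)]
        have h3 : 0 < -t := by linarith
        have h4 : (-1 : ℝ) * t⁻¹ = (-t)⁻¹ := by rw [inv_neg]; ring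
        rw [h4, mul_zero, zero_add, ← div_eq_mul_inv, le_div_iff₀ h3]
        linarith
      · rw [ip_zero (σ := -1) (by linarith), ip_eq (by linarith), one_mul, mul_zero, add_zero,
          ← div_eq_mul_inv, le_div_iff₀ h]
        linarith
    push_cast
    linarith

/-- the first symmetric function -/
lemma sum_inv_eq {T : Multiset ℝ} (hT : ∀ t ∈ T, t ≠ 0) {Q : ℝ[X]}
    (hQ : Q = X * (T.map (fun t => X - C t)).prod) :
    (Q.derivative.roots.map (fun s => s⁻¹)).sum = 2 * (T.map (fun t => t⁻¹)).sum := by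
  set G : ℝ[X] := (T.map (fun t => X - C t)).prod with hG
  have hGmonic : G.Monic := monic_multiset_prod_of_monic _ _ (fun t _ => monic_X_sub_C t)
  have hQmonic : Q.Monic := by rw [hQ]; exact monic_X.mul hGmonic
  have hQroots : Q.roots = 0 ::ₘ T := by
    rw [hQ, roots_mul (hQ ▸ hQmonic.ne_zero), roots_X, hG, roots_multiset_prod_X_sub_C]
    rfl
  have hQdeg : Q.natDegree = Multiset.card T + 1 := by
    rw [hQ, natDegree_mul X_ne_zero hGmonic.ne_zero, natDegree_X, hG,
      natDegree_multiset_prod_X_sub_C_eq_card]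
    ring
  have hder : Q.derivative = G + X * G.derivative := by
    rw [hQ, derivative_mul, derivative_X, one_mul]
  have hG0 : G.eval 0 ≠ 0 := by
    intro h
    have h1 : (0 : ℝ) ∈ G.roots := by
      rw [mem_roots hGmonic.ne_zero]; exact h
    rw [hG, roots_multiset_prod_X_sub_C] at h1
    exact hT 0 h1 rfl
  have hQ'0 : Q.derivative.eval 0 = G.eval 0 := by
    rw [hder]; simp
  have hQ''0 : Q.derivative.derivative.eval 0 = 2 * G.derivative.eval 0 := by
    rw [hder]
    simp
    ring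
  have hQ'ne : Q.derivative ≠ 0 := by
    intro h
    rw [h, eval_zero] at hQ'0
    exact hG0 hQ'0.symm
  have hcard : Multiset.card Q.derivative.roots = Q.derivative.natDegree := by
    apply le_antisymm (card_roots' _)
    have h1 := card_roots_le_derivative Q
    rw [hQroots, Multiset.card_cons] at h1
    have h2 := natDegree_derivative_le Q
    rw [hQdeg] at h2
    omega
  have hsplit : Q.derivative.Splits := by
    exact splits_iff_card_roots.mpr hcard
  have hsplitG : G.Splits := by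
    apply splits_iff_card_roots.mpr
    rw [hG, roots_multiset_prod_X_sub_C, natDegree_multiset_prod_X_sub_C_eq_card]
  have e1 := hsplit.eval_derivative_div_eval_of_ne_zero (x := 0) (by rw [hQ'0]; exact hG0)
  have e2 := hsplitG.eval_derivative_div_eval_of_ne_zero (x := 0) hG0
  rw [hQ''0, hQ'0] at e1
  have hGr : G.roots = T := by rw [hG, roots_multiset_prod_X_sub_C]
  rw [hGr] at e2
  have hneg : ∀ M : Multiset ℝ, (M.map (fun z => 1 / (0 - z))).sum = -(M.map (fun t => t⁻¹)).sum := by
    intro M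
    rw [← Multiset.sum_map_neg]
    congr 1
    apply Multiset.map_congr rfl
    intro t _
    rw [zero_sub, one_div, inv_neg]
  rw [hneg] at e1 e2
  have e3 : 2 * G.derivative.eval 0 / G.eval 0 = 2 * (G.derivative.eval 0 / G.eval 0) := by ring
  rw [e3, e2] at e1
  linarith

/-- the core statement: zeros `0` and `T` on a segment of length at most `2` -/
theorem core {T : Multiset ℝ} {d₁ d₂ : ℝ} (hd₁ : 0 ≤ d₁) (hd₂ : 0 ≤ d₂) (hd : d₁ + d₂ ≤ 2)
    (hT : ∀ t ∈ T, t ≠ 0 ∧ -d₂ ≤ t ∧ t ≤ d₁) {Q : ℝ[X]}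
    (hQ : Q = X * (T.map (fun t => X - C t)).prod) :
    (Multiset.card T : ℝ) ≤ (Q.derivative.roots.map (fun s => |s|⁻¹)).sum := by
  have hT0 : ∀ t ∈ T, t ≠ 0 := fun t ht => (hT t ht).1
  have h1 := sum_inv_eq hT0 hQ
  have hGmonic : (T.map (fun t => X - C t)).prod.Monic :=
    monic_multiset_prod_of_monic _ _ (fun t _ => monic_X_sub_C t)
  have hQmonic : Q.Monic := by rw [hQ]; exact monic_X.mul hGmonic
  have hQroots : Q.roots = 0 ::ₘ T := by
    rw [hQ, roots_mul (hQ ▸ hQmonic.ne_zero), roots_X, roots_multiset_prod_X_sub_C]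
    rfl
  have hQ0 : Q.IsRoot 0 := by
    rw [← mem_roots hQmonic.ne_zero, hQroots]
    exact Multiset.mem_cons_self _ _
  have hQ' : Q.derivative ≠ 0 := by
    intro h
    have h2 : Q.natDegree = 0 := derivative_eq_zero.mp h
    rw [hQ, natDegree_mul X_ne_zero hGmonic.ne_zero, natDegree_X] at h2
    omega
  have ip0 : ∀ σ : ℝ, ip σ 0 = 0 := fun σ => ip_zero (by simp)
  have i1 := inter (σ := 1) (Or.inl rfl) hQmonic.ne_zero hQ' hQ0
  have i2 := inter (σ := -1) (Or.inr rfl) hQmonic.ne_zero hQ' hQ0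
  rw [hQroots, Multiset.map_cons, Multiset.sum_cons, ip0, zero_add] at i1 i2
  rw [sum_inv_split, sum_inv_split] at h1
  rw [sum_abs_split]
  have h2 := count_le T hT
  set a := (T.map (ip 1)).sum
  set b := (T.map (ip (-1))).sum
  set c := (Q.derivative.roots.map (ip 1)).sum
  set d := (Q.derivative.roots.map (ip (-1))).sum
  have ha : 2 * a ≤ c + d := by linarith
  have hb : 2 * b ≤ c + d := by linarith
  have hcd : 0 ≤ c + d := by
    have : 0 ≤ a := Multiset.sum_nonneg (by
      intro x hx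
      obtain ⟨t, _, rfl⟩ := Multiset.mem_map.mp hx
      exact ip_nonneg _ _)
    linarith
  nlinarith [mul_le_mul_of_nonneg_left ha hd₁, mul_le_mul_of_nonneg_left hb hd₂,
    mul_le_mul_of_nonneg_right hd hcd]

end Pool.Agent.H218R3.Col
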