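import Pool.Agent.H218R3.Col1

/-!
Transfer to complex polynomials with collinear zeros.
-/

set_option autoImplicit false

open Polynomial

namespace Pool.Agent.H218R3.Col

/-- the part of a line inside the unit disc -/
lemma chord {a u : ℂ} (ha : ‖a‖ ≤ 1) (hu : ‖u‖ = 1) :
    ∃ d₁ d₂ : ℝ, 0 ≤ d₁ ∧ 0 ≤ d₂ ∧ d₁ + d₂ ≤ 2 ∧
      ∀ t : ℝ, ‖a + t * u‖ ≤ 1 → -d₂ ≤ t ∧ t ≤ d₁ := by
  set β : ℝ := a.re * u.re + a.im * u.im with hβ
  set A : ℝ := ‖a‖ ^ 2 with hA
  have hA1 : A ≤ 1 := by
    rw [hA]; exact pow_le_one₀ (norm_nonneg _) ha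
  have hu2 : u.re ^ 2 + u.im ^ 2 = 1 := by
    have := Complex.sq_norm u
    rw [hu, Complex.normSq_apply] at this
    nlinarith
  have hA2 : A = a.re ^ 2 + a.im ^ 2 := by
    rw [hA, Complex.sq_norm, Complex.normSq_apply]; ring
  have hβA : β ^ 2 ≤ A := by
    rw [hA2, hβ]
    nlinarith [sq_nonneg (a.re * u.im - a.im * u.re)]
  set D : ℝ := β ^ 2 + 1 - A with hD
  have hD0 : 0 ≤ D := by nlinarith [sq_nonneg β]
  have hD1 : D ≤ 1 := by linarith
  set r := Real.sqrt D with hr
  have hr0 : 0 ≤ r := Real.sqrt_nonneg _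
  have hr2 : r ^ 2 = D := Real.sq_sqrt hD0
  have hr1 : r ≤ 1 := Real.sqrt_le_one.mpr hD1
  have hβr : |β| ≤ r := by
    apply Real.abs_le_sqrt
    rw [hD]; linarith
  have hb := abs_le.mp hβr
  refine ⟨-β + r, β + r, by linarith [hb.2], by linarith [hb.1], by linarith, ?_⟩
  intro t ht
  have h1 : ‖a + t * u‖ ^ 2 = A + 2 * t * β + t ^ 2 := by
    rw [Complex.sq_norm, Complex.normSq_apply]
    simp only [Complex.add_re, Complex.add_im, Complex.mul_re, Complex.mul_im, Complex.ofReal_re,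
      Complex.ofReal_im]
    rw [hA2, hβ]
    have : t ^ 2 = t ^ 2 * (u.re ^ 2 + u.im ^ 2) := by rw [hu2, mul_one]
    rw [this]
    ring
  have h2 : ‖a + t * u‖ ^ 2 ≤ 1 := pow_le_one₀ (norm_nonneg _) ht
  rw [h1] at h2
  have h3 : (t + β) ^ 2 ≤ r ^ 2 := by rw [hr2, hD]; nlinarith
  have h4 := abs_le.mp (abs_le_of_sq_le_sq h3 hr0)
  constructor <;> linarith [h4.1, h4.2]

/-- the critical points of a polynomial with zeros `a` and `a + t * u`, `t ∈ T` -/
lemma transfer {T : Multiset ℝ} {a u k : ℂ} (hu : u ≠ 0) (hk : k ≠ 0) {P : ℂ[X]}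
    (hP : P = C k * ((X - C a) * (T.map (fun t : ℝ => X - C (a + t * u))).prod)) :
    P.derivative.roots = ((X * (T.map (fun t => X - C t)).prod : ℝ[X]).derivative.roots).map
      (fun s : ℝ => a + s * u) := by
  set Q : ℝ[X] := X * (T.map (fun t => X - C t)).prod with hQ
  have hGmonic : (T.map (fun t => (X : ℝ[X]) - C t)).prod.Monic :=
    monic_multiset_prod_of_monic _ _ (fun t _ => monic_X_sub_C t)
  have hQmonic : Q.Monic := by rw [hQ]; exact monic_X.mul hGmonic
  have hQroots : Q.roots = 0 ::ₘ T := by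
    rw [hQ, roots_mul (hQ ▸ hQmonic.ne_zero), roots_X, roots_multiset_prod_X_sub_C]
    rfl
  have hQdeg : Q.natDegree = Multiset.card T + 1 := by
    rw [hQ, natDegree_mul X_ne_zero hGmonic.ne_zero, natDegree_X,
      natDegree_multiset_prod_X_sub_C_eq_card]
    ring
  have hQ' : Q.derivative ≠ 0 := by
    intro h
    have h2 : Q.natDegree = 0 := derivative_eq_zero.mp h
    omega
  have hcard : Multiset.card Q.derivative.roots = Q.derivative.natDegree := by
    apply le_antisymm (card_roots' _)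
    have h1 := card_roots_le_derivative Q
    rw [hQroots, Multiset.card_cons] at h1
    have h2 := natDegree_derivative_le Q
    rw [hQdeg] at h2
    omega
  have hprod := C_leadingCoeff_mul_prod_multiset_X_sub_C hcard
  set S := Q.derivative.roots with hS
  set l := Q.derivative.leadingCoeff with hl
  have hl0 : l ≠ 0 := leadingCoeff_ne_zero.mpr hQ'
  set L : ℂ[X] := C u⁻¹ * (X - C a) with hL
  have hfac : ∀ t : ℝ, ((X - C (t : ℂ)).comp L : ℂ[X]) = C u⁻¹ * (X - C (a + t * u)) := by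
    intro t
    rw [sub_comp, X_comp, C_comp, hL]
    have h1 : C (t : ℂ) = C u⁻¹ * (C (t * u) : ℂ[X]) := by
      rw [← C_mul]
      congr 1
      field_simp
    rw [h1, ← mul_sub, C_add]
    ring
  have hmap : ∀ M : Multiset ℝ, (((M.map (fun t => (X : ℝ[X]) - C t)).prod.map Complex.ofRealHom).comp L)
      = C (u⁻¹ ^ Multiset.card M) * (M.map (fun t : ℝ => X - C (a + t * u))).prod := by
    intro M
    induction M using Multiset.induction_on with
    | empty => simp
    | cons t M ih =>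
      rw [Multiset.map_cons, Multiset.prod_cons, Polynomial.map_mul, mul_comp, ih,
        Multiset.map_cons, Multiset.prod_cons, Multiset.card_cons]
      have h1 : ((X - C t : ℝ[X]).map Complex.ofRealHom).comp L = C u⁻¹ * (X - C (a + t * u)) := by
        rw [Polynomial.map_sub, map_X, map_C]
        exact hfac t
      rw [h1, pow_succ, C_mul]
      ring
  have hPQ : C (k * u ^ (Multiset.card T + 1)) * (Q.map Complex.ofRealHom).comp L = P := by
    rw [hQ, Polynomial.map_mul, mul_comp, hmap, map_X, X_comp, hP, hL]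
    have h1 : C (k * u ^ (Multiset.card T + 1)) * (C u⁻¹ * (X - C a) * (C (u⁻¹ ^ Multiset.card T) *
        (T.map (fun t : ℝ => X - C (a + t * u))).prod)) = C (k * u ^ (Multiset.card T + 1) * u⁻¹ *
        u⁻¹ ^ Multiset.card T) * ((X - C a) * (T.map (fun t : ℝ => X - C (a + t * u))).prod) := by
      rw [C_mul (a := k * u ^ (Multiset.card T + 1) * u⁻¹), C_mul (a := k * u ^ (Multiset.card T + 1))]
      ring
    rw [h1]
    congr 2
    rw [pow_succ, inv_pow]
    field_simp
  have hder : P.derivative = C (k * u ^ (Multiset.card T + 1) * u⁻¹ * l * u⁻¹ ^ Multiset.card S) *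
      (S.map (fun s : ℝ => X - C (a + s * u))).prod := by
    rw [← hPQ, derivative_C_mul, derivative_comp, derivative_map, ← hprod, Polynomial.map_mul,
      mul_comp, hmap, map_C, C_comp]
    have h2 : derivative L = C u⁻¹ := by
      rw [hL, derivative_C_mul, derivative_sub, derivative_X, derivative_C, sub_zero, mul_one]
    rw [h2]
    simp only [C_mul, Complex.ofRealHom_eq_coe]
    ring
  have hc0 : k * u ^ (Multiset.card T + 1) * u⁻¹ * l * u⁻¹ ^ Multiset.card S ≠ 0 := by
    have : (l : ℂ) ≠ 0 := by exact_mod_cast hl0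
    positivity
  rw [hder, roots_C_mul _ hc0]
  have h3 : (S.map (fun s : ℝ => X - C (a + s * u))) =
      (S.map (fun s : ℝ => a + s * u)).map (fun z => X - C z) := by
    rw [Multiset.map_map]; rfl
  rw [h3, roots_multiset_prod_X_sub_C]

/-- the inequality for collinear zeros -/
theorem collinear {T : Multiset ℝ} {a u k : ℂ} (ha : ‖a‖ ≤ 1) (hu : ‖u‖ = 1) (hk : k ≠ 0)
    {P : ℂ[X]} (hP : P = C k * ((X - C a) * (T.map (fun t : ℝ => X - C (a + t * u))).prod))
    (hT : ∀ t ∈ T, t ≠ 0 ∧ ‖a + t * u‖ ≤ 1) :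
    (Multiset.card T : ℝ) ≤ (P.derivative.roots.map (fun w => ‖a - w‖⁻¹)).sum := by
  obtain ⟨d₁, d₂, h1, h2, h3, h4⟩ := chord ha hu
  have hu0 : u ≠ 0 := by rintro rfl; simp at hu
  rw [transfer hu0 hk hP, Multiset.map_map]
  have h5 := core (T := T) h1 h2 h3 (fun t ht => ⟨(hT t ht).1, h4 t (hT t ht).2⟩) rfl
  refine h5.trans (le_of_eq ?_)
  congr 1
  apply Multiset.map_congr rfl
  intro s _
  simp only [Function.comp]
  congr 1
  have : a - (a + s * u) = -(s * u) := by ring
  rw [this, norm_neg, norm_mul, hu, mul_one, Complex.norm_real, Real.norm_eq_abs]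

end Pool.Agent.H218R3.Col
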