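import Pool.Agent.H218R3.Col2

/-!
The inequality for complex polynomials with collinear zeros.
-/

set_option autoImplicit false

open Polynomial

namespace Pool.Agent.H218R3.Col

theorem poly_collinear {P : ℂ[X]} {a : ℂ} (ha : a ∈ P.roots) (hz : ∀ z ∈ P.roots, ‖z‖ ≤ 1)
    (hline : ∃ u : ℂ, ∀ z ∈ P.roots, ∃ t : ℝ, z = a + t * u) (hd : P.derivative.eval a ≠ 0) :
    ((P.natDegree - 1 : ℕ) : ℝ) ≤ (P.derivative.roots.map (fun w => ‖a - w‖⁻¹)).sum := by
  classical
  have hP0 : P ≠ 0 := by
    rintro rfl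
    simp at ha
  obtain ⟨R, hR⟩ := Multiset.exists_cons_of_mem ha
  have hcard : Multiset.card P.roots = P.natDegree :=
    splits_iff_card_roots.mp (IsAlgClosed.splits P)
  have hprod : C P.leadingCoeff * (P.roots.map (fun z => X - C z)).prod = P :=
    C_leadingCoeff_mul_prod_multiset_X_sub_C hcard
  rw [hR, Multiset.map_cons, Multiset.prod_cons] at hprod
  rw [hR, Multiset.card_cons] at hcard
  have hn : P.natDegree - 1 = Multiset.card R := by omega
  have haR : a ∉ R := by
    intro h
    apply hd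
    rw [← hprod, derivative_C_mul, derivative_mul, derivative_sub, derivative_X, derivative_C,
      sub_zero, one_mul, eval_mul, eval_add, eval_mul, eval_sub, eval_X, eval_C, eval_C, sub_self,
      zero_mul, add_zero]
    have h1 : ((R.map (fun z => X - C z)).prod : ℂ[X]).eval a = 0 := by
      rw [← Polynomial.IsRoot.def, ← mem_roots (monic_multiset_prod_of_monic _ _
        (fun t _ => monic_X_sub_C t)).ne_zero, roots_multiset_prod_X_sub_C]
      exact h
    rw [h1, mul_zero]
  have hk : P.leadingCoeff ≠ 0 := leadingCoeff_ne_zero.mpr hP0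
  have haz : ‖a‖ ≤ 1 := hz a ha
  rcases Multiset.empty_or_exists_mem R with hR0 | ⟨r, hr⟩
  · rw [hn, hR0]
    simp only [Multiset.card_zero, Nat.cast_zero]
    apply Multiset.sum_nonneg
    intro x hx
    obtain ⟨w, _, rfl⟩ := Multiset.mem_map.mp hx
    positivity
  obtain ⟨u, hu⟩ := hline
  choose! t ht using hu
  have hu0 : u ≠ 0 := by
    rintro rfl
    have h1 := ht r (by rw [hR]; exact Multiset.mem_cons_of_mem hr)
    rw [mul_zero, add_zero] at h1
    exact haR (h1 ▸ hr)
  have hnu : 0 < ‖u‖ := norm_pos_iff.mpr hu0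
  set v : ℂ := u / (‖u‖ : ℂ) with hv
  have hnv : ‖v‖ = 1 := by
    rw [hv, norm_div, Complex.norm_real, norm_norm, div_self hnu.ne']
  have ht' : ∀ z ∈ P.roots, z = a + ((t z * ‖u‖ : ℝ) : ℂ) * v := by
    intro z hz'
    have h1 := ht z hz'
    have h2 : ((t z * ‖u‖ : ℝ) : ℂ) * v = t z * u := by
      rw [hv]
      have : (‖u‖ : ℂ) ≠ 0 := by exact_mod_cast hnu.ne'
      push_cast
      field_simp
    rw [h2]
    exact h1
  have hmem : ∀ z ∈ R, z ∈ P.roots := fun z h => by rw [hR]; exact Multiset.mem_cons_of_mem h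
  have hP : P = C P.leadingCoeff * ((X - C a) *
      ((R.map (fun z => t z * ‖u‖)).map (fun s : ℝ => X - C (a + s * v))).prod) := by
    conv_lhs => rw [← hprod]
    congr 3
    rw [Multiset.map_map]
    apply Multiset.map_congr rfl
    intro z hz'
    simp only [Function.comp]
    rw [← ht' z (hmem z hz')]
  have hfin := collinear (T := R.map (fun z => t z * ‖u‖)) haz hnv hk hP (by
    intro s hs
    obtain ⟨z, hz', rfl⟩ := Multiset.mem_map.mp hs
    have h1 := ht' z (hmem z hz')
    refine ⟨?_, ?_⟩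
    · intro h0
      rw [h0, Complex.ofReal_zero, zero_mul, add_zero] at h1
      exact haR (h1 ▸ hz')
    · rw [← h1]
      exact hz z (hmem z hz'))
  rw [hn]
  rw [Multiset.card_map] at hfin
  exact hfin

end Pool.Agent.H218R3.Col
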