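import Pool.Agent.H218R3.Col2

/-!
Borcea's variance inequality for collinear zeros: the real inequality.
-/

set_option autoImplicit false

open Polynomial

namespace Pool.Agent.H218R3.Col

/-- Cauchy-Schwarz for reciprocals -/
lemma recip_cs (M : Multiset ℝ) (f : ℝ → ℝ) (hf : ∀ x ∈ M, 0 < f x) (s : ℝ) :
    (Multiset.card M : ℝ) * (2 * s) - s ^ 2 * (M.map (fun x => (f x)⁻¹)).sum ≤ (M.map f).sum := by
  induction M using Multiset.induction_on with
  | empty => simp
  | cons x M ih =>
    have h1 := ih (fun y hy => hf y (Multiset.mem_cons_of_mem hy))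
    have hx := hf x (Multiset.mem_cons_self _ _)
    rw [Multiset.card_cons, Multiset.map_cons, Multiset.sum_cons, Multiset.map_cons,
      Multiset.sum_cons]
    have h2 : 2 * s - s ^ 2 * (f x)⁻¹ ≤ f x := by
      have h3 : f x - (2 * s - s ^ 2 * (f x)⁻¹) = (f x - s) ^ 2 * (f x)⁻¹ := by
        field_simp
        ring
      have h4 : 0 ≤ (f x - s) ^ 2 * (f x)⁻¹ := by positivity
      linarith
    push_cast
    linarith

/-- minorant for distances -/
lemma dist_minor (M : Multiset ℝ) (hM : ∀ x ∈ M, 1 < x) {c s : ℝ} :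
    (Multiset.card M : ℝ) * (2 * s - (c - 1)) - s ^ 2 * (M.map (fun x => (x - 1)⁻¹)).sum ≤
      (M.map (fun x => |x - c|)).sum := by
  induction M using Multiset.induction_on with
  | empty => simp
  | cons x M ih =>
    have h1 := ih (fun y hy => hM y (Multiset.mem_cons_of_mem hy))
    have hx := hM x (Multiset.mem_cons_self _ _)
    rw [Multiset.card_cons, Multiset.map_cons, Multiset.sum_cons, Multiset.map_cons,
      Multiset.sum_cons]
    have hy : 0 < x - 1 := by linarith
    have h2 : 2 * s - (c - 1) - s ^ 2 * (x - 1)⁻¹ ≤ |x - c| := by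
      rcases le_total c x with h | h
      · rw [abs_of_nonneg (by linarith)]
        have h3 : (x - c) - (2 * s - (c - 1) - s ^ 2 * (x - 1)⁻¹) = (x - 1 - s) ^ 2 * (x - 1)⁻¹ := by
          field_simp
          ring
        have h4 : 0 ≤ (x - 1 - s) ^ 2 * (x - 1)⁻¹ := by positivity
        linarith
      · rw [abs_of_nonpos (by linarith)]
        have h3 : (c - x) * (x - 1) - (2 * s - (c - 1)) * (x - 1) + s ^ 2 ≥ 0 := by
          nlinarith [sq_nonneg (s - (x - 1)), mul_nonneg (sub_nonneg.mpr h) hy.le]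
        have h4 : (c - x) - (2 * s - (c - 1) - s ^ 2 * (x - 1)⁻¹) =
            ((c - x) * (x - 1) - (2 * s - (c - 1)) * (x - 1) + s ^ 2) * (x - 1)⁻¹ := by
          field_simp
          ring
        have h5 : 0 ≤ ((c - x) * (x - 1) - (2 * s - (c - 1)) * (x - 1) + s ^ 2) * (x - 1)⁻¹ :=
          mul_nonneg h3 (by positivity)
        linarith
    push_cast
    linarith

lemma sum_le_half (M : Multiset ℝ) (f : ℝ → ℝ) (hf : ∀ x ∈ M, 2 ≤ f x) :
    (M.map (fun x => (f x)⁻¹)).sum ≤ (Multiset.card M : ℝ) / 2 := by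
  induction M using Multiset.induction_on with
  | empty => simp
  | cons x M ih =>
    have h1 := ih (fun y hy => hf y (Multiset.mem_cons_of_mem hy))
    have hx := hf x (Multiset.mem_cons_self _ _)
    rw [Multiset.card_cons, Multiset.map_cons, Multiset.sum_cons]
    have h2 : (f x)⁻¹ ≤ 1 / 2 := by
      rw [inv_le_comm₀ (by linarith) (by norm_num)]
      norm_num
      exact hx
    push_cast
    linarith

lemma sum_inv_nonneg (M : Multiset ℝ) (f : ℝ → ℝ) (hf : ∀ x ∈ M, 0 ≤ f x) :
    0 ≤ (M.map (fun x => (f x)⁻¹)).sum := by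
  apply Multiset.sum_nonneg
  intro y hy
  obtain ⟨x, hx, rfl⟩ := Multiset.mem_map.mp hy
  exact inv_nonneg.mpr (hf x hx)

/-- the combinatorial core for `c ≥ 0`; `M` are the positive, `-K` the negative zeros -/
lemma real_core (M K : Multiset ℝ) (hM : ∀ x ∈ M, 1 < x) (hK : ∀ x ∈ K, 1 < x)
    (hne : 1 ≤ Multiset.card M + Multiset.card K)
    (hA : (M.map (fun x => (x - 1)⁻¹)).sum ≤ 1 + (K.map (fun x => (x + 1)⁻¹)).sum)
    (hB : (K.map (fun x => (x - 1)⁻¹)).sum ≤ 1 + (M.map (fun x => (x + 1)⁻¹)).sum)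
    {c : ℝ} (hc : 0 ≤ c) :
    1 + (Multiset.card M : ℝ) + Multiset.card K ≤
      c + (M.map (fun x => |x - c|)).sum + (K.map (fun x => |x + c|)).sum := by
  set L : ℝ := (Multiset.card M : ℝ) with hL
  set R : ℝ := (Multiset.card K : ℝ) with hR
  set B : ℝ := (K.map (fun x => (x + 1)⁻¹)).sum with hBdef
  set B' : ℝ := (M.map (fun x => (x + 1)⁻¹)).sum with hB'def
  set SA : ℝ := (M.map (fun x => (x - 1)⁻¹)).sum with hSA
  set SB : ℝ := (K.map (fun x => (x - 1)⁻¹)).sum with hSB
  set D : ℝ := (K.map (fun x => x - 1)).sum with hD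
  have hL0 : 0 ≤ L := Nat.cast_nonneg _
  have hR0 : 0 ≤ R := Nat.cast_nonneg _
  have hB0 : 0 ≤ B := sum_inv_nonneg K _ (fun x hx => by linarith [hK x hx])
  have hB2 : B ≤ R / 2 := sum_le_half K _ (fun x hx => by linarith [hK x hx])
  have hB'2 : B' ≤ L / 2 := sum_le_half M _ (fun x hx => by linarith [hM x hx])
  have hB'0 : 0 ≤ B' := sum_inv_nonneg M _ (fun x hx => by linarith [hM x hx])
  have hSB0 : 0 ≤ SB := sum_inv_nonneg K _ (fun x hx => by linarith [hK x hx])
  have hKsum : (K.map (fun x => |x + c|)).sum = D + R + R * c := by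
    have h1 : ∀ K' : Multiset ℝ, (∀ x ∈ K', 1 < x) → (K'.map (fun x => |x + c|)).sum =
        (K'.map (fun x => x - 1)).sum + (Multiset.card K' : ℝ) + (Multiset.card K' : ℝ) * c := by
      intro K' hK'
      induction K' using Multiset.induction_on with
      | empty => simp
      | cons x K' ih =>
        have h2 := ih (fun y hy => hK' y (Multiset.mem_cons_of_mem hy))
        have hx := hK' x (Multiset.mem_cons_self _ _)
        rw [Multiset.card_cons, Multiset.map_cons, Multiset.sum_cons, Multiset.map_cons,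
          Multiset.sum_cons, h2, abs_of_pos (by linarith)]
        push_cast
        ring
    exact h1 K hK
  have hD1 : ∀ s : ℝ, R * (2 * s) - s ^ 2 * SB ≤ D :=
    fun s => recip_cs K (fun x => x - 1) (fun x hx => by linarith [hK x hx]) s
  have hD0 : 0 ≤ D := by have := hD1 0; simpa using this
  rw [hKsum]
  -- the lower bound of `D`
  have hDR : R ^ 2 * 2 ≤ D * (2 + L) := by
    have h1 := hD1 (R * 2 / (2 + L))
    have h2 : SB ≤ (2 + L) / 2 := by linarith
    have h3 : (R * 2 / (2 + L)) ^ 2 * SB ≤ (R * 2 / (2 + L)) ^ 2 * ((2 + L) / 2) :=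
      mul_le_mul_of_nonneg_left h2 (sq_nonneg _)
    have h4 : R * (2 * (R * 2 / (2 + L))) - (R * 2 / (2 + L)) ^ 2 * ((2 + L) / 2) =
        R ^ 2 * 2 / (2 + L) := by
      field_simp
      ring
    have h5 : R ^ 2 * 2 / (2 + L) ≤ D := by linarith
    rwa [div_le_iff₀ (by linarith)] at h5
  rcases Nat.eq_zero_or_pos (Multiset.card M) with hM0 | hM1
  · have hL00 : L = 0 := by rw [hL, hM0]; simp
    have hR1 : 1 ≤ R := by
      rw [hR]; exact_mod_cast (by omega : 1 ≤ Multiset.card K)
    have hMs : 0 ≤ (M.map (fun x => |x - c|)).sum := by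
      apply Multiset.sum_nonneg
      intro y hy
      obtain ⟨x, _, rfl⟩ := Multiset.mem_map.mp hy
      exact abs_nonneg _
    rw [hL00] at hDR ⊢
    nlinarith [mul_nonneg hR0 hc]
  have hL1 : 1 ≤ L := by rw [hL]; exact_mod_cast hM1
  by_cases he : L ≤ (c - 1) * (R + 1)
  · have hMs : 0 ≤ (M.map (fun x => |x - c|)).sum := by
      apply Multiset.sum_nonneg
      intro y hy
      obtain ⟨x, _, rfl⟩ := Multiset.mem_map.mp hy
      exact abs_nonneg _
    nlinarith
  · rw [not_le] at he
    set s₀ : ℝ := L / (1 + B) with hs₀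
    have h1B : 0 < 1 + B := by linarith
    have h1 := dist_minor M hM (c := c) (s := s₀)
    have h2 : s₀ ^ 2 * SA ≤ s₀ ^ 2 * (1 + B) := mul_le_mul_of_nonneg_left hA (sq_nonneg _)
    set X : ℝ := L ^ 2 / (1 + B) with hX
    have h3 : s₀ ^ 2 * (1 + B) = X := by rw [hs₀, hX]; field_simp
    have h4 : L * s₀ = X := by rw [hs₀, hX]; ring
    have h5 : X - L * (c - 1) ≤ (M.map (fun x => |x - c|)).sum := by
      have h6 : L * (2 * s₀ - (c - 1)) = 2 * X - L * (c - 1) := by rw [← h4]; ring
      rw [← hL] at h1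
      linarith
    have hX1 : L ^ 2 * 2 ≤ X * (2 + R) := by
      rw [hX, div_mul_eq_mul_div, le_div_iff₀ h1B]
      nlinarith [sq_nonneg L]
    have hX2 : L ^ 2 ≤ X * (R + 1) := by
      rw [hX, div_mul_eq_mul_div, le_div_iff₀ h1B]
      nlinarith [sq_nonneg L]
    have hX0 : 0 ≤ X := by rw [hX]; positivity
    -- claim K
    have hKc : 1 ≤ X + D := by
      rcases Nat.eq_zero_or_pos (Multiset.card K) with hK0 | hK1
      · have hR00 : R = 0 := by rw [hR, hK0]; simp
        rw [hR00] at hX1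
        nlinarith
      · have hR1 : 1 ≤ R := by rw [hR]; exact_mod_cast hK1
        by_contra hcon
        rw [not_le] at hcon
        have hLR : 2 * L ^ 2 * (2 + L) + 2 * R ^ 2 * (2 + R) ≤ (X + D) * ((2 + L) * (2 + R)) := by
          have e1 := mul_le_mul_of_nonneg_right hX1 (by linarith : (0 : ℝ) ≤ 2 + L)
          have e2 := mul_le_mul_of_nonneg_right hDR (by linarith : (0 : ℝ) ≤ 2 + R)
          have e3 : (X + D) * ((2 + L) * (2 + R)) =
            X * (2 + R) * (2 + L) + D * (2 + L) * (2 + R) := by ring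
          rw [e3]
          linarith
        have h7 : (X + D) * ((2 + L) * (2 + R)) < 1 * ((2 + L) * (2 + R)) :=
          mul_lt_mul_of_pos_right hcon (by positivity)
        have l2 : L ≤ L ^ 2 := by rw [sq]; exact le_mul_of_one_le_left hL0 hL1
        have r2 : R ≤ R ^ 2 := by rw [sq]; exact le_mul_of_one_le_left hR0 hR1
        have l3 : L ^ 2 * 1 ≤ L ^ 2 * L := mul_le_mul_of_nonneg_left hL1 (sq_nonneg _)
        have r3 : R ^ 2 * 1 ≤ R ^ 2 * R := mul_le_mul_of_nonneg_left hR1 (sq_nonneg _)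
        have lr : 0 ≤ (L - R) ^ 2 := sq_nonneg _
        have e4 : 2 * L ^ 2 * (2 + L) = 4 * L ^ 2 + 2 * (L ^ 2 * L) := by ring
        have e5 : 2 * R ^ 2 * (2 + R) = 4 * R ^ 2 + 2 * (R ^ 2 * R) := by ring
        have e6 : (2 + L) * (2 + R) = 4 + 2 * L + 2 * R + L * R := by ring
        have e7 : (L - R) ^ 2 = L ^ 2 - 2 * (L * R) + R ^ 2 := by ring
        rw [e4, e5] at hLR
        rw [one_mul] at h7
        rw [e6] at h7 hLR
        rw [e7] at lr
        linarith
    have hgoal : 1 ≤ c * (1 + R - L) + X + D := by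
      rcases le_total L (1 + R) with h | h
      · nlinarith [mul_nonneg hc (sub_nonneg.mpr h)]
      · -- (R + 1) * goal
        have hR1 : 0 < R + 1 := by linarith
        have h8 : c * (R + 1) ≤ L + R + 1 := by linarith
        have h9 : (L + R + 1) * (1 + R - L) ≤ (c * (R + 1)) * (1 + R - L) :=
          mul_le_mul_of_nonpos_right h8 (by linarith)
        have h10 : 0 ≤ (R + 1) * (c * (1 + R - L) + X + D - 1) := by
          have e1 : (R + 1) * (c * (1 + R - L) + X + D - 1) = (c * (R + 1)) * (1 + R - L) +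
            X * (R + 1) + (R + 1) * D - (R + 1) := by ring
          have e2 : (L + R + 1) * (1 + R - L) = R * R + 2 * R + 1 - L ^ 2 := by ring
          rw [e1]
          linarith [mul_nonneg hR1.le hD0, mul_nonneg hR0 hR0]
        have h11 := nonneg_of_mul_nonneg_right h10 hR1
        linarith
    have e1 : c * (1 + R - L) = c + R * c - L * c := by ring
    have e2 : L * (c - 1) = L * c - L := by ring
    linarith

end Pool.Agent.H218R3.Col
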