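import Pool.Agent.H218R3.Col4
import Pool.Agent.H218R3.Col3

/-!
Borcea's variance inequality for collinear zeros.
-/

set_option autoImplicit false

open Polynomial

namespace Pool.Agent.H218R3.Col

lemma split_pm (T : Multiset ℝ) {δ : ℝ} (hδ : 0 < δ) (hT : ∀ t ∈ T, δ < |t|) :
    ∃ M K : Multiset ℝ, T = M.map (fun x => δ * x) + K.map (fun x => -(δ * x)) ∧
      (∀ x ∈ M, 1 < x) ∧ ∀ x ∈ K, 1 < x := by
  induction T using Multiset.induction_on with
  | empty => exact ⟨0, 0, by simp, by simp, by simp⟩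
  | cons t T ih =>
    obtain ⟨M, K, h1, h2, h3⟩ := ih (fun s hs => hT s (Multiset.mem_cons_of_mem hs))
    have ht := hT t (Multiset.mem_cons_self _ _)
    rcases le_total 0 t with h | h
    · rw [abs_of_nonneg h] at ht
      refine ⟨(t / δ) ::ₘ M, K, ?_, ?_, h3⟩
      · rw [Multiset.map_cons, Multiset.cons_add, ← h1]
        congr 1
        field_simp
      · intro x hx
        rcases Multiset.mem_cons.mp hx with rfl | hx
        · rw [lt_div_iff₀ hδ]; linarith
        · exact h2 x hx
    · rw [abs_of_nonpos h] at ht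
      refine ⟨M, (-t / δ) ::ₘ K, ?_, h2, ?_⟩
      · rw [Multiset.map_cons, Multiset.add_cons, ← h1]
        congr 1
        field_simp
      · intro x hx
        rcases Multiset.mem_cons.mp hx with rfl | hx
        · rw [lt_div_iff₀ hδ]; linarith
        · exact h3 x hx

lemma pos_of_ne {W : ℝ[X]} {y : ℝ} (h0 : 0 < W.eval 0) (h : ∀ x ∈ Set.uIcc 0 y, W.eval x ≠ 0) :
    0 < W.eval y := by
  by_contra hc
  rw [not_lt] at hc
  have h1 := intermediate_value_uIcc (f := fun x => W.eval x) (a := 0) (b := y)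
    W.continuousOn
  have h2 : (0 : ℝ) ∈ Set.uIcc (W.eval 0) (W.eval y) := by
    rw [Set.mem_uIcc]
    exact Or.inr ⟨hc, h0.le⟩
  obtain ⟨x, hx, hx0⟩ := h1 h2
  exact h x hx hx0

/-- the inequality if all critical points are far -/
lemma far_core {T : Multiset ℝ} (hT0 : ∀ t ∈ T, t ≠ 0) (hT1 : 1 ≤ Multiset.card T) {Q : ℝ[X]}
    (hQ : Q = X * (T.map (fun t => X - C t)).prod) {δ : ℝ} (hδ : 0 < δ)
    (hfar : ∀ s ∈ Q.derivative.roots, δ < |s|) (κ : ℝ) :
    ((Multiset.card T : ℝ) + 1) * δ ≤ |κ| + (T.map (fun t => |t - κ|)).sum := by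
  set G : ℝ[X] := (T.map (fun t => X - C t)).prod with hG
  have hGmonic : G.Monic := monic_multiset_prod_of_monic _ _ (fun t _ => monic_X_sub_C t)
  have hQmonic : Q.Monic := by rw [hQ]; exact monic_X.mul hGmonic
  have hGr : G.roots = T := by rw [hG, roots_multiset_prod_X_sub_C]
  have hQroots : Q.roots = 0 ::ₘ T := by
    rw [hQ, roots_mul (hQ ▸ hQmonic.ne_zero), roots_X, hGr]
    rfl
  have hQ' : Q.derivative ≠ 0 := by
    intro h
    have h2 : Q.natDegree = 0 := derivative_eq_zero.mp h
    rw [hQ, natDegree_mul X_ne_zero hGmonic.ne_zero, natDegree_X] at h2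
    omega
  have hder : Q.derivative = G + X * G.derivative := by
    rw [hQ, derivative_mul, derivative_X, one_mul]
  have hfar' : ∀ s, |s| ≤ δ → Q.derivative.eval s ≠ 0 := by
    intro s hs h
    have := hfar s ((mem_roots hQ').mpr h)
    linarith
  have hTfar : ∀ t ∈ T, δ < |t| := by
    intro t ht
    by_contra hc
    rw [not_lt] at hc
    have hroot : Q.IsRoot t := by
      rw [← mem_roots hQmonic.ne_zero, hQroots]
      exact Multiset.mem_cons_of_mem ht
    have hroot0 : Q.IsRoot 0 := by
      rw [← mem_roots hQmonic.ne_zero, hQroots]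
      exact Multiset.mem_cons_self _ _
    have hb := abs_le.mp hc
    rcases lt_or_gt_of_ne (hT0 t ht) with h | h
    · obtain ⟨z, hz, h1, h2⟩ := rolle_sigma (σ := -1) (Or.inr rfl) hroot hroot0 (by linarith)
      exact hfar' z (abs_le.mpr ⟨by linarith, by linarith⟩) hz
    · obtain ⟨z, hz, h1, h2⟩ := rolle_sigma (σ := 1) (Or.inl rfl) hroot hroot0 (by linarith)
      exact hfar' z (abs_le.mpr ⟨by linarith, by linarith⟩) hz
  have hG0 : ∀ x, |x| ≤ δ → G.eval x ≠ 0 := by
    intro x hx h
    have h1 : x ∈ G.roots := by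
      rw [mem_roots hGmonic.ne_zero]; exact h
    rw [hGr] at h1
    have := hTfar x h1
    linarith
  have hsplitG : G.Splits := by
    apply splits_iff_card_roots.mpr
    rw [hG, roots_multiset_prod_X_sub_C, natDegree_multiset_prod_X_sub_C_eq_card]
  have hkey : ∀ y, |y| ≤ δ → 0 < 1 + y * (T.map (fun t => 1 / (y - t))).sum := by
    intro y hy
    have h1 : 0 < (Q.derivative * G).eval y := by
      apply pos_of_ne
      · rw [hder]
        simp only [eval_mul, eval_add, eval_X, zero_mul, add_zero]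
        exact mul_self_pos.mpr (hG0 0 (by rw [abs_zero]; exact hδ.le))
      · intro x hx
        have hxy : |x| ≤ δ := by
          refine le_trans ?_ hy
          rcases Set.mem_uIcc.mp hx with ⟨ha, hb⟩ | ⟨ha, hb⟩
          · rw [abs_of_nonneg ha, abs_of_nonneg (ha.trans hb)]; exact hb
          · rw [abs_of_nonpos hb, abs_of_nonpos (ha.trans hb)]; linarith
        rw [eval_mul]
        exact mul_ne_zero (hfar' x hxy) (hG0 x hxy)
    have h2 := hsplitG.eval_derivative_div_eval_of_ne_zero (hG0 y hy)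
    rw [hGr] at h2
    rw [← h2]
    rw [hder, eval_mul, eval_add, eval_mul, eval_X] at h1
    have h3 := hG0 y hy
    have h4 : 1 + y * (G.derivative.eval y / G.eval y) =
        (G.eval y + y * G.derivative.eval y) * G.eval y / (G.eval y) ^ 2 := by
      field_simp
    rw [h4]
    exact div_pos h1 (by positivity)
  obtain ⟨M, K, hMK, hM, hK⟩ := split_pm T hδ hTfar
  have kA := hkey δ (by rw [abs_of_pos hδ])
  have kB := hkey (-δ) (by rw [abs_neg, abs_of_pos hδ])
  have hne : ∀ x : ℝ, 1 < x → x - 1 ≠ 0 ∧ x + 1 ≠ 0 := by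
    intro x hx
    have h1 : 0 < x - 1 := by linarith
    have h2 : 0 < x + 1 := by linarith
    exact ⟨h1.ne', h2.ne'⟩
  have r1 : ∀ M : Multiset ℝ, (∀ x ∈ M, 1 < x) →
      δ * (M.map (fun x => 1 / (δ - δ * x))).sum = -(M.map (fun x => (x - 1)⁻¹)).sum := by
    intro M hM
    rw [← Multiset.sum_map_mul_left, ← Multiset.sum_map_neg]
    congr 1
    apply Multiset.map_congr rfl
    intro x hx
    have h1 := (hne x (hM x hx)).1
    have h2 : δ - δ * x = -(δ * (x - 1)) := by ring
    rw [h2]
    field_simp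
  have r2 : ∀ M : Multiset ℝ, (∀ x ∈ M, 1 < x) →
      δ * (M.map (fun x => 1 / (δ - -(δ * x)))).sum = (M.map (fun x => (x + 1)⁻¹)).sum := by
    intro M hM
    rw [← Multiset.sum_map_mul_left]
    congr 1
    apply Multiset.map_congr rfl
    intro x hx
    have h1 := (hne x (hM x hx)).2
    have h2 : δ - -(δ * x) = δ * (x + 1) := by ring
    rw [h2]
    field_simp
  have r3 : ∀ M : Multiset ℝ, (∀ x ∈ M, 1 < x) →
      -δ * (M.map (fun x => 1 / (-δ - δ * x))).sum = (M.map (fun x => (x + 1)⁻¹)).sum := by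
    intro M hM
    rw [← Multiset.sum_map_mul_left]
    congr 1
    apply Multiset.map_congr rfl
    intro x hx
    have h1 := (hne x (hM x hx)).2
    have h2 : -δ - δ * x = -(δ * (x + 1)) := by ring
    rw [h2]
    field_simp
  have r4 : ∀ M : Multiset ℝ, (∀ x ∈ M, 1 < x) →
      -δ * (M.map (fun x => 1 / (-δ - -(δ * x)))).sum = -(M.map (fun x => (x - 1)⁻¹)).sum := by
    intro M hM
    rw [← Multiset.sum_map_mul_left, ← Multiset.sum_map_neg]
    congr 1
    apply Multiset.map_congr rfl
    intro x hx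
    have h1 := (hne x (hM x hx)).1
    have h2 : -δ - -(δ * x) = δ * (x - 1) := by ring
    rw [h2]
    field_simp
  rw [hMK, Multiset.map_add, Multiset.sum_add, Multiset.map_map, Multiset.map_map, mul_add] at kA kB
  simp only [Function.comp_def] at kA kB
  rw [r1 M hM, r2 K hK] at kA
  rw [r3 M hM, r4 K hK] at kB
  have hcardT : (Multiset.card T : ℝ) = Multiset.card M + Multiset.card K := by
    rw [hMK, Multiset.card_add, Multiset.card_map, Multiset.card_map]
    push_cast
    ring
  have hcard1 : 1 ≤ Multiset.card M + Multiset.card K := by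
    have : Multiset.card T = Multiset.card M + Multiset.card K := by
      rw [hMK, Multiset.card_add, Multiset.card_map, Multiset.card_map]
    omega
  have hsum : (T.map (fun t => |t - κ|)).sum = (M.map (fun x => |δ * x - κ|)).sum +
      (K.map (fun x => |-(δ * x) - κ|)).sum := by
    rw [hMK, Multiset.map_add, Multiset.sum_add, Multiset.map_map, Multiset.map_map]
    rfl
  rw [hsum, hcardT]
  have hsc : ∀ (M : Multiset ℝ) (f g : ℝ → ℝ), (∀ x, δ * f x = g x) →
      δ * (M.map f).sum = (M.map g).sum := by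
    intro M f g hfg
    rw [← Multiset.sum_map_mul_left]
    congr 1
    apply Multiset.map_congr rfl
    intro x _
    exact hfg x
  rcases le_total 0 κ with hκ | hκ
  · have h1 := real_core M K hM hK hcard1 (by linarith) (by linarith) (c := κ / δ) (by positivity)
    have h2 := mul_le_mul_of_nonneg_left h1 hδ.le
    have e1 := hsc M (fun x => |x - κ / δ|) (fun x => |δ * x - κ|) (fun x => by
      rw [← abs_of_pos hδ, ← abs_mul, abs_of_pos hδ]
      congr 1
      field_simp)
    have e2 := hsc K (fun x => |x + κ / δ|) (fun x => |-(δ * x) - κ|) (fun x => by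
      rw [← abs_of_pos hδ, ← abs_mul, abs_of_pos hδ, ← abs_neg]
      congr 1
      field_simp
      ring)
    have e3 : δ * (κ / δ) = κ := by field_simp
    rw [mul_add δ (_ + _) _, mul_add δ 1 _, mul_add δ (_ + _) _, mul_add δ (κ / δ) _, e1, e2, e3] at h2
    rw [abs_of_nonneg hκ]
    linarith
  · have h1 := real_core K M hK hM (by omega) (by linarith) (by linarith) (c := -κ / δ)
      (by
        have : 0 ≤ -κ := by linarith
        positivity)
    have h2 := mul_le_mul_of_nonneg_left h1 hδ.le
    have e1 := hsc K (fun x => |x - -κ / δ|) (fun x => |-(δ * x) - κ|) (fun x => by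
      rw [← abs_of_pos hδ, ← abs_mul, abs_of_pos hδ, ← abs_neg]
      congr 1
      field_simp
      ring)
    have e2 := hsc M (fun x => |x + -κ / δ|) (fun x => |δ * x - κ|) (fun x => by
      rw [← abs_of_pos hδ, ← abs_mul, abs_of_pos hδ]
      congr 1
      field_simp
      ring)
    have e3 : δ * (-κ / δ) = -κ := by field_simp
    rw [mul_add δ (_ + _) _, mul_add δ 1 _, mul_add δ (_ + _) _, mul_add δ (-κ / δ) _, e1, e2, e3] at h2
    rw [abs_of_nonpos hκ]
    linarith

/-- Borcea's inequality for `p = 1`, real zeros -/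
theorem borcea_real {T : Multiset ℝ} (hT0 : ∀ t ∈ T, t ≠ 0) (hT1 : 1 ≤ Multiset.card T) {Q : ℝ[X]}
    (hQ : Q = X * (T.map (fun t => X - C t)).prod) (κ : ℝ) :
    ∃ s ∈ Q.derivative.roots, ((Multiset.card T : ℝ) + 1) * |s| ≤
      |κ| + (T.map (fun t => |t - κ|)).sum := by
  by_contra hcon
  push Not at hcon
  set V : ℝ := |κ| + (T.map (fun t => |t - κ|)).sum with hV
  have hV0 : 0 ≤ V := by
    apply add_nonneg (abs_nonneg _)
    apply Multiset.sum_nonneg
    intro y hy
    obtain ⟨x, _, rfl⟩ := Multiset.mem_map.mp hy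
    exact abs_nonneg _
  have hn : (0 : ℝ) < (Multiset.card T : ℝ) + 1 := by positivity
  by_cases hemp : Q.derivative.roots.toFinset.Nonempty
  · obtain ⟨s₀, hs₀, hmin⟩ := Finset.exists_min_image _ (fun s => |s|) hemp
    rw [Multiset.mem_toFinset] at hs₀
    have h1 := hcon s₀ hs₀
    have h2 : V / ((Multiset.card T : ℝ) + 1) < |s₀| := by
      rw [div_lt_iff₀ hn]; linarith
    have h3 : 0 ≤ V / ((Multiset.card T : ℝ) + 1) := by positivity
    have h4 := far_core hT0 hT1 hQ (δ := (V / ((Multiset.card T : ℝ) + 1) + |s₀|) / 2)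
      (by linarith) (by
        intro s hs
        have := hmin s (Multiset.mem_toFinset.mpr hs)
        linarith) κ
    rw [← hV] at h4
    have h5 : ((Multiset.card T : ℝ) + 1) * (V / ((Multiset.card T : ℝ) + 1)) = V := by
      field_simp
    nlinarith
  · have h0 : Q.derivative.roots = 0 := by
      rw [Finset.not_nonempty_iff_eq_empty, Multiset.toFinset_eq_empty] at hemp
      exact hemp
    have h4 := far_core hT0 hT1 hQ (δ := V + 1) (by linarith) (by
      intro s hs
      rw [h0] at hs
      simp at hs) κ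
    rw [← hV] at h4
    have h5 : (1 : ℝ) ≤ (Multiset.card T : ℝ) := by exact_mod_cast hT1
    nlinarith

end Pool.Agent.H218R3.Col
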