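import Pool.Agent.H218R3.Col5

/-!
Borcea's variance inequality for complex polynomials with collinear zeros.
-/

set_option autoImplicit false

open Polynomial

namespace Pool.Agent.H218R3.Col

theorem borcea_complex {P : ℂ[X]} (hn : 2 ≤ P.natDegree) {a : ℂ} (ha : a ∈ P.roots)
    (hline : ∃ u : ℂ, ∀ z ∈ P.roots, ∃ t : ℝ, z = a + t * u) (c : ℂ) :
    ∃ w ∈ P.derivative.roots,
      (P.natDegree : ℝ) * ‖a - w‖ ≤ (P.roots.map (fun z => ‖z - c‖)).sum := by
  classical
  have hd0 : P.derivative ≠ 0 := by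
    intro h
    have := derivative_eq_zero.mp h
    omega
  by_cases hd : P.derivative.eval a = 0
  · refine ⟨a, (mem_roots hd0).mpr hd, ?_⟩
    rw [sub_self, norm_zero, mul_zero]
    apply Multiset.sum_nonneg
    intro x hx
    obtain ⟨w, _, rfl⟩ := Multiset.mem_map.mp hx
    exact norm_nonneg _
  have hP0 : P ≠ 0 := by
    rintro rfl
    simp at ha
  obtain ⟨R, hR⟩ := Multiset.exists_cons_of_mem ha
  have hcard : Multiset.card P.roots = P.natDegree :=
    splits_iff_card_roots.mp (IsAlgClosed.splits P)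
  have hprod : C P.leadingCoeff * (P.roots.map (fun z => X - C z)).prod = P :=
    C_leadingCoeff_mul_prod_multiset_X_sub_C hcard
  rw [hR, Multiset.map_cons, Multiset.prod_cons] at hprod
  rw [hR, Multiset.card_cons] at hcard
  have haR : a ∉ R := by
    intro h
    apply hd
    rw [← hprod, derivative_C_mul, derivative_mul, derivative_sub, derivative_X, derivative_C,
      sub_zero, one_mul, eval_mul, eval_add, eval_mul, eval_sub, eval_X, eval_C, eval_C, sub_self,
      zero_mul, add_zero]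
    have h1 : ((R.map (fun z => X - C z)).prod : ℂ[X]).eval a = 0 := by
      rw [← Polynomial.IsRoot.def, ← mem_roots (monic_multiset_prod_of_monic _ _
        (fun t _ => monic_X_sub_C t)).ne_zero, roots_multiset_prod_X_sub_C]
      exact h
    rw [h1, mul_zero]
  have hk : P.leadingCoeff ≠ 0 := leadingCoeff_ne_zero.mpr hP0
  have hRcard : 1 ≤ Multiset.card R := by omega
  obtain ⟨r, hr⟩ := Multiset.card_pos_iff_exists_mem.mp hRcard
  obtain ⟨u, hu⟩ := hline
  choose! t ht using hu
  have hu0 : u ≠ 0 := by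
    rintro rfl
    have h1 := ht r (by rw [hR]; exact Multiset.mem_cons_of_mem hr)
    rw [mul_zero, add_zero] at h1
    exact haR (h1 ▸ hr)
  have hnu : 0 < ‖u‖ := norm_pos_iff.mpr hu0
  set v : ℂ := u / (‖u‖ : ℂ) with hv
  have hnv : ‖v‖ = 1 := by
    rw [hv, norm_div, Complex.norm_real, norm_norm, div_self hnu.ne']
  have hv0 : v ≠ 0 := by
    intro h
    rw [h, norm_zero] at hnv
    exact zero_ne_one hnv
  have ht' : ∀ z ∈ P.roots, z = a + ((t z * ‖u‖ : ℝ) : ℂ) * v := by
    intro z hz'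
    have h1 := ht z hz'
    have h2 : ((t z * ‖u‖ : ℝ) : ℂ) * v = t z * u := by
      rw [hv]
      have : (‖u‖ : ℂ) ≠ 0 := by exact_mod_cast hnu.ne'
      push_cast
      field_simp
    rw [h2]
    exact h1
  have hmem : ∀ z ∈ R, z ∈ P.roots := fun z h => by rw [hR]; exact Multiset.mem_cons_of_mem h
  have hP : P = C P.leadingCoeff * ((X - C a) *
      ((R.map (fun z => t z * ‖u‖)).map (fun s : ℝ => X - C (a + s * v))).prod) := by
    conv_lhs => rw [← hprod]
    congr 3
    rw [Multiset.map_map]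
    apply Multiset.map_congr rfl
    intro z hz'
    simp only [Function.comp]
    rw [← ht' z (hmem z hz')]
  set T : Multiset ℝ := R.map (fun z => t z * ‖u‖) with hT
  have htr := transfer (T := T) (a := a) (u := v) hv0 hk hP
  set κ : ℝ := ((c - a) / v).re with hκ
  have hT0 : ∀ s ∈ T, s ≠ 0 := by
    intro s hs h0
    obtain ⟨z, hz', rfl⟩ := Multiset.mem_map.mp hs
    have h1 := ht' z (hmem z hz')
    rw [h0, Complex.ofReal_zero, zero_mul, add_zero] at h1
    exact haR (h1 ▸ hz')
  have hTcard : Multiset.card T = Multiset.card R := by rw [hT, Multiset.card_map]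
  obtain ⟨s, hs, hbound⟩ := borcea_real hT0 (by omega) (Q := X * (T.map (fun t => X - C t)).prod)
    rfl κ
  refine ⟨a + s * v, ?_, ?_⟩
  · rw [htr]
    exact Multiset.mem_map_of_mem _ hs
  · have h1 : ‖a - (a + s * v)‖ = |s| := by
      have : a - (a + s * v) = -(s * v) := by ring
      rw [this, norm_neg, norm_mul, hnv, mul_one, Complex.norm_real, Real.norm_eq_abs]
    have hdist : ∀ x : ℝ, |x - κ| ≤ ‖a + x * v - c‖ := by
      intro x
      have h2 : a + x * v - c = ((x : ℂ) - (c - a) / v) * v := by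
        field_simp
        ring
      rw [h2, norm_mul, hnv, mul_one]
      have h3 := Complex.abs_re_le_norm ((x : ℂ) - (c - a) / v)
      rw [Complex.sub_re, Complex.ofReal_re] at h3
      exact h3
    have h4 : |κ| ≤ ‖a - c‖ := by
      have := hdist 0
      rw [Complex.ofReal_zero, zero_mul, add_zero, zero_sub, abs_neg] at this
      exact this
    have h5 : (T.map (fun t => |t - κ|)).sum ≤ (R.map (fun z => ‖z - c‖)).sum := by
      rw [hT, Multiset.map_map]
      apply Multiset.sum_map_le_sum_map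
      intro z hz'
      simp only [Function.comp]
      have h6 := hdist (t z * ‖u‖)
      rw [← ht' z (hmem z hz')] at h6
      exact h6
    have h7 : (P.natDegree : ℝ) = (Multiset.card T : ℝ) + 1 := by
      rw [← hcard, hTcard]; push_cast; ring
    rw [h1, h7, hR, Multiset.map_cons, Multiset.sum_cons]
    linarith

/-- power means -/
lemma mean_le {n : ℕ} (hn : 0 < n) (x : Fin n → ℝ) (hx : ∀ j, 0 ≤ x j) {p : ℝ} (hp : 1 ≤ p) :
    (1 / (n : ℝ)) * ∑ j, x j ≤ ((1 / (n : ℝ)) * ∑ j, x j ^ p) ^ (1 / p) := by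
  have hn' : (0 : ℝ) < n := by exact_mod_cast hn
  have h := Real.arith_mean_le_rpow_mean (Finset.univ : Finset (Fin n)) (fun _ => 1 / (n : ℝ)) x
    (fun _ _ => by positivity) (by simp [hn'.ne']) (fun j _ => hx j) hp
  rw [Finset.mul_sum, Finset.mul_sum]
  exact h

theorem borcea_fin {n : ℕ} (hn : 2 ≤ n) (z : Fin n → ℂ)
    (hline : ∃ b u : ℂ, ∀ j, ∃ t : ℝ, z j = b + t * u) {p : ℝ} (hp : 1 ≤ p) (c : ℂ) (k : Fin n) :
    ∃ w : ℂ, (derivative (∏ j : Fin n, (X - C (z j)))).IsRoot w ∧
      ‖z k - w‖ ≤ ((1 / (n : ℝ)) * ∑ j : Fin n, ‖z j - c‖ ^ p) ^ (1 / p) := by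
  set P : ℂ[X] := ∏ j, (X - C (z j)) with hP
  have hmonic : P.Monic := monic_prod_of_monic _ _ fun j _ => monic_X_sub_C _
  have hroots : P.roots = Finset.univ.val.map z := by
    have h1 : P = ((Finset.univ.val.map z).map (fun w => X - C w)).prod := by
      rw [Multiset.map_map]
      rfl
    rw [h1, roots_multiset_prod_X_sub_C]
  have hdeg : P.natDegree = n := by
    rw [hP, natDegree_prod_of_monic _ _ (fun j _ => monic_X_sub_C _)]
    simp
  have hmem : ∀ w ∈ P.roots, ∃ j, w = z j := by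
    intro w hw
    rw [hroots, Multiset.mem_map] at hw
    obtain ⟨j, _, h⟩ := hw
    exact ⟨j, h.symm⟩
  have ha : z k ∈ P.roots := by
    rw [hroots, Multiset.mem_map]
    exact ⟨k, Finset.mem_univ_val _, rfl⟩
  obtain ⟨w, hw, hb⟩ := borcea_complex (by omega) ha (by
    obtain ⟨b, u, hu⟩ := hline
    refine ⟨u, fun w hw => ?_⟩
    obtain ⟨j, rfl⟩ := hmem w hw
    obtain ⟨t, ht⟩ := hu j
    obtain ⟨s, hs⟩ := hu k
    refine ⟨t - s, ?_⟩
    rw [ht, hs]
    push_cast
    ring) c
  have hd0 : P.derivative ≠ 0 := by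
    intro h
    have := derivative_eq_zero.mp h
    omega
  refine ⟨w, (mem_roots hd0).mp hw, ?_⟩
  rw [hdeg, hroots, Multiset.map_map] at hb
  have hb' : (n : ℝ) * ‖z k - w‖ ≤ ∑ j, ‖z j - c‖ := hb
  have hn' : (0 : ℝ) < n := by
    have : 0 < n := by omega
    exact_mod_cast this
  refine le_trans ?_ (mean_le (by omega) (fun j => ‖z j - c‖) (fun j => norm_nonneg _) hp)
  rw [one_div, inv_mul_eq_div, le_div_iff₀ hn']
  linarith

end Pool.Agent.H218R3.Col
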