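import Pool.Agent.H218R3.Col6

/-!
Equality in Borcea's variance inequality for collinear zeros.
-/

set_option autoImplicit false

open Polynomial

namespace Pool.Agent.H218R3.Col

lemma mean_lt {n : ℕ} (hn : 0 < n) (x : Fin n → ℝ) (hx : ∀ j, 0 ≤ x j) {p : ℝ} (hp : 1 < p)
    {i j : Fin n} (hij : x i ≠ x j) :
    (1 / (n : ℝ)) * ∑ j, x j < ((1 / (n : ℝ)) * ∑ j, x j ^ p) ^ (1 / p) := by
  have hn' : (0 : ℝ) < n := by exact_mod_cast hn
  have h := (strictConvexOn_rpow hp).map_sum_lt (t := (Finset.univ : Finset (Fin n)))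
    (w := fun _ => 1 / (n : ℝ)) (p := x) (fun _ _ => by positivity) (by simp [hn'.ne'])
    (fun j _ => hx j) ⟨i, Finset.mem_univ i, j, Finset.mem_univ j, hij⟩
  simp only [smul_eq_mul] at h
  rw [← Finset.mul_sum, ← Finset.mul_sum] at h
  have h0 : 0 ≤ (1 / (n : ℝ)) * ∑ j, x j :=
    mul_nonneg (by positivity) (Finset.sum_nonneg fun j _ => hx j)
  have hp0 : 0 < p := by linarith
  calc (1 / (n : ℝ)) * ∑ j, x j = (((1 / (n : ℝ)) * ∑ j, x j) ^ p) ^ (1 / p) := by
        rw [← Real.rpow_mul h0, mul_one_div_cancel hp0.ne', Real.rpow_one]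
    _ < _ := Real.rpow_lt_rpow (Real.rpow_nonneg h0 _) h (by positivity)

/-- a line meets a circle in at most two points -/
lemma line_circle {a u c : ℂ} {s t : ℝ} (hu : u ≠ 0) (hs : s ≠ 0) (ht : t ≠ 0)
    (h1 : ‖a + s * u - c‖ = ‖a - c‖) (h2 : ‖a + t * u - c‖ = ‖a - c‖) : s = t := by
  have hnu : 0 < u.re ^ 2 + u.im ^ 2 := by
    have h := norm_pos_iff.mpr hu
    have h3 := Complex.sq_norm u
    rw [Complex.normSq_apply] at h3
    nlinarith [sq_nonneg ‖u‖]
  have key : ∀ r : ℝ, r ≠ 0 → ‖a + r * u - c‖ = ‖a - c‖ →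
      r * (u.re ^ 2 + u.im ^ 2) = -2 * ((a - c).re * u.re + (a - c).im * u.im) := by
    intro r hr h
    have h3 : ‖a + r * u - c‖ ^ 2 = ‖a - c‖ ^ 2 := by rw [h]
    rw [Complex.sq_norm, Complex.sq_norm, Complex.normSq_apply, Complex.normSq_apply] at h3
    simp only [Complex.add_re, Complex.add_im, Complex.sub_re, Complex.sub_im, Complex.mul_re,
      Complex.mul_im, Complex.ofReal_re, Complex.ofReal_im, zero_mul, sub_zero, add_zero] at h3 ⊢
    apply mul_left_cancel₀ hr
    linear_combination h3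
  have e1 := key s hs h1
  have e2 := key t ht h2
  exact mul_right_cancel₀ hnu.ne' (e1.trans e2.symm)

theorem borcea_strict {n : ℕ} (hn : 2 ≤ n) (z : Fin n → ℂ)
    (hline : ∃ b u : ℂ, ∀ j, ∃ t : ℝ, z j = b + t * u) {p : ℝ} (hp : 1 < p)
    (hform : ¬ ∃ b c : ℂ, ∏ j : Fin n, (X - C (z j)) = (X - C c) ^ n - C b) (c : ℂ) (k : Fin n) :
    ∃ w : ℂ, (derivative (∏ j : Fin n, (X - C (z j)))).IsRoot w ∧
      ‖z k - w‖ < ((1 / (n : ℝ)) * ∑ j : Fin n, ‖z j - c‖ ^ p) ^ (1 / p) := by
  have hn0 : 0 < n := by omega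
  have hn' : (0 : ℝ) < n := by exact_mod_cast hn0
  have hp0 : 0 < p := by linarith
  have h1exp : ∀ c' : ℂ, ∃ w : ℂ, (derivative (∏ j : Fin n, (X - C (z j)))).IsRoot w ∧
      ‖z k - w‖ ≤ (1 / (n : ℝ)) * ∑ j : Fin n, ‖z j - c'‖ := by
    intro c'
    obtain ⟨w, hw, h⟩ := borcea_fin hn z hline (le_refl (1 : ℝ)) c' k
    refine ⟨w, hw, h.trans (le_of_eq ?_)⟩
    simp only [Real.rpow_one, one_div_one]
  by_cases hall : ∀ i j, ‖z i - c‖ = ‖z j - c‖
  · set ρ : ℝ := ‖z k - c‖ with hρ
    have hV : ((1 / (n : ℝ)) * ∑ j : Fin n, ‖z j - c‖ ^ p) ^ (1 / p) = ρ := by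
      have : ∀ j, ‖z j - c‖ ^ p = ρ ^ p := fun j => by rw [hρ, hall j k]
      simp only [this, Finset.sum_const, Finset.card_univ, Fintype.card_fin, nsmul_eq_mul]
      rw [← mul_assoc, one_div_mul_cancel hn'.ne', one_mul, ← Real.rpow_mul (norm_nonneg _),
        mul_one_div_cancel hp0.ne', Real.rpow_one]
    rw [hV]
    have hρ0 : 0 < ρ := by
      rcases (norm_nonneg (z k - c)).lt_or_eq with h | h
      · exact h
      · exfalso
        apply hform
        refine ⟨0, c, ?_⟩
        have h2 : ∀ j, z j = c := by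
          intro j
          have h3 := hall j k
          rw [← h, norm_eq_zero, sub_eq_zero] at h3
          exact h3
        simp [h2]
    by_cases hex : ∃ j, j ≠ k ∧ z j = z k
    · obtain ⟨j, hjk, hzj⟩ := hex
      refine ⟨z k, ?_, by rw [sub_self, norm_zero]; exact hρ0⟩
      have h3 : (∏ j : Fin n, (X - C (z j)) : ℂ[X]) =
          (X - C (z k)) * ((X - C (z k)) * ∏ i ∈ (Finset.univ.erase k).erase j, (X - C (z i))) := by
        rw [← Finset.mul_prod_erase _ _ (Finset.mem_univ k),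
          ← Finset.mul_prod_erase (Finset.univ.erase k) _
            (Finset.mem_erase.mpr ⟨hjk, Finset.mem_univ j⟩), hzj]
      rw [h3, IsRoot, derivative_mul, eval_add, eval_mul, eval_mul, eval_mul]
      simp
    · push Not at hex
      obtain ⟨b, u, hbu⟩ := hline
      choose t ht using hbu
      obtain ⟨j₀, hj₀⟩ : ∃ j₀ : Fin n, j₀ ≠ k := by
        by_contra hcon
        push Not at hcon
        have h3 := hcon ⟨0, by omega⟩
        have h4 := hcon ⟨1, by omega⟩
        rw [← h4] at h3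
        simp [Fin.ext_iff] at h3
      have hrel : ∀ j, z j = z k + ((t j - t k : ℝ) : ℂ) * u := by
        intro j
        rw [ht j, ht k]; push_cast; ring
      have hu : u ≠ 0 := by
        rintro rfl
        apply hex j₀ hj₀
        rw [hrel j₀, mul_zero, add_zero]
      have htne : ∀ j, j ≠ k → t j - t k ≠ 0 := by
        intro j hj h0
        apply hex j hj
        rw [hrel j, h0]; simp
      have hothers : ∀ j, j ≠ k → z j = z j₀ := by
        intro j hj
        have h3 : t j - t k = t j₀ - t k := by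
          apply line_circle (a := z k) (c := c) hu (htne j hj) (htne j₀ hj₀)
          · rw [← hrel j]; exact hall j k
          · rw [← hrel j₀]; exact hall j₀ k
        rw [hrel j, hrel j₀, h3]
      obtain ⟨w, hw, hb⟩ := h1exp (z j₀)
      refine ⟨w, hw, lt_of_le_of_lt hb ?_⟩
      have hsum : ∑ j : Fin n, ‖z j - z j₀‖ = ‖z k - z j₀‖ := by
        rw [Finset.sum_eq_single k]
        · intro j _ hj
          rw [hothers j hj, sub_self, norm_zero]
        · intro h; exact absurd (Finset.mem_univ k) h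
      have htri : ‖z k - z j₀‖ ≤ 2 * ρ := by
        have h3 : z k - z j₀ = (z k - c) - (z j₀ - c) := by ring
        rw [h3]
        refine (norm_sub_le _ _).trans ?_
        rw [hall j₀ k]
        linarith
      rw [hsum]
      rcases (by omega : n = 2 ∨ 3 ≤ n) with h2 | h3
      · exfalso
        apply hform
        subst h2
        refine ⟨((z 0 - z 1) / 2) ^ 2, (z 0 + z 1) / 2, ?_⟩
        rw [Fin.prod_univ_two]
        have e1 : (C ((z 0 + z 1) / 2) : ℂ[X]) = C (1 / 2) * (C (z 0) + C (z 1)) := by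
          rw [← C_add, ← C_mul]; congr 1; ring
        have e2 : (C (((z 0 - z 1) / 2) ^ 2) : ℂ[X]) = C (1 / 2) ^ 2 * (C (z 0) - C (z 1)) ^ 2 := by
          rw [← C_sub, ← C_pow, ← C_pow, ← C_mul]; congr 1; ring
        have e3 : (C (1 / 2) : ℂ[X]) * 2 = 1 := by
          have : (2 : ℂ[X]) = C 2 := rfl
          rw [this, ← C_mul]
          norm_num
        rw [e1, e2]
        have e4 : (C (1 / 2) : ℂ[X]) ^ 2 * 4 = 1 := by linear_combination (C (1/2) * 2 + 1) * e3
        linear_combination (-(X : ℂ[X]) * (C (z 0) + C (z 1)) + 0) * (-e3) * 1 +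
          (C (z 0) * C (z 1)) * (-e4)
      · have h3' : (3 : ℝ) ≤ n := by exact_mod_cast h3
        rw [one_div, inv_mul_eq_div, div_lt_iff₀ hn']
        nlinarith
  · push Not at hall
    obtain ⟨i, j, hij⟩ := hall
    obtain ⟨w, hw, hb⟩ := h1exp c
    exact ⟨w, hw, lt_of_le_of_lt hb
      (mean_lt hn0 (fun j => ‖z j - c‖) (fun j => norm_nonneg _) hp (i := i) (j := j) hij)⟩

end Pool.Agent.H218R3.Col
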