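import Pool.Agent.H218R3.Skel

set_option autoImplicit false
open Filter Topology Set Metric

namespace Pool.Agent.H218R3.Fat

noncomputable section

/-- Fatou components: the connected components of the Fatou set. -/
def IsFatouComponent (f : ℂ → ℂ) (U : Set ℂ) : Prop :=
  ∃ z ∈ FatouSet f, U = connectedComponentIn (FatouSet f) z

namespace Skel

variable {f : ℂ → ℂ} {ζ ε : ℕ → ℝ} {C : Set ℂ}

lemma isFatouComponent_UU (S : Skel f ζ ε C) (n : ℕ) : IsFatouComponent f (UU f ζ n) :=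
  ⟨_, (S.escAt_of_ann (S.base_mem n)).mem_FatouSet, rfl⟩

/-- Points with an itinerary escape. -/
lemma norm_ge_of_disc (S : Skel f ζ ε C) {n : ℕ} {c z : ℂ} (hc : c ∈ C)
    (hz : z ∈ closedBall (c * ζ n) (ε n * ζ n)) : ζ n / 2 ≤ ‖z‖ ∧ ‖z‖ ≤ 2 * ζ n := by
  have h3 := S.zeta_pos n
  have h6 := S.eps_lt n
  have hcn : ‖c * (ζ n : ℂ)‖ = ζ n := by
    rw [norm_mul, S.norm_c hc, Complex.norm_real, Real.norm_eq_abs, abs_of_pos h3, one_mul]
  rw [mem_closedBall_iff_norm] at hz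
  constructor
  · have := norm_sub_norm_le (c * (ζ n : ℂ)) (c * (ζ n : ℂ) - z)
    rw [norm_sub_rev (c * (ζ n : ℂ)) z, hcn] at this
    have h7 : c * (ζ n : ℂ) - (c * ζ n - z) = z := by ring
    rw [h7] at this
    nlinarith
  · calc ‖z‖ = ‖c * ζ n + (z - c * ζ n)‖ := by congr 1; ring
      _ ≤ ζ n + ‖z - c * ζ n‖ := (norm_add_le _ _).trans (by rw [hcn])
      _ ≤ 2 * ζ n := by nlinarith

lemma tendsto_shift (S : Skel f ζ ε C) (n : ℕ) : Tendsto (fun k => ζ (n + k)) atTop atTop := by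
  have := S.zeta_tendsto.comp (tendsto_add_atTop_nat n)
  refine this.congr fun k => ?_
  simp [add_comm]

/-- The second example: components of the complement with Fatou interior. -/
theorem typeTwo (S : Skel f ζ ε C) (hC : (1 : ℂ) ∈ C) {ρ : ℕ → ℝ} (hρ : ∀ n, 0 < ρ n)
    (hρε : ∀ n, ρ n ≤ ε n)
    (hV : ∀ n (z : ℂ), ‖z - ζ n‖ < ρ n * ζ n → ‖f z - ζ (n + 1)‖ < ρ (n + 1) * ζ (n + 1)) (n : ℕ) :
    ∃ K : Set ℂ, (∃ p ∈ (UU f ζ (n + 1))ᶜ, K = connectedComponentIn (UU f ζ (n + 1))ᶜ p) ∧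
      (interior K).Nonempty ∧ ∃ 𝒮 : Set (Set ℂ), (∀ W ∈ 𝒮, IsFatouComponent f W) ∧
        interior K = ⋃₀ 𝒮 := by
  have hit : ∀ k (z : ℂ), ‖z - ζ (n + 1)‖ < ρ (n + 1) * ζ (n + 1) →
      ‖f^[k] z - ζ (n + 1 + k)‖ < ρ (n + 1 + k) * ζ (n + 1 + k) := by
    intro k
    induction k with
    | zero => intro z hz; simpa using hz
    | succ k ih =>
      intro z hz
      rw [Function.iterate_succ_apply']
      exact hV _ _ (ih z hz)
  have hD : ∀ k (z : ℂ), ‖z - ζ (n + 1)‖ < ρ (n + 1) * ζ (n + 1) →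
      f^[k] z ∈ closedBall (1 * (ζ (n + 1 + k) : ℂ)) (ε (n + 1 + k) * ζ (n + 1 + k)) := by
    intro k z hz
    rw [mem_closedBall_iff_norm, one_mul]
    refine (hit k z hz).le.trans ?_
    exact mul_le_mul_of_nonneg_right (hρε _) (S.zeta_pos _).le
  have hVU : ∀ z : ℂ, ‖z - ζ (n + 1)‖ < ρ (n + 1) * ζ (n + 1) → z ∉ UU f ζ (n + 1) := by
    intro z hz hzU
    obtain ⟨k, hk⟩ := (S.ratio_UU hzU 2).exists
    have := (S.norm_ge_of_disc hC (hD k z hz)).2
    linarith
  set p : ℂ := (ζ (n + 1) : ℂ) with hp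
  have hpos : 0 < ρ (n + 1) * ζ (n + 1) := mul_pos (hρ _) (S.zeta_pos _)
  have hpV : ‖p - ζ (n + 1)‖ < ρ (n + 1) * ζ (n + 1) := by rwa [hp, sub_self, norm_zero]
  have hpU : p ∉ UU f ζ (n + 1) := hVU p hpV
  set K : Set ℂ := connectedComponentIn (UU f ζ (n + 1))ᶜ p with hK
  have hKpre : IsPreconnected K := isPreconnected_connectedComponentIn
  have hKU : K ⊆ (UU f ζ (n + 1))ᶜ := connectedComponentIn_subset _ _
  have hpK : p ∈ K := mem_connectedComponentIn hpU
  have hKD := fun k => S.itin (c := fun _ => 1) (fun _ => hC) (fun j => hD j p hpV) hKpre hKU hpK k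
  have hball : ball p (ρ (n + 1) * ζ (n + 1)) ⊆ K := by
    apply (convex_ball p _).isPreconnected.subset_connectedComponentIn (mem_ball_self hpos)
    intro z hz
    exact hVU z (mem_ball_iff_norm.mp hz)
  have hesc : ∀ z ∈ interior K, EscAt f z := by
    intro z hz
    obtain ⟨r, hr, hb⟩ := Metric.isOpen_iff.mp isOpen_interior z hz
    refine ⟨r, hr, fun M => ?_⟩
    filter_upwards [(S.tendsto_shift (n + 1)).eventually_gt_atTop (2 * M)] with k hk w hw
    have := (S.norm_ge_of_disc hC (hKD k w (interior_subset (hb hw)))).1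
    linarith
  refine ⟨K, ⟨p, hpU, rfl⟩, ⟨p, ?_⟩, {W | ∃ z ∈ interior K, W = comp f z}, ?_, ?_⟩
  · exact interior_maximal hball isOpen_ball (mem_ball_self hpos)
  · rintro W ⟨z, hz, rfl⟩
    exact ⟨z, (hesc z hz).mem_FatouSet, rfl⟩
  · apply Set.Subset.antisymm
    · intro z hz
      exact ⟨comp f z, ⟨z, hz, rfl⟩, mem_connectedComponentIn (hesc z hz).mem_FatouSet⟩
    · rintro w ⟨_, ⟨z, hz, rfl⟩, hw⟩
      have hzK : z ∈ K := interior_subset hz
      have hsub : comp f z ⊆ (UU f ζ (n + 1))ᶜ := by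
        intro v hv hvU
        have h1 : comp f v = comp f z := (connectedComponentIn_eq hv).symm
        have h2 : comp f v = UU f ζ (n + 1) := comp_eq_UU hvU
        have h3 : z ∈ comp f z := mem_connectedComponentIn (hesc z hz).mem_FatouSet
        rw [← h1, h2] at h3
        exact hKU hzK h3
      have h4 : comp f z ⊆ K := by
        rw [hK, connectedComponentIn_eq hzK]
        exact isPreconnected_connectedComponentIn.subset_connectedComponentIn
          (mem_connectedComponentIn (hesc z hz).mem_FatouSet) hsub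
      exact interior_maximal h4 (isOpen_comp f z) hw

/-- The signs attached to a set of integers. -/
def sg (A : Set ℕ) (j : ℕ) : ℂ := by
  classical exact if j ∈ A then 1 else -1

lemma sg_mem (A : Set ℕ) (j : ℕ) : sg A j ∈ ({1, -1} : Set ℂ) := by
  unfold sg
  split_ifs <;> simp

lemma sg_inj {A B : Set ℕ} (h : ∀ j, sg A j = sg B j) : A = B := by
  ext j
  have h1 := h j
  unfold sg at h1
  have h2 : (1 : ℂ) ≠ -1 := by norm_num
  split_ifs at h1 with h3 h4 h4
  · simp [h3, h4]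
  · exact absurd h1 h2
  · exact absurd h1.symm h2
  · simp [h3, h4]

/-- Data of the first example. -/
structure Sing (f : ℂ → ℂ) (ζ ε : ℕ → ℝ) : Prop where
  skel : Skel f ζ ε {1, -1}
  surj : ∀ n, ∀ c ∈ ({1, -1} : Set ℂ), ∀ y : ℂ, ‖y‖ < 9 * ζ (n + 1) →
    ∃ z ∈ closedBall (c * ζ n) (ε n * ζ n), f z = y
  expand : ∀ n, ∀ c ∈ ({1, -1} : Set ℂ), ∀ z ∈ closedBall (c * ζ n) (ε n * ζ n),
    ∀ w ∈ closedBall (c * ζ n) (ε n * ζ n), 8 * ζ (n + 1) * ‖z - w‖ ≤ ζ n * ‖f z - f w‖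

/-- Nested sets. -/
def LL (f : ℂ → ℂ) (ζ ε : ℕ → ℝ) (n : ℕ) (c : ℕ → ℂ) (k : ℕ) : Set ℂ :=
  {z | ∀ j ≤ k, f^[j] z ∈ closedBall (c j * ζ (n + j)) (ε (n + j) * ζ (n + j))}

variable (T : Sing f ζ ε) (n : ℕ) {c : ℕ → ℂ} (hc : ∀ j, c j ∈ ({1, -1} : Set ℂ))

include T hc

lemma LL_surj (k : ℕ) : ∀ y : ℂ, ‖y‖ < 9 * ζ (n + k + 1) →
    ∃ z ∈ LL f ζ ε n c k, f^[k + 1] z = y := by
  have S := T.skel
  induction k with
  | zero =>
    intro y hy
    obtain ⟨z, hz, hzy⟩ := T.surj n (c 0) (hc 0) y hy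
    refine ⟨z, ?_, ?_⟩
    · intro j hj
      obtain rfl : j = 0 := by omega
      simpa using hz
    · simpa using hzy
  | succ k ih =>
    intro y hy
    obtain ⟨w, hw, hwy⟩ := T.surj (n + (k + 1)) (c (k + 1)) (hc _) y hy
    have h1 := (S.norm_ge_of_disc (hc _) hw).2
    have h2 := S.zeta_pos (n + (k + 1))
    have h3 : n + (k + 1) = n + k + 1 := by omega
    obtain ⟨z, hz, hzw⟩ := ih w (by rw [h3] at h1 h2; linarith)
    refine ⟨z, ?_, ?_⟩
    · intro j hj
      rcases Nat.lt_or_eq_of_le hj with h | h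
      · exact hz j (by omega)
      · rw [h, hzw]
        exact hw
    · rw [Function.iterate_succ_apply', hzw, hwy]

omit T hc in
lemma LL_anti (k : ℕ) : LL f ζ ε n c (k + 1) ⊆ LL f ζ ε n c k :=
  fun _ hz j hj => hz j (by omega)

lemma LL_dist (k : ℕ) : ∀ z ∈ LL f ζ ε n c k, ∀ w ∈ LL f ζ ε n c k, 8 ^ k * ‖z - w‖ ≤ ζ n := by
  have S := T.skel
  have key : ∀ j ≤ k, ∀ z ∈ LL f ζ ε n c k, ∀ w ∈ LL f ζ ε n c k,
      8 ^ j * ζ (n + j) * ‖z - w‖ ≤ ζ n * ‖f^[j] z - f^[j] w‖ := by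
    intro j
    induction j with
    | zero =>
      intro _ z _ w _
      simp
    | succ j ih =>
      intro hj z hz w hw
      have h1 := ih (by omega) z hz w hw
      have h2 := T.expand (n + j) (c j) (hc j) _ (hz j (by omega)) _ (hw j (by omega))
      rw [Function.iterate_succ_apply', Function.iterate_succ_apply']
      have h3 := S.zeta_pos (n + j)
      have h4 := S.zeta_pos n
      have h5 := S.zeta_pos (n + j + 1)
      have h6 : n + (j + 1) = n + j + 1 := by omega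
      rw [h6]
      have h7 : ζ (n + j) * (8 ^ (j + 1) * ζ (n + j + 1) * ‖z - w‖) ≤
          ζ (n + j) * (ζ n * ‖f (f^[j] z) - f (f^[j] w)‖) := by
        calc ζ (n + j) * (8 ^ (j + 1) * ζ (n + j + 1) * ‖z - w‖)
            = 8 * ζ (n + j + 1) * (8 ^ j * ζ (n + j) * ‖z - w‖) := by ring
          _ ≤ 8 * ζ (n + j + 1) * (ζ n * ‖f^[j] z - f^[j] w‖) := by gcongr
          _ = ζ n * (8 * ζ (n + j + 1) * ‖f^[j] z - f^[j] w‖) := by ring
          _ ≤ ζ n * (ζ (n + j) * ‖f (f^[j] z) - f (f^[j] w)‖) := by gcongr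
          _ = _ := by ring
      exact le_of_mul_le_mul_left h7 h3
  intro z hz w hw
  have h1 := key k le_rfl z hz w hw
  have h2 := mem_closedBall_iff_norm.mp (hz k le_rfl)
  have h3 := mem_closedBall_iff_norm.mp (hw k le_rfl)
  have h4 : ‖f^[k] z - f^[k] w‖ ≤ ζ (n + k) := by
    have h5 : f^[k] z - f^[k] w = (f^[k] z - c k * ζ (n + k)) - (f^[k] w - c k * ζ (n + k)) := by
      ring
    rw [h5]
    refine (norm_sub_le _ _).trans ?_
    have := S.eps_lt (n + k)
    have := S.zeta_pos (n + k)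
    nlinarith
  have h6 := S.zeta_pos (n + k)
  have h7 := S.zeta_pos n
  have h8 : ζ (n + k) * (8 ^ k * ‖z - w‖) ≤ ζ (n + k) * ζ n := by
    calc ζ (n + k) * (8 ^ k * ‖z - w‖) = 8 ^ k * ζ (n + k) * ‖z - w‖ := by ring
      _ ≤ ζ n * ‖f^[k] z - f^[k] w‖ := h1
      _ ≤ ζ n * ζ (n + k) := by gcongr
      _ = _ := by ring
  exact le_of_mul_le_mul_left h8 h6

/-- Existence of points with a given itinerary. -/
lemma exists_itin : ∃ z : ℂ, ∀ k, z ∈ LL f ζ ε n c k := by
  have S := T.skel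
  have hcl : ∀ k, IsClosed (LL f ζ ε n c k) := by
    intro k
    have : LL f ζ ε n c k = ⋂ j ∈ Iic k, (f^[j]) ⁻¹' (closedBall (c j * ζ (n + j))
        (ε (n + j) * ζ (n + j))) := by
      ext z
      simp [LL]
    rw [this]
    exact isClosed_biInter fun j _ => isClosed_closedBall.preimage (S.diff_iter j).continuous
  have h1 := IsCompact.nonempty_iInter_of_sequence_nonempty_isCompact_isClosed
    (fun k => LL f ζ ε n c k) (fun k => LL_anti n k) (fun k => by
      obtain ⟨z, hz, _⟩ := LL_surj T n hc k 0 (by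
        rw [norm_zero]
        linarith [S.zeta_pos (n + k + 1)])
      exact ⟨z, hz⟩) ((isCompact_closedBall (c 0 * (ζ n : ℂ)) (ε n * ζ n)).of_isClosed_subset
        (hcl 0) (fun z hz => by simpa using hz 0 le_rfl)) hcl
  obtain ⟨z, hz⟩ := h1
  exact ⟨z, fun k => mem_iInter.mp hz k⟩

/-- Such points are not in the Fatou set component. -/
lemma itin_not_esc {z : ℂ} (hz : ∀ k, z ∈ LL f ζ ε n c k) : ¬ EscAt f z := by
  have S := T.skel
  rintro ⟨r, hr, h⟩
  obtain ⟨N, hN⟩ := eventually_atTop.mp (h 0)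
  have h0 := S.zeta_pos n
  obtain ⟨k, hk1, hk2⟩ := (((tendsto_pow_atTop_atTop_of_one_lt
    (by norm_num : (1 : ℝ) < 8)).eventually_gt_atTop (ζ n / r)).and (eventually_ge_atTop N)).exists
  obtain ⟨w, hw, hw0⟩ := LL_surj T n hc k 0 (by
    rw [norm_zero]
    linarith [S.zeta_pos (n + k + 1)])
  have h1 := LL_dist T n hc k w hw z (hz k)
  rw [div_lt_iff₀ hr] at hk1
  have h2 : ‖w - z‖ < r := by
    have : (8 : ℝ) ^ k * ‖w - z‖ < 8 ^ k * r := by linarith
    exact lt_of_mul_lt_mul_left this (by positivity)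
  have h3 := hN (k + 1) (by omega) w (mem_ball_iff_norm.mpr h2)
  rw [hw0, norm_zero] at h3
  exact lt_irrefl _ h3

lemma itin_unique {z w : ℂ} (hz : ∀ k, z ∈ LL f ζ ε n c k) (hw : ∀ k, w ∈ LL f ζ ε n c k) :
    z = w := by
  by_contra hne
  have h1 : 0 < ‖z - w‖ := norm_pos_iff.mpr (sub_ne_zero.mpr hne)
  obtain ⟨k, hk⟩ := ((tendsto_pow_atTop_atTop_of_one_lt
    (by norm_num : (1 : ℝ) < 8)).eventually_gt_atTop (ζ n / ‖z - w‖)).exists
  rw [div_lt_iff₀ h1] at hk
  have := LL_dist T n hc k z (hz k) w (hw k)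
  linarith

/-- The component of such a point is a singleton. -/
lemma itin_singleton {z : ℂ} (hz : ∀ k, z ∈ LL f ζ ε n c k) :
    z ∉ UU f ζ n ∧ connectedComponentIn (UU f ζ n)ᶜ z = {z} := by
  have S := T.skel
  have hU : z ∉ UU f ζ n := fun h => itin_not_esc T n hc hz (S.escAt_UU h)
  refine ⟨hU, ?_⟩
  apply Set.Subset.antisymm
  · intro w hw
    have h1 : ∀ k, w ∈ LL f ζ ε n c k := by
      intro k j _
      exact S.itin hc (fun j => hz j j le_rfl) isPreconnected_connectedComponentIn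
        (connectedComponentIn_subset _ _) (mem_connectedComponentIn hU) j w hw
    exact itin_unique T n hc h1 hz
  · rintro w rfl
    exact mem_connectedComponentIn hU

omit hc in
lemma itin_sep {c c' : ℕ → ℂ} (hc : ∀ j, c j ∈ ({1, -1} : Set ℂ))
    (hc' : ∀ j, c' j ∈ ({1, -1} : Set ℂ)) {z : ℂ}
    (hz : ∀ k, z ∈ LL f ζ ε n c k) (hz' : ∀ k, z ∈ LL f ζ ε n c' k) (j : ℕ) : c j = c' j := by
  have S := T.skel
  have h1 := mem_closedBall_iff_norm.mp (hz j j le_rfl)
  have h2 := mem_closedBall_iff_norm.mp (hz' j j le_rfl)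
  have h3 := S.zeta_pos (n + j)
  have h4 := S.eps_lt (n + j)
  have h5 : ‖(c j - c' j) * (ζ (n + j) : ℂ)‖ ≤ ζ (n + j) := by
    have h6 : (c j - c' j) * (ζ (n + j) : ℂ) =
        (f^[j] z - c' j * ζ (n + j)) - (f^[j] z - c j * ζ (n + j)) := by ring
    rw [h6]
    refine (norm_sub_le _ _).trans ?_
    nlinarith
  rw [norm_mul, Complex.norm_real, Real.norm_eq_abs, abs_of_pos h3] at h5
  have h7 : ‖c j - c' j‖ ≤ 1 := by
    by_contra hcon
    push Not at hcon
    nlinarith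
  have h8 : c j = 1 ∨ c j = -1 := S.C_real _ (hc j)
  have h9 : c' j = 1 ∨ c' j = -1 := S.C_real _ (hc' j)
  rcases h8 with h8 | h8 <;> rcases h9 with h9 | h9 <;> rw [h8, h9]
  · rw [h8, h9] at h7
    norm_num at h7
  · rw [h8, h9] at h7
    norm_num at h7

omit hc in
lemma exists_inj : ∃ F : Set ℕ → ℂ, Function.Injective F ∧ ∀ A, F A ∉ UU f ζ n ∧
    connectedComponentIn (UU f ζ n)ᶜ (F A) = {F A} ∧ ∃ c ∈ ({1, -1} : Set ℂ),
      F A ∈ ball (c * (ζ n : ℂ)) (ε n * ζ n) := by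
  have S := T.skel
  choose F hF using fun A : Set ℕ => exists_itin T n (sg_mem A)
  refine ⟨F, ?_, fun A => ?_⟩
  · intro A B hAB
    apply sg_inj
    intro j
    exact itin_sep T n (sg_mem A) (sg_mem B) (hF A) (by rw [hAB]; exact hF B) j
  · have h1 := itin_singleton T n (sg_mem A) (hF A)
    refine ⟨h1.1, h1.2, sg A 0, sg_mem A 0, ?_⟩
    have h2 := hF A 0 0 le_rfl
    simp only [Function.iterate_zero, id_eq, add_zero] at h2
    rw [mem_ball_iff_norm]
    apply lt_of_le_of_ne (mem_closedBall_iff_norm.mp h2)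
    intro h3
    exact h1.1 (S.sphere_subset n (sg_mem A 0) (mem_sphere_iff_norm.mpr h3))

omit hc in
/-- Uncountably many singleton components. -/
theorem uncountable_singletons :
    ¬ {z | z ∈ (UU f ζ n)ᶜ ∧ connectedComponentIn (UU f ζ n)ᶜ z = {z}}.Countable := by
  intro hcount
  obtain ⟨F, hinj, hF⟩ := exists_inj T n
  have h1 : (range F).Countable := hcount.mono (by
    rintro _ ⟨A, rfl⟩
    exact ⟨(hF A).1, (hF A).2.1⟩)
  obtain ⟨g, hg⟩ := Set.countable_iff_exists_injective.mp h1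
  apply Function.cantor_injective (fun A : Set ℕ => g ⟨F A, mem_range_self A⟩)
  intro A B hAB
  have := hg hAB
  exact hinj (Subtype.mk.inj this)

omit hc in
/-- Infinite inner connectivity. -/
theorem infinite_inner {r : ℝ} (hr : 2 * ζ n < r) :
    {K : Set (OnePoint ℂ) | ∃ x ∈ ((fun z : ℂ => (z : OnePoint ℂ)) '' (UU f ζ n ∩ ball 0 r))ᶜ,
      K = connectedComponentIn
        ((fun z : ℂ => (z : OnePoint ℂ)) '' (UU f ζ n ∩ ball 0 r))ᶜ x}.Infinite := by
  have S := T.skel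
  obtain ⟨F, hinj, hF⟩ := exists_inj T n
  have hoe : IsOpenEmbedding (fun z : ℂ => (z : OnePoint ℂ)) := OnePoint.isOpenEmbedding_coe
  have hinj2 : Function.Injective (fun A : Set ℕ => ({(F A : OnePoint ℂ)} : Set (OnePoint ℂ))) := by
    intro A B hAB
    have h1 : (F A : OnePoint ℂ) = (F B : OnePoint ℂ) := by
      simpa using hAB
    exact hinj (OnePoint.coe_injective h1)
  apply Set.infinite_of_injective_forall_mem hinj2
  intro A
  obtain ⟨h1, h2, c, hc, h3⟩ := hF A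
  set W : Set (OnePoint ℂ) := ((fun z : ℂ => (z : OnePoint ℂ)) '' (UU f ζ n ∩ ball 0 r))ᶜ with hW
  have hxW : (F A : OnePoint ℂ) ∈ W := by
    rintro ⟨w, hw, hw2⟩
    have : w = F A := OnePoint.coe_injective hw2
    rw [this] at hw
    exact h1 hw.1
  refine ⟨(F A : OnePoint ℂ), hxW, ?_⟩
  set L := connectedComponentIn W (F A : OnePoint ℂ) with hL
  have hLpre : IsPreconnected L := isPreconnected_connectedComponentIn
  have hLW : L ⊆ W := connectedComponentIn_subset _ _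
  have hxL : (F A : OnePoint ℂ) ∈ L := mem_connectedComponentIn hxW
  set B := ball (c * (ζ n : ℂ)) (ε n * ζ n) with hB
  set cB := closedBall (c * (ζ n : ℂ)) (ε n * ζ n) with hcB
  have hBo : IsOpen ((fun z : ℂ => (z : OnePoint ℂ)) '' B) := hoe.isOpenMap _ isOpen_ball
  have hcBo : IsOpen ((fun z : ℂ => (z : OnePoint ℂ)) '' cB)ᶜ :=
    ((isCompact_closedBall _ _).image hoe.continuous).isClosed.isOpen_compl
  have hz0 := S.zeta_pos n
  have hLB : L ⊆ (fun z : ℂ => (z : OnePoint ℂ)) '' B := by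
    apply hLpre.subset_left_of_subset_union hBo hcBo _ _ ⟨_, hxL, mem_image_of_mem _ h3⟩
    · rw [Set.disjoint_compl_right_iff_subset]
      exact image_mono ball_subset_closedBall
    · intro y hy
      by_cases hy2 : y ∈ (fun z : ℂ => (z : OnePoint ℂ)) '' cB
      · left
        obtain ⟨w, hw, rfl⟩ := hy2
        refine ⟨w, ?_, rfl⟩
        rw [hB, mem_ball_iff_norm]
        apply lt_of_le_of_ne (mem_closedBall_iff_norm.mp hw)
        intro h4
        apply hLW hy
        refine ⟨w, ⟨S.sphere_subset n hc (mem_sphere_iff_norm.mpr h4), ?_⟩, rfl⟩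
        rw [mem_ball_zero_iff]
        linarith [(S.norm_ge_of_disc hc hw).2]
      · exact Or.inr hy2
  set L' : Set ℂ := (fun z : ℂ => (z : OnePoint ℂ)) ⁻¹' L with hL'
  have himg : (fun z : ℂ => (z : OnePoint ℂ)) '' L' = L := by
    apply image_preimage_eq_of_subset
    exact hLB.trans (image_subset_range _ _)
  have hL'pre : IsPreconnected L' := by
    rw [← hoe.isInducing.isPreconnected_image, himg]
    exact hLpre
  have hL'U : L' ⊆ (UU f ζ n)ᶜ := by
    intro w hw hwU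
    apply hLW hw
    refine ⟨w, ⟨hwU, ?_⟩, rfl⟩
    obtain ⟨v, hv, hvw⟩ := hLB hw
    have : v = w := OnePoint.coe_injective hvw
    rw [mem_ball_zero_iff, ← this]
    linarith [(S.norm_ge_of_disc hc (ball_subset_closedBall hv)).2]
  have hL's : L' ⊆ {F A} := by
    rw [← h2]
    exact hL'pre.subset_connectedComponentIn hxL hL'U
  apply Set.Subset.antisymm
  · rintro _ rfl
    exact hxL
  · rw [← himg]
    rintro _ ⟨w, hw, rfl⟩
    have := hL's hw
    rw [mem_singleton_iff] at this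
    rw [this]
    rfl

end Skel

end

end Pool.Agent.H218R3.Fat
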