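import Pool.Agent.H218R3.Main

set_option autoImplicit false
open Filter Topology Set Metric

namespace Pool.Agent.H218R3

noncomputable section

/-- Schwarz lemma for maps into the right half-plane. -/
lemma deriv_half_plane {s : ℂ → ℂ} {z : ℂ} {r : ℝ} (hr : 0 < r)
    (hs : DifferentiableOn ℂ s (ball z r)) (hpos : ∀ w ∈ ball z r, 0 < (s w).re) :
    ‖deriv s z‖ ≤ 2 * (s z).re / r := by
  have hz : z ∈ ball z r := mem_ball_self hr
  have ha : 0 < (s z).re := hpos z hz
  set a := s z with ha_def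
  have hden : ∀ w ∈ ball z r, s w + (starRingEnd ℂ) a ≠ 0 := by
    intro w hw
    apply ne_of_re_pos
    rw [Complex.add_re, Complex.conj_re]
    linarith [hpos w hw]
  set c : ℂ → ℂ := fun w => (s w - a) / (s w + (starRingEnd ℂ) a) with hc_def
  have hcz : c z = 0 := by simp [hc_def, ← ha_def]
  have hcd : DifferentiableOn ℂ c (ball z r) :=
    (hs.sub_const a).div (hs.add_const _) hden
  have hmaps : MapsTo c (ball z r) (closedBall (c z) 1) := by
    intro w hw
    rw [hcz, mem_closedBall_zero_iff, hc_def]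
    simp only [norm_div]
    rw [div_le_one (norm_pos_iff.mpr (hden w hw))]
    apply le_of_sqs _ (norm_nonneg _)
    rw [Complex.sq_norm, Complex.sq_norm, Complex.normSq_apply, Complex.normSq_apply]
    simp only [Complex.sub_re, Complex.sub_im, Complex.add_re, Complex.add_im, Complex.conj_re,
      Complex.conj_im]
    nlinarith [hpos w hw]
  have hschwarz := Complex.norm_deriv_le_div_of_mapsTo_ball hcd hmaps hr
  have hsz : HasDerivAt s (deriv s z) z :=
    (hs.differentiableAt (isOpen_ball.mem_nhds hz)).hasDerivAt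
  have hderiv : HasDerivAt c (deriv s z / (a + (starRingEnd ℂ) a)) z := by
    have h1 := (hsz.sub_const a).div (hsz.add_const ((starRingEnd ℂ) a)) (hden z hz)
    refine h1.congr_deriv ?_
    have hne : a + (starRingEnd ℂ) a ≠ 0 := hden z hz
    rw [← ha_def]
    field_simp
    ring
  rw [hderiv.deriv, norm_div] at hschwarz
  have hsum : ‖a + (starRingEnd ℂ) a‖ = 2 * a.re := by
    rw [Complex.add_conj, Complex.norm_real, Real.norm_eq_abs, abs_of_pos (by linarith)]
  rw [hsum, div_le_div_iff₀ (by linarith) hr] at hschwarz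
  rw [le_div_iff₀ hr]
  linarith

/-- A holomorphic function on a disc omitting the ray has controlled derivative. -/
lemma deriv_omit {h : ℂ → ℂ} {z : ℂ} {r : ℝ} (hr : 0 < r)
    (hh : DifferentiableOn ℂ h (ball z r)) (homit : ∀ w ∈ ball z r, h w ∉ ray) :
    ‖deriv h z‖ ≤ 4 * ‖1 - h z‖ / r := by
  have hz : z ∈ ball z r := mem_ball_self hr
  have hslit : ∀ w ∈ ball z r, 1 - h w ∈ Complex.slitPlane := by
    intro w hw
    rw [Complex.mem_slitPlane_iff]
    by_contra hcon
    push Not at hcon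
    apply homit w hw
    obtain ⟨h1, h2⟩ := hcon
    simp at h1 h2
    exact ⟨h1, h2⟩
  set s : ℂ → ℂ := fun w => Complex.exp (Complex.log (1 - h w) / 2) with hs_def
  have hsd : DifferentiableOn ℂ s (ball z r) := by
    have h1 : DifferentiableOn ℂ (fun w => 1 - h w) (ball z r) :=
      (differentiableOn_const 1).sub hh
    exact ((h1.clog hslit).div_const 2).cexp
  have hs2 : ∀ w ∈ ball z r, s w ^ 2 = 1 - h w := by
    intro w hw
    rw [hs_def]
    simp only
    rw [← Complex.exp_nat_mul]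
    rw [show ((2:ℕ):ℂ) * (Complex.log (1 - h w) / 2) = Complex.log (1 - h w) by push_cast; ring]
    exact Complex.exp_log (Complex.slitPlane_ne_zero (hslit w hw))
  have hspos : ∀ w ∈ ball z r, 0 < (s w).re := by
    intro w hw
    rw [hs_def]
    simp only
    rw [Complex.exp_re]
    apply mul_pos (Real.exp_pos _)
    have him : (Complex.log (1 - h w) / 2).im = (1 - h w).arg / 2 := by
      simp [Complex.log_im]
    rw [him]
    have h1 := Complex.neg_pi_lt_arg (1 - h w)
    have h2 : (1 - h w).arg < Real.pi := by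
      rcases lt_or_eq_of_le (Complex.arg_le_pi (1 - h w)) with h | h
      · exact h
      · exact absurd h (Complex.slitPlane_arg_ne_pi (hslit w hw))
    apply Real.cos_pos_of_mem_Ioo
    constructor <;> linarith
  have hb := deriv_half_plane hr hsd hspos
  have hsz : HasDerivAt s (deriv s z) z :=
    (hsd.differentiableAt (isOpen_ball.mem_nhds hz)).hasDerivAt
  have hhz : HasDerivAt h (deriv h z) z :=
    (hh.differentiableAt (isOpen_ball.mem_nhds hz)).hasDerivAt
  have heq : deriv h z = -(2 * s z * deriv s z) := by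
    have e1 : HasDerivAt (fun w => s w ^ 2) (2 * s z * deriv s z) z := by
      exact (hsz.pow 2).congr_deriv (by simp)
    have e2 : HasDerivAt (fun w => 1 - h w) (-deriv h z) z := by
      simpa using hhz.const_sub 1
    have e3 : (fun w => s w ^ 2) =ᶠ[𝓝 z] (fun w => 1 - h w) := by
      filter_upwards [isOpen_ball.mem_nhds hz] with w hw using hs2 w hw
    have e4 : HasDerivAt (fun w => s w ^ 2) (-deriv h z) z := e2.congr_of_eventuallyEq e3
    have := e1.unique e4
    rw [this]; ring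
  rw [heq, norm_neg, norm_mul, norm_mul]
  have hn2 : ‖(2:ℂ)‖ = 2 := by simp
  have hre : (s z).re ≤ ‖s z‖ := Complex.re_le_norm _
  have hsq : ‖s z‖ ^ 2 = ‖1 - h z‖ := by rw [← norm_pow, hs2 z hz]
  rw [hn2, ← hsq]
  have h3 : ‖deriv s z‖ ≤ 2 * ‖s z‖ / r := by
    refine hb.trans ?_
    apply div_le_div_of_nonneg_right _ hr.le
    linarith
  calc 2 * ‖s z‖ * ‖deriv s z‖ ≤ 2 * ‖s z‖ * (2 * ‖s z‖ / r) :=
        mul_le_mul_of_nonneg_left h3 (by positivity)
    _ = 4 * ‖s z‖ ^ 2 / r := by ring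

lemma hasDerivAt_F (z : ℂ) : HasDerivAt F
    (8 * Complex.exp z * (2 * Complex.exp z - 1) * ((2 * Complex.exp z - 1) ^ 2 - 1)) z := by
  have h1 : HasDerivAt (fun z : ℂ => 2 * Complex.exp z - 1) (2 * Complex.exp z) z :=
    ((Complex.hasDerivAt_exp z).const_mul 2).sub_const 1
  have h2 := ((h1.pow 2).sub_const 1).pow 2
  refine h2.congr_deriv ?_
  simp
  ring

lemma norm_deriv_F_ge {z : ℂ} (h : 14400 < ‖F z‖) : 3 * ‖F z‖ ≤ ‖deriv F z‖ := by
  rw [(hasDerivAt_F z).deriv]
  set E := Complex.exp z with hE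
  have hF : F z = 16 * E ^ 2 * (E - 1) ^ 2 := by
    rw [F, ← hE]; ring
  have hE5 : 5 < ‖E‖ := by
    by_contra hcon
    push Not at hcon
    have h1 : ‖E - 1‖ ≤ 6 := by
      have := norm_sub_le E 1
      rw [norm_one] at this
      linarith
    have h2 : ‖F z‖ ≤ 14400 := by
      rw [hF, norm_mul, norm_mul, norm_pow, norm_pow]
      have : ‖(16:ℂ)‖ = 16 := by simp
      rw [this]
      have h3 : ‖E‖ ^ 2 ≤ 5 ^ 2 := pow_le_pow_left₀ (norm_nonneg _) hcon 2
      have h4 : ‖E - 1‖ ^ 2 ≤ 6 ^ 2 := pow_le_pow_left₀ (norm_nonneg _) h1 2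
      calc 16 * ‖E‖ ^ 2 * ‖E - 1‖ ^ 2 ≤ 16 * 5 ^ 2 * 6 ^ 2 := by
            apply mul_le_mul _ h4 (by positivity) (by positivity)
            linarith
        _ = 14400 := by norm_num
    linarith
  have hd : 8 * E * (2 * E - 1) * ((2 * E - 1) ^ 2 - 1) = 32 * E ^ 2 * (E - 1) * (2 * E - 1) := by
    ring
  rw [hd, hF]
  have e1 : ‖16 * E ^ 2 * (E - 1) ^ 2‖ = 16 * ‖E‖ ^ 2 * ‖E - 1‖ * ‖E - 1‖ := by
    simp only [norm_mul, norm_pow]
    have : ‖(16:ℂ)‖ = 16 := by simp
    rw [this]; ring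
  have e2 : ‖32 * E ^ 2 * (E - 1) * (2 * E - 1)‖ = 16 * ‖E‖ ^ 2 * ‖E - 1‖ * (2 * ‖2 * E - 1‖) := by
    simp only [norm_mul, norm_pow]
    have : ‖(32:ℂ)‖ = 32 := by simp
    rw [this]; ring
  rw [e1, e2]
  have h5 : 3 * ‖E - 1‖ ≤ 2 * ‖2 * E - 1‖ := by
    have h6 : ‖E - 1‖ ≤ ‖E‖ + 1 := by
      have := norm_sub_le E 1
      rwa [norm_one] at this
    have h7 : 2 * ‖E‖ - 1 ≤ ‖2 * E - 1‖ := by
      have := norm_sub_norm_le (2 * E) 1
      rw [norm_mul, norm_one] at this
      have h8 : ‖(2:ℂ)‖ = 2 := by simp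
      rw [h8] at this
      exact this
    linarith
  have h9 : 0 ≤ 16 * ‖E‖ ^ 2 * ‖E - 1‖ := by positivity
  nlinarith

/-- derivative of the iterates at `z` -/
lemma hasDerivAt_iter (n : ℕ) (z : ℂ) : HasDerivAt F^[n] (deriv F^[n] z) z :=
  ((differentiable_F.iterate n) z).hasDerivAt

lemma deriv_iter_succ (n : ℕ) (z : ℂ) :
    deriv F^[n + 1] z = deriv F (F^[n] z) * deriv F^[n] z := by
  have h1 : F^[n + 1] = F ∘ F^[n] := by
    funext w
    rw [Function.iterate_succ_apply']
    rfl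
  rw [h1]
  have h2 : HasDerivAt F (deriv F (F^[n] z)) (F^[n] z) := (differentiable_F _).hasDerivAt
  exact (h2.comp z (hasDerivAt_iter n z)).deriv

/-- Density of the preimages of the ray in the escaping set. -/
lemma dense_pre {z : ℂ} (hz : z ∈ Esc) {r : ℝ} (hr : 0 < r) :
    ∃ n : ℕ, ∃ w ∈ ball z r, F^[n] w ∈ ray := by
  by_contra hcon
  push Not at hcon
  have hzz : z ∈ ball z r := mem_ball_self hr
  -- derivatives never vanish
  have hd0 : ∀ n : ℕ, deriv F^[n] z ≠ 0 := by
    intro n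
    induction n with
    | zero =>
      have : deriv F^[0] z = 1 := by
        have : F^[0] = fun w => w := by funext w; simp
        rw [this]; simp
      rw [this]; exact one_ne_zero
    | succ n ih =>
      rw [deriv_iter_succ]
      refine mul_ne_zero ?_ ih
      rw [(hasDerivAt_F _).deriv]
      have hE : Complex.exp (F^[n] z) ≠ 0 := Complex.exp_ne_zero _
      have h1 : 2 * Complex.exp (F^[n] z) - 1 ≠ 0 := by
        intro h
        apply hcon (n + 1) z hzz
        rw [Function.iterate_succ_apply', F, h]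
        simpa using one_mem_ray
      have h2 : (2 * Complex.exp (F^[n] z) - 1) ^ 2 - 1 ≠ 0 := by
        intro h
        have h3 : F^[n + 1] z = 0 := by
          rw [Function.iterate_succ_apply', F, h]
          simp
        have h4 : F^[n + 1] z ∈ Esc := by
          have : ∀ k : ℕ, F^[k] z ∈ Esc := by
            intro k
            induction k with
            | zero => simpa using hz
            | succ k ihk => rw [Function.iterate_succ_apply']; exact F_mem_Esc.mpr ihk
          exact this _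
        rw [h3] at h4
        exact zero_not_mem_Esc h4
      exact mul_ne_zero (mul_ne_zero (mul_ne_zero (by norm_num) hE) h1) h2
  -- eventually large
  have htend := mem_Esc_iff.mp hz
  obtain ⟨N, hN⟩ := (tendsto_atTop_atTop.mp htend) 14401
  -- upper bound
  have hup : ∀ n : ℕ, ‖deriv F^[n] z‖ ≤ 4 * ‖1 - F^[n] z‖ / r := by
    intro n
    exact deriv_omit hr ((differentiable_F.iterate n).differentiableOn) (hcon n)
  have hstep : ∀ n : ℕ, N ≤ n → 3 * ‖F^[n + 1] z‖ * ‖deriv F^[n] z‖ ≤ ‖deriv F^[n + 1] z‖ := by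
    intro n hn
    rw [deriv_iter_succ, norm_mul]
    have h1 : 14400 < ‖F (F^[n] z)‖ := by
      rw [← Function.iterate_succ_apply' F n z]
      have := hN (n + 1) (by omega)
      linarith
    have h2 := norm_deriv_F_ge h1
    rw [← Function.iterate_succ_apply' F n z] at h2
    exact mul_le_mul_of_nonneg_right h2 (norm_nonneg _)
  have hbd : ∀ n : ℕ, N ≤ n → ‖deriv F^[n] z‖ ≤ 8 / r := by
    intro n hn
    have h1 := hstep n hn
    have h2 := hup (n + 1)
    have h3 := hN (n + 1) (by omega)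
    have h4 : ‖1 - F^[n + 1] z‖ ≤ 2 * ‖F^[n + 1] z‖ := by
      have := norm_sub_le 1 (F^[n + 1] z)
      rw [norm_one] at this
      linarith
    have h5 : 0 < ‖F^[n + 1] z‖ := by linarith
    have h6 : 3 * ‖F^[n + 1] z‖ * ‖deriv F^[n] z‖ ≤ ‖F^[n + 1] z‖ * (8 / r) := by
      refine h1.trans (h2.trans ?_)
      rw [div_le_iff₀ hr]
      have : ‖F^[n + 1] z‖ * (8 / r) * r = 8 * ‖F^[n + 1] z‖ := by
        field_simp
      rw [this]
      linarith
    have h7 : 3 * ‖deriv F^[n] z‖ ≤ 8 / r := by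
      by_contra hc
      push Not at hc
      have := mul_lt_mul_of_pos_left hc h5
      linarith
    linarith [norm_nonneg (deriv F^[n] z)]
  have hgrow : ∀ k : ℕ, (2:ℝ) ^ k * ‖deriv F^[N] z‖ ≤ ‖deriv F^[N + k] z‖ := by
    intro k
    induction k with
    | zero => simp
    | succ k ih =>
      have h1 := hstep (N + k) (by omega)
      have h3 := hN (N + k + 1) (by omega)
      have h4 := norm_nonneg (deriv F^[N + k] z)
      have : N + (k + 1) = N + k + 1 := by ring
      rw [this]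
      calc (2:ℝ) ^ (k + 1) * ‖deriv F^[N] z‖ = 2 * (2 ^ k * ‖deriv F^[N] z‖) := by ring
        _ ≤ 2 * ‖deriv F^[N + k] z‖ := by linarith
        _ ≤ 3 * ‖F^[N + k + 1] z‖ * ‖deriv F^[N + k] z‖ := by nlinarith
        _ ≤ _ := h1
  have hpos : 0 < ‖deriv F^[N] z‖ := norm_pos_iff.mpr (hd0 N)
  have ht : Tendsto (fun k : ℕ => (2:ℝ) ^ k * ‖deriv F^[N] z‖) atTop atTop :=
    (tendsto_pow_atTop_atTop_of_one_lt (by norm_num)).atTop_mul_const hpos
  obtain ⟨k, hk⟩ := (ht.eventually_gt_atTop (8 / r)).exists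
  have := hbd (N + k) (by omega)
  linarith [hgrow k]

/-- The escaping set is connected. -/
theorem isConnected_Esc : IsConnected Esc := by
  refine ⟨⟨1, ray_subset_Esc one_mem_ray⟩, ?_⟩
  intro u v hu hv hcov hune hvne
  by_contra hcon
  rw [not_nonempty_iff_eq_empty] at hcon
  -- separated pieces
  set A := Esc ∩ u with hA
  set B := Esc ∩ v with hB
  have hAB : Disjoint (closure A) B := by
    rw [disjoint_left]
    intro x hxA hxB
    rw [_root_.mem_closure_iff] at hxA
    obtain ⟨y, hy1, hy2⟩ := hxA v hv hxB.2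
    have : y ∈ Esc ∩ (u ∩ v) := ⟨hy2.1, hy2.2, hy1⟩
    rw [hcon] at this
    exact this
  have hBA : Disjoint A (closure B) := by
    rw [disjoint_right]
    intro x hxB hxA
    rw [_root_.mem_closure_iff] at hxB
    obtain ⟨y, hy1, hy2⟩ := hxB u hu hxA.2
    have : y ∈ Esc ∩ (u ∩ v) := ⟨hy2.1, hy1, hy2.2⟩
    rw [hcon] at this
    exact this
  -- disjoint open neighbourhoods
  let O1 : Set ℂ := {x | infDist x A < infDist x B}
  let O2 : Set ℂ := {x | infDist x B < infDist x A}
  have hO1 : IsOpen O1 := isOpen_lt (continuous_infDist_pt A) (continuous_infDist_pt B)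
  have hO2 : IsOpen O2 := isOpen_lt (continuous_infDist_pt B) (continuous_infDist_pt A)
  have hdisj : Disjoint O1 O2 := by
    rw [disjoint_left]
    intro x h1 h2
    exact lt_asymm (show infDist x A < infDist x B from h1) h2
  have hAO : A ⊆ O1 := by
    intro x hx
    show infDist x A < infDist x B
    rw [infDist_zero_of_mem hx]
    have : x ∉ closure B := fun h => (disjoint_left.mp hBA) hx h
    rcases lt_or_eq_of_le (infDist_nonneg (x := x) (s := B)) with h | h
    · exact h
    · exact absurd ((mem_closure_iff_infDist_zero hvne).mpr h.symm) this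
  have hBO : B ⊆ O2 := by
    intro x hx
    show infDist x B < infDist x A
    rw [infDist_zero_of_mem hx]
    have : x ∉ closure A := fun h => (disjoint_left.mp hAB) h hx
    rcases lt_or_eq_of_le (infDist_nonneg (x := x) (s := A)) with h | h
    · exact h
    · exact absurd ((mem_closure_iff_infDist_zero hune).mpr h.symm) this
  have hcover : Esc ⊆ O1 ∪ O2 := by
    intro x hx
    rcases hcov hx with h | h
    · exact Or.inl (hAO ⟨hx, h⟩)
    · exact Or.inr (hBO ⟨hx, h⟩)
  have P : Part O1 O2 := ⟨hO1, hO2, hdisj, hcover⟩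
  have hcj : Continuous (starRingEnd ℂ) := Complex.continuous_conj
  have P' : Part ((starRingEnd ℂ) ⁻¹' O1) ((starRingEnd ℂ) ⁻¹' O2) := by
    refine ⟨hO1.preimage hcj, hO2.preimage hcj, hdisj.preimage _, ?_⟩
    intro x hx
    exact hcover (conj_mem_Esc.mpr hx)
  -- all preimages of the ray are in the same piece as `1`
  have hpre : ∀ n : ℕ, ∀ w : ℂ, F^[n] w ∈ ray → (w ∈ O1 ↔ (1:ℂ) ∈ O1) := by
    intro n w hw
    rcases le_total 0 w.im with h | h
    · exact same_pre_id P h hw
    · have hw' : F^[n] ((starRingEnd ℂ) w) ∈ ray := by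
        rw [F_iter_conj]
        exact ⟨by simpa using hw.1, by simpa using hw.2⟩
      have := same_pre_id P' (z := (starRingEnd ℂ) w) (by simpa using h) hw'
      simpa using this
  have hpreE : ∀ n : ℕ, ∀ w : ℂ, F^[n] w ∈ ray → w ∈ Esc := fun n w hw =>
    mem_Esc_of_iter (ray_subset_Esc hw)
  have h1E : (1:ℂ) ∈ O1 ∪ O2 := hcover (ray_subset_Esc one_mem_ray)
  rcases h1E with h1 | h1
  · obtain ⟨x, hx⟩ := hvne
    obtain ⟨r, hr, hball⟩ := Metric.isOpen_iff.mp hO2 x (hBO hx)
    obtain ⟨n, w, hw, hwr⟩ := dense_pre hx.1 hr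
    have hw1 : w ∈ O1 := (hpre n w hwr).mpr h1
    exact (disjoint_left.mp hdisj) hw1 (hball hw)
  · have h1' : (1:ℂ) ∉ O1 := fun h => (disjoint_left.mp hdisj) h h1
    obtain ⟨x, hx⟩ := hune
    obtain ⟨r, hr, hball⟩ := Metric.isOpen_iff.mp hO1 x (hAO hx)
    obtain ⟨n, w, hw, hwr⟩ := dense_pre hx.1 hr
    have hw1 : w ∈ O1 := hball hw
    exact h1' ((hpre n w hwr).mp hw1)

/-- The left ray of non-escaping points. -/
def K : Set ℂ := {z : ℂ | z.re ≤ -5 ∧ z.im = 0}

lemma Fr_small {x : ℝ} (h0 : 0 ≤ x) (h1 : x ≤ 1 / 1000) : 0 ≤ Fr x ∧ Fr x ≤ 1 / 1000 := by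
  have he : Real.exp x ≤ 1 + x + x ^ 2 := by
    have := Real.abs_exp_sub_one_sub_id_le (show |x| ≤ 1 by rw [abs_of_nonneg h0]; linarith)
    have := le_abs_self (Real.exp x - 1 - x)
    linarith
  have he1 : 1 ≤ Real.exp x := Real.one_le_exp h0
  have h2 : 0 ≤ (2 * Real.exp x - 1) ^ 2 - 1 := by nlinarith
  have he2 : Real.exp x ≤ 1 + 2 / 1000 := by nlinarith
  have h3 : (2 * Real.exp x - 1) ^ 2 - 1 ≤ 1 / 100 := by nlinarith
  unfold Fr
  refine ⟨by positivity, ?_⟩
  nlinarith

lemma Fr_left {x : ℝ} (h : x ≤ -5) : 0 ≤ Fr x ∧ Fr x ≤ 1 / 1000 := by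
  have he : Real.exp x ≤ 1 / 140 := by
    have h1 : Real.exp x ≤ Real.exp (-5) := Real.exp_le_exp.mpr h
    have h2 : Real.exp (-5) = (Real.exp 1 ^ 5)⁻¹ := by
      rw [Real.exp_neg, ← Real.exp_nat_mul]
      norm_num
    have h3 : (2.7:ℝ) ≤ Real.exp 1 := by
      have := Real.exp_one_gt_d9
      linarith
    have h4 : (2.7:ℝ) ^ 5 ≤ Real.exp 1 ^ 5 := pow_le_pow_left₀ (by norm_num) h3 5
    have h5 : (140:ℝ) ≤ Real.exp 1 ^ 5 := by
      refine le_trans ?_ h4
      norm_num
    rw [h2] at h1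
    refine h1.trans ?_
    rw [one_div]
    exact inv_anti₀ (by norm_num) h5
  have he0 : 0 < Real.exp x := Real.exp_pos x
  unfold Fr
  refine ⟨by positivity, ?_⟩
  have e : ((2 * Real.exp x - 1) ^ 2 - 1) ^ 2 = 16 * Real.exp x ^ 2 * (1 - Real.exp x) ^ 2 := by ring
  rw [e]
  have h6 : Real.exp x ^ 2 ≤ (1 / 140) ^ 2 := pow_le_pow_left₀ he0.le he 2
  have h7 : (1 - Real.exp x) ^ 2 ≤ 1 := by nlinarith
  calc 16 * Real.exp x ^ 2 * (1 - Real.exp x) ^ 2 ≤ 16 * (1 / 140) ^ 2 * 1 := by
        apply mul_le_mul _ h7 (by positivity) (by positivity)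
        linarith
    _ ≤ 1 / 1000 := by norm_num

lemma K_iter {z : ℂ} (hz : z ∈ K) (n : ℕ) :
    ∃ x : ℝ, 0 ≤ x ∧ x ≤ 1 / 1000 ∧ F^[n + 1] z = (x : ℂ) := by
  induction n with
  | zero =>
    have h : z = (z.re : ℂ) := by
      apply Complex.ext <;> simp [hz.2]
    have h1 := Fr_left hz.1
    refine ⟨Fr z.re, h1.1, h1.2, ?_⟩
    rw [zero_add, Function.iterate_one, h, F_ofReal, Complex.ofReal_re]
  | succ n ih =>
    obtain ⟨x, h0, h1, h2⟩ := ih
    have h3 := Fr_small h0 h1
    refine ⟨Fr x, h3.1, h3.2, ?_⟩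
    rw [Function.iterate_succ_apply', h2, F_ofReal]

lemma K_subset : K ⊆ Escᶜ := by
  intro z hz hE
  rw [mem_Esc_iff] at hE
  obtain ⟨N, hN⟩ := (tendsto_atTop_atTop.mp hE) 1
  obtain ⟨x, h0, h1, h2⟩ := K_iter hz N
  have h3 := hN (N + 1) (by omega)
  rw [h2, Complex.norm_real, Real.norm_eq_abs, abs_of_nonneg h0] at h3
  linarith

lemma isClosed_K : IsClosed K :=
  (isClosed_le Complex.continuous_re continuous_const).inter
    (isClosed_eq Complex.continuous_im continuous_const)

lemma isConnected_K : IsConnected K := by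
  refine ⟨⟨((-5 : ℝ) : ℂ), ?_⟩, ?_⟩
  · exact ⟨by rw [Complex.ofReal_re], Complex.ofReal_im _⟩
  · apply Convex.isPreconnected
    intro x hx y hy a b ha hb hab
    have hb' : b = 1 - a := by linarith
    subst hb'
    refine ⟨?_, ?_⟩
    · simp only [Complex.add_re, Complex.real_smul, Complex.re_ofReal_mul]
      nlinarith [hx.1, hy.1]
    · simp only [Complex.add_im, Complex.real_smul, Complex.im_ofReal_mul, hx.2, hy.2]
      simp

lemma not_isBounded_K : ¬ Bornology.IsBounded K := by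
  intro h
  obtain ⟨R, hR⟩ := h.subset_closedBall 0
  have hm : (((-(|R| + 6)) : ℝ) : ℂ) ∈ K := by
    refine ⟨?_, Complex.ofReal_im _⟩
    rw [Complex.ofReal_re]
    linarith [abs_nonneg R]
  have h1 := hR hm
  rw [mem_closedBall_zero_iff, Complex.norm_real, Real.norm_eq_abs, abs_neg,
    abs_of_nonneg (by positivity)] at h1
  linarith [le_abs_self R]

lemma F_not_polynomial : ¬ ∃ p : Polynomial ℂ, ∀ z : ℂ, F z = p.eval z := by
  rintro ⟨p, hp⟩
  have hroot : ∀ n : ℕ, p.eval ((n : ℂ) * (2 * Real.pi * Complex.I)) = 0 := by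
    intro n
    rw [← hp]
    induction n with
    | zero => simpa using F_zero
    | succ n ih =>
      have : ((n + 1 : ℕ) : ℂ) * (2 * Real.pi * Complex.I)
          = (n : ℂ) * (2 * Real.pi * Complex.I) + 2 * Real.pi * Complex.I := by
        push_cast; ring
      rw [this, F_add_period, ih]
  have hp0 : p = 0 := by
    apply Polynomial.eq_zero_of_infinite_isRoot
    have hinj : Function.Injective (fun n : ℕ => (n : ℂ) * (2 * Real.pi * Complex.I)) := by
      intro a b hab
      have h2 : (2 * Real.pi * Complex.I : ℂ) ≠ 0 := Complex.two_pi_I_ne_zero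
      have := mul_right_cancel₀ h2 hab
      exact_mod_cast this
    refine (Set.infinite_range_of_injective hinj).mono ?_
    rintro _ ⟨n, rfl⟩
    exact hroot n
  have h1 := hp 1
  rw [hp0, Polynomial.eval_zero] at h1
  have h2 : F 1 ∈ ray := F_one_mem_ray
  rw [h1] at h2
  have := h2.1
  simp at this
  linarith

end

end Pool.Agent.H218R3
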