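import Pool.Agent.H218R3.Ver
import Pool.Agent.H218R3.Concl

set_option autoImplicit false
open Filter Topology Set Metric

namespace Pool.Agent.H218R3.Ser

open Pool.Agent.H218R3.Fat

noncomputable section

lemma isOpenMap_F {a b : ℕ → ℝ} {C : Set ℂ} (H : QP a b C) : IsOpenMap (F a b) := by
  have hA : AnalyticOnNhd ℂ (F a b) univ :=
    (differentiable_F H.par).differentiableOn.analyticOnNhd isOpen_univ
  rcases hA.is_constant_or_isOpen isPreconnected_univ with ⟨w, hw⟩ | h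
  · exfalso
    have h1 := lam_ge' H.par 0
    have h2 : ((3 : ℝ) : ℂ) ∈ Ann (zt b) 0 := by
      have h3 : ‖((3 : ℝ) : ℂ)‖ = 3 := by
        rw [Complex.norm_real, Real.norm_eq_abs, abs_of_pos (by norm_num)]
      refine ⟨?_, ?_⟩ <;> rw [h3]
      · show (2 : ℝ) * 1 < 3
        norm_num
      · show (3 : ℝ) < lam b 0 * 1 / 64
        linarith
    have h3 := ann_low H 0 h2
    rw [hw _ (mem_univ _), ← hw 0 (mem_univ _), F_zero, norm_zero] at h3
    have h4 := p_pos 0
    have h5 := zt_pos H.par 1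
    have h6 := zt_pos H.par 0
    have h7 : ‖((3 : ℝ) : ℂ)‖ = 3 := by
      rw [Complex.norm_real, Real.norm_eq_abs, abs_of_pos (by norm_num)]
    rw [h7] at h3
    have : 0 < p 0 ^ 3 * zt b (0 + 1) * (3 / zt b 0) ^ (m 0 + 2) / 16 := by positivity
    linarith
  · intro s hs
    exact h s (subset_univ s) hs

namespace B

/-- first coefficients of the second example -/
def ka (n : ℕ) : ℝ := 1 / p n ^ 3

def a (n : ℕ) : ℝ := -2 + (m n + 2) * ka n

def b (n : ℕ) : ℝ := 1 - (m n + 1) * ka n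

lemma ka_pos (n : ℕ) : 0 < ka n := by
  have := p_pos n
  unfold ka
  positivity

lemma m_le (n : ℕ) : (m n : ℝ) ≤ p n / 4000 := by
  have h1 : 4000 * m n ≤ 2 ^ m n := nat_bound _ (by unfold m; omega)
  have h2 : (4000 : ℝ) * m n ≤ p n := by
    unfold p
    exact_mod_cast h1
  linarith

lemma ka_small (n : ℕ) : (m n + 2) * ka n ≤ 1 / 1000 / p n ^ 2 := by
  have h1 := m_le n
  have h2 := p_ge n
  have h0 := p_pos n
  unfold ka
  rw [mul_one_div, div_div, div_le_div_iff₀ (by positivity) (by positivity)]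
  have h3 : (m n + 2) * 1000 ≤ p n := by linarith
  calc (m n + 2) * (1000 * p n ^ 2) = ((m n + 2) * 1000) * p n ^ 2 := by ring
    _ ≤ p n * p n ^ 2 := by gcongr
    _ = _ := by ring

lemma ka_small' (n : ℕ) : (m n + 2) * ka n ≤ 1 / 1000000 := by
  refine (ka_small n).trans ?_
  have h2 := p_ge n
  have h0 := p_pos n
  rw [div_div, div_le_div_iff₀ (by positivity) (by norm_num)]
  nlinarith

lemma par : Par a b := by
  have h1 : ∀ n, 0 ≤ (m n + 2) * ka n := fun n => by
    have := ka_pos n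
    positivity
  refine ⟨fun n => ?_, fun n => ?_, fun n => ?_⟩
  · unfold a
    rw [abs_le]
    constructor <;> linarith [ka_small' n, h1 n]
  · unfold b
    have h2 := ka_pos n
    have h3 : (m n + 1) * ka n ≤ (m n + 2) * ka n := by gcongr; linarith
    rw [abs_of_pos (by linarith [ka_small' n])]
    linarith [ka_small' n]
  · unfold b
    have h2 := ka_pos n
    have h3 : (m n + 1) * ka n ≤ (m n + 2) * ka n := by gcongr; linarith
    rw [abs_of_pos (by linarith [ka_small' n])]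
    have : 0 ≤ (m n + 1) * ka n := by positivity
    linarith

lemma Q_eq (n : ℕ) (x : ℂ) :
    Q a b n x = (x - 1) ^ 2 + ((ka n : ℝ) : ℂ) * ((m n + 2) * x - (m n + 1) * x ^ 2) := by
  unfold Q a b
  push_cast
  ring

lemma Q_eq' (n : ℕ) (x : ℂ) :
    Q a b n x = (b n : ℂ) * (x - 1) ^ 2 + ((ka n : ℝ) : ℂ) * (1 - m n * (x - 1)) := by
  unfold Q a b
  push_cast
  ring

lemma Q_near (n : ℕ) (x : ℂ) : ‖x - 1‖ ^ 2 - ka n * ((m n + 2) * ‖x‖ + (m n + 2) * ‖x‖ ^ 2) ≤
    ‖Q a b n x‖ := by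
  rw [Q_eq]
  have h1 := norm_sub_norm_le ((x - 1) ^ 2)
    (-(((ka n : ℝ) : ℂ) * ((m n + 2) * x - (m n + 1) * x ^ 2)))
  rw [sub_neg_eq_add, norm_neg, norm_pow, norm_mul, Complex.norm_real, Real.norm_eq_abs,
    abs_of_pos (ka_pos n)] at h1
  refine le_trans ?_ h1
  have h2 : ‖((m n : ℂ) + 2) * x - (m n + 1) * x ^ 2‖ ≤
      (m n + 2) * ‖x‖ + (m n + 2) * ‖x‖ ^ 2 := by
    refine (norm_sub_le _ _).trans ?_
    rw [norm_mul, norm_mul, norm_pow]
    have h3 : ‖(m n : ℂ) + 2‖ = m n + 2 := by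
      have : (m n : ℂ) + 2 = ((m n + 2 : ℕ) : ℂ) := by push_cast; ring
      rw [this, Complex.norm_natCast]
      push_cast
      ring
    have h4 : ‖(m n : ℂ) + 1‖ = m n + 1 := by
      have : (m n : ℂ) + 1 = ((m n + 1 : ℕ) : ℂ) := by push_cast; ring
      rw [this, Complex.norm_natCast]
      push_cast
      ring
    rw [h3, h4]
    gcongr
    norm_num
  have h3 := ka_pos n
  gcongr

lemma qp : QP a b {1} where
  par := par
  creal c hc := Or.inl hc
  q1 n x hx := by
    have h1 := Q_near n x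
    have h2 := ka_small' n
    have h3 : ‖x‖ - 1 ≤ ‖x - 1‖ := by
      have := norm_sub_norm_le x 1
      simpa using this
    have h4 : (‖x‖ / 2) ^ 2 ≤ ‖x - 1‖ ^ 2 := by
      apply pow_le_pow_left₀ (by positivity)
      linarith
    have h5 : ka n * ((m n + 2) * ‖x‖ + (m n + 2) * ‖x‖ ^ 2) =
        ((m n + 2) * ka n) * (‖x‖ + ‖x‖ ^ 2) := by ring
    rw [h5] at h1
    have h6 : ((m n + 2) * ka n) * (‖x‖ + ‖x‖ ^ 2) ≤ 1 / 1000000 * (‖x‖ + ‖x‖ ^ 2) := by gcongr
    nlinarith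
  q2 n x hx1 hx2 hx := by
    have h1 := Q_near n x
    have h2 := ka_small n
    have h3 := hx 1 rfl
    have h0 := p_pos n
    have h4 : ep n ^ 2 ≤ ‖x - 1‖ ^ 2 := by
      apply pow_le_pow_left₀ (ep_pos n).le h3
    have h5 : ka n * ((m n + 2) * ‖x‖ + (m n + 2) * ‖x‖ ^ 2) =
        ((m n + 2) * ka n) * (‖x‖ + ‖x‖ ^ 2) := by ring
    rw [h5] at h1
    have h6 : ((m n + 2) * ka n) * (‖x‖ + ‖x‖ ^ 2) ≤ (1 / 1000 / p n ^ 2) * (2 + 2 ^ 2) := by
      gcongr
    have h7 : ep n ^ 2 = 16 / p n ^ 2 := by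
      unfold ep
      rw [div_pow]
      norm_num
    have h8 : (1 / 1000 / p n ^ 2) * (2 + 2 ^ 2) = (6 / 1000) / p n ^ 2 := by
      field_simp
      norm_num
    have h9 : 8 / p n ^ 2 ≤ 16 / p n ^ 2 - (6 / 1000) / p n ^ 2 := by
      rw [← sub_div]
      gcongr
      norm_num
    linarith
  q4 n x c t hc hx hQ ht htx := by
    obtain rfl : c = 1 := hc
    have h0 := p_pos n
    have hk := ka_pos n
    have hme := m_ep n
    have hb := par.hb n
    have hb0 : 0 < b n := by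
      by_contra hcon
      push Not at hcon
      have := ka_small' n
      unfold b at hcon
      have h3 : (m n + 1) * ka n ≤ (m n + 2) * ka n := by gcongr; linarith
      linarith
    have h7 : 7 / p n ^ 3 = 7 * ka n := by unfold ka; ring
    have h4 : 4 / p n ^ 3 = 4 * ka n := by unfold ka; ring
    rw [h7] at hQ
    rw [h4]
    have hlin : ∀ y : ℂ, ‖y‖ ≤ ep n → ‖((ka n : ℝ) : ℂ) * (1 - m n * y)‖ ≤ ka n * (1 + 1 / 1000) := by
      intro y hy
      rw [norm_mul, Complex.norm_real, Real.norm_eq_abs, abs_of_pos hk]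
      apply mul_le_mul_of_nonneg_left _ hk.le
      refine (norm_sub_le _ _).trans ?_
      rw [norm_one, norm_mul, Complex.norm_natCast]
      have : (m n : ℝ) * ‖y‖ ≤ m n * ep n := by gcongr
      linarith
    rw [Q_eq'] at hQ ⊢
    have h1 := hQ.trans (norm_add_le _ _)
    rw [norm_mul, norm_pow, Complex.norm_real, Real.norm_eq_abs, abs_of_pos hb0] at h1
    have h2 := hlin _ hx
    have h3 : (1 : ℂ) + t * (x - 1) - 1 = t * (x - 1) := by ring
    rw [h3]
    have h5 := hlin _ htx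
    have h6 := norm_sub_norm_le ((b n : ℂ) * ((t : ℂ) * (x - 1)) ^ 2)
      (-(((ka n : ℝ) : ℂ) * (1 - m n * ((t : ℂ) * (x - 1)))))
    rw [sub_neg_eq_add, norm_neg] at h6
    refine le_trans ?_ h6
    have h8 : b n * ‖x - 1‖ ^ 2 ≤ ‖(b n : ℂ) * ((t : ℂ) * (x - 1)) ^ 2‖ := by
      rw [norm_mul, norm_pow, norm_mul, Complex.norm_real, Complex.norm_real, Real.norm_eq_abs,
        Real.norm_eq_abs, abs_of_pos hb0, abs_of_pos (by linarith : 0 < t)]
      gcongr
      nlinarith [norm_nonneg (x - 1)]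
    linarith
  q5 n c hc := by
    obtain rfl : c = 1 := hc
    rw [Q_eq']
    simp only [sub_self, mul_zero, sub_zero, mul_one]
    rw [zero_pow (by norm_num), mul_zero, zero_add, Complex.norm_real, Real.norm_eq_abs,
      abs_of_pos (ka_pos n)]
    have h0 := p_pos n
    unfold ka
    gcongr
    norm_num

lemma pow_second (k : ℕ) (d : ℂ) (hk : (k : ℝ) * ‖d‖ ≤ 1) :
    ‖(1 + d) ^ k - 1 - k * d‖ ≤ (k : ℝ) ^ 2 * ‖d‖ ^ 2 := by
  induction k with
  | zero => simp
  | succ k ih =>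
    have hk' : (k : ℝ) * ‖d‖ ≤ 1 := by
      push_cast at hk
      nlinarith [norm_nonneg d]
    have h1 := ih hk'
    have h2 : (1 + d) ^ (k + 1) - 1 - ((k + 1 : ℕ) : ℂ) * d =
        (1 + d) * ((1 + d) ^ k - 1 - k * d) + k * d ^ 2 := by
      push_cast
      ring
    rw [h2]
    refine (norm_add_le _ _).trans ?_
    rw [norm_mul, norm_mul, norm_pow, Complex.norm_natCast]
    have h3 : ‖1 + d‖ ≤ 1 + ‖d‖ := (norm_add_le _ _).trans (by rw [norm_one])
    have h4 : ‖1 + d‖ * ‖(1 + d) ^ k - 1 - k * d‖ ≤ (1 + ‖d‖) * ((k : ℝ) ^ 2 * ‖d‖ ^ 2) := by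
      gcongr
    push_cast
    have h5 : ‖d‖ * (k : ℝ) ^ 2 ≤ k + 1 := by
      have : (0 : ℝ) ≤ k := Nat.cast_nonneg k
      nlinarith [norm_nonneg d]
    have h6 : 0 ≤ ‖d‖ ^ 2 := by positivity
    nlinarith

/-- The small discs are mapped into each other. -/
lemma mapV (n : ℕ) (z : ℂ) (hz : ‖z - zt b n‖ < ka n ^ 2 * zt b n) :
    ‖F a b z - zt b (n + 1)‖ < ka (n + 1) ^ 2 * zt b (n + 1) := by
  have H := par
  have h0 := p_pos n
  have hpg := p_ge n
  have hz0 := zt_pos H n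
  have hz1 := zt_pos H (n + 1)
  have hk := ka_pos n
  have hkb : ka n ≤ 1 / 10 ^ 18 := by
    unfold ka
    apply one_div_le_one_div_of_le (by norm_num)
    calc (10 : ℝ) ^ 18 = (10 ^ 6) ^ 3 := by norm_num
      _ ≤ p n ^ 3 := by
        apply pow_le_pow_left₀ (by norm_num)
        linarith
  have hzc : (zt b n : ℂ) ≠ 0 := by exact_mod_cast hz0.ne'
  set d : ℂ := z / zt b n - 1 with hd
  have hdn : ‖d‖ < ka n ^ 2 := by
    have : d = (z - zt b n) / zt b n := by
      rw [hd]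
      field_simp
    rw [this, norm_div, Complex.norm_real, Real.norm_eq_abs, abs_of_pos hz0, div_lt_iff₀ hz0]
    exact hz
  have hka1 : ka n ^ 2 ≤ ka n := by nlinarith
  have hkaep : ka n ≤ ep n := by
    unfold ka ep
    rw [div_le_div_iff₀ (by positivity) (by positivity)]
    have : p n ^ 1 ≤ p n ^ 3 := pow_le_pow_right₀ (by linarith) (by norm_num)
    linarith [this]
  have hdep : ‖z / zt b n - 1‖ ≤ ep n := by
    rw [← hd]
    linarith
  obtain ⟨h1, h2, h3, h4⟩ := T_near H n (c := 1) norm_one hdep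
  have h5 := approx_small H n z h3 h4
  have hG : G b n = p n ^ 3 * zt b (n + 1) := by
    rw [← abs_G H, abs_of_pos]
    clear h5 h4 h3 h2 h1 hdep hdn hd d hzc hz
    clear h0 hpg hz0 hz1 hk hkb hka1 hkaep
    induction n with
    | zero =>
      have := lam_ge' H 0
      have h0 := p_pos 0
      show 0 < p 0 ^ 3 * lam b 0
      positivity
    | succ n ih =>
      have := lam_ge' H n
      have hb0 : 0 < b n := by
        by_contra hcon
        push Not at hcon
        have := ka_small' n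
        unfold b at hcon
        have h3 : (m n + 1) * ka n ≤ (m n + 2) * ka n := by
          have := ka_pos n
          gcongr
          linarith
        linarith
      show 0 < b n * G b n * lam b n ^ (m n + 2)
      positivity
  have hkG : (zt b (n + 1) : ℂ) = (G b n : ℂ) * (ka n : ℂ) := by
    rw [hG]
    unfold ka
    have : (p n : ℂ) ≠ 0 := by exact_mod_cast h0.ne'
    push_cast
    field_simp
  have hmd : (m n : ℝ) * ‖d‖ ≤ 1 := by
    have h6 := m_ep n
    have : (m n : ℝ) * ‖d‖ ≤ m n * ep n := by gcongr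
    linarith
  have h6 := pow_second (m n) d hmd
  set E : ℂ := (1 + d) ^ m n - 1 - m n * d with hE
  have hpow : (z / zt b n) ^ m n = 1 + m n * d + E := by
    have : z / (zt b n : ℂ) = 1 + d := by
      rw [hd]
      ring
    rw [this, hE]
    ring
  have h7 : T b n z * Q a b n (z / zt b n) - zt b (n + 1) = (G b n : ℂ) * ((ka n : ℂ) *
      (E * (1 - m n * d) - (m n * d) ^ 2) + b n * d ^ 2 * (z / zt b n) ^ m n) := by
    rw [Q_eq', ← hd, hkG]
    unfold T
    have h8 : (z / (zt b n : ℂ)) ^ m n * ((ka n : ℂ) * (1 - m n * d)) = (ka n : ℂ) +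
        (ka n : ℂ) * (E * (1 - m n * d) - (m n * d) ^ 2) := by
      rw [hpow]
      ring
    linear_combination (G b n : ℂ) * h8
  have hbn : |b n| ≤ 1 := H.hb1 n
  have h8 : ‖T b n z * Q a b n (z / zt b n) - zt b (n + 1)‖ ≤
      p n ^ 3 * zt b (n + 1) * (ka n * (3 * ((m n : ℝ) * ‖d‖) ^ 2) + 2 * ‖d‖ ^ 2) := by
    rw [h7, norm_mul, Complex.norm_real, Real.norm_eq_abs, abs_G H]
    apply mul_le_mul_of_nonneg_left _ (by positivity)
    refine (norm_add_le _ _).trans (add_le_add ?_ ?_)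
    · rw [norm_mul, Complex.norm_real, Real.norm_eq_abs, abs_of_pos hk]
      apply mul_le_mul_of_nonneg_left _ hk.le
      refine (norm_sub_le _ _).trans ?_
      rw [norm_mul, norm_pow, norm_mul, Complex.norm_natCast]
      have h9 : ‖1 - (m n : ℂ) * d‖ ≤ 2 := by
        refine (norm_sub_le _ _).trans ?_
        rw [norm_one, norm_mul, Complex.norm_natCast]
        linarith
      have h10 : ‖E‖ * ‖1 - (m n : ℂ) * d‖ ≤ ((m n : ℝ) ^ 2 * ‖d‖ ^ 2) * 2 := by gcongr
      nlinarith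
    · rw [norm_mul, norm_mul, norm_pow, norm_pow, Complex.norm_real, Real.norm_eq_abs]
      have h9 : ‖z / (zt b n : ℂ)‖ ^ m n ≤ 2 := by
        have : ‖z / (zt b n : ℂ)‖ ≤ 1 + ep n := by
          calc ‖z / (zt b n : ℂ)‖ = ‖1 + (z / zt b n - 1)‖ := by congr 1; ring
            _ ≤ _ := (norm_add_le _ _).trans (by rw [norm_one]; linarith)
        have h10 := pow_up n (norm_nonneg _) this
        linarith
      calc |b n| * ‖d‖ ^ 2 * ‖z / (zt b n : ℂ)‖ ^ m n ≤ 1 * ‖d‖ ^ 2 * 2 := by gcongr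
        _ = _ := by ring
  have h9 : ‖F a b z - zt b (n + 1)‖ ≤
      ‖F a b z - T b n z * Q a b n (z / zt b n)‖ +
      ‖T b n z * Q a b n (z / zt b n) - zt b (n + 1)‖ := by
    refine le_trans (le_of_eq ?_) (norm_add_le _ _)
    congr 1
    ring
  have hka' : ka (n + 1) = ka n / 64 := by
    unfold ka
    rw [p_succ]
    field_simp
    norm_num
  have hkp : p n ^ 3 = 1 / ka n := by
    unfold ka
    rw [one_div_one_div]
  have h10 : ‖T b n z‖ * (1 / (100000 * p n ^ 9)) ≤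
      101 / 100 / 100000 * ka n ^ 2 * zt b (n + 1) := by
    have h11 : 1 / (100000 * p n ^ 9) = ka n ^ 3 / 100000 := by
      have : p n ^ 9 = (p n ^ 3) ^ 3 := by ring
      rw [this, hkp]
      field_simp
    rw [h11]
    calc ‖T b n z‖ * (ka n ^ 3 / 100000)
        ≤ (101 / 100 * (p n ^ 3 * zt b (n + 1))) * (ka n ^ 3 / 100000) := by gcongr
      _ = _ := by
        rw [hkp]
        field_simp
  have hmk : (m n : ℝ) * ka n ≤ 1 / 1000000 := by
    have h11 := ka_small' n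
    nlinarith
  have h12 : p n ^ 3 * zt b (n + 1) * (ka n * (3 * ((m n : ℝ) * ‖d‖) ^ 2) + 2 * ‖d‖ ^ 2) ≤
      zt b (n + 1) * (ka n ^ 2 / 10000) := by
    have h13 : ‖d‖ ≤ ka n ^ 2 := hdn.le
    have h14 : (m n : ℝ) * ‖d‖ ≤ 1 / 1000000 * ka n := by
      calc (m n : ℝ) * ‖d‖ ≤ m n * ka n ^ 2 := by gcongr
        _ = (m n * ka n) * ka n := by ring
        _ ≤ 1 / 1000000 * ka n := by gcongr
    calc p n ^ 3 * zt b (n + 1) * (ka n * (3 * ((m n : ℝ) * ‖d‖) ^ 2) + 2 * ‖d‖ ^ 2)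
        ≤ p n ^ 3 * zt b (n + 1) * (ka n * (3 * (1 / 1000000 * ka n) ^ 2) +
            2 * (ka n ^ 2) ^ 2) := by gcongr
      _ = zt b (n + 1) * (3 / 1000000 ^ 2 * ka n ^ 2 + 2 * ka n * ka n ^ 2) := by
        rw [hkp]
        field_simp
      _ ≤ _ := by
        apply mul_le_mul_of_nonneg_left _ hz1.le
        have : 2 * ka n * ka n ^ 2 ≤ 2 * (1 / 10 ^ 18) * ka n ^ 2 := by gcongr
        have h15 : 0 ≤ ka n ^ 2 := by positivity
        linarith
  rw [hka']
  have h13 : 0 < ka n ^ 2 * zt b (n + 1) := by positivity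
  calc ‖F a b z - zt b (n + 1)‖ ≤ _ := h9
    _ ≤ 101 / 100 / 100000 * ka n ^ 2 * zt b (n + 1) + zt b (n + 1) * (ka n ^ 2 / 10000) :=
      add_le_add (h5.trans h10) (h8.trans h12)
    _ < (ka n / 64) ^ 2 * zt b (n + 1) := by
      rw [div_pow]
      linarith

end B

/-- The second example has a complementary component whose interior is a union of Fatou
components. -/
theorem exB : ∃ f : ℂ → ℂ, ∃ ζ ε : ℕ → ℝ, Skel f ζ ε {1} ∧
    ∀ n, ∃ K : Set ℂ, (∃ q ∈ (UU f ζ (n + 1))ᶜ, K = connectedComponentIn (UU f ζ (n + 1))ᶜ q) ∧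
      (interior K).Nonempty ∧ ∃ 𝒮 : Set (Set ℂ), (∀ W ∈ 𝒮, IsFatouComponent f W) ∧
        interior K = ⋃₀ 𝒮 := by
  have S := skel B.qp (isOpenMap_F B.qp)
  refine ⟨_, _, _, S, ?_⟩
  intro n
  apply S.typeTwo rfl (ρ := fun n => B.ka n ^ 2) (fun n => by
    have := B.ka_pos n
    positivity) _ (fun n z hz => B.mapV n z hz)
  intro n
  have h0 := p_pos n
  have hp := p_ge n
  unfold B.ka ep
  rw [div_pow, one_pow, div_le_div_iff₀ (by positivity) (by positivity)]
  have : p n ^ 1 ≤ (p n ^ 3) ^ 2 := by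
    rw [← pow_mul]
    exact pow_le_pow_right₀ (by linarith) (by norm_num)
  linarith

end

end Pool.Agent.H218R3.Ser
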