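import Pool.Agent.H218R3.Ver
import Pool.Agent.H218R3.Concl
import Pool.Agent.H218R3.ExB

set_option autoImplicit false
open Filter Topology Set Metric

namespace Pool.Agent.H218R3.Ser

open Pool.Agent.H218R3.Fat

noncomputable section

namespace A

/-- coefficients of the first example -/
def a (_ : ℕ) : ℝ := 0

def b (_ : ℕ) : ℝ := -1

lemma par : Par a b := by
  refine ⟨fun n => ?_, fun n => ?_, fun n => ?_⟩ <;> simp only [a, b] <;> norm_num

lemma Q_eq (n : ℕ) (x : ℂ) : Q a b n x = 1 - x ^ 2 := by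
  unfold Q a b
  push_cast
  ring

lemma Q_fac (n : ℕ) (x : ℂ) : ‖Q a b n x‖ = ‖x - 1‖ * ‖x + 1‖ := by
  rw [Q_eq, ← norm_mul, ← norm_neg]
  congr 1
  ring

lemma Q_c (n : ℕ) {c : ℂ} (hc : c = 1 ∨ c = -1) (x : ℂ) : ‖Q a b n x‖ = ‖x - c‖ * ‖x + c‖ := by
  rw [Q_fac]
  rcases hc with rfl | rfl
  · rfl
  · rw [sub_neg_eq_add, mul_comm]
    rfl

lemma norm_c {c : ℂ} (hc : c = 1 ∨ c = -1) : ‖c‖ = 1 := by
  rcases hc with rfl | rfl <;> simp

lemma add_c_bounds {x c : ℂ} {e : ℝ} (hc : c = 1 ∨ c = -1) (hx : ‖x - c‖ ≤ e) :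
    2 - e ≤ ‖x + c‖ ∧ ‖x + c‖ ≤ 2 + e := by
  have h2 : ‖2 * c‖ = 2 := by
    rw [norm_mul, norm_c hc]
    norm_num
  constructor
  · have := norm_sub_norm_le (2 * c) (-(x - c))
    rw [norm_neg, h2] at this
    have h3 : 2 * c - -(x - c) = x + c := by ring
    rw [h3] at this
    linarith
  · have h3 : x + c = 2 * c + (x - c) := by ring
    rw [h3]
    refine (norm_add_le _ _).trans ?_
    linarith

lemma qp : QP a b {1, -1} where
  par := par
  creal c hc := hc
  q1 n x hx := by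
    rw [Q_eq]
    have h1 := norm_sub_norm_le (x ^ 2) 1
    rw [norm_sub_rev, norm_pow, norm_one] at h1
    nlinarith
  q2 n x hx1 hx2 hx := by
    have h0 := p_pos n
    have hp := p_ge n
    have h1 := hx 1 (by simp)
    have h2 := hx (-1) (by simp)
    rw [sub_neg_eq_add] at h2
    rw [Q_fac]
    have he := ep_pos n
    have h3 : 8 / p n ^ 2 ≤ ep n * ep n := by
      unfold ep
      rw [div_mul_div_comm, div_le_div_iff₀ (by positivity) (by positivity)]
      nlinarith [sq_nonneg (p n)]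
    refine h3.trans ?_
    gcongr
  q4 n x c t hc hx hQ ht htx := by
    have h0 := p_pos n
    have he := ep_le n
    have he0 := ep_pos n
    rw [Q_c n hc] at hQ ⊢
    have h1 := add_c_bounds hc hx
    have h3 : c + t * (x - c) - c = t * (x - c) := by ring
    have h4 : ‖c + t * (x - c) - c‖ ≤ ep n := by rw [h3]; exact htx
    have h2 := add_c_bounds hc h4
    rw [h3]
    have h5 : ‖x - c‖ ≤ ‖(t : ℂ) * (x - c)‖ := by
      rw [norm_mul, Complex.norm_real, Real.norm_eq_abs, abs_of_pos (by linarith)]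
      nlinarith [norm_nonneg (x - c)]
    have h6 : 7 / p n ^ 3 ≤ ‖x - c‖ * (201 / 100) := by
      refine hQ.trans ?_
      gcongr
      linarith
    have h7 : 4 / p n ^ 3 ≤ ‖x - c‖ * (199 / 100) := by
      have : 4 / p n ^ 3 = 4 / 7 * (7 / p n ^ 3) := by ring
      rw [this]
      nlinarith [norm_nonneg (x - c)]
    refine h7.trans ?_
    gcongr
    linarith
  q5 n c hc := by
    rw [Q_c n hc, sub_self, norm_zero, zero_mul]
    have h0 := p_pos n
    positivity

/-- modulus on the boundary circles -/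
lemma bdry (n : ℕ) {c : ℂ} (hc : c ∈ ({1, -1} : Set ℂ)) {z : ℂ}
    (hz : ‖z - c * zt b n‖ = ep n * zt b n) : 9 * zt b (n + 1) ≤ ‖F a b z‖ := by
  have H := par
  have h0 := p_pos n
  have hp := p_ge n
  have hz0 := zt_pos H n
  have hz1 := zt_pos H (n + 1)
  have hc1 := norm_c hc
  have hzc : (zt b n : ℂ) ≠ 0 := by exact_mod_cast hz0.ne'
  have hx : ‖z / (zt b n : ℂ) - c‖ = ep n := by
    have h6 : z / (zt b n : ℂ) - c = (z - c * zt b n) / (zt b n : ℂ) := by
      field_simp
    rw [h6, norm_div, Complex.norm_real, Real.norm_eq_abs, abs_of_pos hz0, hz]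
    field_simp
  obtain ⟨h1, h2, h3, h4⟩ := T_near H n hc1 hx.le
  have h5 := F_low H n z h3 h4
  have h6 : 1 / p n ≤ ‖Q a b n (z / zt b n)‖ - 1 / (100000 * p n ^ 9) := by
    rw [Q_c n hc, hx]
    have h7 := add_c_bounds hc hx.le
    have h8 := ep_le n
    have h9 : 4 / p n * 1 ≤ ep n * ‖z / (zt b n : ℂ) + c‖ := by
      unfold ep
      gcongr
      linarith
    have h10 : 1 / (100000 * p n ^ 9) ≤ 1 / p n := by
      apply one_div_le_one_div_of_le h0
      have : p n ^ 1 ≤ p n ^ 9 := pow_le_pow_right₀ (by linarith) (by norm_num)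
      rw [pow_one] at this
      have h11 : 0 < p n ^ 9 := by positivity
      linarith
    have h12 : 4 / p n = 4 * (1 / p n) := by ring
    have h13 : 0 < 1 / p n := by positivity
    linarith
  refine le_trans ?_ h5
  calc 9 * zt b (n + 1) ≤ 99 / 100 * (p n ^ 2 * zt b (n + 1)) := by
        have : 10 ≤ p n ^ 2 := by nlinarith
        nlinarith
    _ = (99 / 100 * (p n ^ 3 * zt b (n + 1))) * (1 / p n) := by
        field_simp
    _ ≤ _ := by gcongr

lemma surj (n : ℕ) (c : ℂ) (hc : c ∈ ({1, -1} : Set ℂ)) (y : ℂ) (hy : ‖y‖ < 9 * zt b (n + 1)) :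
    ∃ z ∈ closedBall (c * zt b n) (ep n * zt b n), F a b z = y := by
  have S := skel qp (isOpenMap_F qp)
  have hz0 := zt_pos par n
  have hz1 := zt_pos par (n + 1)
  have he := ep_pos n
  set D := closedBall (c * (zt b n : ℂ)) (ep n * zt b n) with hD
  set B := ball (c * (zt b n : ℂ)) (ep n * zt b n) with hB
  have hopen : IsOpen (F a b '' B) := S.openMap _ isOpen_ball
  have hcl : IsClosed (F a b '' D) :=
    ((isCompact_closedBall _ _).image S.diff.continuous).isClosed
  have hsub : ball (0 : ℂ) (9 * zt b (n + 1)) ⊆ F a b '' B := by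
    apply (convex_ball (0 : ℂ) _).isPreconnected.subset_left_of_subset_union hopen
      hcl.isOpen_compl
    · rw [Set.disjoint_compl_right_iff_subset]
      exact image_mono ball_subset_closedBall
    · intro w hw
      by_cases h : w ∈ F a b '' D
      · obtain ⟨z, hz, rfl⟩ := h
        left
        refine ⟨z, ?_, rfl⟩
        rw [hB, mem_ball_iff_norm]
        apply lt_of_le_of_ne (mem_closedBall_iff_norm.mp hz)
        intro heq
        have := bdry n hc heq
        rw [mem_ball_zero_iff] at hw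
        linarith
      · exact Or.inr h
    · refine ⟨F a b (c * zt b n), ?_, mem_image_of_mem _ (mem_ball_self (by positivity))⟩
      rw [mem_ball_zero_iff]
      linarith [S.center n c hc]
  obtain ⟨z, hz, hzy⟩ := hsub (mem_ball_zero_iff.mpr hy)
  exact ⟨z, ball_subset_closedBall hz, hzy⟩

lemma m_even (n : ℕ) {c : ℂ} (hc : c = 1 ∨ c = -1) : c ^ m n = 1 := by
  have : m n = 2 * (n + 10) := by unfold m; ring
  rw [this, pow_mul]
  rcases hc with rfl | rfl <;> norm_num

/-- The error term of the linear approximation. -/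
lemma lin_err (n : ℕ) {c : ℂ} (hc : c ∈ ({1, -1} : Set ℂ)) {z : ℂ}
    (hz : ‖z - c * zt b n‖ ≤ 2 * ep n * zt b n) :
    ‖F a b z - (-2 * c * (G b n : ℂ)) * (z / zt b n - c)‖ ≤
      p n ^ 3 * zt b (n + 1) * (2 / 100 * ep n) := by
  have H := par
  have h0 := p_pos n
  have hp := p_ge n
  have he := ep_pos n
  have hel := ep_le n
  have hz0 := zt_pos H n
  have hz1 := zt_pos H (n + 1)
  have hc1 := norm_c hc
  have hcc : c * c = 1 := by
    rcases hc with rfl | rfl <;> norm_num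
  have hzc : (zt b n : ℂ) ≠ 0 := by exact_mod_cast hz0.ne'
  set x : ℂ := z / zt b n with hxdef
  have hx : ‖x - c‖ ≤ 2 * ep n := by
    have h6 : x - c = (z - c * zt b n) / (zt b n : ℂ) := by
      rw [hxdef]
      field_simp
    rw [h6, norm_div, Complex.norm_real, Real.norm_eq_abs, abs_of_pos hz0, div_le_iff₀ hz0]
    exact hz
  have hxn : ‖x‖ = ‖z‖ / zt b n := norm_ratio H n z
  have hx1 : ‖x‖ ≤ 1 + 2 * ep n := by
    rw [← hc1]
    calc ‖x‖ = ‖c + (x - c)‖ := by congr 1; ring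
      _ ≤ _ := (norm_add_le _ _).trans (by linarith)
  have hx2 : 1 - 2 * ep n ≤ ‖x‖ := by
    rw [← hc1]
    have := norm_sub_norm_le c (c - x)
    rw [norm_sub_rev c x] at this
    have h5 : c - (c - x) = x := by ring
    rw [h5] at this
    linarith
  have h3 : zt b n / 2 ≤ ‖z‖ := by
    rw [hxn, le_div_iff₀ hz0] at hx2
    nlinarith
  have h4 : ‖z‖ ≤ 2 * zt b n := by
    rw [hxn, div_le_iff₀ hz0] at hx1
    nlinarith
  have h5 := approx_small H n z h3 h4
  have hTn : ‖T b n z‖ ≤ 103 / 100 * (p n ^ 3 * zt b (n + 1)) := by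
    rw [norm_T H, ← hxn]
    have h6 : ‖x‖ ≤ (1 + ep n) ^ 2 := by nlinarith
    have h7 : ‖x‖ ^ m n ≤ ((1 + ep n) ^ m n) ^ 2 := by
      rw [← pow_mul, mul_comm (m n) 2, pow_mul]
      gcongr
    have h8 := pow_up n (x := 1 + ep n) (by positivity) le_rfl
    have h9 : ((1 + ep n) ^ m n) ^ 2 ≤ (101 / 100) ^ 2 := by gcongr
    have h10 : 0 < p n ^ 3 * zt b (n + 1) := by positivity
    nlinarith
  have hmd : (m n : ℝ) * ‖c * (x - c)‖ ≤ 2 / 1000 := by
    rw [norm_mul, hc1, one_mul]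
    have h6 := m_ep n
    have : (m n : ℝ) * ‖x - c‖ ≤ m n * (2 * ep n) := by gcongr
    linarith
  have hps := B.pow_second (m n) (c * (x - c)) (by linarith)
  have hxm : (1 + c * (x - c)) ^ m n = x ^ m n := by
    have h6 : 1 + c * (x - c) = c * x := by
      linear_combination (-1 : ℂ) * hcc
    rw [h6, mul_pow, m_even n hc, one_mul]
  have hxm1 : ‖x ^ m n - 1‖ ≤ 21 / 10000 := by
    have h6 : x ^ m n - 1 = ((1 + c * (x - c)) ^ m n - 1 - m n * (c * (x - c))) +
        m n * (c * (x - c)) := by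
      rw [hxm]
      ring
    rw [h6]
    refine (norm_add_le _ _).trans ?_
    have h7 : ‖(m n : ℂ) * (c * (x - c))‖ ≤ 2 / 1000 := by
      rw [norm_mul, Complex.norm_natCast]
      exact hmd
    have h8 : (m n : ℝ) ^ 2 * ‖c * (x - c)‖ ^ 2 ≤ (2 / 1000) ^ 2 := by
      rw [← mul_pow]
      gcongr
    linarith
  have hbr : ‖(c - x) - (x ^ m n - 1) * (x + c)‖ ≤ 1 / 200 := by
    refine (norm_sub_le _ _).trans ?_
    rw [norm_mul, norm_sub_rev]
    have h6 := (add_c_bounds hc hx).2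
    have h7 : ‖x ^ m n - 1‖ * ‖x + c‖ ≤ 21 / 10000 * (2 + 2 * ep n) := by gcongr
    linarith
  have hid : T b n z * Q a b n x - (-2 * c * (G b n : ℂ)) * (x - c) =
      (G b n : ℂ) * ((x - c) * ((c - x) - (x ^ m n - 1) * (x + c))) := by
    rw [Q_eq]
    unfold T
    rw [← hxdef]
    linear_combination (G b n : ℂ) * x ^ m n * (-1 : ℂ) * hcc
  have h6 : ‖T b n z * Q a b n x - (-2 * c * (G b n : ℂ)) * (x - c)‖ ≤
      p n ^ 3 * zt b (n + 1) * (2 * ep n * (1 / 200)) := by
    rw [hid, norm_mul, norm_mul, Complex.norm_real, Real.norm_eq_abs, abs_G H]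
    gcongr
  have h7 : ‖T b n z‖ * (1 / (100000 * p n ^ 9)) ≤ p n ^ 3 * zt b (n + 1) * (1 / 100 * ep n) := by
    have h8 : 103 / 100 * (1 / (100000 * p n ^ 9)) ≤ 1 / 100 * ep n := by
      unfold ep
      have h9 : 1 / (100000 * p n ^ 9) ≤ 1 / (100000 * p n) := by
        apply one_div_le_one_div_of_le (by positivity)
        have : p n ^ 1 ≤ p n ^ 9 := pow_le_pow_right₀ (by linarith) (by norm_num)
        rw [pow_one] at this
        linarith
      have h10 : 1 / (100000 * p n) = 1 / 100000 * (1 / p n) := by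
        field_simp
      have h11 : 4 / p n = 4 * (1 / p n) := by ring
      have h12 : 0 < 1 / p n := by positivity
      rw [h10] at h9
      rw [h11]
      linarith
    calc ‖T b n z‖ * (1 / (100000 * p n ^ 9))
        ≤ (103 / 100 * (p n ^ 3 * zt b (n + 1))) * (1 / (100000 * p n ^ 9)) := by gcongr
      _ = (p n ^ 3 * zt b (n + 1)) * (103 / 100 * (1 / (100000 * p n ^ 9))) := by ring
      _ ≤ _ := by gcongr
  have h8 : F a b z - (-2 * c * (G b n : ℂ)) * (x - c) =
      (F a b z - T b n z * Q a b n x) +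
      (T b n z * Q a b n x - (-2 * c * (G b n : ℂ)) * (x - c)) := by ring
  rw [h8]
  refine (norm_add_le _ _).trans ?_
  calc _ ≤ p n ^ 3 * zt b (n + 1) * (1 / 100 * ep n) +
        p n ^ 3 * zt b (n + 1) * (2 * ep n * (1 / 200)) := add_le_add (h5.trans h7) h6
    _ = _ := by ring

lemma expand (n : ℕ) (c : ℂ) (hc : c ∈ ({1, -1} : Set ℂ)) (z : ℂ)
    (hz : z ∈ closedBall (c * zt b n) (ep n * zt b n)) (w : ℂ)
    (hw : w ∈ closedBall (c * zt b n) (ep n * zt b n)) :
    8 * zt b (n + 1) * ‖z - w‖ ≤ zt b n * ‖F a b z - F a b w‖ := by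
  have H := par
  have h0 := p_pos n
  have hp := p_ge n
  have he := ep_pos n
  have hz0 := zt_pos H n
  have hz1 := zt_pos H (n + 1)
  have hc1 := norm_c hc
  have hzc : (zt b n : ℂ) ≠ 0 := by exact_mod_cast hz0.ne'
  set R : ℂ → ℂ := fun z => F a b z - (-2 * c * (G b n : ℂ)) * (z / zt b n - c) with hR
  have hRd : Differentiable ℂ R := by
    have := differentiable_F H
    fun_prop
  have hder : ∀ v ∈ closedBall (c * (zt b n : ℂ)) (ep n * zt b n),
      ‖deriv R v‖ ≤ p n ^ 3 * zt b (n + 1) / zt b n * (2 / 100) := by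
    intro v hv
    have h1 : 0 < ep n * zt b n := by positivity
    have h2 := Complex.norm_deriv_le_of_forall_mem_sphere_norm_le h1
      (hRd.diffContOnCl (s := ball v (ep n * zt b n)))
      (C := p n ^ 3 * zt b (n + 1) * (2 / 100 * ep n)) (by
        intro y hy
        apply lin_err n hc
        rw [mem_closedBall_iff_norm] at hv
        rw [mem_sphere_iff_norm] at hy
        calc ‖y - c * zt b n‖ = ‖(y - v) + (v - c * zt b n)‖ := by congr 1; ring
          _ ≤ _ := (norm_add_le _ _).trans (by rw [hy]; linarith))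
    refine h2.trans (le_of_eq ?_)
    field_simp
  have h1 := (convex_closedBall (c * (zt b n : ℂ)) (ep n * zt b n)).norm_image_sub_le_of_norm_deriv_le
    (fun v _ => hRd v) hder hw hz
  have h2 : F a b z - F a b w = (R z - R w) + (-2 * c * (G b n : ℂ)) * ((z - w) / zt b n) := by
    rw [hR]
    ring
  have h3 : ‖(-2 * c * (G b n : ℂ)) * ((z - w) / zt b n)‖ =
      2 * (p n ^ 3 * zt b (n + 1)) * (‖z - w‖ / zt b n) := by
    rw [norm_mul, norm_mul, norm_mul, hc1, Complex.norm_real, Real.norm_eq_abs, abs_G H, norm_div,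
      Complex.norm_real, Real.norm_eq_abs, abs_of_pos hz0]
    norm_num
  have h4 : 2 * (p n ^ 3 * zt b (n + 1)) * (‖z - w‖ / zt b n) ≤
      ‖F a b z - F a b w‖ + ‖R z - R w‖ := by
    rw [← h3]
    have h5 : (-2 * c * (G b n : ℂ)) * ((z - w) / zt b n) =
        (F a b z - F a b w) - (R z - R w) := by
      rw [h2]
      ring
    rw [h5]
    exact norm_sub_le _ _
  have h5 : p n ^ 3 * zt b (n + 1) / zt b n * (2 / 100) * ‖z - w‖ =
      2 / 100 * ((p n ^ 3 * zt b (n + 1)) * (‖z - w‖ / zt b n)) := by ring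
  rw [h5] at h1
  have h6 : (p n ^ 3 * zt b (n + 1)) * (‖z - w‖ / zt b n) ≤ ‖F a b z - F a b w‖ := by
    have : 0 ≤ (p n ^ 3 * zt b (n + 1)) * (‖z - w‖ / zt b n) := by positivity
    linarith
  have h7 : p n ^ 3 * zt b (n + 1) * ‖z - w‖ ≤ zt b n * ‖F a b z - F a b w‖ := by
    calc p n ^ 3 * zt b (n + 1) * ‖z - w‖
        = zt b n * ((p n ^ 3 * zt b (n + 1)) * (‖z - w‖ / zt b n)) := by field_simp
      _ ≤ _ := by gcongr
  refine le_trans ?_ h7
  have : p n ^ 1 ≤ p n ^ 3 := pow_le_pow_right₀ (by linarith) (by norm_num)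
  rw [pow_one] at this
  gcongr
  linarith

end A

/-- The first example. -/
theorem exA : ∃ f : ℂ → ℂ, ∃ ζ ε : ℕ → ℝ, Fat.Skel.Sing f ζ ε :=
  ⟨_, _, _, ⟨skel A.qp (isOpenMap_F A.qp), A.surj, A.expand⟩⟩

end

end Pool.Agent.H218R3.Ser
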