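import Mathlib

set_option autoImplicit false
open Filter Topology Set Metric

namespace Pool.Agent.H218R3.Fat

noncomputable section

/-- The iterates of `f` form a normal family on `U` (in the extended sense: every subsequence of the
sequence of iterates has a further subsequence which converges locally uniformly on `U` to a finite
function or tends to infinity uniformly on compact subsets of `U`). -/
def NormalOn (f : ℂ → ℂ) (U : Set ℂ) : Prop :=
  ∀ φ : ℕ → ℕ, StrictMono φ → ∃ ψ : ℕ → ℕ, StrictMono ψ ∧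
    ((∃ h : ℂ → ℂ, TendstoLocallyUniformlyOn (fun k => f^[φ (ψ k)]) h atTop U) ∨
     (∀ K : Set ℂ, K ⊆ U → IsCompact K → ∀ M : ℝ, ∀ᶠ k in atTop, ∀ w ∈ K, M < ‖f^[φ (ψ k)] w‖))

/-- The Fatou set. -/
def FatouSet (f : ℂ → ℂ) : Set ℂ := {z : ℂ | ∃ U : Set ℂ, IsOpen U ∧ z ∈ U ∧ NormalOn f U}

/-- The Fatou component containing `z`. -/
def comp (f : ℂ → ℂ) (z : ℂ) : Set ℂ := connectedComponentIn (FatouSet f) z

lemma isOpen_FatouSet (f : ℂ → ℂ) : IsOpen (FatouSet f) := by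
  rw [isOpen_iff_mem_nhds]
  rintro z ⟨U, hU, hz, hN⟩
  filter_upwards [hU.mem_nhds hz] with w hw
  exact ⟨U, hU, hw, hN⟩

lemma isOpen_comp (f : ℂ → ℂ) (z : ℂ) : IsOpen (comp f z) :=
  (isOpen_FatouSet f).connectedComponentIn

/-- Locally uniform escape at a point. -/
def EscAt (f : ℂ → ℂ) (z : ℂ) : Prop :=
  ∃ r : ℝ, 0 < r ∧ ∀ M : ℝ, ∀ᶠ k in atTop, ∀ w ∈ ball z r, M < ‖f^[k] w‖

lemma EscAt.eventually_nhds {f : ℂ → ℂ} {z : ℂ} (h : EscAt f z) : ∀ᶠ w in 𝓝 z, EscAt f w := by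
  obtain ⟨r, hr, h⟩ := h
  filter_upwards [ball_mem_nhds z (half_pos hr)] with w hw
  refine ⟨r / 2, half_pos hr, fun M => ?_⟩
  filter_upwards [h M] with k hk v hv
  apply hk
  rw [mem_ball] at *
  calc dist v z ≤ dist v w + dist w z := dist_triangle _ _ _
    _ < r / 2 + r / 2 := add_lt_add hv hw
    _ = r := by ring

lemma EscAt.mem_FatouSet {f : ℂ → ℂ} {z : ℂ} (h : EscAt f z) : z ∈ FatouSet f := by
  obtain ⟨r, hr, h⟩ := h
  refine ⟨ball z r, isOpen_ball, mem_ball_self hr, ?_⟩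
  intro φ hφ
  refine ⟨id, strictMono_id, Or.inr ?_⟩
  intro K hK _ M
  have := hφ.tendsto_atTop.eventually (h M)
  filter_upwards [this] with k hk w hw
  exact hk w (hK hw)

/-- Escape propagates inside a normal neighbourhood. -/
lemma escAt_of_normal {f : ℂ → ℂ} {z w : ℂ} {U : Set ℂ} (hU : IsOpen U) (hN : NormalOn f U)
    (hz : z ∈ U) (hw : w ∈ U) (h : EscAt f w) : EscAt f z := by
  obtain ⟨r, hr, hball⟩ := Metric.nhds_basis_closedBall.mem_iff.mp (hU.mem_nhds hz)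
  refine ⟨r, hr, fun M => ?_⟩
  by_contra hcon
  obtain ⟨φ, hφ, hbad⟩ := extraction_of_frequently_atTop (not_eventually.mp hcon)
  obtain ⟨ψ, hψ, hcase⟩ := hN φ hφ
  have hφψ : Tendsto (fun k => φ (ψ k)) atTop atTop := (hφ.comp hψ).tendsto_atTop
  rcases hcase with ⟨g, hg⟩ | hinf
  · obtain ⟨s, hs, hesc⟩ := h
    have h1 : Tendsto (fun k => f^[φ (ψ k)] w) atTop (𝓝 (g w)) := hg.tendsto_at hw
    have h2 : ∀ᶠ k in atTop, ‖f^[φ (ψ k)] w‖ < ‖g w‖ + 1 :=
      h1.norm.eventually (gt_mem_nhds (by linarith))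
    have h3 : ∀ᶠ k in atTop, ‖g w‖ + 1 < ‖f^[φ (ψ k)] w‖ := by
      have := hφψ.eventually (hesc (‖g w‖ + 1))
      filter_upwards [this] with k hk
      exact hk w (mem_ball_self hs)
    obtain ⟨k, h4, h5⟩ := (h2.and h3).exists
    linarith
  · obtain ⟨k, hk⟩ := (hinf (closedBall z r) hball (isCompact_closedBall z r) M).exists
    apply hbad (ψ k)
    intro v hv
    exact hk v (ball_subset_closedBall hv)

/-- On a Fatou component, escape at one point implies escape at all points. -/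
lemma escAt_of_comp {f : ℂ → ℂ} {z w : ℂ} (hz : EscAt f z) (hw : w ∈ comp f z) : EscAt f w := by
  have hzF := hz.mem_FatouSet
  have hpre : IsPreconnected (comp f z) := isPreconnected_connectedComponentIn
  by_contra hcon
  let A : Set ℂ := {v | EscAt f v}
  let B : Set ℂ := {v | v ∈ FatouSet f ∧ ¬ EscAt f v}
  have hA : IsOpen A := by
    rw [isOpen_iff_mem_nhds]
    intro v hv
    exact EscAt.eventually_nhds hv
  have hB : IsOpen B := by
    rw [isOpen_iff_mem_nhds]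
    rintro v ⟨⟨U, hU, hv, hN⟩, hne⟩
    filter_upwards [hU.mem_nhds hv] with u hu
    exact ⟨⟨U, hU, hu, hN⟩, fun h => hne (escAt_of_normal hU hN hv hu h)⟩
  have hsub : comp f z ⊆ A ∪ B := by
    intro v hv
    by_cases h : EscAt f v
    · exact Or.inl h
    · exact Or.inr ⟨connectedComponentIn_subset _ _ hv, h⟩
  obtain ⟨v, _, hv1, hv2⟩ := hpre A B hA hB hsub ⟨z, mem_connectedComponentIn hzF, hz⟩
    ⟨w, hw, connectedComponentIn_subset _ _ hw, hcon⟩
  exact hv2.2 hv1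

/-- Existence of a holomorphic logarithm on a ball. -/
lemma exists_log {g : ℂ → ℂ} {z : ℂ} {r : ℝ} (hr : 0 < r) (hg : DifferentiableOn ℂ g (ball z r))
    (h0 : ∀ w ∈ ball z r, g w ≠ 0) :
    ∃ H : ℂ → ℂ, DifferentiableOn ℂ H (ball z r) ∧ ∀ w ∈ ball z r, g w = Complex.exp (H w) := by
  have hz : z ∈ ball z r := mem_ball_self hr
  have hd : DifferentiableOn ℂ (fun w => deriv g w / g w) (ball z r) :=
    (hg.deriv isOpen_ball).div hg h0
  obtain ⟨H, hHz, hH⟩ := hd.isExactOn_ball.with_val_at z (Complex.log (g z))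
  refine ⟨H, fun w hw => (hH w hw).differentiableAt.differentiableWithinAt, ?_⟩
  have hgd : ∀ w ∈ ball z r, HasDerivAt g (deriv g w) w := fun w hw =>
    (hg.differentiableAt (isOpen_ball.mem_nhds hw)).hasDerivAt
  have hq : ∀ w ∈ ball z r, HasDerivAt (fun w => g w * Complex.exp (-H w)) 0 w := by
    intro w hw
    have h1 := (hgd w hw).mul ((hH w hw).neg.cexp)
    refine h1.congr_deriv ?_
    have := h0 w hw
    simp only [Pi.neg_apply]
    field_simp
    ring
  intro w hw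
  have hconst := isOpen_ball.is_const_of_deriv_eq_zero (convex_ball z r).isPreconnected
    (f := fun w => g w * Complex.exp (-H w))
    (fun v hv => (hq v hv).differentiableAt.differentiableWithinAt)
    (fun v hv => (hq v hv).deriv) hw hz
  rw [hHz, Complex.exp_neg, Complex.exp_neg, Complex.exp_log (h0 z hz),
    mul_inv_cancel₀ (h0 z hz)] at hconst
  exact (mul_inv_eq_one₀ (Complex.exp_ne_zero _)).mp hconst

lemma le_of_sqs {a b : ℝ} (h : a ^ 2 ≤ b ^ 2) (hb : 0 ≤ b) : a ≤ b := by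
  by_contra hc
  push Not at hc
  nlinarith

/-- Harnack's inequality for the real part. -/
lemma harnack_re {H : ℂ → ℂ} {z w : ℂ} {r : ℝ} (hr : 0 < r) (hH : DifferentiableOn ℂ H (ball z r))
    (hpos : ∀ w ∈ ball z r, 0 < (H w).re) (hw : w ∈ ball z (r / 2)) :
    (H w).re ≤ 3 * (H z).re ∧ (H z).re ≤ 3 * (H w).re := by
  have hz : z ∈ ball z r := mem_ball_self hr
  have hw' : w ∈ ball z r := ball_subset_ball (by linarith) hw
  set a := H z with ha
  have hapos : 0 < a.re := hpos z hz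
  have hden : ∀ w ∈ ball z r, H w + (starRingEnd ℂ) a ≠ 0 := by
    intro w hw h
    have := congrArg Complex.re h
    rw [Complex.add_re, Complex.conj_re, Complex.zero_re] at this
    linarith [hpos w hw]
  set c : ℂ → ℂ := fun w => (H w - a) / (H w + (starRingEnd ℂ) a) with hc
  have hcz : c z = 0 := by simp [hc, ← ha]
  have hcd : DifferentiableOn ℂ c (ball z r) := (hH.sub_const a).div (hH.add_const _) hden
  have hmaps : MapsTo c (ball z r) (closedBall (c z) 1) := by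
    intro w hw
    rw [hcz, mem_closedBall_zero_iff, hc]
    simp only [norm_div]
    rw [div_le_one (norm_pos_iff.mpr (hden w hw))]
    apply le_of_sqs _ (norm_nonneg _)
    rw [Complex.sq_norm, Complex.sq_norm, Complex.normSq_apply, Complex.normSq_apply]
    simp only [Complex.sub_re, Complex.sub_im, Complex.add_re, Complex.add_im, Complex.conj_re,
      Complex.conj_im]
    nlinarith [hpos w hw]
  have h1 := Complex.dist_le_div_mul_dist_of_mapsTo_ball hcd hmaps hw'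
  rw [hcz, dist_zero_right] at h1
  have h2 : ‖c w‖ ≤ 1 / 2 := by
    refine h1.trans ?_
    rw [mem_ball] at hw
    rw [div_mul_eq_mul_div, one_mul, div_le_iff₀ hr]
    linarith
  rw [hc] at h2
  simp only [norm_div] at h2
  rw [div_le_iff₀ (norm_pos_iff.mpr (hden w hw'))] at h2
  have h3 : ‖H w - a‖ ^ 2 ≤ (1 / 2 * ‖H w + (starRingEnd ℂ) a‖) ^ 2 :=
    pow_le_pow_left₀ (norm_nonneg _) h2 2
  rw [mul_pow, Complex.sq_norm, Complex.sq_norm, Complex.normSq_apply, Complex.normSq_apply] at h3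
  simp only [Complex.sub_re, Complex.sub_im, Complex.add_re, Complex.add_im, Complex.conj_re,
      Complex.conj_im] at h3
  have hwp := hpos w hw'
  have h4 : ((H w).re - a.re) ^ 2 ≤ (1 / 2 * ((H w).re + a.re)) ^ 2 := by nlinarith
  have h5 := abs_le_of_sq_le_sq h4 (by positivity)
  rw [abs_le] at h5
  constructor <;> linarith [h5.1, h5.2]

lemma harnack_norm {g : ℂ → ℂ} {z w : ℂ} {r : ℝ} (hr : 0 < r) (hg : DifferentiableOn ℂ g (ball z r))
    (h1 : ∀ w ∈ ball z r, 1 < ‖g w‖) (hw : w ∈ ball z (r / 2)) :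
    Real.log ‖g w‖ ≤ 3 * Real.log ‖g z‖ ∧ Real.log ‖g z‖ ≤ 3 * Real.log ‖g w‖ := by
  have h0 : ∀ w ∈ ball z r, g w ≠ 0 := by
    intro w hw h
    have := h1 w hw
    rw [h, norm_zero] at this
    linarith
  obtain ⟨H, hH, hgH⟩ := exists_log hr hg h0
  have hlog : ∀ w ∈ ball z r, Real.log ‖g w‖ = (H w).re := by
    intro w hw
    rw [hgH w hw, Complex.norm_exp, Real.log_exp]
  have hpos : ∀ w ∈ ball z r, 0 < (H w).re := by
    intro w hw
    rw [← hlog w hw]
    exact Real.log_pos (h1 w hw)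
  have hz : z ∈ ball z r := mem_ball_self hr
  have hw' : w ∈ ball z r := ball_subset_ball (by linarith) hw
  rw [hlog w hw', hlog z hz]
  exact harnack_re hr hH hpos hw

/-- Harnack chain for a sequence of holomorphic functions of modulus larger than one. -/
lemma harnack_chain {U : Set ℂ} (hpre : IsPreconnected U) (hU : IsOpen U) {g : ℕ → ℂ → ℂ}
    (hg : ∀ k, DifferentiableOn ℂ (g k) U)
    (hloc : ∀ z ∈ U, ∃ r > 0, ∀ᶠ k in atTop, ∀ w ∈ ball z r, 1 < ‖g k w‖)
    {a b : ℂ} (ha : a ∈ U) (hb : b ∈ U) :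
    ∃ C : ℝ, 0 < C ∧ ∀ᶠ k in atTop, Real.log ‖g k b‖ ≤ C * Real.log ‖g k a‖ := by
  have key : ∀ z ∈ U, ∃ r > 0, ball z r ⊆ U ∧ ∀ w ∈ ball z r, ∀ᶠ k in atTop,
      Real.log ‖g k w‖ ≤ 3 * Real.log ‖g k z‖ ∧ Real.log ‖g k z‖ ≤ 3 * Real.log ‖g k w‖ := by
    intro z hz
    obtain ⟨r1, hr1, h1⟩ := hloc z hz
    obtain ⟨r2, hr2, h2⟩ := Metric.isOpen_iff.mp hU z hz
    set r := min r1 r2 with hr
    have hr0 : 0 < r := lt_min hr1 hr2
    refine ⟨r / 2, by linarith, (ball_subset_ball (by linarith [min_le_right r1 r2])).trans h2, ?_⟩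
    intro w hw
    filter_upwards [h1] with k hk
    exact harnack_norm hr0 ((hg k).mono ((ball_subset_ball (min_le_right r1 r2)).trans h2))
      (fun v hv => hk v (ball_subset_ball (min_le_left r1 r2) hv)) hw
  let S : Set ℂ := {z | z ∈ U ∧ ∃ C : ℝ, 0 < C ∧ ∀ᶠ k in atTop,
    Real.log ‖g k z‖ ≤ C * Real.log ‖g k a‖}
  let T : Set ℂ := {z | z ∈ U ∧ ¬ ∃ C : ℝ, 0 < C ∧ ∀ᶠ k in atTop,
    Real.log ‖g k z‖ ≤ C * Real.log ‖g k a‖}
  have hS : IsOpen S := by
    rw [isOpen_iff_mem_nhds]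
    rintro z ⟨hz, C, hC, hb⟩
    obtain ⟨r, hr, hball, hh⟩ := key z hz
    filter_upwards [ball_mem_nhds z hr] with w hw
    refine ⟨hball hw, 3 * C, by linarith, ?_⟩
    filter_upwards [hb, hh w hw] with k h1 h2
    linarith [h2.1]
  have hT : IsOpen T := by
    rw [isOpen_iff_mem_nhds]
    rintro z ⟨hz, hne⟩
    obtain ⟨r, hr, hball, hh⟩ := key z hz
    filter_upwards [ball_mem_nhds z hr] with w hw
    refine ⟨hball hw, ?_⟩
    rintro ⟨C, hC, hb⟩
    apply hne
    refine ⟨3 * C, by linarith, ?_⟩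
    filter_upwards [hb, hh w hw] with k h1 h2
    linarith [h2.2]
  by_contra hcon
  have hsub : U ⊆ S ∪ T := by
    intro z hz
    by_cases h : ∃ C : ℝ, 0 < C ∧ ∀ᶠ k in atTop, Real.log ‖g k z‖ ≤ C * Real.log ‖g k a‖
    · exact Or.inl ⟨hz, h⟩
    · exact Or.inr ⟨hz, h⟩
  have haS : a ∈ S := ⟨ha, 1, one_pos, Eventually.of_forall fun k => by rw [one_mul]⟩
  have hbT : b ∈ T := ⟨hb, hcon⟩
  obtain ⟨v, _, hv1, hv2⟩ := hpre S T hS hT hsub ⟨a, ha, haS⟩ ⟨b, hb, hbT⟩
  exact hv2.2 hv1.2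

/-- Preimages of escaping points are escaping. -/
lemma escAt_of_image {f : ℂ → ℂ} (hf : Continuous f) {z : ℂ} (h : EscAt f (f z)) : EscAt f z := by
  obtain ⟨r, hr, h⟩ := h
  have : f ⁻¹' ball (f z) r ∈ 𝓝 z := hf.continuousAt (ball_mem_nhds _ hr)
  obtain ⟨s, hs, hsub⟩ := Metric.mem_nhds_iff.mp this
  refine ⟨s, hs, fun M => ?_⟩
  have h1 := h M
  rw [eventually_atTop] at h1 ⊢
  obtain ⟨N, hN⟩ := h1
  refine ⟨N + 1, fun k hk w hw => ?_⟩
  obtain ⟨j, rfl⟩ : ∃ j, k = j + 1 := ⟨k - 1, by omega⟩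
  rw [Function.iterate_succ_apply]
  exact hN j (by omega) (f w) (hsub hw)

/-- Images of escaping points are escaping (open mapping). -/
lemma escAt_image {f : ℂ → ℂ} (hopen : IsOpenMap f) {z : ℂ} (h : EscAt f z) : EscAt f (f z) := by
  obtain ⟨r, hr, h⟩ := h
  have : f '' ball z r ∈ 𝓝 (f z) := hopen.image_mem_nhds (ball_mem_nhds _ hr)
  obtain ⟨s, hs, hsub⟩ := Metric.mem_nhds_iff.mp this
  refine ⟨s, hs, fun M => ?_⟩
  have h1 := h M
  rw [eventually_atTop] at h1 ⊢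
  obtain ⟨N, hN⟩ := h1
  refine ⟨N, fun k hk w hw => ?_⟩
  obtain ⟨v, hv, rfl⟩ := hsub hw
  rw [← Function.iterate_succ_apply]
  exact hN (k + 1) (by omega) v hv

end

end Pool.Agent.H218R3.Fat
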