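import Mathlib
import Pool.Agent.H753R3.LM.Stmts

/-!
Project H753-LM, task T5: approximation of local quasi-characters by characters.
-/

set_option autoImplicit false

namespace Pool.Agent.H218R3.LM

open Topology Filter Set Finsupp

abbrev T1 := AddCircle (1 : ℝ)

lemma exists_lift (u : T1) : ∃ r : ℝ, (r : T1) = u ∧ |r| = ‖u‖ := by
  obtain ⟨r0, rfl⟩ := QuotientAddGroup.mk_surjective u
  refine ⟨r0 - round r0, ?_, ?_⟩
  · have h : (((round r0 : ℤ) : ℝ) : T1) = 0 := by
      rw [AddCircle.coe_eq_zero_iff]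
      exact ⟨round r0, by simp⟩
    have h2 : ((r0 - ((round r0 : ℤ) : ℝ) : ℝ) : T1) = (r0 : T1) - (((round r0 : ℤ) : ℝ) : T1) :=
      AddCircle.coe_sub _ _ _
    rw [h2, h, sub_zero]
  · exact (UnitAddCircle.norm_eq (x := r0)).symm

lemma norm_coe_le (r : ℝ) : ‖(r : T1)‖ ≤ |r| := by
  have h := UnitAddCircle.norm_eq (x := r)
  have h2 := round_le r 0
  simp only [Int.cast_zero, sub_zero] at h2
  exact h.le.trans h2

lemma eq_of_coe {r r' : ℝ} (h : (r : T1) = (r' : T1)) (h1 : |r - r'| < 1) : r = r' := by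
  have h0 : ((r - r' : ℝ) : T1) = 0 := by
    rw [AddCircle.coe_sub, h, sub_self]
  rw [AddCircle.coe_eq_zero_iff] at h0
  obtain ⟨n, hn⟩ := h0
  rw [zsmul_eq_mul, mul_one] at hn
  rw [← hn] at h1
  have h3 : |n| < 1 := by exact_mod_cast h1
  have h4 : n = 0 := by
    rw [abs_lt] at h3; omega
  rw [h4] at hn
  simp at hn
  linarith

/-- the box -/
def InBox (T : Finset ℕ) (a : ℕ →₀ ℤ) : Prop :=
  ∀ i, (i ∈ T → |a i| ≤ 4 ^ i) ∧ (i ∉ T → a i = 0)

lemma inBox_insert {T : Finset ℕ} {k : ℕ} (hk : k ∉ T) {a : ℕ →₀ ℤ} (ha : InBox T a) {t : ℤ}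
    (ht : |t| ≤ 4 ^ k) : InBox (insert k T) (a + single k t) := by
  intro i
  by_cases hik : i = k
  · subst hik
    refine ⟨fun _ => ?_, fun h => absurd (Finset.mem_insert_self _ _) h⟩
    rw [Finsupp.add_apply, Finsupp.single_eq_same, (ha i).2 hk, zero_add]
    exact ht
  · have h1 : (a + single k t) i = a i := by
      rw [Finsupp.add_apply, Finsupp.single_eq_of_ne hik, add_zero]
    rw [h1]
    refine ⟨fun h => (ha i).1 ?_, fun h => (ha i).2 ?_⟩
    · exact (Finset.mem_insert.mp h).resolve_left hik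
    · exact fun h' => h (Finset.mem_insert_of_mem h')

lemma exists_mean (T : Finset ℕ) : ∃ A : ((ℕ →₀ ℤ) → ℝ) →ₗ[ℝ] ℝ,
    A (fun _ => 1) = 1 ∧
    (∀ (f : (ℕ →₀ ℤ) → ℝ) (C : ℝ), (∀ a, InBox T a → |f a| ≤ C) → |A f| ≤ C) ∧
    (∀ j ∈ T, ∀ (f : (ℕ →₀ ℤ) → ℝ) (C : ℝ), 0 ≤ C → (∀ a, InBox T a → |f a| ≤ C) →
      (∀ a, InBox T a → |f (a + single j 1)| ≤ C) →
      |A (fun a => f (a + single j 1)) - A f| ≤ C / 4 ^ j) := by
  induction T using Finset.induction_on with
  | empty =>
    refine ⟨LinearMap.proj 0, rfl, ?_, ?_⟩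
    · intro f C h
      exact h 0 (fun i => ⟨fun h => by simp at h, fun _ => rfl⟩)
    · intro j hj
      simp at hj
  | insert k T hk ih =>
    obtain ⟨A, hA1, hAb, hAs⟩ := ih
    set n : ℕ := 2 * 4 ^ k + 1 with hn
    have hnpos : (0 : ℝ) < (n : ℝ) := by rw [hn]; positivity
    let tr : ℤ → ((ℕ →₀ ℤ) → ℝ) →ₗ[ℝ] ((ℕ →₀ ℤ) → ℝ) := fun t =>
      { toFun := fun f a => f (a + single k t)
        map_add' := fun f g => rfl
        map_smul' := fun c f => rfl }
    have htr : ∀ t f, tr t f = fun a => f (a + single k t) := fun t f => rfl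
    let A' : ((ℕ →₀ ℤ) → ℝ) →ₗ[ℝ] ℝ :=
      ((n : ℝ)⁻¹) • ∑ i ∈ Finset.range n, A.comp (tr ((i : ℤ) - 4 ^ k))
    have hA' : ∀ f, A' f = ((n : ℝ)⁻¹) * ∑ i ∈ Finset.range n,
        A (fun a => f (a + single k ((i : ℤ) - 4 ^ k))) := by
      intro f
      simp only [A', LinearMap.smul_apply, LinearMap.sum_apply, LinearMap.comp_apply, htr,
        smul_eq_mul]
    have htb : ∀ i ∈ Finset.range n, |((i : ℤ) - 4 ^ k)| ≤ 4 ^ k := by
      intro i hi
      rw [Finset.mem_range, hn] at hi
      rw [abs_le]
      constructor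
      · have : (0 : ℤ) ≤ i := by positivity
        linarith
      · have : (i : ℤ) < 2 * 4 ^ k + 1 := by exact_mod_cast hi
        linarith
    have havg : ∀ (F : ℕ → ℝ) (C : ℝ), (∀ i ∈ Finset.range n, |F i| ≤ C) →
        |((n : ℝ)⁻¹) * ∑ i ∈ Finset.range n, F i| ≤ C := by
      intro F C hF
      rw [abs_mul, abs_of_pos (inv_pos.mpr hnpos)]
      have h1 : |∑ i ∈ Finset.range n, F i| ≤ n * C := by
        calc |∑ i ∈ Finset.range n, F i| ≤ ∑ i ∈ Finset.range n, |F i| :=
              Finset.abs_sum_le_sum_abs _ _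
          _ ≤ ∑ i ∈ Finset.range n, C := Finset.sum_le_sum hF
          _ = n * C := by simp
      calc (n : ℝ)⁻¹ * |∑ i ∈ Finset.range n, F i| ≤ (n : ℝ)⁻¹ * (n * C) :=
            mul_le_mul_of_nonneg_left h1 (inv_pos.mpr hnpos).le
        _ = C := by field_simp
    refine ⟨A', ?_, ?_, ?_⟩
    · rw [hA']
      simp only [hA1, Finset.sum_const, Finset.card_range, nsmul_eq_mul, mul_one]
      exact inv_mul_cancel₀ hnpos.ne'
    · intro f C h
      rw [hA']
      apply havg
      intro i hi
      apply hAb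
      intro a ha
      exact h _ (inBox_insert hk ha (htb i hi))
    · intro j hj f C hC h h'
      rw [hA', hA', ← mul_sub, ← Finset.sum_sub_distrib]
      by_cases hjk : j = k
      · subst hjk
        set G : ℕ → ℝ := fun i => A (fun a => f (a + single j ((i : ℤ) - 4 ^ j))) with hG
        have h1 : ∀ i : ℕ, A (fun a => f (a + single j ((i : ℤ) - 4 ^ j) + single j 1)) = G (i + 1) := by
          intro i
          rw [hG]
          congr 1
          funext a
          rw [add_assoc, ← Finsupp.single_add]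
          congr 3
          push_cast
          ring
        have h2 : ∑ i ∈ Finset.range n, (A (fun a => f (a + single j ((i : ℤ) - 4 ^ j) + single j 1))
            - A (fun a => f (a + single j ((i : ℤ) - 4 ^ j)))) = G n - G 0 := by
          rw [← Finset.sum_range_sub]
          apply Finset.sum_congr rfl
          intro i hi
          rw [h1]
        rw [h2]
        have h3 : |G 0| ≤ C := by
          rw [hG]
          apply hAb
          intro a ha
          apply h
          apply inBox_insert hk ha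
          apply htb
          simp [hn]
        have h4 : |G n| ≤ C := by
          rw [hn, ← h1]
          apply hAb
          intro a ha
          apply h'
          apply inBox_insert hk ha
          apply htb
          simp [hn]
        have h5 : |G n - G 0| ≤ 2 * C := by
          calc |G n - G 0| ≤ |G n| + |G 0| := abs_sub _ _
            _ ≤ 2 * C := by linarith
        rw [abs_mul, abs_of_pos (inv_pos.mpr hnpos)]
        calc (n : ℝ)⁻¹ * |G n - G 0| ≤ (n : ℝ)⁻¹ * (2 * C) :=
              mul_le_mul_of_nonneg_left h5 (inv_pos.mpr hnpos).le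
          _ ≤ C / 4 ^ j := by
            rw [inv_mul_eq_div, div_le_div_iff₀ hnpos (by positivity), hn]
            push_cast
            nlinarith [pow_pos (show (0 : ℝ) < 4 by norm_num) j]
      · have hjT : j ∈ T := (Finset.mem_insert.mp hj).resolve_left hjk
        apply havg
        intro i hi
        have h1 : (fun a => f (a + single k ((i : ℤ) - 4 ^ k) + single j 1)) =
            fun a => (fun b => f (b + single k ((i : ℤ) - 4 ^ k))) (a + single j 1) := by
          funext a
          simp only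
          congr 1
          abel
        rw [h1]
        apply hAs j hjT (fun b => f (b + single k ((i : ℤ) - 4 ^ k))) C hC
        · intro a ha
          exact h _ (inBox_insert hk ha (htb i hi))
        · intro a ha
          have := h' _ (inBox_insert hk ha (htb i hi))
          convert this using 3
          abel

/-- The chosen real lift. -/
noncomputable def lft (u : T1) : ℝ := (exists_lift u).choose

lemma lft_coe (u : T1) : ((lft u : ℝ) : T1) = u := (exists_lift u).choose_spec.1
lemma lft_abs (u : T1) : |lft u| = ‖u‖ := (exists_lift u).choose_spec.2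

lemma four_ge (j : ℕ) : (j : ℤ) + 1 ≤ 4 ^ j := by
  induction j with
  | zero => norm_num
  | succ n ih => rw [pow_succ]; push_cast; linarith

lemma two_mul_le (i : ℕ) : 2 * (i : ℝ) ≤ 2 ^ i := by
  rcases i with _ | i
  · norm_num
  · have : (i : ℝ) + 1 ≤ 2 ^ i := by
      exact_mod_cast Nat.lt_two_pow_self
    rw [pow_succ]; push_cast; linarith

lemma weight_le (i : ℕ) : (i : ℝ) / 4 ^ i ≤ (1 / 2) ^ (i + 1) := by
  rw [div_le_iff₀ (by positivity)]
  have h1 := two_mul_le i
  have h2 : (4 : ℝ) ^ i = 2 ^ i * 2 ^ i := by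
    rw [← mul_pow]; norm_num
  have h3 : ((1 : ℝ) / 2) ^ (i + 1) * 4 ^ i = 2 ^ i / 2 := by
    rw [h2, pow_succ, div_pow, one_pow]
    field_simp
  rw [h3]; linarith

lemma sum_half (T : Finset ℕ) : ∑ i ∈ T, ((1 : ℝ) / 2) ^ (i + 1) ≤ 1 := by
  have h1 : Summable (fun i : ℕ => ((1 : ℝ) / 2) ^ (i + 1)) := by
    simp_rw [pow_succ]
    exact (summable_geometric_of_lt_one (by norm_num) (by norm_num)).mul_right _
  calc ∑ i ∈ T, ((1 : ℝ) / 2) ^ (i + 1) ≤ ∑' i : ℕ, ((1 : ℝ) / 2) ^ (i + 1) :=
        h1.sum_le_tsum T (fun i _ => by positivity)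
    _ = 1 := by
      simp_rw [pow_succ]
      rw [tsum_mul_right, tsum_geometric_of_lt_one (by norm_num) (by norm_num)]
      norm_num

/-- good coefficient vectors -/
def Good (s N : ℕ) (c : ℕ →₀ ℤ) : Prop :=
  ∀ j, |c j| ≤ (j : ℤ) ∧ (j ∉ Finset.Icc s N → c j = 0)

lemma level (φ : (ℕ →₀ ℤ) → T1) (s : ℕ) (ε : ℝ) (hε : 0 < ε) (hε1 : ε ≤ 1 / 100)
    (hφ : ∀ a b : ℕ →₀ ℤ, (∀ j, |a j| ≤ 2 * 4 ^ j ∧ (j < s → a j = 0)) →
      (∀ j, |b j| ≤ 2 * 4 ^ j ∧ (j < s → b j = 0)) →
      (∀ j, |(a + b) j| ≤ 2 * 4 ^ j) → ‖φ (a + b) - φ a - φ b‖ ≤ ε) (N : ℕ) :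
    ∃ x : ℕ → T1, ∀ c, Good s N c → ‖c.sum (fun i n => n • x i) - φ c‖ ≤ 2 * ε := by
  obtain ⟨A, hA1, hAb, hAs⟩ := exists_mean (Finset.Icc s N)
  let D : (ℕ →₀ ℤ) → (ℕ →₀ ℤ) → ℝ := fun c a => lft (φ (a + c) - φ a - φ c)
  let Ψ : (ℕ →₀ ℤ) → T1 := fun c => φ c + ((A (D c) : ℝ) : T1)
  have hAc : ∀ r : ℝ, A (fun _ => r) = r := by
    intro r
    have h : (fun _ : ℕ →₀ ℤ => r) = r • (fun _ : ℕ →₀ ℤ => (1 : ℝ)) := by
      funext a; simp
    rw [h, map_smul, hA1]; simp
  have hDb : ∀ c a : ℕ →₀ ℤ, (∀ j, |c j| ≤ 2 * 4 ^ j ∧ (j < s → c j = 0)) →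
      (∀ j, |a j| ≤ 2 * 4 ^ j ∧ (j < s → a j = 0)) → (∀ j, |(a + c) j| ≤ 2 * 4 ^ j) →
      |D c a| ≤ ε := by
    intro c a hc ha hac
    simp only [D]
    rw [lft_abs]
    exact hφ a c ha hc hac
  have hDc : ∀ c a, ((D c a : ℝ) : T1) = φ (a + c) - φ a - φ c := fun c a => lft_coe _
  have hgood : ∀ c, Good s N c → (∀ j, |c j| ≤ 2 * 4 ^ j ∧ (j < s → c j = 0)) := by
    intro c hc j
    refine ⟨?_, fun hj => (hc j).2 ?_⟩
    · have := (hc j).1
      have h2 := four_ge j
      linarith
    · rw [Finset.mem_Icc]; omega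
  have hbox : ∀ a, InBox (Finset.Icc s N) a → (∀ j, |a j| ≤ 4 ^ j ∧ (j < s → a j = 0)) := by
    intro a ha j
    refine ⟨?_, fun hj => (ha j).2 ?_⟩
    · by_cases hj : j ∈ Finset.Icc s N
      · exact (ha j).1 hj
      · rw [(ha j).2 hj]; simp
    · rw [Finset.mem_Icc]; omega
  have hAD : ∀ c, Good s N c → |A (D c)| ≤ ε := by
    intro c hc
    apply hAb
    intro a ha
    apply hDb c a (hgood c hc)
    · intro j
      have h1 := hbox a ha j
      have h2 : (0 : ℤ) < 4 ^ j := by positivity
      exact ⟨by linarith [h1.1], h1.2⟩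
    · intro j
      have h1 := hbox a ha j
      have h2 := (hc j).1
      have h3 := four_ge j
      calc |(a + c) j| = |a j + c j| := rfl
        _ ≤ |a j| + |c j| := abs_add_le _ _
        _ ≤ 2 * 4 ^ j := by linarith [h1.1]
  -- shift estimate
  have hstep : ∀ j ∈ Finset.Icc s N, ∀ y, Good s N y → Good s N (y + single j 1) →
      ‖Ψ (y + single j 1) - Ψ y - Ψ (single j 1)‖ ≤ ε / 4 ^ j := by
    intro j hj y hy hye
    have hjs : s ≤ j := (Finset.mem_Icc.mp hj).1
    have he : ∀ i, |(single j (1 : ℤ)) i| ≤ 2 * 4 ^ i ∧ (i < s → (single j (1 : ℤ)) i = 0) := by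
      intro i
      by_cases hij : i = j
      · subst hij
        rw [Finsupp.single_eq_same]
        have := four_ge i
        refine ⟨?_, fun h => by omega⟩
        have h0 : (0 : ℤ) ≤ i := by positivity
        rw [abs_one]; linarith
      · rw [Finsupp.single_eq_of_ne hij]
        refine ⟨by rw [abs_zero]; positivity, fun _ => rfl⟩
    have hae : ∀ a, InBox (Finset.Icc s N) a → ∀ i, |(a + single j (1 : ℤ)) i| ≤ 4 ^ i + 1 ∧
        (i < s → (a + single j (1 : ℤ)) i = 0) := by
      intro a ha i
      have h1 := hbox a ha i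
      rw [Finsupp.add_apply]
      by_cases hij : i = j
      · subst hij
        rw [Finsupp.single_eq_same]
        refine ⟨?_, fun h => by omega⟩
        calc |a i + 1| ≤ |a i| + |1| := abs_add_le _ _
          _ ≤ 4 ^ i + 1 := by rw [abs_one]; linarith [h1.1]
      · rw [Finsupp.single_eq_of_ne hij, add_zero]
        exact ⟨by linarith [h1.1], h1.2⟩
    have hae' : ∀ a, InBox (Finset.Icc s N) a → ∀ i, |(a + single j (1 : ℤ)) i| ≤ 2 * 4 ^ i ∧
        (i < s → (a + single j (1 : ℤ)) i = 0) := by
      intro a ha i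
      have h1 := hae a ha i
      have h2 := four_ge i
      have h0 : (0 : ℤ) ≤ i := by positivity
      exact ⟨by linarith [h1.1], h1.2⟩
    have ha' : ∀ a, InBox (Finset.Icc s N) a → ∀ i, |a i| ≤ 2 * 4 ^ i ∧
        (i < s → a i = 0) := by
      intro a ha i
      have h1 := hbox a ha i
      have h2 : (0 : ℤ) < 4 ^ i := by positivity
      exact ⟨by linarith [h1.1], h1.2⟩
    -- four bounds
    have b1 : ∀ a, InBox (Finset.Icc s N) a → |D y (a + single j 1)| ≤ ε := by
      intro a ha
      apply hDb _ _ (hgood y hy) (hae' a ha)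
      intro i
      have h1 := hbox a ha i
      have h2 := (hye i).1
      have h3 := four_ge i
      have h4 : (a + single j (1 : ℤ) + y) i = a i + (y + single j (1 : ℤ)) i := by
        simp only [Finsupp.add_apply]; ring
      rw [h4]
      calc |a i + (y + single j (1 : ℤ)) i| ≤ |a i| + |(y + single j (1 : ℤ)) i| := abs_add_le _ _
        _ ≤ 2 * 4 ^ i := by linarith [h1.1]
    have b1' : ∀ a, InBox (Finset.Icc s N) a → |D y a| ≤ ε := by
      intro a ha
      apply hDb _ _ (hgood y hy) (ha' a ha)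
      intro i
      have h1 := hbox a ha i
      have h2 := (hy i).1
      have h3 := four_ge i
      calc |(a + y) i| = |a i + y i| := rfl
        _ ≤ |a i| + |y i| := abs_add_le _ _
        _ ≤ 2 * 4 ^ i := by linarith [h1.1]
    have b2 : ∀ a, InBox (Finset.Icc s N) a → |D (single j 1) a| ≤ ε := by
      intro a ha
      apply hDb _ _ he (ha' a ha)
      intro i
      exact (hae' a ha i).1
    have b3 : ∀ a, InBox (Finset.Icc s N) a → |D (y + single j 1) a| ≤ ε := by
      intro a ha
      apply hDb _ _ (hgood _ hye) (ha' a ha)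
      intro i
      have h1 := hbox a ha i
      have h2 := (hye i).1
      have h3 := four_ge i
      calc |(a + (y + single j (1 : ℤ))) i| = |a i + (y + single j (1 : ℤ)) i| := rfl
        _ ≤ |a i| + |(y + single j (1 : ℤ)) i| := abs_add_le _ _
        _ ≤ 2 * 4 ^ i := by linarith [h1.1]
    have b4 : |D (single j 1) y| ≤ ε := by
      apply hDb _ _ he (hgood y hy)
      intro i
      exact (hgood _ hye i).1
    have hcoc : ∀ a, InBox (Finset.Icc s N) a →
        D (y + single j 1) a = D y (a + single j 1) + D (single j 1) a - D (single j 1) y := by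
      intro a ha
      apply eq_of_coe
      · rw [AddCircle.coe_sub, AddCircle.coe_add, hDc, hDc, hDc, hDc]
        have h1 : a + (y + single j 1) = a + single j 1 + y := by abel
        rw [h1]
        abel
      · have c1 := abs_le.mp (b1 a ha)
        have c2 := abs_le.mp (b2 a ha)
        have c3 := abs_le.mp (b3 a ha)
        have c4 := abs_le.mp b4
        rw [abs_lt]
        constructor <;> linarith [c1.1, c1.2, c2.1, c2.2, c3.1, c3.2, c4.1, c4.2]
    have hAcoc : A (D (y + single j 1)) =
        A (fun a => D y (a + single j 1)) + A (D (single j 1)) - D (single j 1) y := by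
      have h0 : |A (D (y + single j 1) - ((fun a => D y (a + single j 1)) + D (single j 1)
          - fun _ => D (single j 1) y))| ≤ 0 := by
        apply hAb
        intro a ha
        have := hcoc a ha
        simp only [Pi.sub_apply, Pi.add_apply]
        rw [this]
        simp
      have h1 := abs_eq_zero.mp (le_antisymm h0 (abs_nonneg _))
      rw [map_sub, map_sub, map_add, hAc] at h1
      linarith
    have hfin : Ψ (y + single j 1) - Ψ y - Ψ (single j 1) =
        ((A (fun a => D y (a + single j 1)) - A (D y) : ℝ) : T1) := by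
      simp only [Ψ]
      rw [hAcoc, AddCircle.coe_sub, AddCircle.coe_sub, AddCircle.coe_add, hDc]
      abel
    rw [hfin]
    refine (norm_coe_le _).trans ?_
    exact hAs j hj (D y) ε hε.le b1' b1
  have h00 : Good s N 0 := fun j => ⟨by simp, fun _ => rfl⟩
  have hΨ0 : Ψ 0 = 0 := by
    simp only [Ψ]
    have h1 : D 0 = fun _ => lft (-φ 0) := by
      funext a
      simp only [D, add_zero, sub_self, zero_sub]
    rw [h1, hAc, lft_coe, add_neg_cancel]
  refine ⟨fun i => Ψ (single i 1), ?_⟩
  set x : ℕ → T1 := fun i => Ψ (single i 1) with hx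
  have hsum_add : ∀ c d : ℕ →₀ ℤ, (c + d).sum (fun i n => n • x i) =
      c.sum (fun i n => n • x i) + d.sum (fun i n => n • x i) := by
    intro c d
    apply Finsupp.sum_add_index'
    · intro i; simp
    · intro i m n; exact add_smul _ _ _
  have hsum_single : ∀ j, (single j (1 : ℤ)).sum (fun i n => n • x i) = x j := by
    intro j
    rw [Finsupp.sum_single_index (by simp), one_smul]
  -- induction
  have hind : ∀ n : ℕ, ∀ y, Good s N y → ∑ i ∈ Finset.Icc s N, (y i).natAbs = n →
      ‖Ψ y - y.sum (fun i n => n • x i)‖ ≤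
        ∑ i ∈ Finset.Icc s N, ((y i).natAbs : ℝ) * (ε / 4 ^ i) := by
    intro n
    induction n with
    | zero =>
      intro y hy hs
      have hy0 : y = 0 := by
        ext i
        by_cases hi : i ∈ Finset.Icc s N
        · rw [Finset.sum_eq_zero_iff] at hs
          exact Int.natAbs_eq_zero.mp (hs i hi)
        · exact (hy i).2 hi
      subst hy0
      rw [hΨ0]
      simp
    | succ n ih =>
      intro y hy hs
      obtain ⟨j, hj, hyj⟩ : ∃ j ∈ Finset.Icc s N, (y j).natAbs ≠ 0 := by
        by_contra hcon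
        push Not at hcon
        rw [Finset.sum_eq_zero hcon] at hs
        omega
      have hyj0 : y j ≠ 0 := by
        intro h; rw [h] at hyj; exact hyj rfl
      rcases lt_or_gt_of_ne hyj0 with hneg | hpos
      · -- y j < 0
        set z := y + single j (1 : ℤ) with hz
        have hzj : z j = y j + 1 := by rw [hz, Finsupp.add_apply, Finsupp.single_eq_same]
        have hzi : ∀ i, i ≠ j → z i = y i := by
          intro i hi
          rw [hz, Finsupp.add_apply, Finsupp.single_eq_of_ne hi, add_zero]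
        have hgz : Good s N z := by
          intro i
          by_cases hij : i = j
          · subst hij
            refine ⟨?_, fun h => absurd hj h⟩
            rw [hzj]
            have := abs_le.mp (hy i).1
            rw [abs_le]; constructor <;> omega
          · rw [hzi i hij]; exact hy i
        have hnat : (y j).natAbs = (z j).natAbs + 1 := by rw [hzj]; omega
        have hsplit : ∀ (F : ℕ → ℕ → ℝ), ∑ i ∈ Finset.Icc s N, F i (y i).natAbs =
            ∑ i ∈ Finset.Icc s N, F i (z i).natAbs - F j (z j).natAbs + F j (y j).natAbs := by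
          intro F
          rw [← Finset.add_sum_erase _ _ hj, ← Finset.add_sum_erase (Finset.Icc s N)
            (fun i => F i (z i).natAbs) hj]
          have : ∑ i ∈ (Finset.Icc s N).erase j, F i (y i).natAbs =
              ∑ i ∈ (Finset.Icc s N).erase j, F i (z i).natAbs := by
            apply Finset.sum_congr rfl
            intro i hi
            rw [hzi i (Finset.ne_of_mem_erase hi)]
          rw [this]; ring
        have hsz : ∑ i ∈ Finset.Icc s N, (z i).natAbs = n := by
          have h1 := hsplit (fun _ m => (m : ℝ))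
          have h2 : ((∑ i ∈ Finset.Icc s N, (y i).natAbs : ℕ) : ℝ) =
            ((∑ i ∈ Finset.Icc s N, (z i).natAbs : ℕ) : ℝ) - ((z j).natAbs : ℝ) + ((y j).natAbs : ℝ) := by
            push_cast; exact h1
          rw [hs, hnat] at h2
          push_cast at h2
          have h3 : ((∑ i ∈ Finset.Icc s N, (z i).natAbs : ℕ) : ℝ) = (n : ℝ) := by
            push_cast; linarith
          exact_mod_cast h3
        have h1 := ih z hgz hsz
        have h2 := hstep j hj y hy hgz
        have h3 := hsplit (fun i m => (m : ℝ) * (ε / 4 ^ i))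
        rw [h3, hnat]
        have h4 : Ψ y - y.sum (fun i n => n • x i) =
            (Ψ z - z.sum (fun i n => n • x i)) - (Ψ z - Ψ y - Ψ (single j 1)) := by
          have h5 : z.sum (fun i n => n • x i) = y.sum (fun i n => n • x i) + x j := by
            rw [hz, hsum_add, hsum_single]
          rw [h5]
          simp only [hx]
          abel
        rw [h4]
        calc ‖(Ψ z - z.sum (fun i n => n • x i)) - (Ψ z - Ψ y - Ψ (single j 1))‖
            ≤ ‖Ψ z - z.sum (fun i n => n • x i)‖ + ‖Ψ z - Ψ y - Ψ (single j 1)‖ := norm_sub_le _ _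
          _ ≤ _ := by push_cast; linarith
      · -- y j > 0
        set z := y - single j (1 : ℤ) with hz
        have hzy : z + single j 1 = y := by rw [hz]; abel
        have hzj : z j = y j - 1 := by rw [hz, Finsupp.sub_apply, Finsupp.single_eq_same]
        have hzi : ∀ i, i ≠ j → z i = y i := by
          intro i hi
          rw [hz, Finsupp.sub_apply, Finsupp.single_eq_of_ne hi, sub_zero]
        have hgz : Good s N z := by
          intro i
          by_cases hij : i = j
          · subst hij
            refine ⟨?_, fun h => absurd hj h⟩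
            rw [hzj]
            have := abs_le.mp (hy i).1
            rw [abs_le]; constructor <;> omega
          · rw [hzi i hij]; exact hy i
        have hnat : (y j).natAbs = (z j).natAbs + 1 := by rw [hzj]; omega
        have hsplit : ∀ (F : ℕ → ℕ → ℝ), ∑ i ∈ Finset.Icc s N, F i (y i).natAbs =
            ∑ i ∈ Finset.Icc s N, F i (z i).natAbs - F j (z j).natAbs + F j (y j).natAbs := by
          intro F
          rw [← Finset.add_sum_erase _ _ hj, ← Finset.add_sum_erase (Finset.Icc s N)
            (fun i => F i (z i).natAbs) hj]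
          have : ∑ i ∈ (Finset.Icc s N).erase j, F i (y i).natAbs =
              ∑ i ∈ (Finset.Icc s N).erase j, F i (z i).natAbs := by
            apply Finset.sum_congr rfl
            intro i hi
            rw [hzi i (Finset.ne_of_mem_erase hi)]
          rw [this]; ring
        have hsz : ∑ i ∈ Finset.Icc s N, (z i).natAbs = n := by
          have h1 := hsplit (fun _ m => (m : ℝ))
          have h2 : ((∑ i ∈ Finset.Icc s N, (y i).natAbs : ℕ) : ℝ) =
            ((∑ i ∈ Finset.Icc s N, (z i).natAbs : ℕ) : ℝ) - ((z j).natAbs : ℝ) + ((y j).natAbs : ℝ) := by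
            push_cast; exact h1
          rw [hs, hnat] at h2
          push_cast at h2
          have h3 : ((∑ i ∈ Finset.Icc s N, (z i).natAbs : ℕ) : ℝ) = (n : ℝ) := by
            push_cast; linarith
          exact_mod_cast h3
        have h1 := ih z hgz hsz
        have h2 := hstep j hj z hgz (by rw [hzy]; exact hy)
        rw [hzy] at h2
        have h3 := hsplit (fun i m => (m : ℝ) * (ε / 4 ^ i))
        rw [h3, hnat]
        have h4 : Ψ y - y.sum (fun i n => n • x i) =
            (Ψ z - z.sum (fun i n => n • x i)) + (Ψ y - Ψ z - Ψ (single j 1)) := by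
          have h5 : y.sum (fun i n => n • x i) = z.sum (fun i n => n • x i) + x j := by
            rw [← hsum_single j, ← hsum_add, hzy]
          rw [h5]
          simp only [hx]
          abel
        rw [h4]
        calc ‖(Ψ z - z.sum (fun i n => n • x i)) + (Ψ y - Ψ z - Ψ (single j 1))‖
            ≤ ‖Ψ z - z.sum (fun i n => n • x i)‖ + ‖Ψ y - Ψ z - Ψ (single j 1)‖ := norm_add_le _ _
          _ ≤ _ := by push_cast; linarith
  intro c hc
  have h1 := hind _ c hc rfl
  have h2 : ∑ i ∈ Finset.Icc s N, ((c i).natAbs : ℝ) * (ε / 4 ^ i) ≤ ε := by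
    calc ∑ i ∈ Finset.Icc s N, ((c i).natAbs : ℝ) * (ε / 4 ^ i)
        ≤ ∑ i ∈ Finset.Icc s N, ε * ((1 : ℝ) / 2) ^ (i + 1) := by
          apply Finset.sum_le_sum
          intro i _
          have h3 : ((c i).natAbs : ℝ) ≤ i := by
            have := (hc i).1
            rw [Int.abs_eq_natAbs] at this
            exact_mod_cast this
          have h4 := weight_le i
          calc ((c i).natAbs : ℝ) * (ε / 4 ^ i) ≤ (i : ℝ) * (ε / 4 ^ i) :=
                mul_le_mul_of_nonneg_right h3 (by positivity)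
            _ = ε * ((i : ℝ) / 4 ^ i) := by ring
            _ ≤ ε * ((1 : ℝ) / 2) ^ (i + 1) := mul_le_mul_of_nonneg_left h4 hε.le
      _ = ε * ∑ i ∈ Finset.Icc s N, ((1 : ℝ) / 2) ^ (i + 1) := by rw [Finset.mul_sum]
      _ ≤ ε * 1 := mul_le_mul_of_nonneg_left (sum_half _) hε.le
      _ = ε := mul_one _
  have h3 : ‖Ψ c - φ c‖ ≤ ε := by
    have : Ψ c - φ c = ((A (D c) : ℝ) : T1) := by simp only [Ψ]; abel
    rw [this]
    exact (norm_coe_le _).trans (hAD c hc)
  have h4 : c.sum (fun i n => n • x i) - φ c =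
      (Ψ c - φ c) - (Ψ c - c.sum (fun i n => n • x i)) := by abel
  rw [h4]
  calc ‖(Ψ c - φ c) - (Ψ c - c.sum (fun i n => n • x i))‖
      ≤ ‖Ψ c - φ c‖ + ‖Ψ c - c.sum (fun i n => n • x i)‖ := norm_sub_le _ _
    _ ≤ 2 * ε := by linarith

theorem taskT5 : Pool.Agent.H753R3.LM.TaskT5 := by
  intro φ s ε hε hε1 hφ
  let K : ℕ → Set (ℕ → T1) := fun N =>
    {x | ∀ c, Good s N c → ‖c.sum (fun i n => n • x i) - φ c‖ ≤ 2 * ε}
  have : Fact ((0 : ℝ) < 1) := ⟨one_pos⟩
  have hclosed : ∀ N, IsClosed (K N) := by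
    intro N
    have : K N = ⋂ (c : ℕ →₀ ℤ) (_ : Good s N c),
        {x | ‖c.sum (fun i n => n • x i) - φ c‖ ≤ 2 * ε} := by
      ext x; simp [K]
    rw [this]
    refine isClosed_iInter fun c => isClosed_iInter fun _ => ?_
    apply isClosed_le _ continuous_const
    apply Continuous.norm
    apply Continuous.sub _ continuous_const
    unfold Finsupp.sum
    apply continuous_finsetSum
    intro i _
    exact (continuous_apply i).zsmul (c i)
  have hne : ∀ N, (K N).Nonempty := by
    intro N
    obtain ⟨x, hx⟩ := level φ s ε hε hε1 hφ N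
    exact ⟨x, hx⟩
  have hmono : ∀ N, K (N + 1) ⊆ K N := by
    intro N x hx c hc
    apply hx
    intro j
    refine ⟨(hc j).1, fun h => (hc j).2 fun h' => h ?_⟩
    rw [Finset.mem_Icc] at h' ⊢
    omega
  obtain ⟨x, hx⟩ := IsCompact.nonempty_iInter_of_sequence_nonempty_isCompact_isClosed K hmono hne
    (hclosed 0).isCompact hclosed
  rw [Set.mem_iInter] at hx
  refine ⟨Finsupp.liftAddHom (fun i => (zmultiplesHom T1 (x i))), ?_⟩
  intro c hc
  have h1 : Finsupp.liftAddHom (fun i => (zmultiplesHom T1 (x i))) c =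
      c.sum (fun i n => n • x i) := by
    rw [Finsupp.liftAddHom_apply]
    rfl
  rw [h1]
  apply hx (c.support.sup id)
  intro j
  refine ⟨(hc j).1, fun h => ?_⟩
  by_cases hj : j < s
  · exact (hc j).2 hj
  · by_contra hcj
    apply h
    rw [Finset.mem_Icc]
    refine ⟨not_lt.mp hj, ?_⟩
    exact Finset.le_sup (f := id) (Finsupp.mem_support_iff.mpr hcj)

end Pool.Agent.H218R3.LM
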