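import Pool.Agent.H218R3.Box

set_option autoImplicit false
open Filter Topology Set

namespace Pool.Agent.H218R3

noncomputable section

/-- A separation of the escaping set by two disjoint open sets. -/
structure Part (O1 O2 : Set ℂ) : Prop where
  o1 : IsOpen O1
  o2 : IsOpen O2
  disj : Disjoint O1 O2
  cover : Esc ⊆ O1 ∪ O2

variable {O1 O2 : Set ℂ}

lemma same_of_conn (P : Part O1 O2) {C : Set ℂ} (hC : IsPreconnected C) (hE : C ⊆ Esc)
    {a b : ℂ} (ha : a ∈ C) (hb : b ∈ C) : a ∈ O1 ↔ b ∈ O1 := by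
  constructor
  · intro h
    exact hC.subset_left_of_subset_union P.o1 P.o2 P.disj (hE.trans P.cover) ⟨a, ha, h⟩ hb
  · intro h
    exact hC.subset_left_of_subset_union P.o1 P.o2 P.disj (hE.trans P.cover) ⟨b, hb, h⟩ ha

lemma same_image (P : Part O1 O2) {ψ : ℂ → ℂ} (hψ : Good ψ) {C : Set ℂ} (hC : IsPreconnected C)
    (hE : C ⊆ Esc) (hX : C ⊆ Xs) {a b : ℂ} (ha : a ∈ C) (hb : b ∈ C) :
    ψ a ∈ O1 ↔ ψ b ∈ O1 := by
  refine same_of_conn P (hC.image ψ (hψ.cont.mono hX)) ?_ (mem_image_of_mem ψ ha)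
    (mem_image_of_mem ψ hb)
  rintro _ ⟨w, hw, rfl⟩
  exact (hψ.esc w (hX hw)).mpr (hE hw)

lemma al0_ray_subset_Esc : al0 '' ray ⊆ Esc := by
  rintro _ ⟨w, hw, rfl⟩
  exact (good_al0.esc w (ray_subset_Xs hw)).mpr (ray_subset_Esc hw)

lemma al1_ray_subset_Esc : al1 '' ray ⊆ Esc := by
  rintro _ ⟨w, hw, rfl⟩
  exact (good_al1.esc w (ray_subset_Xs hw)).mpr (ray_subset_Esc hw)

/-- `ψ (al0 1) ~ ψ 1`. -/
lemma same_al0 (P : Part O1 O2) {ψ : ℂ → ℂ} (hψ : Good ψ) : ψ (al0 1) ∈ O1 ↔ ψ 1 ∈ O1 := by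
  have hC : IsPreconnected (al0 '' ray) :=
    isPreconnected_ray.image _ (good_al0.cont.mono ray_subset_Xs)
  refine same_image P hψ hC al0_ray_subset_Esc ?_ ⟨1, one_mem_ray, rfl⟩
    ⟨F 1, F_one_mem_ray, al0_F_one⟩
  rintro _ ⟨w, hw, rfl⟩
  exact good_al0.maps (ray_subset_Xs hw)

/-- Admissible words of length `n`. -/
def Word (n : ℕ) (β : ℂ → ℂ) : Prop :=
  Good β ∧ (∀ t ∈ Box n, β t ∈ Box 0 ∧ ∀ k ≤ n, lo k ≤ ‖F^[k] (β t)‖) ∧
    (∀ t ∈ Xs, F^[n] (β t) = t ∨ F^[n] (β t) = (starRingEnd ℂ) t)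

lemma lo_le_norm {n : ℕ} {t : ℂ} (ht : t ∈ Box n) : lo n ≤ ‖t‖ := ht.1.trans (Complex.re_le_norm t)

lemma word_zero : Word 0 (fun z => z) := by
  refine ⟨Good.id, ?_, ?_⟩
  · intro t ht
    refine ⟨ht, ?_⟩
    intro k hk
    have : k = 0 := by omega
    subst this
    simpa using lo_le_norm ht
  · intro t _
    left; simp

lemma word_succ {n : ℕ} {β φ : ℂ → ℂ} (hβ : Word n β) (hφ : Good φ)
    (hbox : ∀ t ∈ Box (n + 1), φ t ∈ Box n)
    (hF : ∀ w ∈ Xs, F (φ w) = w ∨ F (φ w) = (starRingEnd ℂ) w) : Word (n + 1) (β ∘ φ) := by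
  obtain ⟨h1, h2, h3⟩ := hβ
  have key : ∀ t ∈ Xs, F^[n + 1] ((β ∘ φ) t) = t ∨ F^[n + 1] ((β ∘ φ) t) = (starRingEnd ℂ) t := by
    intro t ht
    rw [Function.iterate_succ_apply']
    have ht' := hφ.maps ht
    rcases h3 (φ t) ht' with h | h
    · rw [Function.comp_apply, h]; exact hF t ht
    · rw [Function.comp_apply, h, F_conj]
      rcases hF t ht with h' | h'
      · right; rw [h']
      · left; rw [h']; simp
  refine ⟨h1.comp hφ, ?_, key⟩
  intro t ht
  obtain ⟨g1, g2⟩ := h2 (φ t) (hbox t ht)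
  refine ⟨g1, ?_⟩
  intro k hk
  rcases Nat.lt_or_ge n k with hnk | hnk
  · have hk' : k = n + 1 := by omega
    subst hk'
    have hn : ‖F^[n + 1] ((β ∘ φ) t)‖ = ‖t‖ := by
      rcases key t (Box_subset_Xs _ ht) with h | h <;> rw [h]
      simp
    rw [hn]
    exact lo_le_norm ht
  · exact g2 k hnk

/-- Splitting propagates. -/
lemma exists_split (P : Part O1 O2) {ψ : ℂ → ℂ} (hψ : Good ψ)
    (hsplit : ¬ (ψ 1 ∈ O1 ↔ ψ cpt ∈ O1)) (n : ℕ) :
    ∃ β, Word n β ∧ ¬ (ψ (β 1) ∈ O1 ↔ ψ (β cpt) ∈ O1) := by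
  induction n with
  | zero => exact ⟨fun z => z, word_zero, hsplit⟩
  | succ n ih =>
    obtain ⟨β, hβ, hs⟩ := ih
    have hψβ : Good (ψ ∘ β) := hψ.comp hβ.1
    have e0 : ψ (β (al0 1)) ∈ O1 ↔ ψ (β 1) ∈ O1 := same_al0 P hψβ
    by_cases hc : ψ (β (al0 cpt)) ∈ O1 ↔ ψ (β 1) ∈ O1
    · refine ⟨β ∘ al1, word_succ hβ good_al1 (fun t ht => al1_box ht)
        (fun w hw => Or.inr (F_al1 hw)), ?_⟩
      simp only [Function.comp_apply, al1_one, ← al0_cpt]
      tauto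
    · refine ⟨β ∘ al0, word_succ hβ good_al0 (fun t ht => al0_box ht)
        (fun w hw => Or.inl (F_al0 hw)), ?_⟩
      simp only [Function.comp_apply]
      tauto

/-- The main lemma: `1` and the critical point are never separated. -/
lemma same_cpt (P : Part O1 O2) {ψ : ℂ → ℂ} (hψ : Good ψ) : ψ 1 ∈ O1 ↔ ψ cpt ∈ O1 := by
  by_contra hsplit
  -- points outside `O1 ∪ O2` with controlled orbits
  have key : ∀ n : ℕ, ∃ y ∈ Box 0, ψ y ∉ O1 ∪ O2 ∧ ∀ k ≤ n, lo k ≤ ‖F^[k] y‖ := by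
    intro n
    obtain ⟨β, hβ, hs⟩ := exists_split P hψ hsplit n
    have hψβ : Good (ψ ∘ β) := hψ.comp hβ.1
    have hC : IsPreconnected ((ψ ∘ β) '' Cut n) :=
      (isPreconnected_Cut n).image _ (hψβ.cont.mono (Cut_subset_Xs n))
    have hnot : ¬ ((ψ ∘ β) '' Cut n ⊆ O1 ∪ O2) := by
      intro hsub
      apply hs
      constructor
      · intro h
        exact hC.subset_left_of_subset_union P.o1 P.o2 P.disj hsub
          ⟨_, mem_image_of_mem _ (one_mem_Cut n), h⟩ (mem_image_of_mem _ (cpt_mem_Cut n))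
      · intro h
        exact hC.subset_left_of_subset_union P.o1 P.o2 P.disj hsub
          ⟨_, mem_image_of_mem _ (cpt_mem_Cut n), h⟩ (mem_image_of_mem _ (one_mem_Cut n))
    rw [not_subset] at hnot
    obtain ⟨_, ⟨t, ht, rfl⟩, hout⟩ := hnot
    have htB : t ∈ Box n := by
      rcases ht with (h | h) | h
      · exact absurd (P.cover ((hψβ.esc t (ray_subset_Xs h)).mpr (ray_subset_Esc h))) hout
      · exact segment_subset_box n h
      · have hX : t ∈ Xs := Cut_subset_Xs n (Or.inr h)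
        exact absurd (P.cover ((hψβ.esc t hX).mpr (al1_ray_subset_Esc h))) hout
    obtain ⟨g1, g2⟩ := hβ.2.1 t htB
    exact ⟨β t, g1, hout, g2⟩
  -- compactness
  let S : ℕ → Set ℂ := fun n => {y | y ∈ Box 0 ∧ ψ y ∉ O1 ∪ O2 ∧ ∀ k ≤ n, lo k ≤ ‖F^[k] y‖}
  have hS0 : ∀ n, IsClosed (S n) := by
    intro n
    have hc : ContinuousOn ψ (Box 0) := hψ.cont.mono (Box_subset_Xs 0)
    have h1 : IsClosed (Box 0 ∩ ψ ⁻¹' (O1 ∪ O2)ᶜ) :=
      hc.preimage_isClosed_of_isClosed (isCompact_Box 0).isClosed (P.o1.union P.o2).isClosed_compl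
    have h2 : IsClosed {y : ℂ | ∀ k ≤ n, lo k ≤ ‖F^[k] y‖} := by
      have : {y : ℂ | ∀ k ≤ n, lo k ≤ ‖F^[k] y‖} = ⋂ k, ⋂ (_ : k ≤ n), {y : ℂ | lo k ≤ ‖F^[k] y‖} := by
        ext y; simp
      rw [this]
      refine isClosed_iInter fun k => isClosed_iInter fun _ => ?_
      exact isClosed_le continuous_const (continuous_F.iterate k).norm
    have : S n = (Box 0 ∩ ψ ⁻¹' (O1 ∪ O2)ᶜ) ∩ {y : ℂ | ∀ k ≤ n, lo k ≤ ‖F^[k] y‖} := by
      ext y
      simp only [S, mem_ofPred_eq, mem_inter_iff, mem_preimage, mem_compl_iff]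
      tauto
    rw [this]
    exact h1.inter h2
  have hSK : IsCompact (S 0) := (isCompact_Box 0).of_isClosed_subset (hS0 0) (fun y hy => hy.1)
  have hSmono : ∀ n, S (n + 1) ⊆ S n := by
    intro n y hy
    exact ⟨hy.1, hy.2.1, fun k hk => hy.2.2 k (by omega)⟩
  have hSne : ∀ n, (S n).Nonempty := by
    intro n
    obtain ⟨y, h1, h2, h3⟩ := key n
    exact ⟨y, h1, h2, h3⟩
  obtain ⟨y, hy⟩ := IsCompact.nonempty_iInter_of_sequence_nonempty_isCompact_isClosed S hSmono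
    hSne hSK hS0
  rw [mem_iInter] at hy
  have hyE : y ∈ Esc := by
    rw [mem_Esc_iff]
    refine tendsto_atTop_mono (f := fun n : ℕ => (n : ℝ)) ?_ tendsto_natCast_atTop_atTop
    intro n
    have := (hy n).2.2 n le_rfl
    have h2 := lo_ge n
    linarith
  have hyX : y ∈ Xs := Box_subset_Xs 0 (hy 0).1
  exact (hy 0).2.1 (P.cover ((hψ.esc y hyX).mpr hyE))

/-- Nice maps: good maps which keep the base point in the same piece. -/
structure Nice (O1 : Set ℂ) (φ : ℂ → ℂ) : Prop where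
  good : Good φ
  same : ∀ ψ, Good ψ → (ψ (φ 1) ∈ O1 ↔ ψ 1 ∈ O1)

lemma Nice.comp {φ1 φ2 : ℂ → ℂ} (h1 : Nice O1 φ1) (h2 : Nice O1 φ2) : Nice O1 (φ1 ∘ φ2) where
  good := h1.good.comp h2.good
  same := by
    intro ψ hψ
    exact (h2.same (ψ ∘ φ1) (hψ.comp h1.good)).trans (h1.same ψ hψ)

lemma nice_al0 (P : Part O1 O2) : Nice O1 al0 := ⟨good_al0, fun _ hψ => same_al0 P hψ⟩

lemma nice_al1 (P : Part O1 O2) : Nice O1 al1 :=
  ⟨good_al1, fun ψ hψ => by rw [al1_one]; exact (same_cpt P hψ).symm⟩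

lemma nice_al2 (P : Part O1 O2) : Nice O1 al2 :=
  ⟨good_al2, fun ψ hψ => by rw [al2_one]; exact (same_cpt P hψ).symm⟩

lemma nice_al3 (P : Part O1 O2) : Nice O1 al3 := by
  refine ⟨good_al3, fun ψ hψ => ?_⟩
  have h1 : ψ (al3 1) ∈ O1 ↔ ψ (al3 cpt) ∈ O1 := same_cpt P (hψ.comp good_al3)
  have h2 : ψ (al2 1) ∈ O1 ↔ ψ (al2 cpt) ∈ O1 := same_cpt P (hψ.comp good_al2)
  have h3 := (nice_al2 P).same ψ hψ
  rw [al2_cpt] at h2
  tauto

lemma al_im_le_pi (u : ℂ) : (lg u).im ≤ Real.pi := lg_im_le_pi u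

lemma good_refl0 : Good (refl al0) := good_refl good_al0 (fun _ _ => lg_im_le_pi _)
lemma good_refl1 : Good (refl al1) := good_refl good_al1 (fun _ _ => lg_im_le_pi _)
lemma good_refl2 : Good (refl al2) := good_refl good_al2 (fun _ _ => lg_im_le_pi _)
lemma good_refl3 : Good (refl al3) := good_refl good_al3 (fun _ _ => lg_im_le_pi _)

lemma refl_al3_one : refl al3 1 = al3 1 := by
  apply Complex.ext
  · simp [refl]
  · simp [refl, al3_one_im]; ring

lemma nice_refl3 (P : Part O1 O2) : Nice O1 (refl al3) :=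
  ⟨good_refl3, fun ψ hψ => by rw [refl_al3_one]; exact (nice_al3 P).same ψ hψ⟩

lemma refl_congr {φ1 φ2 : ℂ → ℂ} {w : ℂ} (h : φ1 w = φ2 w) : refl φ1 w = refl φ2 w := by
  simp [refl, h]

lemma nice_refl2 (P : Part O1 O2) : Nice O1 (refl al2) := by
  refine ⟨good_refl2, fun ψ hψ => ?_⟩
  have h1 : ψ (refl al3 1) ∈ O1 ↔ ψ (refl al3 cpt) ∈ O1 := same_cpt P (hψ.comp good_refl3)
  have h2 : ψ (refl al2 1) ∈ O1 ↔ ψ (refl al2 cpt) ∈ O1 := same_cpt P (hψ.comp good_refl2)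
  have h3 := (nice_refl3 P).same ψ hψ
  rw [refl_congr al2_cpt] at h2
  tauto

lemma nice_refl1 (P : Part O1 O2) : Nice O1 (refl al1) := by
  refine ⟨good_refl1, fun ψ hψ => ?_⟩
  have h : refl al1 1 = refl al2 1 := refl_congr (al1_one.trans al2_one.symm)
  rw [h]
  exact (nice_refl2 P).same ψ hψ

lemma nice_refl0 (P : Part O1 O2) : Nice O1 (refl al0) := by
  refine ⟨good_refl0, fun ψ hψ => ?_⟩
  have h1 : ψ (refl al1 1) ∈ O1 ↔ ψ (refl al1 cpt) ∈ O1 := same_cpt P (hψ.comp good_refl1)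
  have h2 : ψ (refl al0 1) ∈ O1 ↔ ψ (refl al0 cpt) ∈ O1 := same_cpt P (hψ.comp good_refl0)
  have h3 := (nice_refl1 P).same ψ hψ
  rw [refl_congr al0_cpt] at h2
  tauto

/-- translation by the period -/
def trans (z : ℂ) : ℂ := z + 2 * Real.pi * Complex.I

lemma good_trans : Good trans := good_translate

lemma al0_one_im : (al0 1).im = 0 := by
  rw [al0, sq_one]
  have h := sq_ofReal_nonneg (show (0:ℝ) ≤ 2 by norm_num)
  have h1 : sq (1 + 1) = ((√2 : ℝ) : ℂ) := by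
    rw [← h]; norm_num
  rw [h1]
  have h2 : (1 + ((√2 : ℝ) : ℂ)) / 2 = (((1 + √2) / 2 : ℝ) : ℂ) := by
    push_cast; ring
  rw [h2]
  have h3 : 0 < (1 + √2) / 2 := by positivity
  simp only [lg, Complex.norm_real, Real.norm_eq_abs, Complex.ofReal_re]
  rw [abs_of_pos h3, div_self h3.ne', Real.arccos_one]

lemma refl_al0_one : refl al0 1 = trans (al0 1) := by
  apply Complex.ext
  · simp [refl, trans]
  · simp [refl, trans, al0_one_im]

lemma nice_trans (P : Part O1 O2) : Nice O1 trans := by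
  refine ⟨good_trans, fun ψ hψ => ?_⟩
  have h1 := (nice_refl0 P).same ψ hψ
  rw [refl_al0_one] at h1
  have h2 : ψ (trans (al0 1)) ∈ O1 ↔ ψ (trans 1) ∈ O1 := same_al0 P (hψ.comp good_trans)
  tauto

/-- Surjectivity on the basic strip, right part. -/
lemma inv_right {t : ℂ} (h1 : 0 ≤ t.re) (h2 : 0 ≤ t.im) :
    sq (1 + sq ((t ^ 2 - 1) ^ 2)) = t ∨
      sq (1 - (starRingEnd ℂ) (sq ((t ^ 2 - 1) ^ 2))) = t := by
  have hpim : 0 ≤ (t ^ 2 - 1).im := by
    simp [pow_two]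
    positivity
  rcases le_total 0 (t ^ 2 - 1).re with h | h
  · left
    rw [sq_sq h hpim]
    rw [show 1 + (t ^ 2 - 1) = t ^ 2 by ring]
    exact sq_sq h1 h2
  · right
    have e1 : (t ^ 2 - 1) ^ 2 = (starRingEnd ℂ) ((-(starRingEnd ℂ) (t ^ 2 - 1)) ^ 2) := by
      rw [map_pow, map_neg, Complex.conj_conj]; ring
    have e2 : sq ((t ^ 2 - 1) ^ 2) = -(starRingEnd ℂ) (t ^ 2 - 1) := by
      rw [e1, ← sq_fold, fold_conj, sq_fold]
      apply sq_sq
      · rw [Complex.neg_re, Complex.conj_re]; linarith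
      · rw [Complex.neg_im, Complex.conj_im]; linarith
    rw [e2, map_neg, Complex.conj_conj]
    rw [show 1 - -(t ^ 2 - 1) = t ^ 2 by ring]
    exact sq_sq h1 h2

lemma strip_cases {z : ℂ} (h1 : 0 ≤ z.im) (h2 : z.im ≤ Real.pi) :
    z = al0 (F z) ∨ z = al1 (F z) ∨ z = al2 (F z) ∨ z = al3 (F z) := by
  set u := Complex.exp z with hu
  have huim : 0 ≤ u.im := by
    rw [hu, Complex.exp_im]
    exact mul_nonneg (Real.exp_pos _).le (Real.sin_nonneg_of_nonneg_of_le_pi h1 h2)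
  have hz : lg u = z := lg_exp h1 h2
  have hFz : F z = ((2 * u - 1) ^ 2 - 1) ^ 2 := rfl
  set t := 2 * u - 1 with ht
  have htim : 0 ≤ t.im := by
    rw [ht]; simp; exact huim
  have hut : u = (1 + t) / 2 := by rw [ht]; ring
  rcases le_total 0 t.re with hre | hre
  · rcases inv_right hre htim with h | h
    · left
      rw [al0, hFz, h, ← hut, hz]
    · right; left
      rw [al1, hFz, h, ← hut, hz]
  · have hre' : 0 ≤ (-(starRingEnd ℂ) t).re := by simpa using hre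
    have him' : 0 ≤ (-(starRingEnd ℂ) t).im := by simpa using htim
    have e1 : sq (((-(starRingEnd ℂ) t) ^ 2 - 1) ^ 2) = sq ((t ^ 2 - 1) ^ 2) := by
      have : ((-(starRingEnd ℂ) t) ^ 2 - 1) ^ 2 = (starRingEnd ℂ) ((t ^ 2 - 1) ^ 2) := by
        simp
      rw [this, ← sq_fold, fold_conj, sq_fold]
    have e2 : (1 - (starRingEnd ℂ) (-(starRingEnd ℂ) t)) / 2 = u := by
      rw [map_neg, Complex.conj_conj, hut]; ring
    rcases inv_right hre' him' with h | h
    · right; right; right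
      rw [e1] at h
      rw [al3, hFz, h, e2, hz]
    · right; right; left
      rw [e1] at h
      rw [al2, hFz, h, e2, hz]

/-- the branches only depend on the folded value -/
lemma al0_fold (w : ℂ) : al0 (fold w) = al0 w := by simp only [al0, sq_fold]
lemma al1_fold (w : ℂ) : al1 (fold w) = al1 w := by simp only [al1, sq_fold]
lemma al2_fold (w : ℂ) : al2 (fold w) = al2 w := by simp only [al2, sq_fold]
lemma al3_fold (w : ℂ) : al3 (fold w) = al3 w := by simp only [al3, sq_fold]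

lemma surj_strip (P : Part O1 O2) {z : ℂ} (h1 : 0 ≤ z.im) (h2 : z.im ≤ Real.pi) :
    ∃ φ, Nice O1 φ ∧ Nice O1 (refl φ) ∧ z = φ (fold (F z)) := by
  rcases strip_cases h1 h2 with h | h | h | h
  · exact ⟨al0, nice_al0 P, nice_refl0 P, by rw [al0_fold]; exact h⟩
  · exact ⟨al1, nice_al1 P, nice_refl1 P, by rw [al1_fold]; exact h⟩
  · exact ⟨al2, nice_al2 P, nice_refl2 P, by rw [al2_fold]; exact h⟩
  · exact ⟨al3, nice_al3 P, nice_refl3 P, by rw [al3_fold]; exact h⟩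

lemma surj_period (P : Part O1 O2) {z : ℂ} (h1 : 0 ≤ z.im) (h2 : z.im ≤ 2 * Real.pi) :
    ∃ φ, Nice O1 φ ∧ z = φ (fold (F z)) := by
  rcases le_total z.im Real.pi with h | h
  · obtain ⟨φ, a, _, b⟩ := surj_strip P h1 h
    exact ⟨φ, a, b⟩
  · have him : ((starRingEnd ℂ) z + 2 * Real.pi * Complex.I).im = 2 * Real.pi - z.im := by
      simp; ring
    obtain ⟨φ, _, a, b⟩ := surj_strip P (z := (starRingEnd ℂ) z + 2 * Real.pi * Complex.I)
      (by rw [him]; linarith) (by rw [him]; linarith)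
    refine ⟨refl φ, a, ?_⟩
    rw [F_add_period, F_conj, fold_conj] at b
    have : refl φ (fold (F z)) = (starRingEnd ℂ) ((starRingEnd ℂ) z + 2 * Real.pi * Complex.I)
        + 2 * Real.pi * Complex.I := by
      rw [refl, ← b]
    rw [this]
    apply Complex.ext <;> simp

lemma surj (P : Part O1 O2) (m : ℕ) : ∀ z : ℂ, 0 ≤ z.im → z.im ≤ 2 * Real.pi * (m + 1) →
    ∃ φ, Nice O1 φ ∧ z = φ (fold (F z)) := by
  induction m with
  | zero =>
    intro z h1 h2
    exact surj_period P h1 (by simpa using h2)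
  | succ m ih =>
    intro z h1 h2
    rcases le_total z.im (2 * Real.pi) with h | h
    · exact surj_period P h1 h
    · have him : (z - 2 * Real.pi * Complex.I).im = z.im - 2 * Real.pi := by simp
      obtain ⟨φ, a, b⟩ := ih (z - 2 * Real.pi * Complex.I) (by rw [him]; linarith)
        (by rw [him]; push_cast at h2; linarith)
      refine ⟨trans ∘ φ, (nice_trans P).comp a, ?_⟩
      have hF : F (z - 2 * Real.pi * Complex.I) = F z := by
        have := F_add_period (z - 2 * Real.pi * Complex.I)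
        rw [sub_add_cancel] at this
        exact this.symm
      rw [hF] at b
      rw [Function.comp_apply, ← b, trans]
      ring

lemma surj' (P : Part O1 O2) {z : ℂ} (h1 : 0 ≤ z.im) : ∃ φ, Nice O1 φ ∧ z = φ (fold (F z)) := by
  obtain ⟨m, hm⟩ := exists_nat_ge (z.im)
  refine surj P m z h1 ?_
  have := Real.pi_gt_three
  nlinarith

/-- All preimages of the ray are in the same piece. -/
lemma same_pre (P : Part O1 O2) (n : ℕ) : ∀ z : ℂ, 0 ≤ z.im → F^[n] z ∈ ray →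
    ∀ ψ, Good ψ → (ψ z ∈ O1 ↔ ψ 1 ∈ O1) := by
  induction n with
  | zero =>
    intro z _ hz ψ hψ
    exact same_image P hψ isPreconnected_ray ray_subset_Esc ray_subset_Xs
      (by simpa using hz) one_mem_ray
  | succ n ih =>
    intro z him hz ψ hψ
    obtain ⟨φ, hφ, hzφ⟩ := surj' P him
    have hray : F^[n] (fold (F z)) ∈ ray := by
      rw [Function.iterate_succ_apply] at hz
      rcases fold_eq_or (F z) with h | h
      · rw [h]; exact hz
      · rw [h, F_iter_conj]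
        refine ⟨by simpa using hz.1, by simpa using hz.2⟩
    have h1 := ih (fold (F z)) (fold_im_nonneg _) hray (ψ ∘ φ) (hψ.comp hφ.good)
    have h2 := hφ.same ψ hψ
    rw [Function.comp_apply, ← hzφ, Function.comp_apply] at h1
    exact h1.trans h2

lemma same_pre_id (P : Part O1 O2) {n : ℕ} {z : ℂ} (h : 0 ≤ z.im) (hz : F^[n] z ∈ ray) :
    z ∈ O1 ↔ (1:ℂ) ∈ O1 := same_pre P n z h hz _ Good.id

end

end Pool.Agent.H218R3
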