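import Pool.Agent.H218R3.Sd4

set_option autoImplicit false
set_option linter.unusedVariables false

open Complex Filter Topology

namespace Pool.Agent.H218R3.Sd

variable {a : ℝ} {N : ℕ} {z w : Fin N → ℂ}

/-- product without the `k`-th factor -/
noncomputable def PP (a : ℝ) (w : Fin N → ℂ) (k : Fin N) (s : ℝ) : ℂ :=
  ∏ l ∈ Finset.univ.erase k, (1 - (s : ℂ) * yy a w l)

lemma Y_eq_PP (a : ℝ) (w : Fin N → ℂ) (k : Fin N) (s : ℝ) :
    Y a w s = (1 - (s : ℂ) * yy a w k) * PP a w k s := by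
  unfold Y PP
  rw [Finset.mul_prod_erase Finset.univ (fun l => 1 - (s : ℂ) * yy a w l) (Finset.mem_univ k)]

lemma Y_deriv (a : ℝ) (w : Fin N → ℂ) (s : ℝ) :
    HasDerivAt (fun s : ℝ => Y a w s) (-∑ k, yy a w k * PP a w k s) s := by
  have h1 : ∀ i ∈ (Finset.univ : Finset (Fin N)),
      HasDerivAt (fun s : ℝ => 1 - (s : ℂ) * yy a w i) (-yy a w i) s := by
    intro i _
    have h2 : HasDerivAt (fun s : ℂ => 1 - s * yy a w i) (-(1 * yy a w i)) (s : ℂ) :=
      ((hasDerivAt_id (s : ℂ)).mul_const (yy a w i)).const_sub 1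
    have h3 := h2.comp_ofReal
    simpa using h3
  have h2 := HasDerivAt.fun_finsetProd h1
  have h3 : ∑ i, (∏ j ∈ Finset.univ.erase i, (1 - (s : ℂ) * yy a w j)) • (-yy a w i)
      = -∑ k, yy a w k * PP a w k s := by
    rw [← Finset.sum_neg_distrib]
    apply Finset.sum_congr rfl
    intro i _
    unfold PP
    rw [smul_eq_mul]
    ring
  rw [h3] at h2
  exact h2

/-- the normalised primitive -/
noncomputable def ff (a : ℝ) (z w : Fin N → ℂ) (s : ℝ) : ℂ :=
  pp a z ((a : ℂ) - s) / (-dp w (a : ℂ))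

lemma ff_zero (a : ℝ) (z w : Fin N → ℂ) : ff a z w 0 = 0 := by
  unfold ff
  simp only [Complex.ofReal_zero, sub_zero, pp_self, zero_div]

lemma CE.hff (h : CE a N z w) (s : ℝ) : HasDerivAt (fun s => ff a z w s) (Y a w s) s :=
  h.ff_deriv s

noncomputable def Psi (a : ℝ) (z w : Fin N → ℂ) (s : ℝ) : ℂ :=
  lam a w * ff a z w s - 1 + Y a w s

lemma CE.psi_deriv (h : CE a N z w) (s : ℝ) :
    HasDerivAt (fun s => Psi a z w s) (-(s : ℂ) * ∑ k, yy a w k ^ 2 * PP a w k s) s := by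
  have h1 := (((h.hff s).const_mul (lam a w)).sub_const 1).add (Y_deriv a w s)
  have h2 : lam a w * Y a w s + -∑ k, yy a w k * PP a w k s
      = -(s : ℂ) * ∑ k, yy a w k ^ 2 * PP a w k s := by
    unfold lam
    rw [Finset.sum_mul, Finset.mul_sum, ← Finset.sum_neg_distrib, ← Finset.sum_add_distrib]
    apply Finset.sum_congr rfl
    intro k _
    rw [Y_eq_PP a w k s]
    ring
  rw [h2] at h1
  exact h1

lemma psi_zero (a : ℝ) (z w : Fin N → ℂ) : Psi a z w 0 = 0 := by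
  unfold Psi
  rw [ff_zero]
  unfold Y
  simp

noncomputable def II (a : ℝ) (w : Fin N → ℂ) : ℝ := ∑ k, ‖yy a w k‖ ^ 2

lemma CE.II_le (h : CE a N z w) : II a w ≤ N := by
  unfold II
  rw [Finset.sum_congr rfl (fun k _ => h.norm_yy k)]
  exact h.hI

lemma II_nonneg (a : ℝ) (w : Fin N → ℂ) : 0 ≤ II a w :=
  Finset.sum_nonneg (fun k _ => by positivity)

lemma R_eq (y : ℂ) (s : ℝ) : ‖1 - (s : ℂ) * y‖ ^ 2 = 1 - 2 * s * y.re + s ^ 2 * ‖y‖ ^ 2 := by
  rw [Complex.sq_norm, Complex.sq_norm, Complex.normSq_apply, Complex.normSq_apply]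
  simp only [Complex.sub_re, Complex.one_re, Complex.mul_re, Complex.ofReal_re, Complex.ofReal_im,
    Complex.sub_im, Complex.one_im, Complex.mul_im]
  ring

lemma sum_R (a : ℝ) (w : Fin N → ℂ) (s : ℝ) :
    ∑ k, (‖1 - (s : ℂ) * yy a w k‖ ^ 2 - 1) = -2 * s * (lam a w).re + s ^ 2 * II a w := by
  have : ∀ k ∈ (Finset.univ : Finset (Fin N)), ‖1 - (s : ℂ) * yy a w k‖ ^ 2 - 1
      = -2 * s * (yy a w k).re + s ^ 2 * ‖yy a w k‖ ^ 2 := by
    intro k _
    rw [R_eq]; ring
  rw [Finset.sum_congr rfl this, Finset.sum_add_distrib, ← Finset.mul_sum, ← Finset.mul_sum]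
  unfold lam II
  rw [Complex.re_sum]

lemma norm_Y_sq (a : ℝ) (w : Fin N → ℂ) (s : ℝ) :
    ‖Y a w s‖ ^ 2 ≤ Real.exp (-2 * s * (lam a w).re + s ^ 2 * II a w) := by
  rw [← sum_R, Real.exp_sum]
  unfold Y
  rw [norm_prod, ← Finset.prod_pow]
  apply Finset.prod_le_prod (fun k _ => by positivity)
  intro k _
  have := Real.add_one_le_exp (‖1 - (s : ℂ) * yy a w k‖ ^ 2 - 1)
  linarith

lemma norm_PP_sq (a : ℝ) (w : Fin N → ℂ) (k : Fin N) (s : ℝ) :
    ‖PP a w k s‖ ^ 2 ≤ Real.exp (1 + (-2 * s * (lam a w).re + s ^ 2 * II a w)) := by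
  have h1 : ‖PP a w k s‖ ^ 2 ≤
      Real.exp (∑ l ∈ Finset.univ.erase k, (‖1 - (s : ℂ) * yy a w l‖ ^ 2 - 1)) := by
    unfold PP
    rw [norm_prod, ← Finset.prod_pow, Real.exp_sum]
    apply Finset.prod_le_prod (fun k _ => by positivity)
    intro l _
    have := Real.add_one_le_exp (‖1 - (s : ℂ) * yy a w l‖ ^ 2 - 1)
    linarith
  refine h1.trans (Real.exp_le_exp.mpr ?_)
  rw [← sum_R, ← Finset.add_sum_erase Finset.univ _ (Finset.mem_univ k)]
  have : 0 ≤ ‖1 - (s : ℂ) * yy a w k‖ ^ 2 := by positivity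
  linarith

/-- generic bound for `Psi` -/
lemma CE.psi_bound (h : CE a N z w) (hN : 0 < N) {s₁ : ℝ} (hs₁ : 0 ≤ s₁) {B B' : ℝ → ℝ}
    (hB0 : 0 ≤ B 0) (hB : ∀ s, HasDerivAt B (B' s) s)
    (hb : ∀ s ∈ Set.Ico 0 s₁, ∀ k, s * N * ‖PP a w k s‖ ≤ B' s) :
    ‖lam a w * ff a z w s₁ - 1‖ ≤ B s₁ + ‖Y a w s₁‖ := by
  have hNpos : (0 : ℝ) < N := by exact_mod_cast hN
  have h1 := image_norm_le_of_norm_deriv_right_le_deriv_boundary (a := 0) (b := s₁)
    (f := fun s : ℝ => Psi a z w s)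
    (f' := fun s => -(s : ℂ) * ∑ k, yy a w k ^ 2 * PP a w k s)
    (B := B) (B' := B')
    (fun s _ => (h.psi_deriv s).continuousAt.continuousWithinAt)
    (fun s _ => (h.psi_deriv s).hasDerivWithinAt)
    (by rw [psi_zero, norm_zero]; exact hB0) hB ?_ (x := s₁) ⟨hs₁, le_rfl⟩
  · have e : lam a w * ff a z w s₁ - 1 = Psi a z w s₁ - Y a w s₁ := by
      unfold Psi; ring
    rw [e]
    refine (norm_sub_le _ _).trans ?_
    linarith
  · intro s hs
    have hs0 : 0 ≤ s := hs.1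
    rw [norm_mul, norm_neg, Complex.norm_real, Real.norm_of_nonneg hs0]
    have hB'0 : 0 ≤ B' s := by
      have := hb s hs ⟨0, hN⟩
      exact le_trans (by positivity) this
    have h2 : ‖∑ k, yy a w k ^ 2 * PP a w k s‖ ≤ ∑ k, ‖yy a w k‖ ^ 2 * ‖PP a w k s‖ := by
      refine (norm_sum_le _ _).trans (le_of_eq ?_)
      apply Finset.sum_congr rfl
      intro k _
      rw [norm_mul, norm_pow]
    calc s * ‖∑ k, yy a w k ^ 2 * PP a w k s‖
        ≤ s * ∑ k, ‖yy a w k‖ ^ 2 * ‖PP a w k s‖ := by gcongr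
      _ = (1 / N) * ∑ k, ‖yy a w k‖ ^ 2 * (s * N * ‖PP a w k s‖) := by
          rw [Finset.mul_sum, Finset.mul_sum]
          apply Finset.sum_congr rfl
          intro k _
          field_simp
      _ ≤ (1 / N) * ∑ k, ‖yy a w k‖ ^ 2 * B' s := by
          gcongr with k _
          exact hb s hs k
      _ = (1 / N) * (II a w * B' s) := by rw [← Finset.sum_mul]; rfl
      _ ≤ (1 / N) * (N * B' s) := by
          gcongr
          exact h.II_le
      _ = B' s := by field_simp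

noncomputable def EE (a : ℝ) (w : Fin N → ℂ) : ℝ := ∑ k, (1 - ‖w k‖ ^ 2) * ‖yy a w k‖ ^ 2

lemma CE.re_lam_exact (h : CE a N z w) :
    2 * a * (lam a w).re = N - (1 - a ^ 2) * II a w + EE a w := by
  have h1 : ∀ k, 2 * a * (yy a w k).re = 1 - (1 - a ^ 2) * ‖yy a w k‖ ^ 2 +
      (1 - ‖w k‖ ^ 2) * ‖yy a w k‖ ^ 2 := by
    intro k
    have hn := h.npos k
    have e2 : ‖w k - (a : ℂ)‖ ^ 2 = ((w k).re - a) ^ 2 + (w k).im ^ 2 := by
      rw [Complex.sq_norm, Complex.normSq_apply]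
      simp only [Complex.sub_re, Complex.sub_im, Complex.ofReal_re, Complex.ofReal_im]
      ring
    have e1 : ‖w k‖ ^ 2 = (w k).re ^ 2 + (w k).im ^ 2 := by
      rw [Complex.sq_norm, Complex.normSq_apply]; ring
    have e3 : (yy a w k).re = (a - (w k).re) * (‖w k - (a : ℂ)‖ ^ 2)⁻¹ := by
      unfold yy
      rw [Complex.inv_re, ← Complex.sq_norm, norm_sub_rev]
      simp [div_eq_mul_inv]
    rw [e3, h.norm_yy, e1]
    have h2 : ‖w k - (a : ℂ)‖ ^ 2 * (‖w k - (a : ℂ)‖ ^ 2)⁻¹ = 1 := mul_inv_cancel₀ (by positivity)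
    set s := (‖w k - (a : ℂ)‖ ^ 2)⁻¹
    rw [e2] at h2
    linear_combination h2
  have h2 := Finset.sum_congr rfl (fun k (_ : k ∈ (Finset.univ : Finset (Fin N))) => h1 k)
  rw [← Finset.mul_sum, Finset.sum_add_distrib, Finset.sum_sub_distrib, ← Finset.mul_sum] at h2
  have h3 : (lam a w).re = ∑ k, (yy a w k).re := by
    unfold lam
    rw [Complex.re_sum]
  rw [h3, h2]
  unfold II EE
  simp

lemma CE.EE_nonneg (h : CE a N z w) : 0 ≤ EE a w := by
  unfold EE
  apply Finset.sum_nonneg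
  intro k _
  have := h.hw k
  have := norm_nonneg (w k)
  have : 0 ≤ 1 - ‖w k‖ ^ 2 := by nlinarith
  positivity

lemma CE.EE_le (h : CE a N z w) (ha : 0 < a) (ha1 : a ≤ 1) : EE a w ≤ 2 * a * (lam a w).re := by
  have h1 := h.re_lam_exact
  have h2 := h.II_le
  have h3 : (1 - a ^ 2) * II a w ≤ 1 * N := by
    have := II_nonneg a w
    have h4 : 0 ≤ a ^ 2 := sq_nonneg a
    calc (1 - a ^ 2) * II a w ≤ 1 * II a w := by gcongr; linarith
      _ ≤ 1 * N := by gcongr
  linarith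

/-- on the segment -/
lemma CE.seg (h : CE a N z w) (ha : 0 < a) (ha1 : a ≤ 1) {s : ℝ} (hs : 0 ≤ s) (hsa : s ≤ a) :
    -2 * s * (lam a w).re + s ^ 2 * II a w ≤ -(N * (s * (a - s))) := by
  have h1 := h.re_lam_exact
  have h2 := h.II_le
  have h3 := h.EE_nonneg
  have h4 : N - (1 - a ^ 2) * II a w ≤ 2 * a * (lam a w).re := by linarith
  have h5 : a * (-2 * s * (lam a w).re + s ^ 2 * II a w) ≤ a * (-(N * (s * (a - s)))) := by
    have h6 := mul_le_mul_of_nonneg_left h4 hs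
    have h7 : 0 ≤ s * (1 - a ^ 2) + a * s ^ 2 := by
      have : 0 ≤ 1 - a ^ 2 := by nlinarith
      positivity
    have h8 := mul_le_mul_of_nonneg_left h2 h7
    nlinarith
  exact le_of_mul_le_mul_left h5 ha

lemma exp_half_le : Real.exp (1 / 2) ≤ 2 := by
  have h1 : Real.exp (1 / 2) ^ 2 = Real.exp 1 := by
    rw [← Real.exp_nat_mul]; norm_num
  have h2 := Real.exp_one_lt_d9
  have h3 := Real.exp_pos (1 / 2)
  nlinarith

lemma norm_le_exp {x t : ℝ} (hx : 0 ≤ x) (h : x ^ 2 ≤ Real.exp (2 * t)) : x ≤ Real.exp t := by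
  have h1 : Real.exp (2 * t) = Real.exp t ^ 2 := by
    rw [← Real.exp_nat_mul]; norm_num
  rw [h1] at h
  exact (pow_le_pow_iff_left₀ hx (Real.exp_pos _).le two_ne_zero).mp h

lemma PP_le_of {k : Fin N} {s t : ℝ}
    (h : -2 * s * (lam a w).re + s ^ 2 * II a w ≤ 2 * t) :
    ‖PP a w k s‖ ≤ 2 * Real.exp t := by
  have h1 := norm_PP_sq a w k s
  have h2 : ‖PP a w k s‖ ≤ Real.exp (1 / 2 + t) := by
    apply norm_le_exp (norm_nonneg _)
    refine h1.trans (Real.exp_le_exp.mpr ?_)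
    linarith
  rw [Real.exp_add] at h2
  have := exp_half_le
  have := Real.exp_pos t
  nlinarith

lemma Y_le_of {s t : ℝ} (h : -2 * s * (lam a w).re + s ^ 2 * II a w ≤ 2 * t) :
    ‖Y a w s‖ ≤ Real.exp t := by
  apply norm_le_exp (norm_nonneg _)
  exact (norm_Y_sq a w s).trans (Real.exp_le_exp.mpr h)

lemma exp_neg_four : Real.exp (-4) ≤ 1 / 50 := by
  have h1 : Real.exp (-4) = (Real.exp 1 ^ 4)⁻¹ := by
    rw [← Real.exp_nat_mul, ← Real.exp_neg]; norm_num
  have h2 := Real.exp_one_gt_d9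
  rw [h1, one_div]
  apply inv_anti₀ (by norm_num)
  have h3 : (2.7 : ℝ) ^ 4 ≤ Real.exp 1 ^ 4 := by
    apply pow_le_pow_left₀ (by norm_num)
    linarith
  refine le_trans ?_ h3
  norm_num

lemma exp_neg_two : Real.exp (-2) ≤ 1 / 7 := by
  have h1 : Real.exp (-2) = (Real.exp 1 ^ 2)⁻¹ := by
    rw [← Real.exp_nat_mul, ← Real.exp_neg]; norm_num
  have h2 := Real.exp_one_gt_d9
  rw [h1, one_div]
  apply inv_anti₀ (by norm_num)
  nlinarith

/-- the plateau near `0` -/
lemma CE.plateau (h : CE a N z w) (ha : 0 < a) (ha1 : a ≤ 1) (hNa : 256 ≤ N * a ^ 2) :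
    ‖lam a w * ff a z w (a - 16 / (N * a)) - 1‖ ≤ 1 / 2 := by
  have hN : 0 < N := by
    rcases Nat.eq_zero_or_pos N with h0 | h0
    · rw [h0] at hNa
      norm_num at hNa
    · exact h0
  have hNpos : (0 : ℝ) < N := by exact_mod_cast hN
  obtain ⟨t, ht⟩ : ∃ t : ℝ, t = 16 / (N * a) := ⟨_, rfl⟩
  rw [← ht]
  have ht0 : 0 < t := by rw [ht]; positivity
  have hNat : N * a * t = 16 := by rw [ht]; field_simp
  have hta : t ≤ a / 16 := by
    rw [ht, div_le_iff₀ (by positivity)]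
    nlinarith
  obtain ⟨μ, hμ⟩ : ∃ μ : ℝ, μ = N * a / 4 := ⟨_, rfl⟩
  have hμ0 : 0 < μ := by rw [hμ]; positivity
  set B : ℝ → ℝ := fun s => 2 * N * ((1 / μ ^ 2) * (1 - (1 + μ * s) * Real.exp (-(μ * s))) +
    (a / μ) * (Real.exp (-(μ * (a - s))) - Real.exp (-(μ * a)))) with hB
  set B' : ℝ → ℝ := fun s => 2 * N * (s * Real.exp (-(μ * s)) +
    a * Real.exp (-(μ * (a - s)))) with hB'
  have key := h.psi_bound hN (s₁ := a - t) (by linarith) (B := B) (B' := B') ?_ ?_ ?_
  · refine key.trans ?_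
    have h1 : ‖Y a w (a - t)‖ ≤ 1 / 50 := by
      refine le_trans (Y_le_of (t := -4) ?_) exp_neg_four
      refine (h.seg ha ha1 (s := a - t) (by linarith) (by linarith)).trans ?_
      have : a / 2 * t ≤ (a - t) * (a - (a - t)) := by nlinarith
      nlinarith
    have h2 : B (a - t) ≤ 2 * (16 / (N * a ^ 2) + 4 * Real.exp (-4)) := by
      rw [hB]
      have e1 : μ * (a - (a - t)) = 4 := by rw [hμ]; linarith
      have h3 : (1 / μ ^ 2) * (1 - (1 + μ * (a - t)) * Real.exp (-(μ * (a - t)))) ≤ 1 / μ ^ 2 := by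
        have h4 : 0 ≤ (1 + μ * (a - t)) * Real.exp (-(μ * (a - t))) := by
          have : 0 ≤ a - t := by linarith
          positivity
        have h5 : 0 ≤ 1 / μ ^ 2 := by positivity
        nlinarith
      have h4 : (a / μ) * (Real.exp (-(μ * (a - (a - t)))) - Real.exp (-(μ * a))) ≤
          (a / μ) * Real.exp (-4) := by
        rw [e1]
        have := Real.exp_pos (-(μ * a))
        have h5 : 0 ≤ a / μ := by positivity
        nlinarith
      have h5 : 2 * N * (1 / μ ^ 2 + (a / μ) * Real.exp (-4))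
          = 2 * (16 / (N * a ^ 2) + 4 * Real.exp (-4)) := by
        rw [hμ]
        field_simp
        ring
      rw [← h5]
      simp only
      have : (0 : ℝ) ≤ 2 * N := by positivity
      exact mul_le_mul_of_nonneg_left (by linarith) this
    have h3 : 16 / (N * a ^ 2) ≤ 1 / 16 := by
      rw [div_le_div_iff₀ (by positivity) (by norm_num)]
      linarith
    have := exp_neg_four
    linarith
  · rw [hB]
    simp only [mul_zero, add_zero, one_mul, neg_zero, Real.exp_zero, sub_self, sub_zero, zero_add,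
      le_refl]
  · intro s
    rw [hB, hB']
    have e1 : HasDerivAt (fun s : ℝ => Real.exp (-(μ * s))) (Real.exp (-(μ * s)) * (-(μ * 1))) s :=
      (((hasDerivAt_id s).const_mul μ).neg).exp
    have e2 : HasDerivAt (fun s : ℝ => (1 + μ * s)) (μ * 1) s :=
      ((hasDerivAt_id s).const_mul μ).const_add 1
    have e3 := ((e2.mul e1).const_sub 1).const_mul (1 / μ ^ 2)
    have e4 : HasDerivAt (fun s : ℝ => Real.exp (-(μ * (a - s))))
        (Real.exp (-(μ * (a - s))) * (-(μ * (-1)))) s :=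
      ((((hasDerivAt_id s).const_sub a).const_mul μ).neg).exp
    have e5 := (e4.sub_const (Real.exp (-(μ * a)))).const_mul (a / μ)
    have e6 := (e3.add e5).const_mul (2 * (N : ℝ))
    refine e6.congr_deriv ?_
    field_simp
    ring
  · intro s hs k
    have hs0 : 0 ≤ s := hs.1
    have hsa : s ≤ a := by linarith [hs.2]
    have h1 := h.seg ha ha1 hs0 hsa
    have h2 : ‖PP a w k s‖ ≤ 2 * Real.exp (-(N * (s * (a - s))) / 2) :=
      PP_le_of (by linarith)
    rw [hB']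
    simp only
    rcases le_total s (a / 2) with h3 | h3
    · have h4 : -(N * (s * (a - s))) / 2 ≤ -(μ * s) := by
        rw [hμ]
        have : s * (a / 2) ≤ s * (a - s) := by
          apply mul_le_mul_of_nonneg_left _ hs0
          linarith
        nlinarith
      have h5 := Real.exp_le_exp.mpr h4
      have h6 : 0 ≤ a * Real.exp (-(μ * (a - s))) := by positivity
      calc s * N * ‖PP a w k s‖ ≤ s * N * (2 * Real.exp (-(μ * s))) := by
            gcongr
            linarith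
        _ ≤ _ := by
            have : (0 : ℝ) ≤ N * (a * Real.exp (-(μ * (a - s)))) := by positivity
            nlinarith
    · have h4 : -(N * (s * (a - s))) / 2 ≤ -(μ * (a - s)) := by
        rw [hμ]
        have : (a / 2) * (a - s) ≤ s * (a - s) := by
          apply mul_le_mul_of_nonneg_right h3
          linarith
        nlinarith
      have h5 := Real.exp_le_exp.mpr h4
      have h6 : 0 ≤ s * Real.exp (-(μ * s)) := by positivity
      calc s * N * ‖PP a w k s‖ ≤ a * N * (2 * Real.exp (-(μ * (a - s)))) := by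
            gcongr
            linarith
        _ ≤ _ := by
            have : (0 : ℝ) ≤ N * (s * Real.exp (-(μ * s))) := by positivity
            nlinarith

end Pool.Agent.H218R3.Sd
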