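import Pool.Agent.H218R3.Sd5
import Pool.Agent.H218R3.Sm1

set_option autoImplicit false
set_option linter.unusedVariables false

open Complex Filter Topology

namespace Pool.Agent.H218R3.Sd

variable {a : ℝ} {N : ℕ} {z w : Fin N → ℂ}

/-- per-term comparison of the truncated series with `a y` -/
lemma CE.upper_term' (h : CE a N z w) {T θ ε CM η₀ : ℝ} (hε : 0 < ε) (ha : ε ≤ a)
    (ha1 : a ≤ 1) (hT1 : 1 ≤ T)
    (haT2 : 4 ≤ a * T) (hθ0 : 0 ≤ θ) (hθ : 1 - 1 / (1 + T) ^ 2 ≤ θ ^ 2) (M : ℕ)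
    (hCM : CM = ∑ m ∈ Finset.range M, (1 + T) ^ m)
    (hη₀ : η₀ = (1 + ε ^ 2 / 2) - 1 - Real.log (1 + ε ^ 2 / 2)) (hη₀0 : 0 < η₀) (k : Fin N) :
    (FF a T M (w k)).re ≤ a * (yy a w k).re + ‖yy a w k‖ * θ ^ M + (CM / η₀) *
      ((‖w k - (a : ℂ)‖ ^ 2)⁻¹ - 1 - Real.log ((‖w k - (a : ℂ)‖ ^ 2)⁻¹)) +
      ((1 - a ^ 2) / 2) * (‖w k - (a : ℂ)‖ ^ 2)⁻¹ := by
  have ha0 : 0 < a := lt_of_lt_of_le hε ha
  have hT : 0 < T := by linarith
  have haT : 0 < a + T := by linarith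
  have hs := h.s_pos k
  have hn := h.npos k
  have hCM0 : 0 ≤ CM := by
    rw [hCM]
    exact Finset.sum_nonneg (fun m _ => by positivity)
  have hcost : 0 ≤ (‖w k - (a : ℂ)‖ ^ 2)⁻¹ - 1 - Real.log ((‖w k - (a : ℂ)‖ ^ 2)⁻¹) := by
    have := Real.log_le_sub_one_of_pos hs
    linarith
  have hw := h.hw k
  have hw2 : (w k).re ^ 2 + (w k).im ^ 2 ≤ 1 := by
    have : ‖w k‖ ^ 2 ≤ 1 := by
      have := norm_nonneg (w k)
      nlinarith
    rw [Complex.sq_norm, Complex.normSq_apply] at this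
    nlinarith
  have e2 : ‖w k - (a : ℂ)‖ ^ 2 = ((w k).re - a) ^ 2 + (w k).im ^ 2 := by
    rw [Complex.sq_norm, Complex.normSq_apply]
    simp only [Complex.sub_re, Complex.sub_im, Complex.ofReal_re, Complex.ofReal_im]
    ring
  have h1a : 0 ≤ 1 - a ^ 2 := by nlinarith
  by_cases hre : (w k).re ≤ 3 * a / 4
  · have h3 : (FF a T M (w k)).re ≤ a * (yy a w k).re + ‖yy a w k‖ * θ ^ M := by
      have h4 : ‖(w k + (T : ℂ)) / ((a + T : ℝ) : ℂ)‖ ≤ θ := by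
        rw [norm_div, Complex.norm_real, Real.norm_of_nonneg haT.le, div_le_iff₀ haT]
        exact theta_bound ha0 ha1 hT1 haT2 hθ0 hθ hw2 hre
      have e1 : FF a T M (w k) = (a : ℂ) * yy a w k -
          (a : ℂ) * yy a w k * ((w k + T) / ((a + T : ℝ) : ℂ)) ^ M := by
        unfold FF yy
        rw [geom_id hT ha0 (h.hwa k)]
        ring
      rw [e1, Complex.sub_re, Complex.re_ofReal_mul]
      have h5 : ‖(a : ℂ) * yy a w k * ((w k + T) / ((a + T : ℝ) : ℂ)) ^ M‖ ≤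
          ‖yy a w k‖ * θ ^ M := by
        rw [norm_mul, norm_mul, norm_pow, Complex.norm_real, Real.norm_of_nonneg ha0.le]
        have : a * ‖yy a w k‖ ≤ 1 * ‖yy a w k‖ := by gcongr
        calc _ ≤ (1 * ‖yy a w k‖) * θ ^ M := by gcongr
          _ = _ := by ring
      have h6 := Complex.abs_re_le_norm ((a : ℂ) * yy a w k * ((w k + T) / ((a + T : ℝ) : ℂ)) ^ M)
      rw [abs_le] at h6
      linarith
    have h5 : 0 ≤ (CM / η₀) * ((‖w k - (a : ℂ)‖ ^ 2)⁻¹ - 1 -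
      Real.log ((‖w k - (a : ℂ)‖ ^ 2)⁻¹)) := mul_nonneg (by positivity) hcost
    have h6 : 0 ≤ ((1 - a ^ 2) / 2) * (‖w k - (a : ℂ)‖ ^ 2)⁻¹ := by positivity
    linarith
  · push Not at hre
    have h3 : ‖w k - (a : ℂ)‖ ^ 2 ≤ 1 - a ^ 2 / 2 := by
      rw [e2]
      nlinarith
    have hs₀1 : 1 < 1 + ε ^ 2 / 2 := by
      have : 0 < ε ^ 2 / 2 := by positivity
      linarith
    have h4 : 1 + ε ^ 2 / 2 ≤ (‖w k - (a : ℂ)‖ ^ 2)⁻¹ := by
      rw [le_inv_comm₀ (by linarith) (by positivity)]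
      refine h3.trans ?_
      have h5 : ε ^ 2 ≤ a ^ 2 := by gcongr
      have h6 : 1 - a ^ 2 / 2 ≤ 1 - ε ^ 2 / 2 := by linarith
      refine h6.trans ?_
      rw [← one_div, le_div_iff₀ (by positivity)]
      nlinarith [sq_nonneg (ε ^ 2)]
    have h5 := cost_lower hs₀1 h4
    rw [← hη₀] at h5
    have h6 : (FF a T M (w k)).re ≤ CM := by
      rw [hCM]
      exact FF_le ha0 hT1 M hw
    have h7 : CM ≤ (CM / η₀) * ((‖w k - (a : ℂ)‖ ^ 2)⁻¹ - 1 -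
        Real.log ((‖w k - (a : ℂ)‖ ^ 2)⁻¹)) := by
      calc CM = (CM / η₀) * η₀ := by field_simp
        _ ≤ _ := by gcongr
    have h8 : 0 ≤ ‖yy a w k‖ * θ ^ M := by positivity
    have h9 : 0 ≤ a * (yy a w k).re + ((1 - a ^ 2) / 2) * (‖w k - (a : ℂ)‖ ^ 2)⁻¹ := by
      have e3 : (yy a w k).re = (a - (w k).re) * (‖w k - (a : ℂ)‖ ^ 2)⁻¹ := by
        unfold yy
        rw [Complex.inv_re, ← Complex.sq_norm, norm_sub_rev]
        simp [div_eq_mul_inv]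
      rw [e3]
      have e4 : a * ((a - (w k).re) * (‖w k - (a : ℂ)‖ ^ 2)⁻¹) +
          ((1 - a ^ 2) / 2) * (‖w k - (a : ℂ)‖ ^ 2)⁻¹ =
          (a * (a - (w k).re) + (1 - a ^ 2) / 2) * (‖w k - (a : ℂ)‖ ^ 2)⁻¹ := by ring
      rw [e4]
      refine mul_nonneg ?_ hs.le
      nlinarith [sq_nonneg (a - (w k).re), sq_nonneg ((w k).im)]
    linarith

/-- Step N1: near `1` the sum of the `y k` is almost `N` -/
theorem tau_small {δ : ℝ} (hδ : 0 < δ) (hδ1 : δ ≤ 1) :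
    ∀ᶠ N : ℕ in atTop, ∀ a : ℝ, 1 - δ / 2 ≤ a → a ≤ 1 → ∀ z w : Fin N → ℂ, CE a N z w →
      (1 - δ) * N ≤ (lam a w).re := by
  obtain ⟨ε, hεdef⟩ : ∃ ε : ℝ, ε = 1 / 2 := ⟨_, rfl⟩
  have hε : 0 < ε := by rw [hεdef]; norm_num
  have hε1 : ε ≤ 1 := by rw [hεdef]; norm_num
  obtain ⟨T, hTdef⟩ : ∃ T : ℝ, T = 8 := ⟨_, rfl⟩
  have hT : 0 < T := by rw [hTdef]; norm_num
  have hT1 : 1 ≤ T := by rw [hTdef]; norm_num
  obtain ⟨θ, hθdef⟩ : ∃ θ : ℝ, θ = 1 - 1 / (2 * (1 + T) ^ 2) := ⟨_, rfl⟩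
  have hθ0 : 0 ≤ θ := by
    rw [hθdef, sub_nonneg, div_le_one (by positivity)]
    nlinarith
  have hθ1 : θ < 1 := by
    rw [hθdef]
    have : 0 < 1 / (2 * (1 + T) ^ 2) := by positivity
    linarith
  have hθ2 : 1 - 1 / (1 + T) ^ 2 ≤ θ ^ 2 := by
    rw [hθdef]
    have : (1 - 1 / (2 * (1 + T) ^ 2)) ^ 2
        = 1 - 1 / (1 + T) ^ 2 + (1 / (2 * (1 + T) ^ 2)) ^ 2 := by
      field_simp
      ring
    rw [this]
    have := sq_nonneg (1 / (2 * (1 + T) ^ 2))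
    linarith
  have hρ1 : T / (ε + T) < 1 := by
    rw [div_lt_one (by positivity)]
    linarith
  have hρ0 : 0 ≤ T / (ε + T) := by positivity
  obtain ⟨M, hM1, hM2⟩ : ∃ M : ℕ, (T / (ε + T)) ^ M < δ / 8 ∧ θ ^ M < δ / 8 := by
    have t1 := tendsto_pow_atTop_nhds_zero_of_lt_one hρ0 hρ1
    have t2 := tendsto_pow_atTop_nhds_zero_of_lt_one hθ0 hθ1
    exact ((t1.eventually (gt_mem_nhds (show (0 : ℝ) < δ / 8 by positivity))).and
      (t2.eventually (gt_mem_nhds (show (0 : ℝ) < δ / 8 by positivity)))).exists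
  obtain ⟨CM, hCM⟩ : ∃ CM : ℝ, CM = ∑ m ∈ Finset.range M, (1 + T) ^ m := ⟨_, rfl⟩
  have hCM0 : 0 ≤ CM := by
    rw [hCM]
    exact Finset.sum_nonneg (fun m _ => by positivity)
  obtain ⟨η₀, hη₀⟩ : ∃ η₀ : ℝ, η₀ = (1 + ε ^ 2 / 2) - 1 - Real.log (1 + ε ^ 2 / 2) := ⟨_, rfl⟩
  have hη₀0 : 0 < η₀ := by
    have hp : 0 < ε ^ 2 / 2 := by positivity
    have := Real.log_lt_sub_one_of_pos (show 0 < 1 + ε ^ 2 / 2 by linarith) (by linarith)
    rw [hη₀]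
    linarith
  obtain ⟨δ', hδdef⟩ : ∃ δ' : ℝ, δ' = min (δ / (8 * (M + 1))) (δ * η₀ / (16 * (CM + 1))) :=
    ⟨_, rfl⟩
  have hδ0 : 0 < δ' := by
    rw [hδdef]
    exact lt_min (by positivity) (by positivity)
  have key : Ev ε (fun a N z w => (∀ m ∈ Finset.range M,
      |(∑ k, (w k + T) ^ m).re - N * T ^ m| ≤ δ' * N) ∧
      (Real.log (A a w) ≤ δ' * N ∧ Del z ≤ δ' * N)) :=
    (Ev.all _ (fun m _ => L12a hε hε1 hT m hδ0)).and (L8 hε hε1 hδ0)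
  filter_upwards [key, eventually_gt_atTop 0] with N hN hNpos' a ha ha1 z w h
  have haε : ε ≤ a := by rw [hεdef]; linarith
  obtain ⟨h1, h2, -⟩ := hN a ⟨haε, ha1⟩ z w h
  have hNpos : (0 : ℝ) < N := by exact_mod_cast hNpos'
  have ha0 : 0 < a := lt_of_lt_of_le hε haε
  have haT2 : 4 ≤ a * T := by
    rw [hTdef]
    linarith
  -- lower bound
  have lower := lower_term ha0 hT1 hδ0 M w h1
  -- combine
  have h3 : ∑ k, (FF a T M (w k)).re ≤ a * (lam a w).re + N * θ ^ M +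
      (CM / η₀) * (2 * (δ' * N)) + ((1 - a ^ 2) / 2) * N := by
    refine (Finset.sum_le_sum (fun k _ =>
      h.upper_term' hε haε ha1 hT1 haT2 hθ0 hθ2 M hCM hη₀ hη₀0 k)).trans ?_
    rw [Finset.sum_add_distrib, Finset.sum_add_distrib, Finset.sum_add_distrib, ← Finset.mul_sum,
      ← Finset.sum_mul, ← Finset.mul_sum, ← Finset.mul_sum]
    have h4 := h.sum_norm_yy
    have h5 := h.sumlog
    have h6 : 0 ≤ Real.log ((N : ℝ) + 1) := Real.log_nonneg (by linarith)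
    have h7 : (CM / η₀) * ∑ k, ((‖w k - (a : ℂ)‖ ^ 2)⁻¹ - 1 - Real.log ((‖w k - (a : ℂ)‖ ^ 2)⁻¹))
        ≤ (CM / η₀) * (2 * (δ' * N)) := by
      have : 0 ≤ CM / η₀ := by positivity
      refine mul_le_mul_of_nonneg_left ?_ this
      linarith
    have h8 : (∑ k, ‖yy a w k‖) * θ ^ M ≤ N * θ ^ M := by gcongr
    have h9 : (lam a w).re = ∑ k, (yy a w k).re := by
      unfold lam
      rw [Complex.re_sum]
    have h10 : ((1 - a ^ 2) / 2) * ∑ k, (‖w k - (a : ℂ)‖ ^ 2)⁻¹ ≤ ((1 - a ^ 2) / 2) * N := by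
      have : 0 ≤ (1 - a ^ 2) / 2 := by nlinarith
      exact mul_le_mul_of_nonneg_left h.hI this
    rw [h9]
    linarith
  have h4 := lower.trans h3
  have h5 : (T / (a + T)) ^ M ≤ (T / (ε + T)) ^ M := by
    gcongr
  have h6 : M * δ' ≤ δ / 8 := by
    have : δ' ≤ δ / (8 * (M + 1)) := hδdef ▸ min_le_left _ _
    calc M * δ' ≤ M * (δ / (8 * (M + 1))) := by gcongr
      _ = (δ / 8) * (M / (M + 1)) := by field_simp
      _ ≤ (δ / 8) * 1 := by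
          gcongr
          rw [div_le_one (by positivity)]
          linarith
      _ = δ / 8 := mul_one _
  have h7 : (CM / η₀) * (2 * δ') ≤ δ / 8 := by
    have : δ' ≤ δ * η₀ / (16 * (CM + 1)) := hδdef ▸ min_le_right _ _
    calc (CM / η₀) * (2 * δ') ≤ (CM / η₀) * (2 * (δ * η₀ / (16 * (CM + 1)))) := by gcongr
      _ = (δ / 8) * (CM / (CM + 1)) := by field_simp; ring
      _ ≤ (δ / 8) * 1 := by
          gcongr
          rw [div_le_one (by positivity)]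
          linarith
      _ = δ / 8 := mul_one _
  have hlpos : 0 ≤ (lam a w).re := le_trans (by positivity) (h.re_lam ha0 ha1)
  have h8 : (1 - a ^ 2) / 2 ≤ δ / 2 := by nlinarith
  have h9 : N * (1 - δ) ≤ a * (lam a w).re := by
    have k1 : N * (1 - (T / (a + T)) ^ M - M * δ' - θ ^ M - (CM / η₀) * (2 * δ') -
        (1 - a ^ 2) / 2) ≤ a * (lam a w).re := by
      linarith
    exact le_trans (mul_le_mul_of_nonneg_left (by linarith) hNpos.le) k1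
  have h10 : a * (lam a w).re ≤ 1 * (lam a w).re := by gcongr
  linarith

end Pool.Agent.H218R3.Sd
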