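import Pool.Agent.H218R3.Sm1

set_option autoImplicit false
set_option linter.unusedVariables false

open Complex Filter Topology

namespace Pool.Agent.H218R3.Sd

variable {a : ℝ} {N : ℕ} {z w : Fin N → ℂ}

noncomputable def Yc (a : ℝ) (w : Fin N → ℂ) (s : ℂ) : ℂ := ∏ k, (1 - s * yy a w k)
noncomputable def Pc (a : ℝ) (w : Fin N → ℂ) (k : Fin N) (s : ℂ) : ℂ :=
  ∏ l ∈ Finset.univ.erase k, (1 - s * yy a w l)
noncomputable def Fc (a : ℝ) (z w : Fin N → ℂ) (s : ℂ) : ℂ :=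
  pp a z ((a : ℂ) - s) / (-dp w (a : ℂ))
noncomputable def yb (a : ℝ) (w : Fin N → ℂ) : ℂ := lam a w / N
noncomputable def Ec (a : ℝ) (z w : Fin N → ℂ) (s : ℂ) : ℂ :=
  (N + 1 : ℂ) * yb a w * Fc a z w s - 1 + (1 - s * yb a w) * Yc a w s

lemma Yc_eq (a : ℝ) (w : Fin N → ℂ) (k : Fin N) (s : ℂ) :
    Yc a w s = (1 - s * yy a w k) * Pc a w k s := by
  unfold Yc Pc
  rw [Finset.mul_prod_erase Finset.univ (fun l => 1 - s * yy a w l) (Finset.mem_univ k)]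

lemma Yc_deriv (a : ℝ) (w : Fin N → ℂ) (s : ℂ) :
    HasDerivAt (Yc a w) (-∑ k, yy a w k * Pc a w k s) s := by
  have h1 : ∀ i ∈ (Finset.univ : Finset (Fin N)),
      HasDerivAt (fun s : ℂ => 1 - s * yy a w i) (-yy a w i) s := by
    intro i _
    have h2 : HasDerivAt (fun s : ℂ => 1 - s * yy a w i) (-(1 * yy a w i)) s :=
      ((hasDerivAt_id s).mul_const (yy a w i)).const_sub 1
    simpa using h2
  have h2 := HasDerivAt.fun_finsetProd h1
  have h3 : ∑ i, (∏ j ∈ Finset.univ.erase i, (1 - s * yy a w j)) • (-yy a w i)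
      = -∑ k, yy a w k * Pc a w k s := by
    rw [← Finset.sum_neg_distrib]
    apply Finset.sum_congr rfl
    intro i _
    unfold Pc
    rw [smul_eq_mul]
    ring
  rw [h3] at h2
  exact h2

lemma CE.Fc_deriv (h : CE a N z w) (s : ℂ) : HasDerivAt (Fc a z w) (Yc a w s) s := by
  have h1 : HasDerivAt (fun s : ℂ => (a : ℂ) - s) (-1) s := by
    simpa using (hasDerivAt_id s).const_sub (a : ℂ)
  have h2 := (h.hd ((a : ℂ) - s)).comp s h1
  have h3 := h2.div_const (-dp w (a : ℂ))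
  have h4 : dp w ((a : ℂ) - s) = dp w (a : ℂ) * Yc a w s := by
    unfold dp Yc
    rw [mul_assoc, ← Finset.prod_mul_distrib]
    congr 1
    apply Finset.prod_congr rfl
    intro k _
    unfold yy
    have : (a : ℂ) - w k ≠ 0 := sub_ne_zero.mpr (h.hwa k).symm
    field_simp
    ring
  have h5 := h.dpa_ne
  have h6 : dp w ((a : ℂ) - s) * -1 / (-dp w (a : ℂ)) = Yc a w s := by
    rw [h4]
    field_simp
  rw [h6] at h3
  exact h3

lemma sum_v (hN : 0 < N) (a : ℝ) (w : Fin N → ℂ) : ∑ k, (yy a w k - yb a w) = 0 := by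
  have hN' : (N : ℂ) ≠ 0 := by exact_mod_cast hN.ne'
  rw [Finset.sum_sub_distrib]
  simp only [Finset.sum_const, Finset.card_univ, Fintype.card_fin, nsmul_eq_mul]
  unfold yb lam
  field_simp
  ring

lemma CE.Ec_deriv (h : CE a N z w) (hN : 0 < N) (s : ℂ) :
    HasDerivAt (Ec a z w) (-∑ k, (yy a w k - yb a w) * Pc a w k s) s := by
  have hN' : (N : ℂ) ≠ 0 := by exact_mod_cast hN.ne'
  have h1 := (((h.Fc_deriv s).const_mul ((N + 1 : ℂ) * yb a w)).sub_const 1)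
  have h2 : HasDerivAt (fun s : ℂ => 1 - s * yb a w) (-(1 * yb a w)) s :=
    ((hasDerivAt_id s).mul_const (yb a w)).const_sub 1
  have h3 := h1.add (h2.mul (Yc_deriv a w s))
  refine h3.congr_deriv ?_
  have h4 : ∀ k, Yc a w s = (1 - s * yy a w k) * Pc a w k s := fun k => Yc_eq a w k s
  have h5 : (N : ℂ) * Yc a w s = ∑ k, (1 - s * yy a w k) * Pc a w k s := by
    rw [← Finset.sum_congr rfl (fun k _ => h4 k)]
    simp
  have h6 : (N : ℂ) * yb a w * Yc a w s = ∑ k, yb a w * ((1 - s * yy a w k) * Pc a w k s) := by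
    rw [← Finset.mul_sum, ← h5]; ring
  have h7 : (N + 1 : ℂ) * yb a w * Yc a w s + (-(1 * yb a w) * Yc a w s +
      (1 - s * yb a w) * -∑ k, yy a w k * Pc a w k s) =
      (N : ℂ) * yb a w * Yc a w s - (1 - s * yb a w) * ∑ k, yy a w k * Pc a w k s := by ring
  rw [h7, h6, Finset.mul_sum, ← Finset.sum_sub_distrib, ← Finset.sum_neg_distrib]
  apply Finset.sum_congr rfl
  intro k _
  ring

lemma v_id (hN : 0 < N) (a : ℝ) (w : Fin N → ℂ) (s : ℂ) :
    (1 - s * yb a w) * ∑ k, (yy a w k - yb a w) * Pc a w k s =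
      s * ∑ k, (yy a w k - yb a w) ^ 2 * Pc a w k s := by
  have h1 : ∀ k ∈ (Finset.univ : Finset (Fin N)),
      (1 - s * yb a w) * ((yy a w k - yb a w) * Pc a w k s) =
      (yy a w k - yb a w) * Yc a w s + s * ((yy a w k - yb a w) ^ 2 * Pc a w k s) := by
    intro k _
    rw [Yc_eq a w k s]
    ring
  rw [Finset.mul_sum, Finset.sum_congr rfl h1, Finset.sum_add_distrib, ← Finset.sum_mul,
    sum_v hN, zero_mul, zero_add, Finset.mul_sum]

noncomputable def VV (a : ℝ) (w : Fin N → ℂ) : ℝ := ∑ k, ‖yy a w k - yb a w‖ ^ 2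

lemma VV_nonneg (a : ℝ) (w : Fin N → ℂ) : 0 ≤ VV a w :=
  Finset.sum_nonneg (fun k _ => by positivity)

lemma VV_eq (hN : 0 < N) (a : ℝ) (w : Fin N → ℂ) :
    VV a w = II a w - N * ‖yb a w‖ ^ 2 := by
  have hN' : (N : ℝ) ≠ 0 := by exact_mod_cast hN.ne'
  have hN'' : (N : ℂ) ≠ 0 := by exact_mod_cast hN.ne'
  have h1 : ∀ k ∈ (Finset.univ : Finset (Fin N)), ‖yy a w k - yb a w‖ ^ 2 =
      ‖yy a w k‖ ^ 2 + ‖yb a w‖ ^ 2 - 2 * (yy a w k * (starRingEnd ℂ) (yb a w)).re := by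
    intro k _
    rw [Complex.sq_norm, Complex.sq_norm, Complex.sq_norm, Complex.normSq_sub]
  unfold VV II
  rw [Finset.sum_congr rfl h1, Finset.sum_sub_distrib, Finset.sum_add_distrib, ← Finset.mul_sum,
    ← Complex.re_sum, ← Finset.sum_mul]
  have h2 : ∑ k, yy a w k = N * yb a w := by
    unfold yb lam
    field_simp
  have h3 : ((N : ℂ) * yb a w * (starRingEnd ℂ) (yb a w)).re = N * ‖yb a w‖ ^ 2 := by
    rw [mul_assoc, Complex.mul_conj, Complex.normSq_eq_norm_sq]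
    rw [← Complex.ofReal_natCast, ← Complex.ofReal_mul, Complex.ofReal_re]
  rw [h2, h3]
  simp only [Finset.sum_const, Finset.card_univ, Fintype.card_fin, nsmul_eq_mul]
  ring

lemma CE.yb_sq (h : CE a N z w) (hN : 0 < N) : ‖yb a w‖ ^ 2 + VV a w / N ≤ 1 := by
  have hNpos : (0 : ℝ) < N := by exact_mod_cast hN
  have h1 := VV_eq hN a w
  have h2 := h.II_le
  have h3 : VV a w / N = II a w / N - ‖yb a w‖ ^ 2 := by
    rw [h1]; field_simp
  have h4 : II a w / N ≤ 1 := (div_le_one hNpos).mpr h2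
  linarith

lemma CE.yb_le (h : CE a N z w) (hN : 0 < N) : ‖yb a w‖ ≤ 1 := by
  have hNpos : (0 : ℝ) < N := by exact_mod_cast hN
  have h1 := h.yb_sq hN
  have h2 : 0 ≤ VV a w / N := div_nonneg (VV_nonneg a w) hNpos.le
  have h3 := norm_nonneg (yb a w)
  nlinarith

lemma Rc_eq (y s : ℂ) : ‖1 - s * y‖ ^ 2 = 1 - 2 * (s * y).re + ‖s‖ ^ 2 * ‖y‖ ^ 2 := by
  have h1 : ‖1 - s * y‖ ^ 2 = ‖(1 : ℂ)‖ ^ 2 + ‖s * y‖ ^ 2 - 2 * (1 * (starRingEnd ℂ) (s * y)).re := by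
    rw [Complex.sq_norm, Complex.sq_norm, Complex.sq_norm, Complex.normSq_sub]
  rw [h1, norm_one, norm_mul, one_mul, Complex.conj_re]
  ring

lemma sum_Rc (a : ℝ) (w : Fin N → ℂ) (s : ℂ) :
    ∑ k, ‖1 - s * yy a w k‖ ^ 2 = N - 2 * (s * lam a w).re + ‖s‖ ^ 2 * II a w := by
  rw [Finset.sum_congr rfl (fun k _ => Rc_eq (yy a w k) s), Finset.sum_add_distrib,
    Finset.sum_sub_distrib, ← Finset.mul_sum, ← Finset.mul_sum, ← Complex.re_sum, ← Finset.mul_sum]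
  unfold lam II
  simp

/-- bound for the incomplete products -/
lemma Pc_le {k : Fin N} {s : ℂ} {r : ℝ} (hr : 0 < r)
    (h : ∑ l, ‖1 - s * yy a w l‖ ^ 2 ≤ N * r ^ 2) : ‖Pc a w k s‖ ≤ 2 * r ^ (N - 1) := by
  have h1 : ‖Pc a w k s‖ ^ 2 ≤ ∏ l ∈ Finset.univ.erase k,
      (r ^ 2 * Real.exp (‖1 - s * yy a w l‖ ^ 2 / r ^ 2 - 1)) := by
    unfold Pc
    rw [norm_prod, ← Finset.prod_pow]
    apply Finset.prod_le_prod (fun k _ => by positivity)
    intro l _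
    have h2 := Real.add_one_le_exp (‖1 - s * yy a w l‖ ^ 2 / r ^ 2 - 1)
    calc ‖1 - s * yy a w l‖ ^ 2 = r ^ 2 * (‖1 - s * yy a w l‖ ^ 2 / r ^ 2 - 1 + 1) := by
          field_simp
          ring
      _ ≤ _ := by gcongr
  rw [Finset.prod_mul_distrib, ← Real.exp_sum, Finset.prod_const,
    Finset.card_erase_of_mem (Finset.mem_univ k), Finset.card_univ, Fintype.card_fin] at h1
  have h3 : ∑ l ∈ Finset.univ.erase k, (‖1 - s * yy a w l‖ ^ 2 / r ^ 2 - 1) ≤ 1 := by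
    have h4 := Finset.add_sum_erase Finset.univ
      (fun l => ‖1 - s * yy a w l‖ ^ 2 / r ^ 2 - 1) (Finset.mem_univ k)
    have h5 : ∑ l, (‖1 - s * yy a w l‖ ^ 2 / r ^ 2 - 1) ≤ 0 := by
      rw [Finset.sum_sub_distrib, ← Finset.sum_div]
      simp only [Finset.sum_const, Finset.card_univ, Fintype.card_fin, nsmul_eq_mul, mul_one]
      rw [sub_nonpos, div_le_iff₀ (by positivity)]
      exact h
    have h6 : 0 ≤ ‖1 - s * yy a w k‖ ^ 2 / r ^ 2 := by positivity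
    linarith
  have h4 : ‖Pc a w k s‖ ^ 2 ≤ (2 * r ^ (N - 1)) ^ 2 := by
    refine h1.trans ?_
    have h5 : Real.exp (∑ l ∈ Finset.univ.erase k, (‖1 - s * yy a w l‖ ^ 2 / r ^ 2 - 1)) ≤ 4 := by
      refine (Real.exp_le_exp.mpr h3).trans ?_
      have := Real.exp_one_lt_d9
      linarith
    calc (r ^ 2) ^ (N - 1) * Real.exp (∑ l ∈ Finset.univ.erase k, (‖1 - s * yy a w l‖ ^ 2 / r ^ 2 - 1))
        ≤ (r ^ 2) ^ (N - 1) * 4 := by gcongr
      _ = _ := by ring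
  exact (pow_le_pow_iff_left₀ (norm_nonneg _) (by positivity) two_ne_zero).mp h4

/-- bound for the complete product -/
lemma Yc_le {s : ℂ} {ρ : ℝ} (hr : 0 < ρ)
    (h : ∑ l, ‖1 - s * yy a w l‖ ^ 2 ≤ N * ρ) : ‖Yc a w s‖ ^ 2 ≤ ρ ^ N := by
  have h1 : ‖Yc a w s‖ ^ 2 ≤ ∏ l : Fin N,
      (ρ * Real.exp (‖1 - s * yy a w l‖ ^ 2 / ρ - 1)) := by
    unfold Yc
    rw [norm_prod, ← Finset.prod_pow]
    apply Finset.prod_le_prod (fun k _ => by positivity)
    intro l _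
    have h2 := Real.add_one_le_exp (‖1 - s * yy a w l‖ ^ 2 / ρ - 1)
    calc ‖1 - s * yy a w l‖ ^ 2 = ρ * (‖1 - s * yy a w l‖ ^ 2 / ρ - 1 + 1) := by
          field_simp
          ring
      _ ≤ _ := by gcongr
  rw [Finset.prod_mul_distrib, ← Real.exp_sum, Finset.prod_const, Finset.card_univ,
    Fintype.card_fin] at h1
  have h5 : ∑ l, (‖1 - s * yy a w l‖ ^ 2 / ρ - 1) ≤ 0 := by
    rw [Finset.sum_sub_distrib, ← Finset.sum_div]
    simp only [Finset.sum_const, Finset.card_univ, Fintype.card_fin, nsmul_eq_mul, mul_one]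
    rw [sub_nonpos, div_le_iff₀ (by positivity)]
    exact h
  have h6 : Real.exp (∑ l, (‖1 - s * yy a w l‖ ^ 2 / ρ - 1)) ≤ 1 := Real.exp_le_one_iff.mpr h5
  calc ‖Yc a w s‖ ^ 2 ≤ _ := h1
    _ ≤ ρ ^ N * 1 := by gcongr
    _ = ρ ^ N := mul_one _

/-- the sum of squares in terms of `1 - yb` -/
lemma CE.sum_Rc_le (h : CE a N z w) (hN : 0 < N) {s : ℂ} {η : ℝ} (hη : ‖1 - yb a w‖ ≤ η) :
    ∑ l, ‖1 - s * yy a w l‖ ^ 2 ≤ N * (‖1 - s‖ ^ 2 + 2 * ‖s‖ * η) := by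
  have hNpos : (0 : ℝ) < N := by exact_mod_cast hN
  have hN'' : (N : ℂ) ≠ 0 := by exact_mod_cast hN.ne'
  rw [sum_Rc]
  have h1 : lam a w = N * yb a w := by
    unfold yb
    field_simp
  have h2 : (s * lam a w).re = N * (s * yb a w).re := by
    rw [h1, ← Complex.ofReal_natCast, mul_left_comm, Complex.re_ofReal_mul]
  have h3 : s.re - ‖s‖ * η ≤ (s * yb a w).re := by
    have h4 : s * yb a w = s - s * (1 - yb a w) := by ring
    rw [h4, Complex.sub_re]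
    have h5 := Complex.abs_re_le_norm (s * (1 - yb a w))
    rw [norm_mul, abs_le] at h5
    have h6 : ‖s‖ * ‖1 - yb a w‖ ≤ ‖s‖ * η := by gcongr
    linarith
  have h4 : ‖1 - s‖ ^ 2 = 1 - 2 * s.re + ‖s‖ ^ 2 := by
    have := Rc_eq 1 s
    rw [mul_one, norm_one] at this
    rw [this]; ring
  have h5 : ‖s‖ ^ 2 * II a w ≤ ‖s‖ ^ 2 * N := by
    gcongr
    exact h.II_le
  rw [h2, h4]
  nlinarith

lemma CE.one_sub_yb (h : CE a N z w) (hN : 0 < N) {τ : ℝ} (hτ : (1 - τ) * N ≤ (lam a w).re) :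
    ‖1 - yb a w‖ ^ 2 ≤ 2 * τ := by
  have hNpos : (0 : ℝ) < N := by exact_mod_cast hN
  have h1 : 1 - τ ≤ (yb a w).re := by
    unfold yb
    have : (lam a w / (N : ℂ)).re = (lam a w).re / N := by
      rw [← Complex.ofReal_natCast, Complex.div_ofReal_re]
    rw [this, le_div_iff₀ hNpos]
    exact hτ
  have h2 := h.yb_le hN
  have h3 := Rc_eq (yb a w) 1
  rw [one_mul, norm_one] at h3
  have h4 : ‖yb a w‖ ^ 2 ≤ 1 := by
    have := norm_nonneg (yb a w)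
    nlinarith
  rw [h3]
  nlinarith

end Pool.Agent.H218R3.Sd
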