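import Pool.Agent.H218R3.Nr2

set_option autoImplicit false
set_option linter.unusedVariables false

open Complex Filter Topology

namespace Pool.Agent.H218R3.Sd

variable {a : ℝ} {N : ℕ} {z w : Fin N → ℂ}

lemma vsum_le (hN : 0 < N) {s : ℂ} {P d : ℝ} (hd : 0 < d) (hP : ∀ k, ‖Pc a w k s‖ ≤ P)
    (hds : d ≤ ‖1 - s * yb a w‖) :
    ‖∑ k, (yy a w k - yb a w) * Pc a w k s‖ ≤ ‖s‖ * VV a w * P / d := by
  rw [le_div_iff₀ hd]
  have h1 := congrArg norm (v_id hN a w s)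
  rw [norm_mul, norm_mul] at h1
  have h2 : ‖∑ k, (yy a w k - yb a w) ^ 2 * Pc a w k s‖ ≤ VV a w * P := by
    refine (norm_sum_le _ _).trans ?_
    unfold VV
    rw [Finset.sum_mul]
    apply Finset.sum_le_sum
    intro k _
    rw [norm_mul, norm_pow]
    gcongr
    exact hP k
  calc ‖∑ k, (yy a w k - yb a w) * Pc a w k s‖ * d
      ≤ ‖∑ k, (yy a w k - yb a w) * Pc a w k s‖ * ‖1 - s * yb a w‖ := by gcongr
    _ = ‖s‖ * ‖∑ k, (yy a w k - yb a w) ^ 2 * Pc a w k s‖ := by rw [← h1]; ring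
    _ ≤ ‖s‖ * (VV a w * P) := by gcongr
    _ = _ := by ring

lemma Ec_zero (a : ℝ) (z w : Fin N → ℂ) : Ec a z w 0 = 0 := by
  unfold Ec Fc Yc
  simp [pp_self]

/-- bound on the real segment -/
lemma CE.Ec_seg (h : CE a N z w) (hN : 2 ≤ N) (ha : 1 / 2 ≤ a) (ha1 : a ≤ 1)
    (hτ : (1 - 1 / 1000) * N ≤ (lam a w).re) :
    ‖Ec a z w ((a - 1 / 4 : ℝ) : ℂ)‖ ≤ 32 * VV a w / ((N : ℝ) - 1) ^ 2 := by
  have hN0 : 0 < N := by omega
  have hNpos : (0 : ℝ) < N := by exact_mod_cast hN0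
  have hN2 : (2 : ℝ) ≤ N := by exact_mod_cast hN
  obtain ⟨μ, hμ⟩ : ∃ μ : ℝ, μ = ((N : ℝ) - 1) / 2 := ⟨_, rfl⟩
  have hμ0 : 0 < μ := by rw [hμ]; linarith
  have hV := VV_nonneg a w
  set B : ℝ → ℝ := fun s => 8 * VV a w * ((1 / μ ^ 2) * (1 - (1 + μ * s) * Real.exp (-(μ * s))))
    with hB
  set B' : ℝ → ℝ := fun s => 8 * VV a w * (s * Real.exp (-(μ * s))) with hB'
  have h1 := image_norm_le_of_norm_deriv_right_le_deriv_boundary (a := 0) (b := a - 1 / 4)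
    (f := fun s : ℝ => Ec a z w (s : ℂ))
    (f' := fun s => -∑ k, (yy a w k - yb a w) * Pc a w k (s : ℂ))
    (B := B) (B' := B')
    (fun s _ => ((h.Ec_deriv hN0 (s : ℂ)).comp_ofReal).continuousAt.continuousWithinAt)
    (fun s _ => ((h.Ec_deriv hN0 (s : ℂ)).comp_ofReal).hasDerivWithinAt)
    ?_ ?_ ?_ (x := a - 1 / 4) ⟨by linarith, le_rfl⟩
  · refine h1.trans ?_
    rw [hB]
    have h5 : (1 / μ ^ 2) * (1 - (1 + μ * (a - 1 / 4)) * Real.exp (-(μ * (a - 1 / 4)))) ≤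
        1 / μ ^ 2 := by
      have h4 : 0 ≤ (1 + μ * (a - 1 / 4)) * Real.exp (-(μ * (a - 1 / 4))) := by
        have : 0 ≤ a - 1 / 4 := by linarith
        positivity
      have h5 : 0 ≤ 1 / μ ^ 2 := by positivity
      nlinarith
    have h6 : 8 * VV a w * (1 / μ ^ 2) = 32 * VV a w / ((N : ℝ) - 1) ^ 2 := by
      have : (N : ℝ) - 1 ≠ 0 := by linarith
      rw [hμ]
      field_simp
      ring
    rw [← h6]
    simp only
    gcongr
  · simp only [Complex.ofReal_zero, Ec_zero, norm_zero]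
    rw [hB]
    simp
  · intro s
    rw [hB, hB']
    have e1 : HasDerivAt (fun s : ℝ => Real.exp (-(μ * s))) (Real.exp (-(μ * s)) * (-(μ * 1))) s :=
      (((hasDerivAt_id s).const_mul μ).neg).exp
    have e2 : HasDerivAt (fun s : ℝ => (1 + μ * s)) (μ * 1) s :=
      ((hasDerivAt_id s).const_mul μ).const_add 1
    have e3 := ((e2.mul e1).const_sub 1).const_mul (1 / μ ^ 2)
    have e6 := e3.const_mul (8 * VV a w)
    refine e6.congr_deriv ?_
    field_simp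
    ring
  · intro s hs
    have hs0 : 0 ≤ s := hs.1
    have hs1 : s < a - 1 / 4 := hs.2
    have hP : ∀ k, ‖Pc a w k (s : ℂ)‖ ≤ 2 * Real.exp (-(μ * s)) := by
      intro k
      have h2 : ∑ l, ‖1 - (s : ℂ) * yy a w l‖ ^ 2 ≤ N * (Real.exp (-(s / 2))) ^ 2 := by
        rw [sum_Rc, Complex.re_ofReal_mul, Complex.norm_real, Real.norm_of_nonneg hs0]
        have h3 : Real.exp (-(s / 2)) ^ 2 = Real.exp (-s) := by
          rw [← Real.exp_nat_mul]; congr 1; push_cast; ring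
        rw [h3]
        have h4 := Real.add_one_le_exp (-s)
        have h5 : s ^ 2 * II a w ≤ s ^ 2 * N := by
          gcongr
          exact h.II_le
        have h6 : s * ((1 - 1 / 1000) * N) ≤ s * (lam a w).re := by gcongr
        have h7 : N * (-s + 1) ≤ N * Real.exp (-s) := by gcongr
        have h8 : 0 ≤ N * s * (1 - 2 / 1000 - s) := by
          have : 0 ≤ 1 - 2 / 1000 - s := by linarith
          positivity
        nlinarith
      have h3 := Pc_le (k := k) (Real.exp_pos (-(s / 2))) h2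
      have h4 : Real.exp (-(s / 2)) ^ (N - 1) = Real.exp (-(μ * s)) := by
        rw [← Real.exp_nat_mul, hμ, Nat.cast_sub (by omega)]
        congr 1
        push_cast
        ring
      rwa [h4] at h3
    have hd : (1 / 4 : ℝ) ≤ ‖1 - (s : ℂ) * yb a w‖ := by
      have h2 := norm_sub_norm_le (1 : ℂ) ((s : ℂ) * yb a w)
      rw [norm_mul, norm_one, Complex.norm_real, Real.norm_of_nonneg hs0] at h2
      have h3 := h.yb_le hN0
      have h4 : s * ‖yb a w‖ ≤ s * 1 := by gcongr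
      linarith
    have h2 := vsum_le hN0 (by norm_num : (0 : ℝ) < 1 / 4) hP hd
    rw [norm_neg, hB']
    refine h2.trans (le_of_eq ?_)
    rw [Complex.norm_real, Real.norm_of_nonneg hs0]
    ring

/-- bound on the circle -/
lemma CE.Ec_arc (h : CE a N z w) (hN : 2 ≤ N) (ha : 1 - 1 / 100 ≤ a) (ha1 : a ≤ 1)
    (hτ : (1 - 1 / 1000) * N ≤ (lam a w).re) (φ : ℝ) (hφ : |φ| ≤ Real.pi) :
    ‖Ec a z w ((a : ℂ) - (1 / 4 : ℝ) * Complex.exp (φ * I))‖ ≤
      32 * VV a w / ((N : ℝ) - 1) ^ 2 + 16 * VV a w * (1 / 2) ^ (N - 1) := by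
  have hN0 : 0 < N := by omega
  have hNpos : (0 : ℝ) < N := by exact_mod_cast hN0
  have hV := VV_nonneg a w
  have hyb : ‖1 - yb a w‖ ≤ 1 / 20 := by
    have h1 := h.one_sub_yb hN0 hτ
    have h2 : ‖1 - yb a w‖ ^ 2 ≤ (1 / 20) ^ 2 := by
      refine h1.trans ?_
      norm_num
    exact (pow_le_pow_iff_left₀ (norm_nonneg _) (by norm_num) two_ne_zero).mp h2
  have hder : ∀ φ : ℝ, HasDerivAt
      (fun φ : ℝ => Ec a z w ((a : ℂ) - (1 / 4 : ℝ) * Complex.exp (φ * I)))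
      ((-∑ k, (yy a w k - yb a w) * Pc a w k ((a : ℂ) - (1 / 4 : ℝ) * Complex.exp (φ * I))) *
        (-((1 / 4 : ℝ) * (Complex.exp (φ * I) * (1 * I))))) φ := by
    intro φ
    have h1 : HasDerivAt (fun φ : ℂ => (a : ℂ) - (1 / 4 : ℝ) * Complex.exp (φ * I))
        (-((1 / 4 : ℝ) * (Complex.exp (φ * I) * (1 * I)))) (φ : ℂ) :=
      ((((hasDerivAt_id (φ : ℂ)).mul_const I).cexp).const_mul _).const_sub _
    have h2 := (h.Ec_deriv hN0 ((a : ℂ) - (1 / 4 : ℝ) * Complex.exp (φ * I))).comp (φ : ℂ) h1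
    exact h2.comp_ofReal
  have hb : ∀ φ : ℝ, ‖(-∑ k, (yy a w k - yb a w) *
        Pc a w k ((a : ℂ) - (1 / 4 : ℝ) * Complex.exp (φ * I))) *
        (-((1 / 4 : ℝ) * (Complex.exp (φ * I) * (1 * I))))‖ ≤ 4 * VV a w * (1 / 2) ^ (N - 1) := by
    intro φ
    have he : ‖Complex.exp (φ * I)‖ = 1 := Complex.norm_exp_ofReal_mul_I φ
    have h14 : ‖((1 / 4 : ℝ) : ℂ)‖ = 1 / 4 := by
      rw [Complex.norm_real, Real.norm_of_nonneg (by norm_num)]
    obtain ⟨s, hs⟩ : ∃ s : ℂ, s = (a : ℂ) - (1 / 4 : ℝ) * Complex.exp (φ * I) := ⟨_, rfl⟩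
    rw [← hs]
    have h1a : ‖((1 - a : ℝ) : ℂ)‖ ≤ 1 / 100 := by
      rw [Complex.norm_real, Real.norm_of_nonneg (by linarith)]
      linarith
    have hs1 : 1 - s = ((1 - a : ℝ) : ℂ) + (1 / 4 : ℝ) * Complex.exp (φ * I) := by
      rw [hs]; push_cast; ring
    have hsn : ‖s‖ ≤ 5 / 4 := by
      rw [hs]
      refine (norm_sub_le _ _).trans ?_
      rw [norm_mul, he, h14, Complex.norm_real, Real.norm_of_nonneg (by linarith)]
      linarith
    have hs2 : ‖1 - s‖ ≤ 26 / 100 := by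
      rw [hs1]
      refine (norm_add_le _ _).trans ?_
      rw [norm_mul, he, h14]
      linarith
    have hs3 : 24 / 100 ≤ ‖1 - s‖ := by
      rw [hs1]
      have := norm_sub_norm_le ((1 / 4 : ℝ) * Complex.exp (φ * I)) (-((1 - a : ℝ) : ℂ))
      rw [norm_mul, he, h14, norm_neg, sub_neg_eq_add, add_comm] at this
      rw [add_comm] at this
      rw [add_comm ((1 / 4 : ℝ) * Complex.exp (φ * I)) _] at this
      linarith
    have hP : ∀ k, ‖Pc a w k s‖ ≤ 2 * (1 / 2) ^ (N - 1) := by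
      intro k
      apply Pc_le (by norm_num)
      refine (h.sum_Rc_le hN0 hyb).trans ?_
      gcongr
      nlinarith [norm_nonneg s, norm_nonneg (1 - s)]
    have hd : (1 / 6 : ℝ) ≤ ‖1 - s * yb a w‖ := by
      have e : 1 - s * yb a w = (1 - s) - (-(s * (1 - yb a w))) := by ring
      rw [e]
      have h2 := norm_sub_norm_le (1 - s) (-(s * (1 - yb a w)))
      rw [norm_neg, norm_mul] at h2
      have h3 : ‖s‖ * ‖1 - yb a w‖ ≤ 5 / 4 * (1 / 20) := by gcongr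
      linarith
    have h2 := vsum_le hN0 (by norm_num : (0 : ℝ) < 1 / 6) hP hd
    rw [norm_mul, norm_neg, norm_neg, norm_mul, norm_mul, he, h14, one_mul, one_mul, Complex.norm_I,
      mul_one]
    have h3 : ‖s‖ * VV a w * (2 * (1 / 2) ^ (N - 1)) / (1 / 6) ≤
        5 / 4 * VV a w * (2 * (1 / 2) ^ (N - 1)) / (1 / 6) := by gcongr
    have h4 : 0 ≤ VV a w * (1 / 2) ^ (N - 1) := by positivity
    linarith
  have h1 := Convex.norm_image_sub_le_of_norm_hasDerivWithin_le (𝕜 := ℝ) (s := Set.univ)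
    (fun φ _ => (hder φ).hasDerivWithinAt) (fun φ _ => hb φ) convex_univ
    (Set.mem_univ 0) (Set.mem_univ φ)
  have h2 := h.Ec_seg hN (by linarith) ha1 hτ
  have e0 : (a : ℂ) - (1 / 4 : ℝ) * Complex.exp ((0 : ℝ) * I) = ((a - 1 / 4 : ℝ) : ℂ) := by
    rw [Complex.ofReal_zero, zero_mul, Complex.exp_zero]
    push_cast
    ring
  rw [e0, sub_zero, Real.norm_eq_abs] at h1
  have h3 : 4 * VV a w * (1 / 2) ^ (N - 1) * |φ| ≤ 4 * VV a w * (1 / 2) ^ (N - 1) * 4 := by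
    gcongr
    exact hφ.trans Real.pi_le_four
  have h4 := norm_sub_norm_le (Ec a z w ((a : ℂ) - (1 / 4 : ℝ) * Complex.exp (φ * I)))
    (Ec a z w ((a - 1 / 4 : ℝ) : ℂ))
  linarith

/-- maximum principle -/
lemma CE.Ec_at (h : CE a N z w) (hN : 2 ≤ N) (ha : 1 - 1 / 100 ≤ a) (ha1 : a ≤ 1)
    (hτ : (1 - 1 / 1000) * N ≤ (lam a w).re) :
    ‖Ec a z w (a : ℂ)‖ ≤
      32 * VV a w / ((N : ℝ) - 1) ^ 2 + 16 * VV a w * (1 / 2) ^ (N - 1) := by
  have hN0 : 0 < N := by omega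
  have hd : Differentiable ℂ (fun ζ : ℂ => Ec a z w ((a : ℂ) - ζ)) := by
    intro ζ
    have h1 : DifferentiableAt ℂ (fun ζ : ℂ => (a : ℂ) - ζ) ζ := by fun_prop
    exact (h.Ec_deriv hN0 ((a : ℂ) - ζ)).differentiableAt.comp ζ h1
  have h2 := Complex.norm_le_of_forall_mem_frontier_norm_le
    (U := Metric.ball (0 : ℂ) (1 / 4)) Metric.isBounded_ball hd.diffContOnCl
    (C := 32 * VV a w / ((N : ℝ) - 1) ^ 2 + 16 * VV a w * (1 / 2) ^ (N - 1)) ?_ (z := 0)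
    (subset_closure (Metric.mem_ball_self (by norm_num)))
  · simpa using h2
  · intro ζ hζ
    rw [frontier_ball _ (by norm_num), mem_sphere_zero_iff_norm] at hζ
    have h3 := h.Ec_arc hN ha ha1 hτ (Complex.arg ζ) (Complex.abs_arg_le_pi ζ)
    have h4 : ((1 / 4 : ℝ) : ℂ) * Complex.exp (Complex.arg ζ * I) = ζ := by
      rw [← hζ]
      exact Complex.norm_mul_exp_arg_mul_I ζ
    rw [h4] at h3
    exact h3

lemma CE.norm_pp0 (h : CE a N z w) (ha : 0 ≤ a) : ‖pp a z 0‖ ≤ a := by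
  unfold pp
  rw [norm_mul, norm_prod]
  have e1 : ‖(0 : ℂ) - a‖ = a := by
    rw [zero_sub, norm_neg, Complex.norm_real, Real.norm_of_nonneg ha]
  rw [e1]
  have e2 : ∏ j, ‖(0 : ℂ) - z j‖ ≤ 1 := by
    apply Finset.prod_le_one (fun j _ => norm_nonneg _)
    intro j _
    rw [zero_sub, norm_neg]
    exact h.hz j
  nlinarith

/-- Step N3 -/
lemma CE.stepN3 (h : CE a N z w) (hN : 2 ≤ N) (ha : 1 - 1 / 100 ≤ a) (ha1 : a ≤ 1)
    (hτ : (1 - 1 / 1000) * N ≤ (lam a w).re)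
    (hbig : 32 / ((N : ℝ) - 1) ^ 2 + 16 * (1 / 2) ^ (N - 1) ≤ 1 / (8 * N)) :
    1 - a ≤ ‖Yc a w (a : ℂ)‖ := by
  have hN0 : 0 < N := by omega
  have hNpos : (0 : ℝ) < N := by exact_mod_cast hN0
  have hV := VV_nonneg a w
  have h1 := h.Ec_at hN ha ha1 hτ
  have h2 : ‖Ec a z w (a : ℂ)‖ ≤ VV a w / N / 8 := by
    refine h1.trans ?_
    have : 32 * VV a w / ((N : ℝ) - 1) ^ 2 + 16 * VV a w * (1 / 2) ^ (N - 1) =
        VV a w * (32 / ((N : ℝ) - 1) ^ 2 + 16 * (1 / 2) ^ (N - 1)) := by ring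
    rw [this]
    calc _ ≤ VV a w * (1 / (8 * N)) := by gcongr
      _ = _ := by field_simp
  obtain ⟨v, hv⟩ : ∃ v : ℝ, v = VV a w / N := ⟨_, rfl⟩
  have hv0 : 0 ≤ v := by rw [hv]; positivity
  rw [← hv] at h2
  have hyb := h.yb_sq hN0
  rw [← hv] at hyb
  have hyb2 : ‖yb a w‖ ≤ 1 - v / 2 := by
    have h3 := norm_nonneg (yb a w)
    have h4 : v ≤ 1 := by nlinarith
    have h5 : ‖yb a w‖ ^ 2 ≤ (1 - v / 2) ^ 2 := by nlinarith
    exact (pow_le_pow_iff_left₀ h3 (by linarith) two_ne_zero).mp h5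
  have hyb1 : ‖1 - yb a w‖ ≤ 1 / 20 := by
    have h1 := h.one_sub_yb hN0 hτ
    have h2 : ‖1 - yb a w‖ ^ 2 ≤ (1 / 20) ^ 2 := by
      refine h1.trans ?_
      norm_num
    exact (pow_le_pow_iff_left₀ (norm_nonneg _) (by norm_num) two_ne_zero).mp h2
  have hF : ‖Fc a z w (a : ℂ)‖ ≤ a / (N + 1) := by
    unfold Fc
    rw [sub_self, norm_div, norm_neg]
    have h3 := h.norm_pp0 (by linarith)
    have h4 := h.A_ge
    unfold A at h4
    gcongr
  have hFF : ‖(N + 1 : ℂ) * yb a w * Fc a z w (a : ℂ)‖ ≤ a * ‖yb a w‖ := by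
    rw [norm_mul, norm_mul]
    have e1 : ‖(N + 1 : ℂ)‖ = N + 1 := by
      have : ((N : ℂ) + 1) = ((N + 1 : ℝ) : ℂ) := by push_cast; rfl
      rw [this, Complex.norm_real, Real.norm_of_nonneg (by positivity)]
    rw [e1]
    calc (N + 1) * ‖yb a w‖ * ‖Fc a z w (a : ℂ)‖ ≤ (N + 1) * ‖yb a w‖ * (a / (N + 1)) := by gcongr
      _ = _ := by field_simp
  have key : (1 : ℂ) = (N + 1 : ℂ) * yb a w * Fc a z w (a : ℂ) + (1 - (a : ℂ) * yb a w) *
      Yc a w (a : ℂ) - Ec a z w (a : ℂ) := by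
    unfold Ec; ring
  have key2 := congrArg norm key
  rw [norm_one] at key2
  have h5 : (1 : ℝ) ≤ a * ‖yb a w‖ + ‖1 - (a : ℂ) * yb a w‖ * ‖Yc a w (a : ℂ)‖ + v / 8 := by
    calc (1 : ℝ) = _ := key2
      _ ≤ ‖(N + 1 : ℂ) * yb a w * Fc a z w (a : ℂ) + (1 - (a : ℂ) * yb a w) *
          Yc a w (a : ℂ)‖ + ‖Ec a z w (a : ℂ)‖ := norm_sub_le _ _
      _ ≤ (‖(N + 1 : ℂ) * yb a w * Fc a z w (a : ℂ)‖ + ‖(1 - (a : ℂ) * yb a w) *
          Yc a w (a : ℂ)‖) + ‖Ec a z w (a : ℂ)‖ := by gcongr; exact norm_add_le _ _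
      _ ≤ _ := by rw [norm_mul (1 - (a : ℂ) * yb a w)]; gcongr
  have h6 : ‖1 - (a : ℂ) * yb a w‖ ≤ 1 := by
    have e : 1 - (a : ℂ) * yb a w = ((1 - a : ℝ) : ℂ) + a * (1 - yb a w) := by push_cast; ring
    rw [e]
    refine (norm_add_le _ _).trans ?_
    rw [norm_mul, Complex.norm_real, Complex.norm_real, Real.norm_of_nonneg (by linarith),
      Real.norm_of_nonneg (by linarith)]
    nlinarith [norm_nonneg (1 - yb a w)]
  have h7 : ‖1 - (a : ℂ) * yb a w‖ * ‖Yc a w (a : ℂ)‖ ≤ 1 * ‖Yc a w (a : ℂ)‖ := by gcongr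
  have h8 : a * ‖yb a w‖ ≤ a * (1 - v / 2) := by gcongr
  have h9 : v / 4 ≤ a * (v / 2) := by nlinarith
  linarith

/-- the complete product at `a` -/
lemma CE.Y_at (h : CE a N z w) (hN : 0 < N) (ha : 0 ≤ a) (ha1 : a ≤ 1) {τ : ℝ} (hτ0 : 0 < τ)
    (hτ : (1 - τ) * N ≤ (lam a w).re) :
    ‖Yc a w (a : ℂ)‖ ^ 2 ≤ ((1 - a) ^ 2 + 2 * τ) ^ N := by
  have hNpos : (0 : ℝ) < N := by exact_mod_cast hN
  apply Yc_le (by positivity)
  rw [sum_Rc, Complex.re_ofReal_mul, Complex.norm_real, Real.norm_of_nonneg ha]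
  have h5 : a ^ 2 * II a w ≤ a ^ 2 * N := by
    gcongr
    exact h.II_le
  have h6 : a * ((1 - τ) * N) ≤ a * (lam a w).re := by gcongr
  have h7 : 0 ≤ (1 - a) * (τ * N) := by
    have : 0 ≤ 1 - a := by linarith
    positivity
  nlinarith

end Pool.Agent.H218R3.Sd
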