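import Pool.Agent.H218R3.Sm1

set_option autoImplicit false
set_option linter.unusedVariables false

open Complex Filter Topology

namespace Pool.Agent.H218R3.Sd

variable {a : ℝ} {N : ℕ} {z w : Fin N → ℂ}

/-- minus the sum of the real parts -/
noncomputable def WW (w : Fin N → ℂ) : ℝ := -∑ k, (w k).re

lemma one_sub_ne {u : ℂ} (hu : ‖u‖ ≤ 1) {x : ℝ} (hx : 0 ≤ x) (hx1 : x < 1) :
    0 < ‖1 - u * x‖ := by
  rw [norm_pos_iff]
  intro hc
  have h3 : ‖u * (x : ℂ)‖ = 1 := by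
    rw [← sub_eq_zero.mp hc, norm_one]
  rw [norm_mul, Complex.norm_real, Real.norm_of_nonneg hx] at h3
  have := norm_nonneg u
  nlinarith

lemma HH_w_le (hw : ∀ k, ‖w k‖ ≤ 1) {x : ℝ} (hx : 0 ≤ x) (hx1 : x < 1) :
    HH w x ≤ x * WW w + N * x ^ 2 / 2 := by
  unfold HH WW
  have h1 : ∀ k ∈ (Finset.univ : Finset (Fin N)), Real.log ‖1 - w k * x‖ ≤
      -x * (w k).re + x ^ 2 / 2 := by
    intro k _
    have h0 := one_sub_ne (hw k) hx hx1
    have h2 : Real.log ‖1 - w k * x‖ = (1 / 2) * Real.log (‖1 - w k * x‖ ^ 2) := by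
      rw [Real.log_pow]; push_cast; ring
    have h3 := Real.log_le_sub_one_of_pos (show 0 < ‖1 - w k * x‖ ^ 2 by positivity)
    have h4 : ‖1 - w k * x‖ ^ 2 = 1 - 2 * x * (w k).re + x ^ 2 * ‖w k‖ ^ 2 := by
      rw [mul_comm, R_eq]
    have h5 : ‖w k‖ ^ 2 ≤ 1 := by
      have := norm_nonneg (w k)
      have := hw k
      nlinarith
    have h6 : x ^ 2 * ‖w k‖ ^ 2 ≤ x ^ 2 * 1 := by gcongr
    rw [h2]
    linarith
  refine (Finset.sum_le_sum h1).trans (le_of_eq ?_)
  rw [Finset.sum_add_distrib, ← Finset.mul_sum]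
  simp
  ring

lemma norm_sub_le_one_sub {u : ℂ} (hu : ‖u‖ ≤ 1) {x : ℝ} (hx : 0 ≤ x) (hx1 : x < 1) :
    ‖(x : ℂ) - u‖ ≤ ‖1 - u * x‖ := by
  have h1 := sq_id u x
  have h2 : 0 ≤ (1 - x ^ 2) * (1 - ‖u‖ ^ 2) := by
    have := norm_nonneg u
    have h3 : 0 ≤ 1 - x ^ 2 := by nlinarith
    have h4 : 0 ≤ 1 - ‖u‖ ^ 2 := by nlinarith
    positivity
  have h3 : ‖(x : ℂ) - u‖ ^ 2 ≤ ‖1 - u * x‖ ^ 2 := by linarith
  exact (pow_le_pow_iff_left₀ (norm_nonneg _) (norm_nonneg _) two_ne_zero).mp h3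

lemma log_q_le (hz : ∀ j, ‖z j‖ ≤ 1) {x : ℝ} (hx : 0 ≤ x) (hx1 : x < 1)
    (hq : 0 < ‖q z (x : ℂ)‖) : Real.log ‖q z (x : ℂ)‖ ≤ HH z x := by
  have h1 : ‖q z (x : ℂ)‖ ≤ ∏ j, ‖1 - z j * x‖ := by
    unfold q
    rw [norm_prod]
    exact Finset.prod_le_prod (fun j _ => norm_nonneg _)
      (fun j _ => norm_sub_le_one_sub (hz j) hx hx1)
  refine (Real.log_le_log hq h1).trans (le_of_eq ?_)
  rw [Real.log_prod (fun j _ => (one_sub_ne (hz j) hx hx1).ne')]
  rfl

/-- Step 1 -/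
lemma CE.step1 (h : CE a N z w) (ha : 0 < a) (ha1 : a ≤ 1) {x : ℝ} (hx : 0 < x) (hx1 : x ≤ 1 / 2)
    (hq : 0 < ‖q z (x : ℂ)‖) :
    Real.log ‖q z (x : ℂ)‖ ≤ x * WW w + N * x ^ 2 / 2 + 3 * x := by
  have h1 := log_q_le h.hz hx.le (by linarith) hq
  have h2 := HH_w_le h.hw hx.le (by linarith : x < 1)
  have h3 := h.compare ha ha1 (ξ := x⁻¹) ((one_lt_inv₀ hx).mpr (by linarith))
  have h4 : HH w x - HH z x = (∑ k, Real.log ‖((x⁻¹ : ℝ) : ℂ) - w k‖)
      - ∑ j, Real.log ‖((x⁻¹ : ℝ) : ℂ) - z j‖ := by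
    rw [HH_scale w h.hw hx (by linarith), HH_scale z h.hz hx (by linarith)]
    ring
  rw [← h4, abs_le] at h3
  have h5 : Real.log (x⁻¹ + 1) - Real.log (x⁻¹ - 1) ≤ 3 * x := by
    have e1 : x⁻¹ + 1 = x⁻¹ * (1 + x) := by field_simp
    have e2 : x⁻¹ - 1 = x⁻¹ * (1 - x) := by field_simp
    rw [e1, e2, Real.log_mul (by positivity) (by positivity),
      Real.log_mul (by positivity) (by linarith)]
    have h6 := Real.log_le_sub_one_of_pos (show 0 < 1 + x by linarith)
    have h7 := Real.one_sub_inv_le_log_of_pos (show 0 < 1 - x by linarith)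
    have h8 : (1 - x)⁻¹ ≤ 1 + 2 * x := by
      rw [inv_le_comm₀ (by linarith) (by linarith), ← one_div, div_le_iff₀ (by linarith)]
      nlinarith
    linarith
  linarith

/-- Step 2 -/
lemma CE.step2 (h : CE a N z w) (ha : 0 < a) (ha1 : a ≤ 1 / 2) :
    WW w - 2 * a * N ≤ (1 + 8 * a) * (lam a w).re := by
  have h1 : ∀ k, -(w k).re - 2 * a - 4 * ((1 - ‖w k‖ ^ 2) * ‖yy a w k‖ ^ 2) ≤ (yy a w k).re := by
    intro k
    have hw := h.hw k
    have hn0 := norm_nonneg (w k)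
    have hd : 0 ≤ 1 - ‖w k‖ ^ 2 := by nlinarith
    have hb0 : (1 : ℂ) - a * (starRingEnd ℂ) (w k) ≠ 0 := by
      intro hc
      have h3 : ‖(a : ℂ) * (starRingEnd ℂ) (w k)‖ = 1 := by
        rw [← sub_eq_zero.mp hc, norm_one]
      rw [norm_mul, Complex.norm_real, Real.norm_of_nonneg ha.le, Complex.norm_conj] at h3
      nlinarith
    have hden : 1 / 2 ≤ ‖(1 : ℂ) - a * (starRingEnd ℂ) (w k)‖ := by
      have h3 := norm_sub_norm_le (1 : ℂ) (a * (starRingEnd ℂ) (w k))
      rw [norm_mul, Complex.norm_real, Real.norm_of_nonneg ha.le, Complex.norm_conj, norm_one] at h3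
      nlinarith
    have hne : (a : ℂ) - w k ≠ 0 := sub_ne_zero.mpr (h.hwa k).symm
    have e1 : yy a w k = -(starRingEnd ℂ) (w k)
        - a * ((starRingEnd ℂ) (w k)) ^ 2 / (1 - a * (starRingEnd ℂ) (w k))
        + ((1 - ‖w k‖ ^ 2 : ℝ) : ℂ) * (yy a w k / (1 - a * (starRingEnd ℂ) (w k))) := by
      have e2 : ((1 - ‖w k‖ ^ 2 : ℝ) : ℂ) = 1 - w k * (starRingEnd ℂ) (w k) := by
        rw [Complex.mul_conj, Complex.normSq_eq_norm_sq]
        push_cast
        ring
      rw [e2]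
      unfold yy
      field_simp
      ring
    have hb1 : ‖(a : ℂ) * ((starRingEnd ℂ) (w k)) ^ 2 / (1 - a * (starRingEnd ℂ) (w k))‖ ≤ 2 * a := by
      rw [norm_div, norm_mul, norm_pow, Complex.norm_real, Real.norm_of_nonneg ha.le,
        Complex.norm_conj, div_le_iff₀ (by linarith)]
      have : ‖w k‖ ^ 2 ≤ 1 := by nlinarith
      nlinarith
    have hy : 1 / 2 ≤ ‖yy a w k‖ := by
      unfold yy
      rw [norm_inv, ← one_div]
      have h3 : ‖(a : ℂ) - w k‖ ≤ 2 := by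
        have := norm_sub_le (a : ℂ) (w k)
        rw [Complex.norm_real, Real.norm_of_nonneg ha.le] at this
        linarith
      exact one_div_le_one_div_of_le (norm_pos_iff.mpr hne) h3
    have hb2 : ‖((1 - ‖w k‖ ^ 2 : ℝ) : ℂ) * (yy a w k / (1 - a * (starRingEnd ℂ) (w k)))‖ ≤
        4 * ((1 - ‖w k‖ ^ 2) * ‖yy a w k‖ ^ 2) := by
      rw [norm_mul, norm_div, Complex.norm_real, Real.norm_of_nonneg hd]
      have h4 : ‖yy a w k‖ / ‖(1 : ℂ) - a * (starRingEnd ℂ) (w k)‖ ≤ 4 * ‖yy a w k‖ ^ 2 := by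
        rw [div_le_iff₀ (by linarith)]
        have h5 : ‖yy a w k‖ ^ 2 * (1 / 2) ≤
            ‖yy a w k‖ ^ 2 * ‖(1 : ℂ) - a * (starRingEnd ℂ) (w k)‖ := by gcongr
        nlinarith
      calc _ ≤ (1 - ‖w k‖ ^ 2) * (4 * ‖yy a w k‖ ^ 2) := by gcongr
        _ = _ := by ring
    have hr1 := Complex.abs_re_le_norm
      ((a : ℂ) * ((starRingEnd ℂ) (w k)) ^ 2 / (1 - a * (starRingEnd ℂ) (w k)))
    have hr2 := Complex.abs_re_le_norm
      (((1 - ‖w k‖ ^ 2 : ℝ) : ℂ) * (yy a w k / (1 - a * (starRingEnd ℂ) (w k))))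
    rw [abs_le] at hr1 hr2
    have e3 := congrArg Complex.re e1
    rw [Complex.add_re, Complex.sub_re, Complex.neg_re, Complex.conj_re] at e3
    linarith
  have h2 := Finset.sum_le_sum (fun k (_ : k ∈ (Finset.univ : Finset (Fin N))) => h1 k)
  rw [Finset.sum_sub_distrib, Finset.sum_sub_distrib] at h2
  have h3 : (lam a w).re = ∑ k, (yy a w k).re := by
    unfold lam
    rw [Complex.re_sum]
  have h5 : ∑ k, 4 * ((1 - ‖w k‖ ^ 2) * ‖yy a w k‖ ^ 2) =
      4 * ∑ k, (1 - ‖w k‖ ^ 2) * ‖yy a w k‖ ^ 2 := by rw [← Finset.mul_sum]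
  rw [← h3, h5] at h2
  have h4 := h.EE_le ha (by linarith)
  unfold EE at h4
  simp only [Finset.sum_neg_distrib, Finset.sum_const, Finset.card_univ, Fintype.card_fin,
    nsmul_eq_mul] at h2
  unfold WW
  linarith

/-- Step 3: contradiction once `WW` is large -/
lemma CE.step3 (h : CE a N z w) (ha : 0 < a) (ha1 : a ≤ 1 / 40) (hN : 0 < N)
    (h1 : 5 * a * N ≤ WW w) (h2 : 8 ≤ a * WW w) (h3 : 200 * N ≤ WW w ^ 2) : False := by
  have hNpos : (0 : ℝ) < N := by exact_mod_cast hN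
  have hW : 0 < WW w := by
    by_contra hc
    push Not at hc
    nlinarith
  have hs2 := h.step2 ha (by linarith)
  have hl : WW w / 2 ≤ (lam a w).re := by
    have hlpos : 0 ≤ (lam a w).re := le_trans (by positivity) (h.re_lam ha (by linarith))
    nlinarith
  obtain ⟨μ, hμ⟩ : ∃ μ : ℝ, μ = WW w / 4 := ⟨_, rfl⟩
  have hμ0 : 0 < μ := by rw [hμ]; positivity
  have hexp : ∀ s : ℝ, 0 ≤ s → s ≤ a →
      -2 * s * (lam a w).re + s ^ 2 * II a w ≤ 2 * (-(μ * s)) := by
    intro s hs hsa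
    have e1 : s * (WW w / 2) ≤ s * (lam a w).re := by gcongr
    have e2 : s ^ 2 * II a w ≤ s ^ 2 * N := by
      gcongr
      exact h.II_le
    have e3 : s ^ 2 * N ≤ s * (a * N) := by
      have : s * s ≤ s * a := by gcongr
      nlinarith
    have e4 : s * (5 * a * N) ≤ s * WW w := by gcongr
    rw [hμ]
    nlinarith
  set B : ℝ → ℝ := fun s => 2 * N * ((1 / μ ^ 2) * (1 - (1 + μ * s) * Real.exp (-(μ * s)))) with hB
  set B' : ℝ → ℝ := fun s => 2 * N * (s * Real.exp (-(μ * s))) with hB'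
  have key := h.psi_bound hN (s₁ := a) ha.le (B := B) (B' := B') ?_ ?_ ?_
  · have k1 : ‖Y a w a‖ ≤ 1 / 7 := by
      refine le_trans (Y_le_of (t := -(μ * a)) (hexp a ha.le le_rfl)) ?_
      refine le_trans (Real.exp_le_exp.mpr ?_) exp_neg_two
      rw [hμ]
      linarith
    have k2 : B a ≤ 4 / 25 := by
      rw [hB]
      have h5 : (1 / μ ^ 2) * (1 - (1 + μ * a) * Real.exp (-(μ * a))) ≤ 1 / μ ^ 2 := by
        have h4 : 0 ≤ (1 + μ * a) * Real.exp (-(μ * a)) := by positivity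
        have h5 : 0 ≤ 1 / μ ^ 2 := by positivity
        nlinarith
      have h6 : 2 * N * (1 / μ ^ 2) ≤ 4 / 25 := by
        rw [hμ, mul_one_div, div_le_div_iff₀ (by positivity) (by norm_num)]
        nlinarith
      have h7 : 2 * N * ((1 / μ ^ 2) * (1 - (1 + μ * a) * Real.exp (-(μ * a)))) ≤
          2 * N * (1 / μ ^ 2) := by gcongr
      simp only
      linarith
    have k3 : ‖lam a w * ff a z w a - 1‖ ≤ 1 / 2 := by linarith
    have k4 : 1 / 2 ≤ ‖lam a w‖ * ‖ff a z w a‖ := by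
      rw [← norm_mul]
      have := norm_sub_norm_le (1 : ℂ) (1 - lam a w * ff a z w a)
      have e : (1 : ℂ) - (1 - lam a w * ff a z w a) = lam a w * ff a z w a := by ring
      rw [e, norm_one, norm_sub_rev] at this
      linarith
    have k5 : 1 / 2 ≤ N * ‖ff a z w a‖ := by
      have := h.norm_lam
      have h6 := norm_nonneg (ff a z w a)
      nlinarith
    have k6 : ‖ff a z w a‖ = ‖pp a z 0‖ / A a w := by
      unfold ff A
      rw [norm_div, norm_neg, sub_self]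
    have hA := h.A_ge
    have hA0 := h.A_pos
    have k7 : ‖pp a z 0‖ ≤ a := by
      unfold pp
      rw [norm_mul, norm_prod]
      have e1 : ‖(0 : ℂ) - a‖ = a := by
        rw [zero_sub, norm_neg, Complex.norm_real, Real.norm_of_nonneg ha.le]
      rw [e1]
      have e2 : ∏ j, ‖(0 : ℂ) - z j‖ ≤ 1 := by
        apply Finset.prod_le_one (fun j _ => norm_nonneg _)
        intro j _
        rw [zero_sub, norm_neg]
        exact h.hz j
      nlinarith
    rw [k6] at k5
    have k8 : N * (‖pp a z 0‖ / A a w) ≤ ‖pp a z 0‖ := by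
      rw [mul_div_assoc', div_le_iff₀ hA0]
      have := norm_nonneg (pp a z 0)
      nlinarith
    linarith
  · rw [hB]
    simp
  · intro s
    rw [hB, hB']
    have e1 : HasDerivAt (fun s : ℝ => Real.exp (-(μ * s))) (Real.exp (-(μ * s)) * (-(μ * 1))) s :=
      (((hasDerivAt_id s).const_mul μ).neg).exp
    have e2 : HasDerivAt (fun s : ℝ => (1 + μ * s)) (μ * 1) s :=
      ((hasDerivAt_id s).const_mul μ).const_add 1
    have e3 := ((e2.mul e1).const_sub 1).const_mul (1 / μ ^ 2)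
    have e6 := e3.const_mul (2 * (N : ℝ))
    refine e6.congr_deriv ?_
    field_simp
    ring
  · intro s hs k
    have hs0 : 0 ≤ s := hs.1
    have h2 : ‖PP a w k s‖ ≤ 2 * Real.exp (-(μ * s)) :=
      PP_le_of (hexp s hs0 hs.2.le)
    rw [hB']
    simp only
    calc s * N * ‖PP a w k s‖ ≤ s * N * (2 * Real.exp (-(μ * s))) := by gcongr
      _ = _ := by ring

lemma CE.A_eq_q (h : CE a N z w) : A a w = ‖q z (a : ℂ)‖ := by
  have h1 : DifferentiableAt ℂ (fun ζ : ℂ => ∏ j, (ζ - z j)) (a : ℂ) := by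
    apply DifferentiableAt.fun_finsetProd
    intro i _
    fun_prop
  have h2 : HasDerivAt (fun ζ : ℂ => (ζ - a)) 1 (a : ℂ) := (hasDerivAt_id _).sub_const _
  have h3 := (h2.mul h1.hasDerivAt).unique (h.hd a)
  unfold A
  rw [← h3]
  unfold q
  simp

/-- Step 4: the theorem for small `a > 0` -/
theorem small_a : ∃ a₀ : ℝ, 0 < a₀ ∧ ∀ᶠ N : ℕ in atTop, ∀ a : ℝ, 0 ≤ a → a ≤ a₀ →
    ∀ z w : Fin N → ℂ, ¬ CE a N z w := by
  refine ⟨Real.exp (-84), Real.exp_pos _, ?_⟩
  have e1 : ∀ᶠ N : ℕ in atTop, Real.exp 1410 ≤ (N : ℝ) :=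
    tendsto_natCast_atTop_atTop.eventually (eventually_ge_atTop _)
  filter_upwards [e1, eventually_gt_atTop 0] with N hNbig hN a ha ha2 z w h
  have hNpos : (0 : ℝ) < N := by exact_mod_cast hN
  have hAq := h.A_eq_q
  have hA := h.A_ge
  rcases ha.eq_or_lt with ha0 | ha0
  · -- a = 0
    rw [← ha0] at hAq hA h
    have : ‖q z ((0 : ℝ) : ℂ)‖ ≤ 1 := by
      unfold q
      rw [norm_prod]
      apply Finset.prod_le_one (fun j _ => norm_nonneg _)
      intro j _
      rw [Complex.ofReal_zero, zero_sub, norm_neg]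
      exact h.hz j
    linarith
  have ha3 : a ≤ 1 / 40 := by
    refine ha2.trans ?_
    have h1 : Real.exp (-84) ≤ Real.exp (-4) := Real.exp_le_exp.mpr (by norm_num)
    have h2 := exp_neg_four
    linarith
  by_cases hc : 256 ≤ N * a ^ 2
  · -- plateau case
    have h1 := h.plateau ha0 (by linarith) hc
    obtain ⟨t, ht⟩ : ∃ t : ℝ, t = 16 / (N * a) := ⟨_, rfl⟩
    rw [← ht] at h1
    have ht0 : 0 < t := by rw [ht]; positivity
    have hNat : N * a * t = 16 := by rw [ht]; field_simp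
    have hta : t ≤ a / 16 := by
      rw [ht, div_le_iff₀ (by positivity)]
      nlinarith
    have k4 : 1 / 2 ≤ ‖lam a w‖ * ‖ff a z w (a - t)‖ := by
      rw [← norm_mul]
      have := norm_sub_norm_le (1 : ℂ) (1 - lam a w * ff a z w (a - t))
      have e : (1 : ℂ) - (1 - lam a w * ff a z w (a - t)) = lam a w * ff a z w (a - t) := by ring
      rw [e, norm_one, norm_sub_rev] at this
      linarith
    have k5 : 1 / 2 ≤ N * ‖ff a z w (a - t)‖ := by
      have := h.norm_lam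
      have h6 := norm_nonneg (ff a z w (a - t))
      nlinarith
    have k6 : ‖ff a z w (a - t)‖ = ‖pp a z (t : ℂ)‖ / A a w := by
      unfold ff A
      rw [norm_div, norm_neg]
      congr 3
      push_cast
      ring
    have hA0 := h.A_pos
    have k8 : 1 / 2 ≤ ‖pp a z (t : ℂ)‖ := by
      rw [k6, mul_div_assoc', le_div_iff₀ hA0] at k5
      have := norm_nonneg (pp a z (t : ℂ))
      nlinarith
    rw [norm_q, abs_of_neg (by linarith)] at k8
    have hq0 : 0 < ‖q z (t : ℂ)‖ := by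
      by_contra hc
      push Not at hc
      have h0 : ‖q z (t : ℂ)‖ = 0 := le_antisymm hc (norm_nonneg _)
      rw [h0] at k8
      norm_num at k8
    have k9 : 1 / (2 * a) ≤ ‖q z (t : ℂ)‖ := by
      rw [div_le_iff₀ (by positivity)]
      nlinarith
    have k10 : 83 ≤ Real.log ‖q z (t : ℂ)‖ := by
      have h2 : 83 ≤ Real.log (1 / (2 * a)) := by
        rw [Real.le_log_iff_exp_le (by positivity), le_div_iff₀ (by positivity)]
        have h3 : Real.exp 83 * (2 * a) ≤ Real.exp 83 * (2 * Real.exp (-84)) := by gcongr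
        have h4 : Real.exp 83 * (2 * Real.exp (-84)) = 2 * Real.exp (-1) := by
          have : Real.exp 83 * Real.exp (-84) = Real.exp (-1) := by
            rw [← Real.exp_add]; norm_num
          linarith
        have h5 : Real.exp (-1) ≤ 1 / 2 := by
          rw [Real.exp_neg, one_div]
          apply inv_anti₀ (by norm_num)
          have := Real.exp_one_gt_d9
          linarith
        linarith
      exact h2.trans (Real.log_le_log (by positivity) k9)
    have k11 := h.step1 ha0 (by linarith) ht0 (by linarith) hq0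
    -- 83 ≤ t W + N t^2/2 + 3 t
    have k12 : N * t ^ 2 ≤ 1 := by
      have : N * t ^ 2 = 256 / (N * a ^ 2) := by
        rw [ht]; field_simp; norm_num
      rw [this, div_le_one (by positivity)]
      exact hc
    have k13 : 80 ≤ t * WW w := by linarith
    have k14 : 5 * a * N ≤ WW w := by
      have : (t * WW w) * (N * a) = 16 * WW w := by linear_combination WW w * hNat
      have h80 : 80 * (N * a) ≤ (t * WW w) * (N * a) := by gcongr
      linarith
    apply h.step3 ha0 ha3 hN k14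
    · nlinarith
    · have h5 : (5 * a * N) ^ 2 ≤ WW w ^ 2 := by gcongr
      have h6 : 200 * (N : ℝ) ≤ (5 * a * N) ^ 2 := by nlinarith
      linarith
  · push Not at hc
    have hq0 : 0 < ‖q z (a : ℂ)‖ := by rw [← hAq]; exact h.A_pos
    have k11 := h.step1 ha0 (by linarith) ha0 (by linarith) hq0
    rw [← hAq] at k11
    have k12 : 1410 ≤ Real.log (A a w) := by
      rw [Real.le_log_iff_exp_le h.A_pos]
      linarith
    have k13 : 1280 ≤ a * WW w := by linarith
    have hW : 0 < WW w := by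
      by_contra hc'
      push Not at hc'
      nlinarith
    apply h.step3 ha0 ha3 hN
    · have h5 : a * (5 * a * N) ≤ a * WW w := by nlinarith
      exact le_of_mul_le_mul_left h5 ha0
    · linarith
    · have h6 : (1280 : ℝ) ^ 2 ≤ (a * WW w) ^ 2 := by gcongr
      have h7 : a ^ 2 * (200 * N) ≤ a ^ 2 * WW w ^ 2 := by nlinarith
      exact le_of_mul_le_mul_left h7 (by positivity)

end Pool.Agent.H218R3.Sd
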