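import Pool.Agent.H218R3.Nr3
import Pool.Agent.H218R3.Nr1
import Pool.Agent.H218R3.Sm2

set_option autoImplicit false
set_option linter.unusedVariables false

open Complex Filter Topology

namespace Pool.Agent.H218R3.Sd

variable {a : ℝ} {N : ℕ} {z w : Fin N → ℂ}

lemma CE.qa_ne (h : CE a N z w) : q z (a : ℂ) ≠ 0 := by
  have h1 := h.A_eq_q
  have h2 := h.A_pos
  rw [h1] at h2
  exact norm_pos_iff.mp h2

lemma CE.za_ne (h : CE a N z w) (j : Fin N) : (a : ℂ) - z j ≠ 0 := by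
  have h1 := h.qa_ne
  unfold q at h1
  rw [Finset.prod_ne_zero_iff] at h1
  exact h1 j (Finset.mem_univ j)

/-- `λ = 2 Σ x_j` -/
lemma CE.lam_x (h : CE a N z w) : lam a w = 2 * ∑ j, ((a : ℂ) - z j)⁻¹ := by
  set Q : ℂ → ℂ := fun ζ => ∏ j, (ζ - z j) with hQ
  set Q' : ℂ → ℂ := fun ζ => ∑ i, ∏ j ∈ Finset.univ.erase i, (ζ - z j) with hQ'
  have hQd : ∀ ζ, HasDerivAt Q (Q' ζ) ζ := by
    intro ζ
    have := HasDerivAt.fun_finsetProd (u := (Finset.univ : Finset (Fin N)))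
      (f := fun j ζ => ζ - z j) (f' := fun _ => (1 : ℂ)) (x := ζ)
      (fun i _ => (hasDerivAt_id ζ).sub_const (z i))
    simpa using this
  have hdp : ∀ ζ, dp w ζ = Q ζ + (ζ - a) * Q' ζ := by
    intro ζ
    have h2 : HasDerivAt (fun ζ : ℂ => (ζ - a)) 1 ζ := (hasDerivAt_id ζ).sub_const _
    have h3 := (h2.mul (hQd ζ)).unique (h.hd ζ)
    rw [← h3]
    ring
  have hQ'd : DifferentiableAt ℂ Q' (a : ℂ) := by
    rw [hQ']
    fun_prop
  have h1 : HasDerivAt (fun ζ => Q ζ + (ζ - a) * Q' ζ)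
      (Q' a + (1 * Q' a + ((a : ℂ) - a) * deriv Q' a)) (a : ℂ) :=
    (hQd a).add (((hasDerivAt_id (a : ℂ)).sub_const (a : ℂ)).mul hQ'd.hasDerivAt)
  have h2 : HasDerivAt (dp w) (∑ k, (N + 1 : ℂ) * ∏ l ∈ Finset.univ.erase k, ((a : ℂ) - w l))
      (a : ℂ) := by
    have := HasDerivAt.fun_finsetProd (u := (Finset.univ : Finset (Fin N)))
      (f := fun j ζ => ζ - w j) (f' := fun _ => (1 : ℂ)) (x := (a : ℂ))
      (fun i _ => (hasDerivAt_id (a : ℂ)).sub_const (w i))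
    have h3 := this.const_mul (N + 1 : ℂ)
    rw [← Finset.mul_sum]
    simp only [smul_eq_mul, mul_one] at h3
    exact h3
  have hfun : dp w = fun ζ => Q ζ + (ζ - a) * Q' ζ := funext hdp
  rw [hfun] at h2
  have h3 := h2.unique h1
  have hqa : Q a ≠ 0 := h.qa_ne
  have h4 : Q' a = Q a * ∑ j, ((a : ℂ) - z j)⁻¹ := by
    rw [hQ', hQ, Finset.mul_sum]
    apply Finset.sum_congr rfl
    intro i _
    have hi := h.za_ne i
    show ∏ j ∈ Finset.univ.erase i, ((a : ℂ) - z j) = (∏ j, ((a : ℂ) - z j)) * ((a : ℂ) - z i)⁻¹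
    rw [← Finset.mul_prod_erase Finset.univ (fun j => (a : ℂ) - z j) (Finset.mem_univ i)]
    field_simp
  have h5 : ∑ k, (N + 1 : ℂ) * ∏ l ∈ Finset.univ.erase k, ((a : ℂ) - w l) =
      dp w a * lam a w := by
    unfold lam dp yy
    rw [Finset.mul_sum]
    apply Finset.sum_congr rfl
    intro k _
    have hk : (a : ℂ) - w k ≠ 0 := sub_ne_zero.mpr (h.hwa k).symm
    rw [← Finset.mul_prod_erase Finset.univ (fun j => (a : ℂ) - w j) (Finset.mem_univ k)]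
    field_simp
  have h6 : dp w (a : ℂ) = Q a := by
    rw [hdp]; ring
  rw [h5, h6, h4] at h3
  have h7 : Q a * lam a w = Q a * (2 * ∑ j, ((a : ℂ) - z j)⁻¹) := by
    rw [h3]; ring
  exact mul_left_cancel₀ hqa h7

/-- zeros are not too close to `a` -/
lemma CE.x_bound (h : CE a N z w) (hN : 0 < N) (j : Fin N) : ‖((a : ℂ) - z j)⁻¹‖ ≤ 2 * N := by
  have hNpos : (0 : ℝ) < N := by exact_mod_cast hN
  by_contra hc
  push Not at hc
  obtain ⟨s₀, hs₀⟩ : ∃ s₀ : ℂ, s₀ = (a : ℂ) - z j := ⟨_, rfl⟩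
  have hne : s₀ ≠ 0 := by rw [hs₀]; exact h.za_ne j
  have hpos : 0 < ‖s₀‖ := norm_pos_iff.mpr hne
  rw [← hs₀, norm_inv] at hc
  have hlt : ‖s₀‖ < 1 / (2 * N) := by
    rw [lt_div_iff₀ (by positivity)]
    have := mul_lt_mul_of_pos_left hc hpos
    rw [mul_inv_cancel₀ hpos.ne'] at this
    linarith
  have hF : Fc a z w s₀ = 0 := by
    unfold Fc pp
    rw [hs₀, sub_sub_cancel, Finset.prod_eq_zero (Finset.mem_univ j) (sub_self _)]
    simp
  have hF0 : Fc a z w 0 = 0 := by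
    unfold Fc
    rw [sub_zero, pp_self, zero_div]
  have hb : ∀ s ∈ Metric.ball (0 : ℂ) (1 / (2 * N)), ‖Yc a w s - 1‖ ≤ Real.exp (1 / 2) - 1 := by
    intro s hs
    rw [mem_ball_zero_iff] at hs
    have h1 := Finset.norm_prod_one_add_sub_one_le (Finset.univ : Finset (Fin N))
      (fun k => -(s * yy a w k))
    have h2 : ∏ k, (1 + -(s * yy a w k)) = Yc a w s := by
      unfold Yc
      apply Finset.prod_congr rfl
      intro k _
      ring
    rw [h2] at h1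
    refine h1.trans ?_
    have h3 : ∑ k, ‖-(s * yy a w k)‖ ≤ 1 / 2 := by
      have h4 : ∑ k, ‖-(s * yy a w k)‖ = ‖s‖ * ∑ k, ‖yy a w k‖ := by
        rw [Finset.mul_sum]
        apply Finset.sum_congr rfl
        intro k _
        rw [norm_neg, norm_mul]
      rw [h4]
      calc ‖s‖ * ∑ k, ‖yy a w k‖ ≤ (1 / (2 * N)) * N := by
            gcongr
            exact h.sum_norm_yy
        _ = 1 / 2 := by field_simp
    have := Real.exp_le_exp.mpr h3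
    linarith
  have hder : ∀ s ∈ Metric.ball (0 : ℂ) (1 / (2 * N)),
      HasDerivWithinAt (fun s => Fc a z w s - s) (Yc a w s - 1)
        (Metric.ball (0 : ℂ) (1 / (2 * N))) s := by
    intro s _
    exact ((h.Fc_deriv s).sub (hasDerivAt_id s)).hasDerivWithinAt
  have h1 := (convex_ball (0 : ℂ) (1 / (2 * N))).norm_image_sub_le_of_norm_hasDerivWithin_le
    hder hb (Metric.mem_ball_self (by positivity)) (mem_ball_zero_iff.mpr hlt)
  rw [hF, hF0] at h1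
  simp only [zero_sub, sub_zero, norm_neg] at h1
  have h2 : Real.exp (1 / 2) - 1 < 1 := by
    have h3 : Real.exp (1 / 2) ^ 2 = Real.exp 1 := by
      rw [← Real.exp_nat_mul]; norm_num
    have h4 := Real.exp_one_lt_d9
    have h5 := Real.exp_pos (1 / 2)
    nlinarith
  nlinarith

lemma re_inv_lower {u : ℂ} (hu : ‖u‖ ≤ 1) (hne : (a : ℂ) - u ≠ 0) :
    1 - (1 - a ^ 2) * ‖((a : ℂ) - u)⁻¹‖ ^ 2 ≤ 2 * a * (((a : ℂ) - u)⁻¹).re := by
  have hn : 0 < ‖(a : ℂ) - u‖ := norm_pos_iff.mpr hne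
  have hu2 : u.re ^ 2 + u.im ^ 2 ≤ 1 := by
    have : ‖u‖ ^ 2 ≤ 1 := by
      have := norm_nonneg u
      nlinarith
    rw [Complex.sq_norm, Complex.normSq_apply] at this
    nlinarith
  have e2 : ‖(a : ℂ) - u‖ ^ 2 = (a - u.re) ^ 2 + u.im ^ 2 := by
    rw [Complex.sq_norm, Complex.normSq_apply]
    simp only [Complex.sub_re, Complex.sub_im, Complex.ofReal_re, Complex.ofReal_im]
    ring
  have e3 : (((a : ℂ) - u)⁻¹).re = (a - u.re) * (‖(a : ℂ) - u‖ ^ 2)⁻¹ := by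
    rw [Complex.inv_re, ← Complex.sq_norm]
    simp [div_eq_mul_inv]
  rw [e3, norm_inv, inv_pow]
  have h2 : ‖(a : ℂ) - u‖ ^ 2 * (‖(a : ℂ) - u‖ ^ 2)⁻¹ = 1 := mul_inv_cancel₀ (by positivity)
  have h3 : 0 ≤ (‖(a : ℂ) - u‖ ^ 2)⁻¹ := by positivity
  set s := (‖(a : ℂ) - u‖ ^ 2)⁻¹
  rw [e2] at h2
  nlinarith

/-- Step N4 -/
lemma CE.stepN4 (h : CE a N z w) (hN : 0 < N) (ha : 0 < a) (ha1 : a ≤ 1) :
    N - 8 * N ^ 3 * (1 - a) ≤ (lam a w).re := by
  have hNpos : (0 : ℝ) < N := by exact_mod_cast hN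
  have h1 : ∀ j, 1 - (1 - a ^ 2) * (2 * N) ^ 2 ≤ 2 * a * (((a : ℂ) - z j)⁻¹).re := by
    intro j
    refine le_trans ?_ (re_inv_lower (h.hz j) (h.za_ne j))
    have h2 := h.x_bound hN j
    have h3 : 0 ≤ 1 - a ^ 2 := by nlinarith
    have h4 : ‖((a : ℂ) - z j)⁻¹‖ ^ 2 ≤ (2 * N) ^ 2 := by gcongr
    have := mul_le_mul_of_nonneg_left h4 h3
    linarith
  have h2 := Finset.sum_le_sum (fun j (_ : j ∈ (Finset.univ : Finset (Fin N))) => h1 j)
  rw [← Finset.mul_sum, ← Complex.re_sum] at h2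
  simp only [Finset.sum_const, Finset.card_univ, Fintype.card_fin, nsmul_eq_mul] at h2
  have h3 : (lam a w).re = 2 * (∑ j, ((a : ℂ) - z j)⁻¹).re := by
    rw [h.lam_x]
    simp
  have h4 : N * (1 - (1 - a ^ 2) * (2 * N) ^ 2) ≤ a * (lam a w).re := by
    rw [h3]; linarith
  have hlpos : 0 ≤ (lam a w).re := le_trans (by positivity) (h.re_lam ha ha1)
  have h5 : a * (lam a w).re ≤ 1 * (lam a w).re := by gcongr
  have h6 : (1 - a ^ 2) ≤ 2 * (1 - a) := by nlinarith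
  have h7 : 0 ≤ 4 * (N : ℝ) ^ 3 := by positivity
  have h8 := mul_le_mul_of_nonneg_left h6 h7
  nlinarith

/-- the theorem for `a` near `1`, `a < 1` -/
theorem near_one : ∀ᶠ N : ℕ in atTop, ∀ a : ℝ, 1 - 1 / 2000 ≤ a → a < 1 →
    ∀ z w : Fin N → ℂ, ¬ CE a N z w := by
  have t0 := tau_small (δ := 1 / 1000) (by norm_num) (by norm_num)
  -- size conditions
  have t1 : ∀ᶠ N : ℕ in atTop,
      32 / ((N : ℝ) - 1) ^ 2 + 16 * (1 / 2 : ℝ) ^ (N - 1) ≤ 1 / (8 * N) := by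
    have hA : Tendsto (fun n : ℕ => (n : ℝ) ^ 1 * (1 / 2 : ℝ) ^ n) atTop (𝓝 0) :=
      tendsto_pow_const_mul_const_pow_of_lt_one 1 (by norm_num) (by norm_num)
    have hA' := hA.eventually (gt_mem_nhds (show (0 : ℝ) < 1 / 512 by norm_num))
    filter_upwards [hA', eventually_ge_atTop 2000] with N h1 h2
    have hN2 : (2000 : ℝ) ≤ N := by exact_mod_cast h2
    have hNpos : (0 : ℝ) < N := by linarith
    have h3 : (1 / 2 : ℝ) ^ (N - 1) = 2 * (1 / 2 : ℝ) ^ N := by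
      obtain ⟨m, rfl⟩ : ∃ m, N = m + 1 := ⟨N - 1, by omega⟩
      rw [Nat.add_sub_cancel, pow_succ]
      ring
    rw [pow_one] at h1
    have h4 : 16 * (1 / 2 : ℝ) ^ (N - 1) ≤ 1 / (16 * N) := by
      rw [h3, le_div_iff₀ (by positivity)]
      nlinarith
    have h5 : 32 / ((N : ℝ) - 1) ^ 2 ≤ 1 / (16 * N) := by
      rw [div_le_div_iff₀ (by have : (0 : ℝ) < (N - 1) := by linarith
                              positivity) (by positivity)]
      nlinarith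
    have h6 : 1 / (8 * (N : ℝ)) = 1 / (16 * N) + 1 / (16 * N) := by
      field_simp
      norm_num
    linarith
  have t2 : ∀ᶠ N : ℕ in atTop, 17 * (N : ℝ) ^ 2 * (1 / 20 : ℝ) ^ (N - 2) < 1 := by
    have hA : Tendsto (fun n : ℕ => (n : ℝ) ^ 2 * (1 / 20 : ℝ) ^ n) atTop (𝓝 0) :=
      tendsto_pow_const_mul_const_pow_of_lt_one 2 (by norm_num) (by norm_num)
    have hA' := hA.eventually (gt_mem_nhds (show (0 : ℝ) < 1 / 8000 by norm_num))
    filter_upwards [hA', eventually_ge_atTop 2] with N h1 h2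
    have h3 : (1 / 20 : ℝ) ^ (N - 2) = 400 * (1 / 20 : ℝ) ^ N := by
      obtain ⟨m, rfl⟩ : ∃ m, N = m + 2 := ⟨N - 2, by omega⟩
      rw [Nat.add_sub_cancel, pow_add]
      norm_num
      ring
    rw [h3]
    nlinarith
  filter_upwards [t0, t1, t2, eventually_ge_atTop 3] with N h0 h1 h2 h3 a ha ha1 z w h
  have hN0 : 0 < N := by omega
  have hNpos : (0 : ℝ) < N := by exact_mod_cast hN0
  have hN1 : (1 : ℝ) ≤ N := by exact_mod_cast hN0
  have hτ := h0 a (by linarith) ha1.le z w h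
  have hX : 1 - a ≤ ‖Yc a w (a : ℂ)‖ :=
    h.stepN3 (by omega) (by linarith) ha1.le (by linarith) h1
  have hX0 : 0 < 1 - a := by linarith
  -- stage 1
  have s1 := h.Y_at hN0 (by linarith) ha1.le (τ := 1 / 1000) (by norm_num) (by linarith)
  obtain ⟨X, hXdef⟩ : ∃ X : ℝ, X = 1 - a := ⟨_, rfl⟩
  rw [← hXdef] at hX hX0 s1
  have s2 : X ^ 2 ≤ ((1 / 20 : ℝ) ^ N) ^ 2 := by
    calc X ^ 2 ≤ ‖Yc a w (a : ℂ)‖ ^ 2 := by gcongr
      _ ≤ (X ^ 2 + 2 * (1 / 1000)) ^ N := s1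
      _ ≤ ((1 / 20 : ℝ) ^ 2) ^ N := by
          gcongr
          have : X ≤ 1 / 2000 := by linarith
          nlinarith
      _ = ((1 / 20 : ℝ) ^ N) ^ 2 := by rw [← pow_mul, ← pow_mul, mul_comm]
  have s3 : X ≤ (1 / 20 : ℝ) ^ N :=
    (pow_le_pow_iff_left₀ hX0.le (by positivity) two_ne_zero).mp s2
  -- stage 2
  have s4 := h.stepN4 hN0 (by linarith) ha1.le
  rw [← hXdef] at s4
  have s5 := h.Y_at hN0 (by linarith) ha1.le (τ := 8 * N ^ 2 * X) (by positivity) (by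
    refine le_trans (le_of_eq ?_) s4
    ring)
  rw [← hXdef] at s5
  have hXle1 : X ≤ 1 := by linarith
  have s6 : X ^ 2 ≤ (17 * N ^ 2 * X) ^ N := by
    calc X ^ 2 ≤ ‖Yc a w (a : ℂ)‖ ^ 2 := by gcongr
      _ ≤ (X ^ 2 + 2 * (8 * N ^ 2 * X)) ^ N := s5
      _ ≤ (17 * N ^ 2 * X) ^ N := by
          gcongr
          have : X ^ 2 ≤ N ^ 2 * X := by
            have h4 : (1 : ℝ) ≤ (N : ℝ) ^ 2 := one_le_pow₀ hN1
            nlinarith
          linarith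
  have s7 : (17 * N ^ 2 * X) ^ N = X ^ 2 * ((17 * (N : ℝ) ^ 2) ^ N * X ^ (N - 2)) := by
    have h4 : X ^ N = X ^ 2 * X ^ (N - 2) := by
      rw [← pow_add]; congr 1; omega
    rw [mul_pow, h4]
    ring
  rw [s7] at s6
  have s8 : 1 ≤ (17 * (N : ℝ) ^ 2) ^ N * X ^ (N - 2) := by
    have h4 : X ^ 2 * 1 ≤ X ^ 2 * ((17 * (N : ℝ) ^ 2) ^ N * X ^ (N - 2)) := by linarith
    exact le_of_mul_le_mul_left h4 (by positivity)
  have s9 : (17 * (N : ℝ) ^ 2) ^ N * X ^ (N - 2) ≤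
      (17 * (N : ℝ) ^ 2 * (1 / 20 : ℝ) ^ (N - 2)) ^ N := by
    rw [mul_pow (17 * (N : ℝ) ^ 2)]
    gcongr
    calc X ^ (N - 2) ≤ ((1 / 20 : ℝ) ^ N) ^ (N - 2) := by gcongr
      _ = ((1 / 20 : ℝ) ^ (N - 2)) ^ N := by rw [← pow_mul, ← pow_mul, mul_comm]
  have s10 : (17 * (N : ℝ) ^ 2 * (1 / 20 : ℝ) ^ (N - 2)) ^ N < 1 :=
    pow_lt_one₀ (by positivity) h2 hN0.ne'
  linarith

/-- the case `a = 1` -/
theorem at_one (h : CE 1 N z w) (hN : 0 < N) : (N : ℝ) ≤ II 1 w := by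
  have hNpos : (0 : ℝ) < N := by exact_mod_cast hN
  have h1 := h.stepN4 hN one_pos le_rfl
  have h2 : ‖lam 1 w‖ ≤ (N + II 1 w) / 2 := by
    refine (norm_sum_le _ _).trans ?_
    have h3 : ∑ k, ‖yy 1 w k‖ ≤ ∑ k, ((1 + ‖yy 1 w k‖ ^ 2) / 2) := by
      apply Finset.sum_le_sum
      intro k _
      nlinarith [sq_nonneg (‖yy 1 w k‖ - 1)]
    rw [← Finset.sum_div, Finset.sum_add_distrib] at h3
    simp only [Finset.sum_const, Finset.card_univ, Fintype.card_fin, nsmul_eq_mul, mul_one] at h3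
    exact h3
  have h3 := Complex.re_le_norm (lam 1 w)
  linarith

/-- everything below `1` -/
theorem below_one : ∀ᶠ N : ℕ in atTop, ∀ a : ℝ, 0 ≤ a → a < 1 →
    ∀ z w : Fin N → ℂ, ¬ CE a N z w := by
  obtain ⟨a₀, ha₀, hsmall⟩ := small_a
  obtain ⟨ε, hε⟩ : ∃ ε : ℝ, ε = min a₀ (1 / 2000) := ⟨_, rfl⟩
  have hε0 : 0 < ε := by rw [hε]; exact lt_min ha₀ (by norm_num)
  have hε1 : ε ≤ 1 := by rw [hε]; exact (min_le_right _ _).trans (by norm_num)
  filter_upwards [hsmall, near_one, final hε0 hε1] with N h1 h2 h3 a ha ha1 z w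
  rcases le_total a ε with h4 | h4
  · exact h1 a ha (h4.trans (by rw [hε]; exact min_le_left _ _)) z w
  · rcases le_total a (1 - ε) with h5 | h5
    · exact h3 a ⟨h4, h5⟩ z w
    · refine h2 a ?_ ha1 z w
      have : ε ≤ 1 / 2000 := by rw [hε]; exact min_le_right _ _
      linarith

end Pool.Agent.H218R3.Sd
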