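import Pool.Agent.H590R3.NucStmts

set_option autoImplicit false

/-! The Kadec-Klee type property of duals of subspaces of `c_0`. -/

namespace Pool.Agent.H218R3.Nuc

open Filter Topology Pool.Agent.H590R3.Nuc

theorem taskKK : TaskKK := by
  intro Y _ _ e he hrep α U g f c hg hgf ε hε
  choose a ha1 ha2 ha3 using fun i => hrep (g i)
  have hα : Nonempty α := by
    obtain ⟨x, _⟩ := (Filter.Eventually.exists (f := (U : Filter α)) (p := fun _ => True)
      (Filter.Eventually.of_forall fun _ => trivial))
    exact ⟨x⟩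
  have hc : 0 ≤ c := (norm_nonneg _).trans (hg hα.some)
  have hfin : ∀ i (s : Finset ℕ), ∑ n ∈ s, |a i n| ≤ c := fun i s =>
    ((ha1 i).sum_le_tsum s (fun n _ => abs_nonneg _)).trans ((ha2 i).trans (hg i))
  have hone : ∀ i n, |a i n| ≤ c := fun i n => by
    have := hfin i {n}
    rwa [Finset.sum_singleton] at this
  -- coordinatewise limits
  have hlim : ∀ n, ∃ b : ℝ, Tendsto (fun i => a i n) U (𝓝 b) := by
    intro n
    obtain ⟨b, _, hb⟩ := isCompact_Icc.ultrafilter_le_nhds (U.map (fun i => a i n)) (s := Set.Icc (-c) c)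
      (by
        rw [Filter.le_principal_iff]
        change ∀ᶠ i in (U : Filter α), a i n ∈ Set.Icc (-c) c
        refine Filter.Eventually.of_forall fun i => ?_
        exact abs_le.1 (hone i n))
    exact ⟨b, hb⟩
  choose b hb using hlim
  have hbfin : ∀ s : Finset ℕ, ∑ n ∈ s, |b n| ≤ c := by
    intro s
    have h1 : Tendsto (fun i => ∑ n ∈ s, |a i n|) U (𝓝 (∑ n ∈ s, |b n|)) :=
      tendsto_finsetSum _ fun n _ => (hb n).abs
    exact le_of_tendsto h1 (Filter.Eventually.of_forall fun i => hfin i s)
  have hbs : Summable (fun n => |b n|) := summable_of_sum_le (fun n => abs_nonneg _) hbfin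
  have hbc : ∑' n, |b n| ≤ c := hbs.tsum_le_of_sum_le hbfin
  -- representation of f
  have hby : ∀ y, Summable (fun n => b n * e n y) := by
    intro y
    refine Summable.of_norm_bounded (hbs.mul_right ‖y‖) fun n => ?_
    rw [norm_mul, Real.norm_eq_abs, Real.norm_eq_abs]
    exact mul_le_mul_of_nonneg_left (he.le n y) (abs_nonneg _)
  have hrepf : ∀ y, HasSum (fun n => b n * e n y) (f y) := by
    intro y
    have h2 : Tendsto (fun N => ∑ n ∈ Finset.range N, b n * e n y) atTop (𝓝 (f y)) := by
      rw [Metric.tendsto_atTop]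
      intro δ hδ
      obtain ⟨N, hN⟩ := (Metric.tendsto_atTop.1 (he.tendsto y)) (δ / (2 * (c + 1))) (by positivity)
      refine ⟨N, fun M hM => ?_⟩
      have h3 : ∀ i, |∑ n ∈ Finset.range M, a i n * e n y - g i y| ≤ δ / 2 := by
        intro i
        have h4 : Summable (fun n => a i n * e n y) := (ha3 i y).summable
        have h5 := h4.sum_add_tsum_nat_add M
        rw [(ha3 i y).tsum_eq] at h5
        have h6 : ∑ n ∈ Finset.range M, a i n * e n y - g i y = - ∑' n, a i (n + M) * e (n + M) y := by
          rw [← h5]; ring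
        rw [h6, abs_neg]
        have h7 : Summable (fun n => |a i (n + M)|) := (summable_nat_add_iff M).2 (ha1 i)
        have h8 : ∑' n, |a i (n + M)| ≤ c := by
          refine h7.tsum_le_of_sum_le fun s => ?_
          have := hfin i (s.map (addRightEmbedding M))
          rwa [Finset.sum_map] at this
        have h9 : ‖∑' n, a i (n + M) * e (n + M) y‖ ≤ ∑' n, |a i (n + M)| * (δ / (2 * (c + 1))) := by
          refine tsum_of_norm_bounded (h7.mul_right _).hasSum fun n => ?_
          rw [norm_mul, Real.norm_eq_abs, Real.norm_eq_abs]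
          have := hN (n + M) (by omega)
          rw [Real.dist_eq, sub_zero] at this
          exact mul_le_mul_of_nonneg_left this.le (abs_nonneg _)
        rw [Real.norm_eq_abs, tsum_mul_right] at h9
        refine h9.trans ((mul_le_mul_of_nonneg_right h8 (by positivity)).trans ?_)
        rw [← mul_div_assoc, div_le_div_iff₀ (by positivity) (by norm_num)]
        nlinarith
      have h10 : Tendsto (fun i => |∑ n ∈ Finset.range M, a i n * e n y - g i y|) U
          (𝓝 |∑ n ∈ Finset.range M, b n * e n y - f y|) := by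
        refine Tendsto.abs (Tendsto.sub ?_ (hgf y))
        exact tendsto_finsetSum _ fun n _ => (hb n).mul_const _
      have h11 := le_of_tendsto h10 (Filter.Eventually.of_forall h3)
      rw [Real.dist_eq]
      linarith
    have h6 := (hby y).hasSum.tendsto_sum_nat
    rw [tendsto_nhds_unique h2 h6]
    exact (hby y).hasSum
  have hfb : ‖f‖ ≤ ∑' n, |b n| := by
    refine ContinuousLinearMap.opNorm_le_bound _ (tsum_nonneg fun n => abs_nonneg _) fun y => ?_
    rw [← (hrepf y).tsum_eq, ← tsum_mul_right]
    refine tsum_of_norm_bounded (hbs.mul_right _).hasSum fun n => ?_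
    rw [norm_mul, Real.norm_eq_abs, Real.norm_eq_abs]
    exact mul_le_mul_of_nonneg_left (he.le n y) (abs_nonneg _)
  -- tail
  obtain ⟨N, hN⟩ := (Metric.tendsto_atTop.1 hbs.hasSum.tendsto_sum_nat) (ε / 4) (by positivity)
  have hN := hN N le_rfl
  rw [Real.dist_eq] at hN
  have hN2 : ∑' n, |b n| - ∑ n ∈ Finset.range N, |b n| < ε / 4 := by
    have := (abs_lt.1 hN).1
    linarith
  have hev : Tendsto (fun i => ∑ n ∈ Finset.range N, |a i n - b n|) U (𝓝 0) := by
    have h1 : Tendsto (fun i => ∑ n ∈ Finset.range N, |a i n - b n|) U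
        (𝓝 (∑ n ∈ Finset.range N, |b n - b n|)) :=
      tendsto_finsetSum _ fun n _ => ((hb n).sub_const _).abs
    simpa using h1
  have hev2 := hev.eventually (gt_mem_nhds (show (0 : ℝ) < ε / 4 by positivity))
  filter_upwards [hev2] with i hi
  have hds : Summable (fun n => |a i n - b n|) := by
    refine Summable.of_nonneg_of_le (fun n => abs_nonneg _) (fun n => ?_) ((ha1 i).add hbs)
    exact abs_sub _ _
  have hle : ‖g i - f‖ ≤ ∑' n, |a i n - b n| := by
    refine ContinuousLinearMap.opNorm_le_bound _ (tsum_nonneg fun n => abs_nonneg _) fun y => ?_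
    have h1 : HasSum (fun n => (a i n - b n) * e n y) ((g i - f) y) := by
      have h2 := (ha3 i y).sub (hrepf y)
      have h3 : (fun n => (a i n - b n) * e n y) = fun n => a i n * e n y - b n * e n y := by
        funext n; ring
      rw [h3]
      exact h2
    rw [← h1.tsum_eq, ← tsum_mul_right]
    refine tsum_of_norm_bounded (hds.mul_right _).hasSum fun n => ?_
    rw [norm_mul, Real.norm_eq_abs, Real.norm_eq_abs]
    exact mul_le_mul_of_nonneg_left (he.le n y) (abs_nonneg _)
  have h5 := hds.sum_add_tsum_nat_add N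
  have h6 := (ha1 i).sum_add_tsum_nat_add N
  have h7 := hbs.sum_add_tsum_nat_add N
  have ht1 : Summable (fun n => |a i (n + N)|) := (summable_nat_add_iff N).2 (ha1 i)
  have ht2 : Summable (fun n => |b (n + N)|) := (summable_nat_add_iff N).2 hbs
  have ht3 : Summable (fun n => |a i (n + N) - b (n + N)|) := (summable_nat_add_iff N).2 hds
  have h8 : ∑' n, |a i (n + N) - b (n + N)| ≤ ∑' n, |a i (n + N)| + ∑' n, |b (n + N)| := by
    rw [← ht1.tsum_add ht2]
    exact ht3.tsum_le_tsum (fun n => abs_sub _ _) (ht1.add ht2)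
  have h9 : ∑ n ∈ Finset.range N, |b n| ≤ ∑ n ∈ Finset.range N, |a i n| +
      ∑ n ∈ Finset.range N, |a i n - b n| := by
    rw [← Finset.sum_add_distrib]
    refine Finset.sum_le_sum fun n _ => ?_
    have := abs_sub_abs_le_abs_sub (b n) (a i n)
    rw [abs_sub_comm (b n) (a i n)] at this
    linarith
  have h10 : ∑' n, |a i n| ≤ c := (ha2 i).trans (hg i)
  linarith

end Pool.Agent.H218R3.Nuc
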