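import Pool.Agent.H590R3.NucStmts

set_option autoImplicit false

/-! Functionals on subspaces of `c_0` (tasks `TaskL1` and `TaskKK` of the project on nuclear
operators). -/

namespace Pool.Agent.H218R3.Nuc

open Filter Topology ZeroAtInfty Pool.Agent.H590R3.Nuc

lemma C0_le (z : C₀(ℕ, ℝ)) (n : ℕ) : |z n| ≤ ‖z‖ := z.toBCF.norm_coe_le_norm n

lemma C0_norm_le {z : C₀(ℕ, ℝ)} {C : ℝ} (hC : 0 ≤ C) (h : ∀ n, |z n| ≤ C) : ‖z‖ ≤ C :=
  (BoundedContinuousFunction.norm_le hC).2 h

/-- unit vectors of `c_0` -/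
noncomputable def e0 (i : ℕ) : C₀(ℕ, ℝ) where
  toFun := Pi.single i 1
  continuous_toFun := continuous_of_discreteTopology
  zero_at_infty' := by
    rw [Filter.cocompact_eq_cofinite, Nat.cofinite_eq_atTop]
    refine tendsto_const_nhds.congr' ?_
    filter_upwards [eventually_gt_atTop i] with n hn
    rw [Pi.single_eq_of_ne (by omega)]

lemma e0_apply (i n : ℕ) : e0 i n = if n = i then 1 else 0 := by
  change (Pi.single i 1 : ℕ → ℝ) n = _
  rw [Pi.single_apply]

/-- evaluation as a linear map -/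
lemma sum_apply (s : Finset ℕ) (c : ℕ → ℝ) (m : ℕ) :
    (∑ n ∈ s, c n • e0 n) m = if m ∈ s then c m else 0 := by
  classical
  induction s using Finset.induction_on with
  | empty => simp
  | insert a s ha ih =>
    rw [Finset.sum_insert ha, ZeroAtInftyContinuousMap.add_apply, ih,
      ZeroAtInftyContinuousMap.smul_apply, e0_apply]
    by_cases h : m = a
    · subst h; simp [ha]
    · simp [h]

/-- functionals on `c_0` -/
lemma dual_c0 (φ : C₀(ℕ, ℝ) →L[ℝ] ℝ) :
    Summable (fun n => |φ (e0 n)|) ∧ ∑' n, |φ (e0 n)| ≤ ‖φ‖ ∧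
      ∀ z : C₀(ℕ, ℝ), HasSum (fun n => φ (e0 n) * z n) (φ z) := by
  have h1 : ∀ s : Finset ℕ, ∑ n ∈ s, |φ (e0 n)| ≤ ‖φ‖ := by
    intro s
    have h2 : φ (∑ n ∈ s, (SignType.sign (φ (e0 n)) : ℝ) • e0 n) = ∑ n ∈ s, |φ (e0 n)| := by
      rw [map_sum]
      refine Finset.sum_congr rfl fun n _ => ?_
      rw [map_smul, smul_eq_mul, sign_mul_self]
    have h3 : ‖(∑ n ∈ s, (SignType.sign (φ (e0 n)) : ℝ) • e0 n : C₀(ℕ, ℝ))‖ ≤ 1 := by
      refine C0_norm_le zero_le_one fun m => ?_
      rw [sum_apply]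
      split_ifs
      · rcases lt_trichotomy (φ (e0 m)) 0 with h | h | h
        · simp [sign_neg h]
        · simp [h]
        · simp [sign_pos h]
      · simp
    calc ∑ n ∈ s, |φ (e0 n)| = φ (∑ n ∈ s, (SignType.sign (φ (e0 n)) : ℝ) • e0 n) := h2.symm
      _ ≤ ‖φ (∑ n ∈ s, (SignType.sign (φ (e0 n)) : ℝ) • e0 n)‖ := le_abs_self _
      _ ≤ ‖φ‖ * ‖(∑ n ∈ s, (SignType.sign (φ (e0 n)) : ℝ) • e0 n : C₀(ℕ, ℝ))‖ := φ.le_opNorm _
      _ ≤ ‖φ‖ * 1 := mul_le_mul_of_nonneg_left h3 (ContinuousLinearMap.opNorm_nonneg φ)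
      _ = ‖φ‖ := mul_one _
  have hs : Summable (fun n => |φ (e0 n)|) := summable_of_sum_le (fun n => abs_nonneg _) h1
  refine ⟨hs, hs.tsum_le_of_sum_le h1, fun z => ?_⟩
  have hz : Tendsto (fun n => z n) atTop (𝓝 0) := by
    have := z.zero_at_infty'
    rwa [Filter.cocompact_eq_cofinite, Nat.cofinite_eq_atTop] at this
  have hlim : Tendsto (fun N => ∑ n ∈ Finset.range N, z n • e0 n) atTop (𝓝 z) := by
    rw [Metric.tendsto_atTop]
    intro ε hε
    obtain ⟨N, hN⟩ := (Metric.tendsto_atTop.1 hz) (ε / 2) (by positivity)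
    refine ⟨N, fun M hM => ?_⟩
    rw [dist_eq_norm]
    refine lt_of_le_of_lt (C0_norm_le (C := ε / 2) (by positivity) fun m => ?_) (by linarith)
    rw [ZeroAtInftyContinuousMap.sub_apply, sum_apply]
    split_ifs with h
    · rw [sub_self, abs_zero]; positivity
    · have := hN m (by rw [Finset.mem_range] at h; omega)
      rw [Real.dist_eq, sub_zero] at this
      rw [zero_sub, abs_neg]
      exact this.le
  have hsum : Summable (fun n => φ (e0 n) * z n) := by
    refine Summable.of_norm_bounded (hs.mul_right ‖z‖) fun n => ?_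
    rw [norm_mul, Real.norm_eq_abs, Real.norm_eq_abs]
    exact mul_le_mul_of_nonneg_left (C0_le z n) (abs_nonneg _)
  have h5 : Tendsto (fun N => ∑ n ∈ Finset.range N, φ (e0 n) * z n) atTop (𝓝 (φ z)) := by
    refine ((φ.continuous.tendsto z).comp hlim).congr fun N => ?_
    rw [Function.comp_apply, map_sum]
    refine Finset.sum_congr rfl fun n _ => ?_
    rw [map_smul, smul_eq_mul, mul_comm]
  have h6 := hsum.hasSum.tendsto_sum_nat
  rw [tendsto_nhds_unique h5 h6]
  exact hsum.hasSum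

section emb

variable {Y : Type} [NormedAddCommGroup Y] [NormedSpace ℝ Y] {e : ℕ → (Y →L[ℝ] ℝ)}

/-- the isometric embedding in `c_0` -/
noncomputable def emb (he : IsCoord e) : Y →ₗᵢ[ℝ] C₀(ℕ, ℝ) where
  toFun y :=
    { toFun := fun n => e n y
      continuous_toFun := continuous_of_discreteTopology
      zero_at_infty' := by
        rw [Filter.cocompact_eq_cofinite, Nat.cofinite_eq_atTop]
        exact he.tendsto y }
  map_add' := fun x y => by
    ext n
    change e n (x + y) = e n x + e n y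
    exact map_add _ _ _
  map_smul' := fun c y => by
    ext n
    change e n (c • y) = c • e n y
    exact map_smul _ _ _
  norm_map' := fun y => by
    refine le_antisymm (C0_norm_le (norm_nonneg _) fun n => he.le n y)
      (he.norm_le y _ (norm_nonneg _) fun n => ?_)
    exact C0_le (⟨⟨fun n => e n y, continuous_of_discreteTopology⟩, by
        rw [Filter.cocompact_eq_cofinite, Nat.cofinite_eq_atTop]
        exact he.tendsto y⟩ : C₀(ℕ, ℝ)) n

lemma emb_apply (he : IsCoord e) (y : Y) (n : ℕ) : emb he y n = e n y := rfl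

end emb

theorem taskL1 : TaskL1 := by
  intro Y _ _ e he f
  let J := emb he
  let g : LinearMap.range J.toLinearMap →L[ℝ] ℝ :=
    f.comp (J.equivRange.symm.toContinuousLinearEquiv : LinearMap.range J.toLinearMap →L[ℝ] Y)
  obtain ⟨φ, hφ, hn⟩ := exists_extension_norm_eq (LinearMap.range J.toLinearMap) g
  have hg : ‖φ‖ ≤ ‖f‖ := by
    rw [hn]
    refine ContinuousLinearMap.opNorm_le_bound _ (norm_nonneg _) fun x => ?_
    change ‖f (J.equivRange.symm x)‖ ≤ _
    refine (f.le_opNorm _).trans ?_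
    rw [LinearIsometryEquiv.norm_map]
  obtain ⟨h1, h2, h3⟩ := dual_c0 φ
  refine ⟨fun n => φ (e0 n), h1, h2.trans hg, fun y => ?_⟩
  have h4 := h3 (J y)
  have h5 : φ (J y) = f y := by
    have h6 : (J.equivRange y : C₀(ℕ, ℝ)) = J y := rfl
    rw [← h6, hφ (J.equivRange y)]
    change f (J.equivRange.symm (J.equivRange y)) = f y
    rw [LinearIsometryEquiv.symm_apply_apply]
  rw [h5] at h4
  exact h4

end Pool.Agent.H218R3.Nuc
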