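import Pool.Agent.H384R3.SPk.Defs

set_option autoImplicit false

/-! Task A of the project SPK384: the two point inequality in `L^(2k)`. -/

namespace Pool.Agent.H218R3.SPkA

open Finset Pool.Agent.H384R3.SPk

lemma choose_bound (k : ℕ) (hk : 1 ≤ k) : ∀ j : ℕ, k.choose (2 * j) * 2 ^ j ≤
    k.choose j * (k - 1) ^ j := by
  intro j
  induction j with
  | zero => simp
  | succ j ih =>
    have h1 : k.choose (2 * j + 1) * (2 * j + 1) = k.choose (2 * j) * (k - 2 * j) :=
      Nat.choose_succ_right_eq k (2 * j)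
    have h2 : k.choose (2 * j + 2) * (2 * j + 2) = k.choose (2 * j + 1) * (k - (2 * j + 1)) :=
      Nat.choose_succ_right_eq k (2 * j + 1)
    have h3 : k.choose (j + 1) * (j + 1) = k.choose j * (k - j) := Nat.choose_succ_right_eq k j
    have h4 : (k - 2 * j) * (k - (2 * j + 1)) ≤ (k - j) * ((2 * j + 1) * (k - 1)) := by
      refine Nat.mul_le_mul (by omega) ?_
      calc k - (2 * j + 1) ≤ 1 * (k - 1) := by omega
        _ ≤ (2 * j + 1) * (k - 1) := Nat.mul_le_mul_right _ (by omega)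
    refine Nat.le_of_mul_le_mul_right (c := (j + 1) * (2 * j + 1)) ?_ (by positivity)
    calc k.choose (2 * (j + 1)) * 2 ^ (j + 1) * ((j + 1) * (2 * j + 1))
        = (k.choose (2 * j + 2) * (2 * j + 2)) * (2 * j + 1) * 2 ^ j := by
          rw [show 2 * (j + 1) = 2 * j + 2 by ring]; ring
      _ = (k.choose (2 * j + 1) * (2 * j + 1)) * (k - (2 * j + 1)) * 2 ^ j := by
          rw [h2]; ring
      _ = (k.choose (2 * j) * 2 ^ j) * ((k - 2 * j) * (k - (2 * j + 1))) := by rw [h1]; ring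
      _ ≤ (k.choose j * (k - 1) ^ j) * ((k - j) * ((2 * j + 1) * (k - 1))) :=
          Nat.mul_le_mul ih h4
      _ = (k.choose j * (k - j)) * ((2 * j + 1) * (k - 1) ^ (j + 1)) := by ring
      _ = k.choose (j + 1) * (k - 1) ^ (j + 1) * ((j + 1) * (2 * j + 1)) := by
          rw [← h3]; ring

/-- even part of the binomial expansion -/
lemma even_part (k : ℕ) (hk : 1 ≤ k) (s c b : ℝ) (hs : 0 ≤ s) (hb : 0 ≤ b)
    (hc : c ^ 2 ≤ 4 * s * b) :
    (s + c) ^ k + (s - c) ^ k ≤ 2 * (s + (2 * k - 2) * b) ^ k := by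
  have hk' : (1 : ℝ) ≤ k := by exact_mod_cast hk
  have h1 : (s + c) ^ k + (s - c) ^ k =
      ∑ m ∈ range (k + 1), (c ^ m + (-c) ^ m) * s ^ (k - m) * (k.choose m : ℝ) := by
    rw [add_comm s c, sub_eq_neg_add s c, add_pow, add_pow, ← sum_add_distrib]
    exact sum_congr rfl fun m _ => by ring
  set T : ℕ → ℝ := fun j => ((2 * k - 2) * b) ^ j * s ^ (k - j) * (k.choose j : ℝ) with hT
  have hT0 : ∀ j, 0 ≤ T j := fun j => by
    have : 0 ≤ (2 * (k : ℝ) - 2) * b := mul_nonneg (by linarith) hb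
    simp only [hT]
    positivity
  have h2 : (s + (2 * k - 2) * b) ^ k = ∑ j ∈ range (k + 1), T j := by
    rw [add_comm, add_pow]
  have h3 : ∀ m ∈ (range (k + 1)).filter Even,
      (c ^ m + (-c) ^ m) * s ^ (k - m) * (k.choose m : ℝ) ≤ 2 * T (m / 2) := by
    intro m hm
    rw [mem_filter, mem_range] at hm
    obtain ⟨j, rfl⟩ := hm.2.two_dvd
    have hj2 : 2 * j ≤ k := by omega
    rw [Nat.mul_div_cancel_left j (by norm_num : 0 < 2)]
    have e1 : (-c) ^ (2 * j) = c ^ (2 * j) := by rw [pow_mul, neg_sq, ← pow_mul]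
    rw [e1]
    have e2 : c ^ (2 * j) ≤ (4 * s * b) ^ j := by
      rw [pow_mul]; exact pow_le_pow_left₀ (sq_nonneg c) hc j
    have e3 : (k.choose (2 * j) : ℝ) * 2 ^ j ≤ k.choose j * (k - 1 : ℝ) ^ j := by
      have := choose_bound k hk j
      have h5 : ((k.choose (2 * j) * 2 ^ j : ℕ) : ℝ) ≤ ((k.choose j * (k - 1) ^ j : ℕ) : ℝ) := by
        exact_mod_cast this
      push_cast [Nat.cast_sub hk] at h5
      exact h5
    have e4 : s ^ (k - 2 * j) * s ^ j = s ^ (k - j) := by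
      rw [← pow_add]; congr 1; omega
    calc (c ^ (2 * j) + c ^ (2 * j)) * s ^ (k - 2 * j) * (k.choose (2 * j) : ℝ)
        = 2 * (c ^ (2 * j) * (s ^ (k - 2 * j) * (k.choose (2 * j) : ℝ))) := by ring
      _ ≤ 2 * ((4 * s * b) ^ j * (s ^ (k - 2 * j) * (k.choose (2 * j) : ℝ))) := by gcongr
      _ = 2 * ((2 * b) ^ j * (s ^ (k - 2 * j) * s ^ j) * ((k.choose (2 * j) : ℝ) * 2 ^ j)) := by
          rw [show (4 * s * b : ℝ) = 2 * b * s * 2 by ring, mul_pow, mul_pow (2 * b) s]; ring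
      _ ≤ 2 * ((2 * b) ^ j * (s ^ (k - 2 * j) * s ^ j) * (k.choose j * (k - 1 : ℝ) ^ j)) := by
          gcongr
      _ = 2 * T j := by
          simp only [hT]
          rw [e4, show (2 * (k : ℝ) - 2) * b = (2 * b) * (k - 1) by ring, mul_pow (2 * b)]; ring
  have h4 : ∑ m ∈ range (k + 1), (c ^ m + (-c) ^ m) * s ^ (k - m) * (k.choose m : ℝ) =
      ∑ m ∈ (range (k + 1)).filter Even, (c ^ m + (-c) ^ m) * s ^ (k - m) * (k.choose m : ℝ) := by
    rw [sum_filter]
    refine sum_congr rfl fun m _ => ?_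
    split_ifs with h
    · rfl
    · rw [Nat.not_even_iff_odd] at h
      rw [h.neg_pow, add_neg_cancel, zero_mul, zero_mul]
  rw [h1, h4, h2]
  refine (sum_le_sum h3).trans ?_
  rw [← mul_sum]
  refine mul_le_mul_of_nonneg_left ?_ (by norm_num)
  have h5 : ∑ m ∈ (range (k + 1)).filter Even, T (m / 2) =
      ∑ j ∈ ((range (k + 1)).filter Even).image (fun m => m / 2), T j := by
    rw [sum_image]
    intro m hm n hn h
    simp only [coe_filter, Set.mem_ofPred_eq] at hm hn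
    obtain ⟨a, rfl⟩ := hm.2.two_dvd
    obtain ⟨b', rfl⟩ := hn.2.two_dvd
    simp only at h
    omega
  rw [h5]
  refine sum_le_sum_of_subset_of_nonneg ?_ fun j _ _ => hT0 j
  intro j hj
  rw [mem_image] at hj
  obtain ⟨m, hm, rfl⟩ := hj
  rw [mem_filter, mem_range] at hm
  rw [mem_range]
  omega

/-- the pointwise inequality -/
lemma pointwise (k : ℕ) (hk : 1 ≤ k) (z w : ℂ) :
    ‖z + w‖ ^ (2 * k) + ‖z - w‖ ^ (2 * k) ≤ 2 * (‖z‖ ^ 2 + (2 * k - 1) * ‖w‖ ^ 2) ^ k := by
  set c : ℝ := 2 * (z * (starRingEnd ℂ) w).re with hc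
  have h1 : ‖z + w‖ ^ 2 = (‖z‖ ^ 2 + ‖w‖ ^ 2) + c := by
    rw [← Complex.normSq_eq_norm_sq, ← Complex.normSq_eq_norm_sq, ← Complex.normSq_eq_norm_sq,
      Complex.normSq_add]
  have h2 : ‖z - w‖ ^ 2 = (‖z‖ ^ 2 + ‖w‖ ^ 2) - c := by
    rw [← Complex.normSq_eq_norm_sq, ← Complex.normSq_eq_norm_sq, ← Complex.normSq_eq_norm_sq,
      Complex.normSq_sub]
  have h3 : c ^ 2 ≤ 4 * (‖z‖ ^ 2 + ‖w‖ ^ 2) * ‖w‖ ^ 2 := by
    have h4 : |(z * (starRingEnd ℂ) w).re| ≤ ‖z‖ * ‖w‖ := by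
      refine (Complex.abs_re_le_norm _).trans ?_
      rw [norm_mul, Complex.norm_conj]
    have h5 : (z * (starRingEnd ℂ) w).re ^ 2 ≤ (‖z‖ * ‖w‖) ^ 2 := by
      rw [← sq_abs]
      exact pow_le_pow_left₀ (abs_nonneg _) h4 2
    rw [hc, mul_pow]
    nlinarith [sq_nonneg (‖w‖ ^ 2)]
  have h6 := even_part k hk (‖z‖ ^ 2 + ‖w‖ ^ 2) c (‖w‖ ^ 2) (by positivity) (by positivity) h3
  rw [pow_mul, pow_mul, h1, h2]
  refine h6.trans (le_of_eq ?_)
  congr 2
  ring

lemma F_continuous (f : ℤ →₀ ℝ) : Continuous (F f) := by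
  unfold F Finsupp.sum
  refine continuous_finsetSum _ fun n _ => ?_
  fun_prop

lemma F_add (g f : ℤ →₀ ℝ) (x : ℝ) : F (g + f) x = F g x + F f x := by
  unfold F
  refine Finsupp.sum_add_index' (fun n => by simp) (fun n a b => by push_cast; ring)

lemma F_sub (g f : ℤ →₀ ℝ) (x : ℝ) : F (g - f) x = F g x - F f x := by
  unfold F
  refine Finsupp.sum_sub_index (fun n a b => by push_cast; ring)

lemma M_nonneg (k : ℕ) (f : ℤ →₀ ℝ) : 0 ≤ M k f := by
  unfold M
  exact intervalIntegral.integral_nonneg zero_le_one fun x _ => by positivity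

lemma N_nonneg (k : ℕ) (f : ℤ →₀ ℝ) : 0 ≤ N k f := Real.rpow_nonneg (M_nonneg k f) _

lemma N_pow (k : ℕ) (hk : 1 ≤ k) (f : ℤ →₀ ℝ) : N k f ^ k = M k f := by
  unfold N
  rw [← Real.rpow_natCast, ← Real.rpow_mul (M_nonneg k f),
    one_div_mul_cancel (by positivity), Real.rpow_one]

lemma ii (k : ℕ) (f : ℤ →₀ ℝ) :
    IntervalIntegrable (fun x => ‖F f x‖ ^ (2 * k)) MeasureTheory.volume 0 1 :=
  (((F_continuous f).norm).pow _).intervalIntegrable _ _

lemma mink (k : ℕ) (hk : 1 ≤ k) (g f : ℤ →₀ ℝ) (lam : ℝ) (hl : 0 ≤ lam) (η : ℝ) (hη : 0 < η) :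
    ∫ x in (0:ℝ)..1, (‖F g x‖ ^ 2 + lam * ‖F f x‖ ^ 2) ^ k ≤
      ((N k g + η) + (lam * N k f + η)) ^ k := by
  set p := N k g + η with hp
  set q := lam * N k f + η with hq
  have hp0 : 0 < p := by have := N_nonneg k g; positivity
  have hq0 : 0 < q := by have := N_nonneg k f; positivity
  have hpt : ∀ x : ℝ, (‖F g x‖ ^ 2 + lam * ‖F f x‖ ^ 2) ^ k ≤
      (p + q) ^ k * (p / (p + q) * (1 / p ^ k) * ‖F g x‖ ^ (2 * k) +
        q / (p + q) * (lam ^ k / q ^ k) * ‖F f x‖ ^ (2 * k)) := by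
    intro x
    have hx1 : ‖F g x‖ ^ 2 / p ∈ Set.Ici (0 : ℝ) := by rw [Set.mem_Ici]; positivity
    have hx2 : lam * ‖F f x‖ ^ 2 / q ∈ Set.Ici (0 : ℝ) := by rw [Set.mem_Ici]; positivity
    have ha : 0 ≤ p / (p + q) := by positivity
    have hb : 0 ≤ q / (p + q) := by positivity
    have hab : p / (p + q) + q / (p + q) = 1 := by rw [← add_div, div_self (by positivity)]
    have hcv := (convexOn_pow (𝕜 := ℝ) k).2 hx1 hx2 ha hb hab
    simp only [smul_eq_mul] at hcv
    have h1 : ‖F g x‖ ^ 2 + lam * ‖F f x‖ ^ 2 =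
        (p + q) * (p / (p + q) * (‖F g x‖ ^ 2 / p) + q / (p + q) * (lam * ‖F f x‖ ^ 2 / q)) := by
      field_simp
    rw [h1, mul_pow]
    refine mul_le_mul_of_nonneg_left (hcv.trans (le_of_eq ?_)) (by positivity)
    rw [div_pow, div_pow, mul_pow, ← pow_mul, ← pow_mul]
    ring
  have hint : ∫ x in (0:ℝ)..1, (‖F g x‖ ^ 2 + lam * ‖F f x‖ ^ 2) ^ k ≤
      ∫ x in (0:ℝ)..1, (p + q) ^ k * (p / (p + q) * (1 / p ^ k) * ‖F g x‖ ^ (2 * k) +
        q / (p + q) * (lam ^ k / q ^ k) * ‖F f x‖ ^ (2 * k)) := by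
    have hg := F_continuous g
    have hf := F_continuous f
    refine intervalIntegral.integral_mono_on zero_le_one ?_ ?_ fun x _ => hpt x
    · exact Continuous.intervalIntegrable (by fun_prop) _ _
    · exact Continuous.intervalIntegrable (by fun_prop) _ _
  refine hint.trans ?_
  rw [intervalIntegral.integral_const_mul, intervalIntegral.integral_add
    ((ii k g).const_mul _) ((ii k f).const_mul _), intervalIntegral.integral_const_mul,
    intervalIntegral.integral_const_mul]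
  have e1 : ∫ x in (0:ℝ)..1, ‖F g x‖ ^ (2 * k) = N k g ^ k := (N_pow k hk g).symm
  have e2 : ∫ x in (0:ℝ)..1, ‖F f x‖ ^ (2 * k) = N k f ^ k := (N_pow k hk f).symm
  rw [e1, e2]
  have h3 : N k g ^ k ≤ p ^ k := pow_le_pow_left₀ (N_nonneg k g) (by rw [hp]; linarith) k
  have h4 : lam ^ k * N k f ^ k ≤ q ^ k := by
    rw [← mul_pow]
    exact pow_le_pow_left₀ (mul_nonneg hl (N_nonneg k f)) (by rw [hq]; linarith) k
  have h5 : p / (p + q) * (1 / p ^ k) * N k g ^ k ≤ p / (p + q) := by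
    rw [mul_assoc]
    refine mul_le_of_le_one_right (by positivity) ?_
    rw [one_div, inv_mul_le_iff₀ (by positivity), mul_one]
    exact h3
  have h6 : q / (p + q) * (lam ^ k / q ^ k) * N k f ^ k ≤ q / (p + q) := by
    rw [mul_assoc]
    refine mul_le_of_le_one_right (by positivity) ?_
    rw [div_mul_eq_mul_div, div_le_one (by positivity)]
    exact h4
  have h7 : p / (p + q) + q / (p + q) = 1 := by rw [← add_div, div_self (by positivity)]
  calc (p + q) ^ k * (p / (p + q) * (1 / p ^ k) * N k g ^ k +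
        q / (p + q) * (lam ^ k / q ^ k) * N k f ^ k) ≤ (p + q) ^ k * 1 := by
        refine mul_le_mul_of_nonneg_left (by linarith) (by positivity)
    _ = (p + q) ^ k := mul_one _

theorem taskA : TaskA := by
  intro k hk g f
  have hk' : (1 : ℝ) ≤ k := by exact_mod_cast hk
  have hl : (0 : ℝ) ≤ 2 * k - 1 := by linarith
  have h1 : M k (g + f) + M k (g - f) ≤
      2 * ∫ x in (0:ℝ)..1, (‖F g x‖ ^ 2 + (2 * k - 1) * ‖F f x‖ ^ 2) ^ k := by
    unfold M
    rw [← intervalIntegral.integral_add (ii k _) (ii k _), ← intervalIntegral.integral_const_mul]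
    have hg := F_continuous g
    have hf := F_continuous f
    refine intervalIntegral.integral_mono_on zero_le_one ((ii k _).add (ii k _)) ?_ fun x _ => ?_
    · exact Continuous.intervalIntegrable (by fun_prop) _ _
    · rw [F_add, F_sub]
      exact pointwise k hk _ _
  have h2 : ∀ η : ℝ, 0 < η → N k (g + f) + N k (g - f) ≤
      2 * ((N k g + η) + ((2 * k - 1) * N k f + η)) := by
    intro η hη
    have h3 := mink k hk g f (2 * k - 1) hl η hη
    have h4 : ((N k (g + f) + N k (g - f)) / 2) ^ k ≤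
        ((N k g + η) + ((2 * k - 1) * N k f + η)) ^ k := by
      have h5 := add_pow_le (N_nonneg k (g + f)) (N_nonneg k (g - f)) k
      rw [N_pow k hk, N_pow k hk] at h5
      rw [div_pow]
      rw [div_le_iff₀ (by positivity)]
      have h6 : (2 : ℝ) ^ k = 2 ^ (k - 1) * 2 := by
        rw [← pow_succ]; congr 1; omega
      have h7 : (0 : ℝ) < 2 ^ (k - 1) := by positivity
      calc (N k (g + f) + N k (g - f)) ^ k ≤ 2 ^ (k - 1) * (M k (g + f) + M k (g - f)) := h5
        _ ≤ 2 ^ (k - 1) * (2 * ((N k g + η) + ((2 * k - 1) * N k f + η)) ^ k) := by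
            refine mul_le_mul_of_nonneg_left (h1.trans ?_) h7.le
            linarith
        _ = ((N k g + η) + ((2 * k - 1) * N k f + η)) ^ k * 2 ^ k := by rw [h6]; ring
    have h8 : 0 ≤ (N k g + η) + ((2 * k - 1) * N k f + η) := by
      have := N_nonneg k g
      have := mul_nonneg hl (N_nonneg k f)
      linarith
    have h9 := le_of_pow_le_pow_left₀ (by omega) h8 h4
    linarith
  refine le_of_forall_pos_le_add fun η hη => ?_
  have := h2 (η / 4) (by positivity)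
  linarith

end Pool.Agent.H218R3.SPkA
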