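import Mathlib

set_option autoImplicit false

open Complex

namespace Pool.Agent.H218R3.Sd

/-- the data of a polynomial `(ζ - a) ∏ (ζ - z j)` violating the strict inequality -/
structure CE (a : ℝ) (N : ℕ) (z w : Fin N → ℂ) : Prop where
  hz : ∀ j, ‖z j‖ ≤ 1
  hw : ∀ k, ‖w k‖ ≤ 1
  hwa : ∀ k, w k ≠ (a : ℂ)
  hder : ∀ ζ : ℂ, HasDerivAt (fun ζ : ℂ => (ζ - a) * ∏ j, (ζ - z j))
    ((N + 1 : ℂ) * ∏ k, (ζ - w k)) ζ
  hI : ∑ k, (‖w k - (a : ℂ)‖ ^ 2)⁻¹ ≤ (N : ℝ)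

noncomputable def q {N : ℕ} (z : Fin N → ℂ) (ζ : ℂ) : ℂ := ∏ j, (ζ - z j)
noncomputable def pp {N : ℕ} (a : ℝ) (z : Fin N → ℂ) (ζ : ℂ) : ℂ := (ζ - a) * ∏ j, (ζ - z j)
noncomputable def dp {N : ℕ} (w : Fin N → ℂ) (ζ : ℂ) : ℂ := (N + 1 : ℂ) * ∏ k, (ζ - w k)
/-- the modulus of the derivative at `a` -/
noncomputable def A {N : ℕ} (a : ℝ) (w : Fin N → ℂ) : ℝ := ‖dp w (a : ℂ)‖

variable {a : ℝ} {N : ℕ} {z w : Fin N → ℂ}

lemma CE.hd (h : CE a N z w) (ζ : ℂ) : HasDerivAt (pp a z) (dp w ζ) ζ := h.hder ζ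

lemma CE.npos (h : CE a N z w) (k : Fin N) : 0 < ‖w k - (a : ℂ)‖ :=
  norm_pos_iff.mpr (sub_ne_zero.mpr (h.hwa k))

lemma CE.s_pos (h : CE a N z w) (k : Fin N) : 0 < (‖w k - (a : ℂ)‖ ^ 2)⁻¹ := by
  have := h.npos k
  positivity

lemma CE.A_eq (_ : CE a N z w) : A a w = (N + 1) * ∏ k, ‖w k - (a : ℂ)‖ := by
  unfold A dp
  rw [norm_mul, norm_prod]
  congr 1
  · have : ((N : ℂ) + 1) = ((N + 1 : ℝ) : ℂ) := by push_cast; rfl
    rw [this, Complex.norm_real, Real.norm_of_nonneg (by positivity)]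
  · exact Finset.prod_congr rfl (fun k _ => norm_sub_rev _ _)

lemma CE.A_pos (h : CE a N z w) : 0 < A a w := by
  rw [h.A_eq]
  have : 0 < ∏ k, ‖w k - (a : ℂ)‖ := Finset.prod_pos (fun k _ => h.npos k)
  positivity

lemma CE.logA (h : CE a N z w) :
    2 * (Real.log (A a w) - Real.log (N + 1)) = - ∑ k, Real.log ((‖w k - (a : ℂ)‖ ^ 2)⁻¹) := by
  rw [h.A_eq, Real.log_mul (by positivity) (Finset.prod_pos (fun k _ => h.npos k)).ne',
    Real.log_prod (fun k _ => (h.npos k).ne'), ← Finset.sum_neg_distrib]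
  have : ∀ k ∈ Finset.univ, -Real.log ((‖w k - (a : ℂ)‖ ^ 2)⁻¹)
      = 2 * Real.log ‖w k - (a : ℂ)‖ := by
    intro k _
    rw [Real.log_inv, Real.log_pow]
    push_cast
    ring
  rw [Finset.sum_congr rfl this, ← Finset.mul_sum]
  ring

lemma CE.sumlog (h : CE a N z w) :
    ∑ k, ((‖w k - (a : ℂ)‖ ^ 2)⁻¹ - 1 - Real.log ((‖w k - (a : ℂ)‖ ^ 2)⁻¹))
      ≤ 2 * (Real.log (A a w) - Real.log (N + 1)) := by
  rw [h.logA, Finset.sum_sub_distrib, Finset.sum_sub_distrib]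
  have := h.hI
  simp only [Finset.sum_const, Finset.card_univ, Fintype.card_fin, nsmul_eq_mul, mul_one]
  linarith

lemma CE.logA_ge (h : CE a N z w) : Real.log (N + 1) ≤ Real.log (A a w) := by
  have h1 := h.sumlog
  have h2 : 0 ≤ ∑ k, ((‖w k - (a : ℂ)‖ ^ 2)⁻¹ - 1 - Real.log ((‖w k - (a : ℂ)‖ ^ 2)⁻¹)) := by
    apply Finset.sum_nonneg
    intro k _
    have := Real.log_le_sub_one_of_pos (h.s_pos k)
    linarith
  linarith

lemma CE.A_ge (h : CE a N z w) : (N : ℝ) + 1 ≤ A a w := by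
  have := h.logA_ge
  exact (Real.log_le_log_iff (by positivity) h.A_pos).mp this

lemma CE.A_ge_one (h : CE a N z w) : (1 : ℝ) ≤ A a w := by
  have := h.A_ge
  have h0 : (0 : ℝ) ≤ N := Nat.cast_nonneg N
  linarith

/-- L1: the key bound -/
lemma CE.dp_le (h : CE a N z w) (ha : 0 < a) (ha1 : a ≤ 1) {x y : ℝ} (hx : 0 ≤ x) (hxa : x ≤ a) :
    ‖dp w (⟨x, y⟩ : ℂ)‖ ≤ A a w * Real.exp ((N / 2 : ℝ) * (-(x * (a - x)) + 2 * |y| + y ^ 2)) := by
  have hN : (0 : ℝ) ≤ N := Nat.cast_nonneg N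
  set D : ℝ := -(x * (a - x)) + 2 * |y| + y ^ 2 with hD
  have key : ∀ k, ‖(⟨x, y⟩ : ℂ) - w k‖ ^ 2 ≤ ‖w k - (a : ℂ)‖ ^ 2 *
      Real.exp ((x / a) + ((1 - x / a) + D) * (‖w k - (a : ℂ)‖ ^ 2)⁻¹ - 1) := by
    intro k
    have hs := h.s_pos k
    have hn := h.npos k
    have h1 : ‖(⟨x, y⟩ : ℂ) - w k‖ ^ 2 ≤ (x / a) * ‖w k - (a : ℂ)‖ ^ 2 + ((1 - x / a) + D) := by
      have hw := h.hw k
      have hw2 : (w k).re ^ 2 + (w k).im ^ 2 ≤ 1 := by
        have : ‖w k‖ ^ 2 ≤ 1 := by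
          have := norm_nonneg (w k)
          nlinarith
        rw [Complex.sq_norm, Complex.normSq_apply] at this
        nlinarith
      have e1 : ‖(⟨x, y⟩ : ℂ) - w k‖ ^ 2 = (x - (w k).re) ^ 2 + (y - (w k).im) ^ 2 := by
        rw [Complex.sq_norm, Complex.normSq_apply]
        simp only [Complex.sub_re, Complex.sub_im]
        ring
      have e2 : ‖w k - (a : ℂ)‖ ^ 2 = ((w k).re - a) ^ 2 + (w k).im ^ 2 := by
        rw [Complex.sq_norm, Complex.normSq_apply]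
        simp only [Complex.sub_re, Complex.sub_im, Complex.ofReal_re, Complex.ofReal_im]
        ring
      rw [e1, e2, hD]
      set u := (w k).re
      set v := (w k).im
      have hv : |v| ≤ 1 := by
        rw [abs_le]
        constructor <;> nlinarith [sq_nonneg u, sq_nonneg v]
      have hvy : -(v * y) ≤ |y| := by
        calc -(v * y) ≤ |v * y| := neg_le_abs _
          _ = |v| * |y| := abs_mul _ _
          _ ≤ 1 * |y| := by gcongr
          _ = |y| := one_mul _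
      obtain ⟨t, rfl⟩ : ∃ t, x = t * a := ⟨x / a, by field_simp⟩
      have ht1 : t ≤ 1 := by
        by_contra hc
        push Not at hc
        nlinarith
      rw [mul_div_assoc, div_self ha.ne', mul_one]
      nlinarith [mul_nonneg (sub_nonneg.mpr ht1) (sub_nonneg.mpr hw2)]
    have h2 : ‖w k - (a : ℂ)‖ ^ 2 * (‖w k - (a : ℂ)‖ ^ 2)⁻¹ = 1 := mul_inv_cancel₀ (by positivity)
    have h3 : (x / a) * ‖w k - (a : ℂ)‖ ^ 2 + ((1 - x / a) + D)
        = ‖w k - (a : ℂ)‖ ^ 2 * ((x / a) + ((1 - x / a) + D) * (‖w k - (a : ℂ)‖ ^ 2)⁻¹ - 1 + 1) := by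
      linear_combination (-((1 - x / a) + D)) * h2
    rw [h3] at h1
    refine h1.trans ?_
    gcongr
    exact Real.add_one_le_exp _
  have hprod : ‖dp w (⟨x, y⟩ : ℂ)‖ ^ 2 ≤ (A a w) ^ 2 * Real.exp (N * D) := by
    have e1 : ‖dp w (⟨x, y⟩ : ℂ)‖ ^ 2 = ((N : ℝ) + 1) ^ 2 * ∏ k, ‖(⟨x, y⟩ : ℂ) - w k‖ ^ 2 := by
      unfold dp
      rw [norm_mul, norm_prod, mul_pow, Finset.prod_pow]
      congr 2
      have : ((N : ℂ) + 1) = ((N + 1 : ℝ) : ℂ) := by push_cast; rfl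
      rw [this, Complex.norm_real, Real.norm_of_nonneg (by positivity)]
    rw [e1, h.A_eq, mul_pow, mul_assoc, ← Finset.prod_pow]
    refine mul_le_mul_of_nonneg_left ?_ (by positivity)
    calc ∏ k, ‖(⟨x, y⟩ : ℂ) - w k‖ ^ 2
        ≤ ∏ k, (‖w k - (a : ℂ)‖ ^ 2 *
          Real.exp ((x / a) + ((1 - x / a) + D) * (‖w k - (a : ℂ)‖ ^ 2)⁻¹ - 1)) :=
          Finset.prod_le_prod (fun k _ => by positivity) (fun k _ => key k)
      _ = (∏ k, ‖w k - (a : ℂ)‖ ^ 2) *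
          Real.exp (∑ k, ((x / a) + ((1 - x / a) + D) * (‖w k - (a : ℂ)‖ ^ 2)⁻¹ - 1)) := by
          rw [Finset.prod_mul_distrib, Real.exp_sum]
      _ ≤ (∏ k, ‖w k - (a : ℂ)‖ ^ 2) * Real.exp (N * D) := by
          gcongr
          rw [Finset.sum_sub_distrib, Finset.sum_add_distrib, ← Finset.mul_sum]
          simp only [Finset.sum_const, Finset.card_univ, Fintype.card_fin, nsmul_eq_mul, mul_one]
          have hc : 0 ≤ (1 - x / a) + D := by
            have hxa' : x / a ≤ 1 := (div_le_one ha).mpr hxa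
            have : x * (a - x) = x / a * (1 - x / a) * a ^ 2 := by field_simp
            have h0 : 0 ≤ x / a := by positivity
            have h4 : x * (a - x) ≤ 1 - x / a := by
              rw [this]
              have : x / a * a ^ 2 ≤ 1 := by
                calc x / a * a ^ 2 ≤ 1 * 1 := by
                      gcongr
                      nlinarith
                  _ = 1 := one_mul 1
              nlinarith
            rw [hD]
            have := abs_nonneg y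
            nlinarith [sq_nonneg y]
          nlinarith [mul_le_mul_of_nonneg_left h.hI hc]
  have h5 : (A a w * Real.exp ((N / 2 : ℝ) * D)) ^ 2 = (A a w) ^ 2 * Real.exp (N * D) := by
    rw [mul_pow, ← Real.exp_nat_mul]
    congr 2
    push_cast
    ring
  rw [← h5] at hprod
  exact (pow_le_pow_iff_left₀ (norm_nonneg _) (by have := h.A_pos; positivity) two_ne_zero).mp hprod

/-- real version -/
lemma CE.dp_le_real (h : CE a N z w) (ha : 0 < a) (ha1 : a ≤ 1) {x : ℝ} (hx : 0 ≤ x)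
    (hxa : x ≤ a) :
    ‖dp w (x : ℂ)‖ ≤ A a w * Real.exp (-(N / 2 : ℝ) * (x * (a - x))) := by
  have := h.dp_le ha ha1 (y := 0) hx hxa
  have e : (⟨x, 0⟩ : ℂ) = (x : ℂ) := rfl
  rw [e] at this
  refine this.trans (le_of_eq ?_)
  congr 2
  simp
  

noncomputable def yy (a : ℝ) (w : Fin N → ℂ) (k : Fin N) : ℂ := ((a : ℂ) - w k)⁻¹
noncomputable def lam (a : ℝ) (w : Fin N → ℂ) : ℂ := ∑ k, yy a w k

lemma CE.norm_yy (_ : CE a N z w) (k : Fin N) : ‖yy a w k‖ ^ 2 = (‖w k - (a : ℂ)‖ ^ 2)⁻¹ := by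
  unfold yy
  rw [norm_inv, norm_sub_rev, inv_pow]

lemma CE.sum_norm_yy (h : CE a N z w) : ∑ k, ‖yy a w k‖ ≤ N := by
  have h1 : ∑ k, ‖yy a w k‖ ≤ ∑ k, ((1 + (‖w k - (a : ℂ)‖ ^ 2)⁻¹) / 2) := by
    apply Finset.sum_le_sum
    intro k _
    rw [← h.norm_yy k]
    nlinarith [sq_nonneg (‖yy a w k‖ - 1)]
  rw [← Finset.sum_div, Finset.sum_add_distrib] at h1
  simp only [Finset.sum_const, Finset.card_univ, Fintype.card_fin, nsmul_eq_mul, mul_one] at h1
  have := h.hI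
  linarith

lemma CE.norm_lam (h : CE a N z w) : ‖lam a w‖ ≤ N :=
  (norm_sum_le _ _).trans h.sum_norm_yy

lemma CE.re_lam (h : CE a N z w) (ha : 0 < a) (ha1 : a ≤ 1) : N * a / 2 ≤ (lam a w).re := by
  have h1 : ∀ k, 1 + (a ^ 2 - 1) * (‖w k - (a : ℂ)‖ ^ 2)⁻¹ ≤ 2 * a * (yy a w k).re := by
    intro k
    have hs := h.s_pos k
    have hn := h.npos k
    have hw := h.hw k
    have hw2 : (w k).re ^ 2 + (w k).im ^ 2 ≤ 1 := by
      have : ‖w k‖ ^ 2 ≤ 1 := by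
        have := norm_nonneg (w k)
        nlinarith
      rw [Complex.sq_norm, Complex.normSq_apply] at this
      nlinarith
    have e2 : ‖w k - (a : ℂ)‖ ^ 2 = ((w k).re - a) ^ 2 + (w k).im ^ 2 := by
      rw [Complex.sq_norm, Complex.normSq_apply]
      simp only [Complex.sub_re, Complex.sub_im, Complex.ofReal_re, Complex.ofReal_im]
      ring
    have e3 : (yy a w k).re = (a - (w k).re) * (‖w k - (a : ℂ)‖ ^ 2)⁻¹ := by
      unfold yy
      rw [Complex.inv_re, ← Complex.sq_norm, norm_sub_rev]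
      simp [div_eq_mul_inv]
    rw [e3]
    have h2 : ‖w k - (a : ℂ)‖ ^ 2 * (‖w k - (a : ℂ)‖ ^ 2)⁻¹ = 1 := mul_inv_cancel₀ (by positivity)
    set s := (‖w k - (a : ℂ)‖ ^ 2)⁻¹
    rw [e2] at h2
    nlinarith
  have h2 := Finset.sum_le_sum (fun k (_ : k ∈ Finset.univ) => h1 k)
  rw [Finset.sum_add_distrib, ← Finset.mul_sum, ← Finset.mul_sum] at h2
  simp only [Finset.sum_const, Finset.card_univ, Fintype.card_fin, nsmul_eq_mul, mul_one] at h2
  have h3 : (lam a w).re = ∑ k, (yy a w k).re := by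
    unfold lam
    rw [Complex.re_sum]
  rw [← h3] at h2
  have h4 := h.hI
  have h5 : 0 ≤ 1 - a ^ 2 := by nlinarith
  have h6 := mul_le_mul_of_nonneg_left h4 h5
  have h7 : a * (N * a) ≤ a * (2 * (lam a w).re) := by nlinarith
  have := le_of_mul_le_mul_left h7 ha
  linarith

end Pool.Agent.H218R3.Sd
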