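import Pool.Agent.H218R3.Sd2

set_option autoImplicit false
set_option linter.unusedVariables false

open Complex Filter Topology

namespace Pool.Agent.H218R3.Sd

/-- a statement holding for all large `N`, uniformly over `a` in `[ε, 1]` -/
def Ev (ε : ℝ) (P : ∀ (a : ℝ) (N : ℕ), (Fin N → ℂ) → (Fin N → ℂ) → Prop) : Prop :=
  ∀ᶠ N : ℕ in atTop, ∀ a ∈ Set.Icc ε 1, ∀ z w : Fin N → ℂ, CE a N z w → P a N z w

lemma Ev.and {ε : ℝ} {P Q : ∀ (a : ℝ) (N : ℕ), (Fin N → ℂ) → (Fin N → ℂ) → Prop}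
    (hP : Ev ε P) (hQ : Ev ε Q) : Ev ε (fun a N z w => P a N z w ∧ Q a N z w) := by
  filter_upwards [hP, hQ] with N h1 h2 a ha z w h
  exact ⟨h1 a ha z w h, h2 a ha z w h⟩

lemma Ev.mono {ε : ℝ} {P Q : ∀ (a : ℝ) (N : ℕ), (Fin N → ℂ) → (Fin N → ℂ) → Prop}
    (hP : Ev ε P) (hPQ : ∀ᶠ N : ℕ in atTop, ∀ a ∈ Set.Icc ε 1, ∀ z w : Fin N → ℂ,
      CE a N z w → P a N z w → Q a N z w) : Ev ε Q := by
  filter_upwards [hP, hPQ] with N h1 h2 a ha z w h
  exact h2 a ha z w h (h1 a ha z w h)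

lemma Ev.all {ε : ℝ} {ι : Type*} (s : Finset ι)
    {P : ι → ∀ (a : ℝ) (N : ℕ), (Fin N → ℂ) → (Fin N → ℂ) → Prop}
    (hP : ∀ i ∈ s, Ev ε (P i)) : Ev ε (fun a N z w => ∀ i ∈ s, P i a N z w) := by
  have := (Filter.eventually_all_finset s).mpr hP
  filter_upwards [this] with N h1 a ha z w h i hi
  exact h1 i hi a ha z w h

variable {ε : ℝ}

lemma L5 (hε : 0 < ε) {x : ℝ} (hx : 0 < x) (hxε : x < ε / 2) :
    Ev ε (fun a N z w => A a w ≤ 2 * N * ‖pp a z x‖) := by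
  -- choose κ
  have t1 : Tendsto (fun κ : ℝ => Real.exp (-(κ * ε / 2))) atTop (𝓝 0) := by
    have : Tendsto (fun κ : ℝ => κ * ε / 2) atTop atTop :=
      (tendsto_id.atTop_mul_const hε).atTop_div_const two_pos
    exact Real.tendsto_exp_neg_atTop_nhds_zero.comp this
  have t2 : Tendsto (fun κ : ℝ => (2 / x) * Real.exp (-(κ * x / 2))) atTop (𝓝 0) := by
    have : Tendsto (fun κ : ℝ => κ * x / 2) atTop atTop :=
      (tendsto_id.atTop_mul_const hx).atTop_div_const two_pos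
    have := (Real.tendsto_exp_neg_atTop_nhds_zero.comp this).const_mul (2 / x)
    simpa using this
  obtain ⟨κ, h1, h2, hκ⟩ := ((t1.eventually (gt_mem_nhds (show (0 : ℝ) < 1 / 8 by norm_num))).and
    ((t2.eventually (gt_mem_nhds (show (0 : ℝ) < 1 / 8 by norm_num))).and
      (eventually_gt_atTop (0 : ℝ)))).exists
  have e1 : ∀ᶠ N : ℕ in atTop, κ ^ 2 ≤ (N : ℝ) :=
    tendsto_natCast_atTop_atTop.eventually (eventually_ge_atTop (κ ^ 2))
  have t3 : Tendsto (fun N : ℕ => κ / (N : ℝ)) atTop (𝓝 0) :=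
    tendsto_const_div_atTop_nhds_zero_nat κ
  have e2 : ∀ᶠ N : ℕ in atTop, κ / (N : ℝ) < ε / 2 :=
    t3.eventually (gt_mem_nhds (by positivity))
  have t4 : Tendsto (fun N : ℕ => κ * (Real.exp (3 * κ ^ 2 / (N : ℝ)) - 1)) atTop (𝓝 0) := by
    have h3 : Tendsto (fun N : ℕ => 3 * κ ^ 2 / (N : ℝ)) atTop (𝓝 0) :=
      tendsto_const_div_atTop_nhds_zero_nat _
    have h4 := (Real.continuous_exp.tendsto 0).comp h3
    have h5 := (h4.sub_const 1).const_mul κ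
    simpa using h5
  have e3 : ∀ᶠ N : ℕ in atTop, κ * (Real.exp (3 * κ ^ 2 / (N : ℝ)) - 1) < 1 / 8 :=
    t4.eventually (gt_mem_nhds (by norm_num))
  filter_upwards [e1, e2, e3] with N g1 g2 g3 a ha z w h
  have ha0 : 0 < a := lt_of_lt_of_le hε ha.1
  have ha1 : a ≤ 1 := by linarith [ha.2]
  have h5 := h.lower ha0 ha1 hx hκ g1 (by linarith [ha.1])
  have h6 : Real.exp (-(κ * a / 2)) ≤ 1 / 8 := by
    refine le_trans (Real.exp_le_exp.mpr ?_) h1.le
    have : κ * ε ≤ κ * a := by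
      gcongr
      exact ha.1
    linarith
  have hA := h.A_pos
  have h7 : (1 / 2 : ℝ) * A a w ≤ (1 - Real.exp (-(κ * a / 2)) -
      κ * (Real.exp (3 * κ ^ 2 / N) - 1) - (2 / x) * Real.exp (-(κ * x / 2))) * A a w := by
    gcongr
    linarith
  linarith

lemma exp_small (η C c : ℝ) (hη : 0 < η) (hc : 0 < c) :
    ∀ᶠ N : ℕ in atTop, (N : ℝ) * (C * Real.exp (-((N : ℝ) * η / 2))) < c := by
  have h1 : Tendsto (fun x : ℝ => x ^ 1 * Real.exp (-x)) atTop (𝓝 0) :=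
    Real.tendsto_pow_mul_exp_neg_atTop_nhds_zero 1
  have h2 : Tendsto (fun N : ℕ => (N : ℝ) * η / 2) atTop atTop :=
    (tendsto_natCast_atTop_atTop.atTop_mul_const hη).atTop_div_const two_pos
  have h3 := (h1.comp h2).const_mul (C * (2 / η))
  rw [mul_zero] at h3
  filter_upwards [h3.eventually (gt_mem_nhds hc)] with N hN
  refine lt_of_eq_of_lt ?_ hN
  simp only [Function.comp, pow_one]
  field_simp

lemma L6 (hε : 0 < ε) (hε1 : ε ≤ 1) {b : ℝ} (hb : 0 < b) (hbε : b < ε / 2) :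
    Ev ε (fun _ _ z _ => ∀ j, b * ε / 48 ≤ ‖z j - b‖) := by
  have h5 := L5 hε hb hbε
  have hr : 0 < b * ε / 48 := by positivity
  refine h5.mono ?_
  filter_upwards [exp_small (b * ε / 16) (b * ε / 48) (1 / 2) (by positivity) (by norm_num),
    eventually_gt_atTop 0] with N hN hN0 a ha z w h hA j
  have ha0 : 0 < a := lt_of_lt_of_le hε ha.1
  have ha1 : a ≤ 1 := by linarith [ha.2]
  have hNpos : (0 : ℝ) < N := by exact_mod_cast hN0
  by_contra hc
  push Not at hc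
  set r := b * ε / 48 with hrdef
  have hb1 : b ≤ 1 / 2 := by linarith
  have hr2 : r ≤ b / 2 := by
    rw [hrdef]; nlinarith
  have hbound : ∀ ζ ∈ Metric.ball (b : ℂ) r, ‖dp w ζ‖ ≤
      A a w * Real.exp (-((N : ℝ) * (b * ε / 16) / 2)) := by
    intro ζ hζ
    rw [Metric.mem_ball, dist_eq_norm] at hζ
    have h1 : |ζ.re - b| ≤ r := by
      have := Complex.abs_re_le_norm (ζ - b)
      simp only [Complex.sub_re, Complex.ofReal_re] at this
      linarith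
    have h2 : |ζ.im| ≤ r := by
      have := Complex.abs_im_le_norm (ζ - b)
      simp only [Complex.sub_im, Complex.ofReal_im, sub_zero] at this
      linarith
    rw [abs_le] at h1
    have h3 := h.dp_le ha0 ha1 (x := ζ.re) (y := ζ.im) (by linarith)
      (by linarith [ha.1])
    have e : (⟨ζ.re, ζ.im⟩ : ℂ) = ζ := by
      apply Complex.ext <;> rfl
    rw [e] at h3
    refine h3.trans ?_
    have hA0 := h.A_pos
    gcongr
    have h4 : b * ε / 8 ≤ ζ.re * (a - ζ.re) := by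
      have h5 : b / 2 ≤ ζ.re := by linarith
      have h6 : ε / 4 ≤ a - ζ.re := by linarith [ha.1]
      have h50 : 0 ≤ ζ.re := by linarith
      calc b * ε / 8 = (b / 2) * (ε / 4) := by ring
        _ ≤ _ := by gcongr
    have h7 : 2 * |ζ.im| + ζ.im ^ 2 ≤ 3 * r := by
      have h8 : ζ.im ^ 2 = |ζ.im| * |ζ.im| := by rw [← sq, sq_abs]
      have h9 := abs_nonneg ζ.im
      have hr1 : r ≤ 1 := by linarith
      nlinarith
    have h10 : -(ζ.re * (a - ζ.re)) + 2 * |ζ.im| + ζ.im ^ 2 ≤ -(b * ε / 16) := by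
      have : 3 * r = b * ε / 16 := by rw [hrdef]; ring
      linarith
    nlinarith
  have hbb : (b : ℂ) ∈ Metric.ball (b : ℂ) r := Metric.mem_ball_self hr
  have hzb : z j ∈ Metric.ball (b : ℂ) r := by
    rw [Metric.mem_ball, dist_eq_norm]
    exact hc
  have h1 := (convex_ball (b : ℂ) r).norm_image_sub_le_of_norm_hasDerivWithin_le
    (fun ζ _ => (h.hd ζ).hasDerivWithinAt) hbound hzb hbb
  have h2 : pp a z (z j) = 0 := by
    unfold pp
    rw [Finset.prod_eq_zero (Finset.mem_univ j) (sub_self _), mul_zero]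
  rw [h2, sub_zero] at h1
  have h3 : ‖(b : ℂ) - z j‖ ≤ r := by
    rw [norm_sub_rev]
    exact hc.le
  have hA0 := h.A_pos
  have hE := Real.exp_pos (-((N : ℝ) * (b * ε / 16) / 2))
  have h4 : ‖pp a z (b : ℂ)‖ ≤ A a w * Real.exp (-((N : ℝ) * (b * ε / 16) / 2)) * r := by
    refine h1.trans ?_
    gcongr
  have h6 : A a w ≤ 2 * N * (A a w * Real.exp (-((N : ℝ) * (b * ε / 16) / 2)) * r) := by
    refine hA.trans ?_
    gcongr
  have h7 : A a w * 1 ≤ A a w * (2 * (N * (r * Real.exp (-((N : ℝ) * (b * ε / 16) / 2))))) := by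
    refine le_trans (by linarith) (h6.trans (le_of_eq ?_))
    ring
  have h8 := le_of_mul_le_mul_left h7 hA0
  linarith

variable {a : ℝ} {N : ℕ} {z w : Fin N → ℂ}

lemma norm_q (z : Fin N → ℂ) (b : ℝ) : ‖pp a z b‖ = |b - a| * ‖q z (b : ℂ)‖ := by
  unfold pp q
  rw [norm_mul]
  congr 1
  rw [← Complex.ofReal_sub, Complex.norm_real, Real.norm_eq_abs]

/-- upper bound for q -/
lemma CE.q_le (h : CE a N z w) (ha : 0 < a) (ha1 : a ≤ 1) {b : ℝ} (hb : 0 ≤ b) (hba : b < a) :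
    ‖q z (b : ℂ)‖ ≤ A a w := by
  have hA0 := h.A_pos
  have h1 := norm_image_sub_le_of_norm_deriv_le_segment' (a := 0) (b := a - b)
      (f := fun s : ℝ => pp a z ((a : ℂ) - s))
      (f' := fun s : ℝ => -dp w ((a : ℂ) - s)) (C := A a w)
      (fun s _ => (h.pp_deriv s).hasDerivWithinAt) (fun s hs => ?_) (a - b) ⟨by linarith, le_rfl⟩
  · have h2 : pp a z ((a : ℂ) - ((a - b : ℝ) : ℂ)) = pp a z (b : ℂ) := by
      congr 1
      push_cast
      ring
    simp only [h2, Complex.ofReal_zero, sub_zero, pp_self] at h1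
    rw [norm_q, abs_of_neg (by linarith)] at h1
    have h3 : (a - b) * ‖q z (b : ℂ)‖ ≤ (a - b) * A a w := by linarith
    exact le_of_mul_le_mul_left h3 (by linarith)
  · have h2 := h.dp_le_real ha ha1 (x := a - s) (by linarith [hs.2]) (by linarith [hs.1])
    have h3 : ((a - s : ℝ) : ℂ) = (a : ℂ) - s := by push_cast; rfl
    rw [h3] at h2
    rw [norm_neg]
    refine h2.trans ?_
    have : Real.exp (-(N / 2 : ℝ) * ((a - s) * (a - (a - s)))) ≤ 1 := by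
      apply Real.exp_le_one_iff.mpr
      have h4 : 0 ≤ (a - s) * (a - (a - s)) := mul_nonneg (by linarith [hs.2]) (by linarith [hs.1])
      have h5 : (0 : ℝ) ≤ N := Nat.cast_nonneg N
      nlinarith
    nlinarith

lemma L7 (hε : 0 < ε) {b : ℝ} (hb : 0 < b) (hbε : b < ε / 2) :
    Ev ε (fun a N z w => Real.log (A a w) - Real.log (2 * N) ≤ Real.log ‖q z (b : ℂ)‖ ∧
      Real.log ‖q z (b : ℂ)‖ ≤ Real.log (A a w) ∧ 0 < ‖q z (b : ℂ)‖) := by
  refine (L5 hε hb hbε).mono ?_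
  filter_upwards [eventually_gt_atTop 0] with N hN0 a ha z w h hA
  have ha0 : 0 < a := lt_of_lt_of_le hε ha.1
  have ha1 : a ≤ 1 := by linarith [ha.2]
  have hNpos : (0 : ℝ) < N := by exact_mod_cast hN0
  have hA0 := h.A_pos
  have hba : b < a := by linarith [ha.1]
  rw [norm_q, abs_of_neg (by linarith)] at hA
  have hq0 : 0 < ‖q z (b : ℂ)‖ := by
    by_contra hc
    push Not at hc
    have h0 : ‖q z (b : ℂ)‖ = 0 := le_antisymm hc (norm_nonneg _)
    rw [h0] at hA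
    simp at hA
    linarith
  refine ⟨?_, Real.log_le_log hq0 (h.q_le ha0 ha1 hb.le hba), hq0⟩
  rw [sub_le_iff_le_add, ← Real.log_mul hq0.ne' (by positivity)]
  apply Real.log_le_log hA0
  refine hA.trans ?_
  have : -(b - a) * ‖q z (b : ℂ)‖ ≤ 1 * ‖q z (b : ℂ)‖ := by
    gcongr
    linarith
  nlinarith

noncomputable def HH {N : ℕ} (z : Fin N → ℂ) (b : ℝ) : ℝ := ∑ j, Real.log ‖1 - z j * b‖
noncomputable def Del {N : ℕ} (z : Fin N → ℂ) : ℝ := ∑ j, (1 - ‖z j‖ ^ 2)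

lemma sq_id (z : ℂ) (b : ℝ) : ‖1 - z * b‖ ^ 2 = ‖(b : ℂ) - z‖ ^ 2 + (1 - b ^ 2) * (1 - ‖z‖ ^ 2) := by
  rw [Complex.sq_norm, Complex.sq_norm, Complex.sq_norm, Complex.normSq_apply,
    Complex.normSq_apply, Complex.normSq_apply]
  simp only [Complex.sub_re, Complex.one_re, Complex.mul_re, Complex.ofReal_re, Complex.ofReal_im,
    mul_zero, sub_zero, Complex.sub_im, Complex.one_im, Complex.mul_im, zero_add, add_zero]
  ring

lemma log_id {z : ℂ} {b : ℝ} (hz : ‖z‖ ≤ 1) (hb : 0 < b) (hb1 : b < 1) (hne : (b : ℂ) ≠ z) :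
    Real.log ‖1 - z * b‖ - Real.log ‖(b : ℂ) - z‖ =
      (1 / 2) * Real.log (1 + (1 - b ^ 2) * (1 - ‖z‖ ^ 2) / ‖(b : ℂ) - z‖ ^ 2) := by
  have h1 : 0 < ‖(b : ℂ) - z‖ := norm_pos_iff.mpr (sub_ne_zero.mpr hne)
  have hz2 : 0 ≤ 1 - ‖z‖ ^ 2 := by
    have := norm_nonneg z
    nlinarith
  have hb2 : 0 ≤ 1 - b ^ 2 := by nlinarith
  have h2 : 0 < ‖1 - z * b‖ ^ 2 := by
    rw [sq_id]
    have := mul_nonneg hb2 hz2
    positivity
  have h3 : 1 + (1 - b ^ 2) * (1 - ‖z‖ ^ 2) / ‖(b : ℂ) - z‖ ^ 2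
      = ‖1 - z * b‖ ^ 2 / ‖(b : ℂ) - z‖ ^ 2 := by
    rw [sq_id]
    field_simp
  rw [h3, Real.log_div h2.ne' (by positivity), Real.log_pow, Real.log_pow]
  push_cast
  ring

lemma log_q (z : Fin N → ℂ) {b : ℝ} (hne : ∀ j, (b : ℂ) ≠ z j) :
    Real.log ‖q z (b : ℂ)‖ = ∑ j, Real.log ‖(b : ℂ) - z j‖ := by
  unfold q
  rw [norm_prod, Real.log_prod]
  intro j _
  exact norm_ne_zero_iff.mpr (sub_ne_zero.mpr (hne j))

lemma HH_lower (hz : ∀ j, ‖z j‖ ≤ 1) {b : ℝ} (hb : 0 < b) (hb1 : b < 1)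
    (hne : ∀ j, (b : ℂ) ≠ z j) :
    ((1 - b) / (1 + b)) / 4 * Del z ≤ HH z b - Real.log ‖q z (b : ℂ)‖ := by
  rw [log_q z hne]
  unfold HH Del
  rw [← Finset.sum_sub_distrib, Finset.mul_sum]
  apply Finset.sum_le_sum
  intro j _
  rw [log_id (hz j) hb hb1 (hne j)]
  have hz2 : 0 ≤ 1 - ‖z j‖ ^ 2 := by
    have := norm_nonneg (z j)
    have := hz j
    nlinarith
  have hz3 : 1 - ‖z j‖ ^ 2 ≤ 1 := by
    have := sq_nonneg ‖z j‖
    linarith
  have h1 : 0 < ‖(b : ℂ) - z j‖ := norm_pos_iff.mpr (sub_ne_zero.mpr (hne j))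
  have h2 : ‖(b : ℂ) - z j‖ ≤ 1 + b := by
    have := norm_sub_le (b : ℂ) (z j)
    rw [Complex.norm_real, Real.norm_of_nonneg hb.le] at this
    have := hz j
    linarith
  set v : ℝ := ((1 - b) / (1 + b)) * (1 - ‖z j‖ ^ 2) with hv
  have hc0 : 0 ≤ (1 - b) / (1 + b) := div_nonneg (by linarith) (by linarith)
  have hc1 : (1 - b) / (1 + b) ≤ 1 := by
    rw [div_le_one (by linarith)]
    linarith
  have hv0 : 0 ≤ v := mul_nonneg hc0 hz2
  have hv1 : v ≤ 1 := by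
    rw [hv]
    nlinarith
  have hvu : v ≤ (1 - b ^ 2) * (1 - ‖z j‖ ^ 2) / ‖(b : ℂ) - z j‖ ^ 2 := by
    have h3 : v = (1 - b ^ 2) * (1 - ‖z j‖ ^ 2) / (1 + b) ^ 2 := by
      rw [hv]
      field_simp
      ring
    rw [h3]
    have : 0 ≤ (1 - b ^ 2) * (1 - ‖z j‖ ^ 2) := mul_nonneg (by nlinarith) hz2
    gcongr
  have h4 : v / 2 ≤ Real.log (1 + v) := by
    have h5 := Real.one_sub_inv_le_log_of_pos (show 0 < 1 + v by linarith)
    refine le_trans ?_ h5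
    have h6 : 1 - (1 + v)⁻¹ = v / (1 + v) := by
      field_simp
      ring
    rw [h6, div_le_div_iff₀ (by norm_num) (by linarith)]
    nlinarith
  have h5 : Real.log (1 + v) ≤
      Real.log (1 + (1 - b ^ 2) * (1 - ‖z j‖ ^ 2) / ‖(b : ℂ) - z j‖ ^ 2) := by
    apply Real.log_le_log (by linarith)
    linarith
  linarith

lemma HH_upper (hz : ∀ j, ‖z j‖ ≤ 1) {b r : ℝ} (hb : 0 < b) (hb1 : b < 1) (hr : 0 < r)
    (hne : ∀ j, r ≤ ‖z j - b‖) :
    HH z b - Real.log ‖q z (b : ℂ)‖ ≤ (1 / (2 * r ^ 2)) * Del z := by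
  have hne' : ∀ j, (b : ℂ) ≠ z j := by
    intro j hc
    have := hne j
    rw [← hc, sub_self, norm_zero] at this
    linarith
  rw [log_q z hne']
  unfold HH Del
  rw [← Finset.sum_sub_distrib, Finset.mul_sum]
  apply Finset.sum_le_sum
  intro j _
  rw [log_id (hz j) hb hb1 (hne' j)]
  have hz2 : 0 ≤ 1 - ‖z j‖ ^ 2 := by
    have := norm_nonneg (z j)
    have := hz j
    nlinarith
  have h1 : r ≤ ‖(b : ℂ) - z j‖ := by
    rw [norm_sub_rev]
    exact hne j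
  have hu0 : 0 ≤ (1 - b ^ 2) * (1 - ‖z j‖ ^ 2) := mul_nonneg (by nlinarith) hz2
  have h2 : Real.log (1 + (1 - b ^ 2) * (1 - ‖z j‖ ^ 2) / ‖(b : ℂ) - z j‖ ^ 2)
      ≤ (1 - b ^ 2) * (1 - ‖z j‖ ^ 2) / ‖(b : ℂ) - z j‖ ^ 2 := by
    have h3 : 0 ≤ (1 - b ^ 2) * (1 - ‖z j‖ ^ 2) / ‖(b : ℂ) - z j‖ ^ 2 := by positivity
    have := Real.log_le_sub_one_of_pos (show 0 < 1 + (1 - b ^ 2) * (1 - ‖z j‖ ^ 2) /
      ‖(b : ℂ) - z j‖ ^ 2 by linarith)
    linarith
  have h3 : (1 - b ^ 2) * (1 - ‖z j‖ ^ 2) / ‖(b : ℂ) - z j‖ ^ 2 ≤ (1 - ‖z j‖ ^ 2) / r ^ 2 := by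
    have : (1 - b ^ 2) * (1 - ‖z j‖ ^ 2) ≤ (1 - ‖z j‖ ^ 2) := by nlinarith
    gcongr
  calc _ ≤ (1 / 2) * ((1 - ‖z j‖ ^ 2) / r ^ 2) := by linarith
    _ = _ := by field_simp

lemma HH_le (hz : ∀ j, ‖z j‖ ≤ 1) {b : ℝ} (hb : 0 < b) (hb1 : b < 1) : HH z b ≤ N * b := by
  unfold HH
  have : ∀ j ∈ (Finset.univ : Finset (Fin N)), Real.log ‖1 - z j * b‖ ≤ b := by
    intro j _
    have h1 : ‖1 - z j * b‖ ≤ 1 + b := by
      have h2 := norm_sub_le (1 : ℂ) (z j * b)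
      rw [norm_mul, Complex.norm_real, Real.norm_of_nonneg hb.le, norm_one] at h2
      have := hz j
      nlinarith
    have h0 : 0 < ‖1 - z j * b‖ := by
      rw [norm_pos_iff]
      intro hc
      have h3 : ‖z j * (b : ℂ)‖ = 1 := by
        rw [← sub_eq_zero.mp hc, norm_one]
      rw [norm_mul, Complex.norm_real, Real.norm_of_nonneg hb.le] at h3
      have := hz j
      have := norm_nonneg (z j)
      nlinarith
    have h2 := Real.log_le_log h0 h1
    have h3 := Real.log_le_sub_one_of_pos (show 0 < 1 + b by linarith)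
    linarith
  have := Finset.sum_le_sum this
  simpa using this

lemma log2N_small {δ : ℝ} (hδ : 0 < δ) : ∀ᶠ N : ℕ in atTop, Real.log (2 * N) ≤ δ * N := by
  have h1 : Tendsto (fun x : ℝ => Real.log x / x) atTop (𝓝 0) := by
    have := Real.isLittleO_log_id_atTop.tendsto_div_nhds_zero
    simpa using this
  have h2 : Tendsto (fun N : ℕ => (2 * N : ℝ)) atTop atTop :=
    tendsto_natCast_atTop_atTop.const_mul_atTop two_pos
  have h3 := h1.comp h2
  filter_upwards [h3.eventually (gt_mem_nhds (show 0 < δ / 2 by positivity)),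
    eventually_gt_atTop 0] with N hN hN0
  have hNpos : (0 : ℝ) < N := by exact_mod_cast hN0
  simp only [Function.comp] at hN
  rw [div_lt_iff₀ (by positivity)] at hN
  linarith

lemma Del_nonneg (hz : ∀ j, ‖z j‖ ≤ 1) : 0 ≤ Del z := by
  unfold Del
  apply Finset.sum_nonneg
  intro j _
  have := norm_nonneg (z j)
  have := hz j
  nlinarith

lemma L8 (hε : 0 < ε) (hε1 : ε ≤ 1) {δ : ℝ} (hδ : 0 < δ) :
    Ev ε (fun a N z w => Real.log (A a w) ≤ δ * N ∧ Del z ≤ δ * N) := by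
  obtain ⟨b, hb, hbε, hbδ⟩ : ∃ b : ℝ, 0 < b ∧ b < ε / 2 ∧ b ≤ δ / 24 :=
    ⟨min (ε / 4) (δ / 24), lt_min (by positivity) (by positivity),
      lt_of_le_of_lt (min_le_left _ _) (by linarith), min_le_right _ _⟩
  refine ((L7 hε hb hbε).and (L6 hε hε1 hb hbε)).mono ?_
  filter_upwards [log2N_small (show 0 < δ / 24 by positivity)] with N hN a ha z w h hA
  obtain ⟨⟨h1, h2, h3⟩, h4⟩ := hA
  have hr : 0 < b * ε / 48 := by positivity
  have hne : ∀ j, (b : ℂ) ≠ z j := by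
    intro j hc
    have := h4 j
    rw [← hc, sub_self, norm_zero] at this
    linarith
  have hb1 : b < 1 := by linarith
  have h5 := HH_lower h.hz hb hb1 hne
  have h6 := HH_le h.hz hb hb1
  have h7 := Del_nonneg h.hz
  have hN0 : (0 : ℝ) ≤ N := Nat.cast_nonneg N
  have h8 : (1 / 3 : ℝ) ≤ (1 - b) / (1 + b) := by
    rw [div_le_div_iff₀ (by norm_num) (by linarith)]
    linarith
  have h9 : (1 / 3 : ℝ) / 4 * Del z ≤ (1 - b) / (1 + b) / 4 * Del z := by gcongr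
  have h10 : N * b ≤ N * (δ / 24) := by gcongr
  have h11 : 0 ≤ Real.log (A a w) := Real.log_nonneg h.A_ge_one
  have h12 : (0 : ℝ) ≤ δ * N := by positivity
  constructor
  · nlinarith
  · nlinarith

lemma L9 (hε : 0 < ε) (hε1 : ε ≤ 1) {b : ℝ} (hb : 0 < b) (hbε : b < ε / 2) {δ : ℝ} (hδ : 0 < δ) :
    Ev ε (fun _ N z _ => |HH z b| ≤ δ * N) := by
  set r := b * ε / 48 with hr
  have hr0 : 0 < r := by positivity
  set δ' : ℝ := min (δ / 2) (δ * r ^ 2) with hδ'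
  have hδ'0 : 0 < δ' := lt_min (by positivity) (by positivity)
  refine (((L7 hε hb hbε).and (L6 hε hε1 hb hbε)).and (L8 hε hε1 hδ'0)).mono ?_
  filter_upwards [log2N_small hδ] with N hN a ha z w h hA
  obtain ⟨⟨⟨h1, h2, h3⟩, h4⟩, h5, h6⟩ := hA
  have hb1 : b < 1 := by linarith
  have hne : ∀ j, (b : ℂ) ≠ z j := by
    intro j hc
    have := h4 j
    rw [← hc, sub_self, norm_zero] at this
    linarith
  have h7 := HH_lower h.hz hb hb1 hne
  have h8 := HH_upper h.hz hb hb1 hr0 h4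
  have h9 := Del_nonneg h.hz
  have hN0 : (0 : ℝ) ≤ N := Nat.cast_nonneg N
  have h11 : 0 ≤ Real.log (A a w) := Real.log_nonneg h.A_ge_one
  have hc0 : 0 ≤ (1 - b) / (1 + b) / 4 := by
    have : 0 ≤ (1 - b) / (1 + b) := div_nonneg (by linarith) (by linarith)
    positivity
  have h12 := mul_nonneg hc0 h9
  rw [abs_le]
  constructor
  · linarith
  · have h13 : (1 / (2 * r ^ 2)) * Del z ≤ (δ / 2) * N := by
      have h14 : Del z ≤ (δ * r ^ 2) * N := by
        refine h6.trans ?_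
        gcongr
        exact min_le_right _ _
      calc (1 / (2 * r ^ 2)) * Del z ≤ (1 / (2 * r ^ 2)) * ((δ * r ^ 2) * N) := by gcongr
        _ = _ := by field_simp
    have h15 : δ' * N ≤ (δ / 2) * N := by
      gcongr
      exact min_le_left _ _
    linarith

end Pool.Agent.H218R3.Sd
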