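import Pool.Agent.H218R3.Sd4

set_option autoImplicit false
set_option linter.unusedVariables false

open Complex Filter Topology

namespace Pool.Agent.H218R3.Sd

variable {ε : ℝ}

/-- shifted power sums -/
lemma L12a (hε : 0 < ε) (hε1 : ε ≤ 1) {T : ℝ} (hT : 0 < T) (m : ℕ) {δ : ℝ} (hδ : 0 < δ) :
    Ev ε (fun _ N _ w => |(∑ k, (w k + T) ^ m).re - N * T ^ m| ≤ δ * N) := by
  set δ' : ℝ := δ / (1 + T) ^ m with hδ'
  have hδ'0 : 0 < δ' := by positivity
  have h1 : ∀ j ∈ Finset.range (m + 1), Ev ε (fun _ N _ w => 1 ≤ j → |RR w j| ≤ δ' * N) := by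
    intro j hj
    by_cases hj1 : 1 ≤ j
    · refine (L11 hε hε1 j hj1 δ' hδ'0).mono ?_
      exact Eventually.of_forall (fun N a _ z w _ h _ => h)
    · exact Eventually.of_forall (fun N a _ z w _ h => absurd h hj1)
  refine (Ev.all _ h1).mono (Eventually.of_forall ?_)
  intro N a ha z w h hR
  have hN0 : (0 : ℝ) ≤ N := Nat.cast_nonneg N
  have e1 : (∑ k, (w k + T) ^ m).re = ∑ j ∈ Finset.range (m + 1),
      (T ^ (m - j) * (m.choose j : ℝ)) * RR w j := by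
    have h2 : ∀ k ∈ (Finset.univ : Finset (Fin N)), (w k + (T : ℂ)) ^ m =
        ∑ j ∈ Finset.range (m + 1), ((T ^ (m - j) * (m.choose j : ℝ) : ℝ) : ℂ) * w k ^ j := by
      intro k _
      rw [add_pow]
      apply Finset.sum_congr rfl
      intro j _
      push_cast
      ring
    rw [Finset.sum_congr rfl h2, Finset.sum_comm, Complex.re_sum]
    apply Finset.sum_congr rfl
    intro j _
    rw [← Finset.mul_sum, Complex.re_ofReal_mul]
    rfl
  have hR0 : RR w 0 = N := by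
    unfold RR
    simp
  rw [e1, Finset.sum_range_succ']
  simp only [Nat.sub_zero, Nat.choose_zero_right, Nat.cast_one, mul_one, hR0]
  have e2 : (∑ j ∈ Finset.range m, T ^ (m - (j + 1)) * (m.choose (j + 1) : ℝ) * RR w (j + 1)) +
      T ^ m * N - N * T ^ m = ∑ j ∈ Finset.range m, T ^ (m - (j + 1)) * (m.choose (j + 1) : ℝ) *
        RR w (j + 1) := by ring
  rw [e2]
  refine (Finset.abs_sum_le_sum_abs _ _).trans ?_
  have h3 : ∀ j ∈ Finset.range m, |T ^ (m - (j + 1)) * (m.choose (j + 1) : ℝ) * RR w (j + 1)| ≤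
      (T ^ (m - (j + 1)) * (m.choose (j + 1) : ℝ)) * (δ' * N) := by
    intro j hj
    rw [abs_mul, abs_of_nonneg (by positivity)]
    have := hR (j + 1) (by rw [Finset.mem_range] at hj ⊢; omega) (by omega)
    gcongr
  refine (Finset.sum_le_sum h3).trans ?_
  rw [← Finset.sum_mul]
  have h4 : ∑ j ∈ Finset.range m, T ^ (m - (j + 1)) * (m.choose (j + 1) : ℝ) ≤ (1 + T) ^ m := by
    rw [add_pow, Finset.sum_range_succ']
    simp only [one_pow, one_mul]
    have : 0 ≤ T ^ (m - 0) * (m.choose 0 : ℝ) := by positivity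
    linarith
  calc _ ≤ (1 + T) ^ m * (δ' * N) := by gcongr
    _ = δ * N := by
        rw [hδ']; field_simp

/-- the outlier cost -/
lemma cost_lower {s s₀ : ℝ} (h0 : 1 < s₀) (hs : s₀ ≤ s) :
    s₀ - 1 - Real.log s₀ ≤ s - 1 - Real.log s := by
  have hs0 : 0 < s₀ := by linarith
  have h1 : Real.log s - Real.log s₀ = Real.log (s / s₀) := by
    rw [Real.log_div (by linarith) (by linarith)]
  have h2 := Real.log_le_sub_one_of_pos (show 0 < s / s₀ from div_pos (by linarith) hs0)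
  have h3 : s / s₀ - 1 ≤ s - s₀ := by
    have : s / s₀ - 1 = (s - s₀) / s₀ := by field_simp
    rw [this, div_le_iff₀ hs0]
    nlinarith
  linarith

variable {a : ℝ} {N : ℕ} {z w : Fin N → ℂ}

lemma geom_id {a T : ℝ} (hT : 0 < T) (ha : 0 < a) {w : ℂ} (hw : w ≠ a) (M : ℕ) :
    ((a / (a + T) : ℝ) : ℂ) * ∑ m ∈ Finset.range M, ((w + T) / ((a + T : ℝ) : ℂ)) ^ m
      = (a : ℂ) * ((a : ℂ) - w)⁻¹ * (1 - ((w + T) / ((a + T : ℝ) : ℂ)) ^ M) := by
  have h0 : ((a : ℂ) + T) ≠ 0 := by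
    have : ((a + T : ℝ) : ℂ) ≠ 0 := by
      exact_mod_cast (by linarith : a + T ≠ 0)
    simpa using this
  have h1 : (a : ℂ) - w ≠ 0 := sub_ne_zero.mpr hw.symm
  have hne : (w + T) / ((a + T : ℝ) : ℂ) ≠ 1 := by
    intro hc
    push_cast at hc
    rw [div_eq_one_iff_eq h0] at hc
    apply h1
    linear_combination -hc
  rw [geom_sum_eq hne]
  have h2 : (w + T) / ((a + T : ℝ) : ℂ) - 1 ≠ 0 := sub_ne_zero.mpr hne
  have h3 : (w + T) / ((a + T : ℝ) : ℂ) - 1 = -((a : ℂ) - w) / (a + T) := by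
    push_cast
    field_simp
    ring
  rw [h3]
  generalize ((w + T) / ((a + T : ℝ) : ℂ)) ^ M = Q
  push_cast
  field_simp
  ring

/-- the truncated geometric series for `a/(a-u)` -/
noncomputable def FF (a T : ℝ) (M : ℕ) (u : ℂ) : ℂ := ((a / (a + T) : ℝ) : ℂ) *
    ∑ m ∈ Finset.range M, ((u + T) / ((a + T : ℝ) : ℂ)) ^ m

lemma lower_term {a T δ : ℝ} (ha0 : 0 < a) (hT1 : 1 ≤ T) (hδ0 : 0 < δ) (M : ℕ) {N : ℕ}
    (w : Fin N → ℂ)
    (h1 : ∀ m ∈ Finset.range M, |(∑ k, (w k + T) ^ m).re - N * T ^ m| ≤ δ * N) :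
    N * (1 - (T / (a + T)) ^ M) - M * (δ * N) ≤ ∑ k, (FF a T M (w k)).re := by
  have hT : 0 < T := by linarith
  have haT : 0 < a + T := by linarith
  have haT1 : 1 ≤ a + T := by linarith
  have hc0 : 0 ≤ a / (a + T) := by positivity
  have hc1 : a / (a + T) ≤ 1 := by
    rw [div_le_one haT]
    linarith
  have e1 : ∑ k, (FF a T M (w k)).re = (a / (a + T)) * ∑ m ∈ Finset.range M,
      ((a + T) ^ m)⁻¹ * (∑ k, (w k + T) ^ m).re := by
    rw [Finset.mul_sum]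
    have e2 : ∀ k ∈ (Finset.univ : Finset (Fin N)), (FF a T M (w k)).re = ∑ m ∈ Finset.range M,
        (a / (a + T)) * (((a + T) ^ m)⁻¹ * ((w k + T) ^ m).re) := by
      intro k _
      unfold FF
      rw [Complex.re_ofReal_mul, Complex.re_sum, Finset.mul_sum]
      apply Finset.sum_congr rfl
      intro m _
      congr 1
      rw [div_pow, div_eq_mul_inv, mul_comm ((w k + (T : ℂ)) ^ m), ← Complex.ofReal_pow,
        ← Complex.ofReal_inv, Complex.re_ofReal_mul]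
    rw [Finset.sum_congr rfl e2, Finset.sum_comm]
    apply Finset.sum_congr rfl
    intro m _
    rw [Complex.re_sum, Finset.mul_sum, Finset.mul_sum]
  rw [e1]
  have e3 : (a / (a + T)) * ∑ m ∈ Finset.range M, ((a + T) ^ m)⁻¹ * (N * T ^ m)
      = N * (1 - (T / (a + T)) ^ M) := by
    have e4 : ∀ m ∈ Finset.range M, ((a + T) ^ m)⁻¹ * (N * T ^ m) = N * (T / (a + T)) ^ m := by
      intro m _
      rw [div_pow, div_eq_mul_inv]; ring
    rw [Finset.sum_congr rfl e4, ← Finset.mul_sum]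
    have hne : T / (a + T) ≠ 1 := by
      intro hc
      rw [div_eq_one_iff_eq haT.ne'] at hc
      linarith
    rw [geom_sum_eq hne]
    have h3 : T / (a + T) - 1 = -a / (a + T) := by
      field_simp
      ring
    rw [h3]
    generalize (T / (a + T)) ^ M = Q
    field_simp
    ring
  have e5 : (a / (a + T)) * ∑ m ∈ Finset.range M, ((a + T) ^ m)⁻¹ * (N * T ^ m)
      - M * (δ * N) ≤ (a / (a + T)) * ∑ m ∈ Finset.range M,
      ((a + T) ^ m)⁻¹ * (∑ k, (w k + T) ^ m).re := by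
    rw [sub_le_iff_le_add, ← sub_le_iff_le_add', ← mul_sub, ← Finset.sum_sub_distrib]
    have e6 : ∑ m ∈ Finset.range M, (((a + T) ^ m)⁻¹ * (N * T ^ m) -
        ((a + T) ^ m)⁻¹ * (∑ k, (w k + T) ^ m).re) ≤ M * (δ * N) := by
      have : ∀ m ∈ Finset.range M, (((a + T) ^ m)⁻¹ * (N * T ^ m) -
        ((a + T) ^ m)⁻¹ * (∑ k, (w k + T) ^ m).re) ≤ δ * N := by
        intro m hm
        have h3 := h1 m hm
        rw [abs_le] at h3
        rw [← mul_sub]
        have h4 : ((a + T) ^ m)⁻¹ ≤ 1 := inv_le_one_of_one_le₀ (one_le_pow₀ haT1)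
        have h5 : 0 ≤ ((a + T) ^ m)⁻¹ := by positivity
        have h6 : 0 ≤ δ * N := by positivity
        calc _ ≤ ((a + T) ^ m)⁻¹ * (δ * N) := by
              gcongr
              linarith
          _ ≤ 1 * (δ * N) := by gcongr
          _ = _ := one_mul _
      refine (Finset.sum_le_sum this).trans (le_of_eq ?_)
      simp
    have h6 : 0 ≤ M * (δ * N) := by positivity
    calc _ ≤ (a / (a + T)) * (M * (δ * N)) := by gcongr
      _ ≤ 1 * (M * (δ * N)) := by gcongr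
      _ = _ := one_mul _
  rw [e3] at e5
  exact e5

lemma theta_bound {a T θ : ℝ} (ha0 : 0 < a) (ha1 : a ≤ 1) (hT1 : 1 ≤ T) (haT2 : 4 ≤ a * T)
    (hθ0 : 0 ≤ θ) (hθ : 1 - 1 / (1 + T) ^ 2 ≤ θ ^ 2) {u : ℂ} (hu : u.re ^ 2 + u.im ^ 2 ≤ 1)
    (hre : u.re ≤ 3 * a / 4) : ‖u + (T : ℂ)‖ ≤ θ * (a + T) := by
  have hT : 0 < T := by linarith
  have haT : 0 < a + T := by linarith
  have h4 : ‖u + (T : ℂ)‖ ^ 2 ≤ (θ * (a + T)) ^ 2 := by
    rw [Complex.sq_norm, Complex.normSq_apply]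
    simp only [Complex.add_re, Complex.ofReal_re, Complex.add_im, Complex.ofReal_im, add_zero]
    have h5 : (u.re + T) * (u.re + T) + u.im * u.im ≤ 1 + (3 * a / 2) * T + T ^ 2 := by
      have : u.re * T ≤ 3 * a / 4 * T := by gcongr
      linarith
    have h6 : 1 + (3 * a / 2) * T + T ^ 2 ≤ (a + T) ^ 2 - 1 := by
      have := sq_nonneg a
      linarith
    have h7 : (a + T) ^ 2 - 1 ≤ (θ * (a + T)) ^ 2 := by
      have h9 : (a + T) ^ 2 / (1 + T) ^ 2 ≤ 1 := by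
        rw [div_le_one (by positivity)]
        gcongr
      calc (a + T) ^ 2 - 1 ≤ (a + T) ^ 2 - (a + T) ^ 2 / (1 + T) ^ 2 := by linarith
        _ = (1 - 1 / (1 + T) ^ 2) * (a + T) ^ 2 := by ring
        _ ≤ θ ^ 2 * (a + T) ^ 2 := by gcongr
        _ = _ := by ring
    linarith
  exact (pow_le_pow_iff_left₀ (norm_nonneg _) (by positivity) two_ne_zero).mp h4

lemma FF_le {a T : ℝ} (ha0 : 0 < a) (hT1 : 1 ≤ T) (M : ℕ) {u : ℂ} (hu : ‖u‖ ≤ 1) :
    (FF a T M u).re ≤ ∑ m ∈ Finset.range M, (1 + T) ^ m := by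
  have hT : 0 < T := by linarith
  have haT : 0 < a + T := by linarith
  have haT1 : 1 ≤ a + T := by linarith
  have hc0 : 0 ≤ a / (a + T) := by positivity
  have hc1 : a / (a + T) ≤ 1 := by
    rw [div_le_one haT]
    linarith
  refine (Complex.re_le_norm _).trans ?_
  unfold FF
  rw [norm_mul, Complex.norm_real, Real.norm_of_nonneg hc0]
  have h7 : ‖∑ m ∈ Finset.range M, ((u + T) / ((a + T : ℝ) : ℂ)) ^ m‖ ≤
      ∑ m ∈ Finset.range M, (1 + T) ^ m := by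
    refine (norm_sum_le _ _).trans ?_
    apply Finset.sum_le_sum
    intro m _
    rw [norm_pow]
    gcongr
    rw [norm_div, Complex.norm_real, Real.norm_of_nonneg haT.le, div_le_iff₀ haT]
    have h8 : ‖u + (T : ℂ)‖ ≤ 1 + T := by
      have := norm_add_le u (T : ℂ)
      rw [Complex.norm_real, Real.norm_of_nonneg hT.le] at this
      linarith
    calc ‖u + (T : ℂ)‖ ≤ (1 + T) * 1 := by rw [mul_one]; exact h8
      _ ≤ (1 + T) * (a + T) := by gcongr
  have h0 : 0 ≤ ∑ m ∈ Finset.range M, (1 + T) ^ m :=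
    Finset.sum_nonneg (fun m _ => by positivity)
  calc _ ≤ 1 * ∑ m ∈ Finset.range M, (1 + T) ^ m := by gcongr
    _ = _ := one_mul _

lemma CE.upper_term (h : CE a N z w) {T θ ε CM η₀ : ℝ} (hε : 0 < ε) (ha : ε ≤ a)
    (ha1 : a ≤ 1) (hT1 : 1 ≤ T)
    (haT2 : 4 ≤ a * T) (hθ0 : 0 ≤ θ) (hθ : 1 - 1 / (1 + T) ^ 2 ≤ θ ^ 2) (M : ℕ)
    (hCM : CM = ∑ m ∈ Finset.range M, (1 + T) ^ m)
    (hη₀ : η₀ = (1 + ε ^ 2 / 2) - 1 - Real.log (1 + ε ^ 2 / 2)) (hη₀0 : 0 < η₀) (k : Fin N) :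
    (FF a T M (w k)).re ≤ a * ‖yy a w k‖ * (1 + θ ^ M) + (CM / η₀) *
      ((‖w k - (a : ℂ)‖ ^ 2)⁻¹ - 1 - Real.log ((‖w k - (a : ℂ)‖ ^ 2)⁻¹)) := by
  have ha0 : 0 < a := lt_of_lt_of_le hε ha
  have hT : 0 < T := by linarith
  have haT : 0 < a + T := by linarith
  have hs := h.s_pos k
  have hn := h.npos k
  have hCM0 : 0 ≤ CM := by
    rw [hCM]
    exact Finset.sum_nonneg (fun m _ => by positivity)
  have hcost : 0 ≤ (‖w k - (a : ℂ)‖ ^ 2)⁻¹ - 1 - Real.log ((‖w k - (a : ℂ)‖ ^ 2)⁻¹) := by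
    have := Real.log_le_sub_one_of_pos hs
    linarith
  have hw := h.hw k
  have hw2 : (w k).re ^ 2 + (w k).im ^ 2 ≤ 1 := by
    have : ‖w k‖ ^ 2 ≤ 1 := by
      have := norm_nonneg (w k)
      nlinarith
    rw [Complex.sq_norm, Complex.normSq_apply] at this
    nlinarith
  by_cases hre : (w k).re ≤ 3 * a / 4
  · have h3 : (FF a T M (w k)).re ≤ a * ‖yy a w k‖ * (1 + θ ^ M) := by
      refine (Complex.re_le_norm _).trans ?_
      unfold FF
      rw [geom_id hT ha0 (h.hwa k), norm_mul, norm_mul, Complex.norm_real,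
        Real.norm_of_nonneg ha0.le]
      unfold yy
      have h4 : ‖(w k + (T : ℂ)) / ((a + T : ℝ) : ℂ)‖ ≤ θ := by
        rw [norm_div, Complex.norm_real, Real.norm_of_nonneg haT.le, div_le_iff₀ haT]
        exact theta_bound ha0 ha1 hT1 haT2 hθ0 hθ hw2 hre
      have h5 : ‖1 - ((w k + (T : ℂ)) / ((a + T : ℝ) : ℂ)) ^ M‖ ≤ 1 + θ ^ M := by
        refine (norm_sub_le _ _).trans ?_
        rw [norm_one, norm_pow]
        gcongr
      gcongr
    have h5 : 0 ≤ (CM / η₀) * ((‖w k - (a : ℂ)‖ ^ 2)⁻¹ - 1 -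
      Real.log ((‖w k - (a : ℂ)‖ ^ 2)⁻¹)) := mul_nonneg (by positivity) hcost
    linarith
  · push Not at hre
    have e2 : ‖w k - (a : ℂ)‖ ^ 2 = ((w k).re - a) ^ 2 + (w k).im ^ 2 := by
      rw [Complex.sq_norm, Complex.normSq_apply]
      simp only [Complex.sub_re, Complex.sub_im, Complex.ofReal_re, Complex.ofReal_im]
      ring
    have h3 : ‖w k - (a : ℂ)‖ ^ 2 ≤ 1 - a ^ 2 / 2 := by
      rw [e2]
      nlinarith
    have hs₀1 : 1 < 1 + ε ^ 2 / 2 := by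
      have : 0 < ε ^ 2 / 2 := by positivity
      linarith
    have h4 : 1 + ε ^ 2 / 2 ≤ (‖w k - (a : ℂ)‖ ^ 2)⁻¹ := by
      rw [le_inv_comm₀ (by linarith) (by positivity)]
      refine h3.trans ?_
      have h5 : ε ^ 2 ≤ a ^ 2 := by gcongr
      have h6 : 1 - a ^ 2 / 2 ≤ 1 - ε ^ 2 / 2 := by linarith
      refine h6.trans ?_
      rw [← one_div, le_div_iff₀ (by positivity)]
      nlinarith [sq_nonneg (ε ^ 2)]
    have h5 := cost_lower hs₀1 h4
    rw [← hη₀] at h5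
    have h6 : (FF a T M (w k)).re ≤ CM := by
      rw [hCM]
      exact FF_le ha0 hT1 M hw
    have h7 : CM ≤ (CM / η₀) * ((‖w k - (a : ℂ)‖ ^ 2)⁻¹ - 1 -
        Real.log ((‖w k - (a : ℂ)‖ ^ 2)⁻¹)) := by
      calc CM = (CM / η₀) * η₀ := by field_simp
        _ ≤ _ := by gcongr
    have h8 : 0 ≤ a * ‖yy a w k‖ * (1 + θ ^ M) := by positivity
    linarith

theorem final (hε : 0 < ε) (hε1 : ε ≤ 1) :
    ∀ᶠ N : ℕ in atTop, ∀ a ∈ Set.Icc ε (1 - ε), ∀ z w : Fin N → ℂ, ¬ CE a N z w := by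
  obtain ⟨T, hTdef⟩ : ∃ T : ℝ, T = 4 / ε := ⟨_, rfl⟩
  have hT : 0 < T := by rw [hTdef]; positivity
  have hεT : ε * T = 4 := by rw [hTdef]; field_simp
  have hT1 : 1 ≤ T := by nlinarith
  obtain ⟨θ, hθdef⟩ : ∃ θ : ℝ, θ = 1 - 1 / (2 * (1 + T) ^ 2) := ⟨_, rfl⟩
  have hθ0 : 0 ≤ θ := by
    rw [hθdef, sub_nonneg, div_le_one (by positivity)]
    nlinarith
  have hθ1 : θ < 1 := by
    rw [hθdef]
    have : 0 < 1 / (2 * (1 + T) ^ 2) := by positivity
    linarith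
  have hθ2 : 1 - 1 / (1 + T) ^ 2 ≤ θ ^ 2 := by
    rw [hθdef]
    have : (1 - 1 / (2 * (1 + T) ^ 2)) ^ 2
        = 1 - 1 / (1 + T) ^ 2 + (1 / (2 * (1 + T) ^ 2)) ^ 2 := by
      field_simp
      ring
    rw [this]
    have := sq_nonneg (1 / (2 * (1 + T) ^ 2))
    linarith
  have hρ1 : T / (ε + T) < 1 := by
    rw [div_lt_one (by positivity)]
    linarith
  have hρ0 : 0 ≤ T / (ε + T) := by positivity
  obtain ⟨M, hM1, hM2⟩ : ∃ M : ℕ, (T / (ε + T)) ^ M < ε / 8 ∧ θ ^ M < ε / 8 := by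
    have t1 := tendsto_pow_atTop_nhds_zero_of_lt_one hρ0 hρ1
    have t2 := tendsto_pow_atTop_nhds_zero_of_lt_one hθ0 hθ1
    exact ((t1.eventually (gt_mem_nhds (show (0 : ℝ) < ε / 8 by positivity))).and
      (t2.eventually (gt_mem_nhds (show (0 : ℝ) < ε / 8 by positivity)))).exists
  obtain ⟨CM, hCM⟩ : ∃ CM : ℝ, CM = ∑ m ∈ Finset.range M, (1 + T) ^ m := ⟨_, rfl⟩
  have hCM0 : 0 ≤ CM := by
    rw [hCM]
    exact Finset.sum_nonneg (fun m _ => by positivity)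
  obtain ⟨η₀, hη₀⟩ : ∃ η₀ : ℝ, η₀ = (1 + ε ^ 2 / 2) - 1 - Real.log (1 + ε ^ 2 / 2) := ⟨_, rfl⟩
  have hη₀0 : 0 < η₀ := by
    have hp : 0 < ε ^ 2 / 2 := by positivity
    have := Real.log_lt_sub_one_of_pos (show 0 < 1 + ε ^ 2 / 2 by linarith) (by linarith)
    rw [hη₀]
    linarith
  obtain ⟨δ, hδdef⟩ : ∃ δ : ℝ, δ = min (ε / (8 * (M + 1))) (ε * η₀ / (16 * (CM + 1))) := ⟨_, rfl⟩
  have hδ0 : 0 < δ := by
    rw [hδdef]
    exact lt_min (by positivity) (by positivity)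
  have key : Ev ε (fun a N z w => (∀ m ∈ Finset.range M,
      |(∑ k, (w k + T) ^ m).re - N * T ^ m| ≤ δ * N) ∧
      (Real.log (A a w) ≤ δ * N ∧ Del z ≤ δ * N)) :=
    (Ev.all _ (fun m _ => L12a hε hε1 hT m hδ0)).and (L8 hε hε1 hδ0)
  filter_upwards [key, eventually_gt_atTop 0] with N hN hNpos' a ha z w h
  obtain ⟨h1, h2, -⟩ := hN a ⟨ha.1, by linarith [ha.2]⟩ z w h
  have hNpos : (0 : ℝ) < N := by exact_mod_cast hNpos'
  have ha0 : 0 < a := lt_of_lt_of_le hε ha.1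
  have ha1 : a ≤ 1 := by linarith [ha.2]
  have haT2 : 4 ≤ a * T := by
    rw [← hεT]
    have := ha.1
    gcongr
  -- lower bound
  have lower := lower_term ha0 hT1 hδ0 M w h1
  -- combine
  have h3 : ∑ k, (FF a T M (w k)).re ≤ a * (1 + θ ^ M) * N + (CM / η₀) * (2 * (δ * N)) := by
    refine (Finset.sum_le_sum (fun k _ =>
      h.upper_term hε ha.1 ha1 hT1 haT2 hθ0 hθ2 M hCM hη₀ hη₀0 k)).trans ?_
    rw [Finset.sum_add_distrib, ← Finset.sum_mul, ← Finset.mul_sum, ← Finset.mul_sum]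
    have h4 := h.sum_norm_yy
    have h5 := h.sumlog
    have h6 : 0 ≤ Real.log ((N : ℝ) + 1) := Real.log_nonneg (by linarith)
    have h7 : (CM / η₀) * ∑ k, ((‖w k - (a : ℂ)‖ ^ 2)⁻¹ - 1 - Real.log ((‖w k - (a : ℂ)‖ ^ 2)⁻¹))
        ≤ (CM / η₀) * (2 * (δ * N)) := by
      have : 0 ≤ CM / η₀ := by positivity
      refine mul_le_mul_of_nonneg_left ?_ this
      linarith
    have h8 : a * (∑ k, ‖yy a w k‖) * (1 + θ ^ M) ≤ a * N * (1 + θ ^ M) := by gcongr
    linarith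
  have h4 := lower.trans h3
  have h5 : (T / (a + T)) ^ M ≤ (T / (ε + T)) ^ M := by
    have := ha.1
    gcongr
  have h6 : M * δ ≤ ε / 8 := by
    have : δ ≤ ε / (8 * (M + 1)) := hδdef ▸ min_le_left _ _
    calc M * δ ≤ M * (ε / (8 * (M + 1))) := by gcongr
      _ = (ε / 8) * (M / (M + 1)) := by field_simp
      _ ≤ (ε / 8) * 1 := by
          gcongr
          rw [div_le_one (by positivity)]
          linarith
      _ = ε / 8 := mul_one _
  have h7 : (CM / η₀) * (2 * δ) ≤ ε / 8 := by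
    have : δ ≤ ε * η₀ / (16 * (CM + 1)) := hδdef ▸ min_le_right _ _
    calc (CM / η₀) * (2 * δ) ≤ (CM / η₀) * (2 * (ε * η₀ / (16 * (CM + 1)))) := by gcongr
      _ = (ε / 8) * (CM / (CM + 1)) := by field_simp; ring
      _ ≤ (ε / 8) * 1 := by
          gcongr
          rw [div_le_one (by positivity)]
          linarith
      _ = ε / 8 := mul_one _
  have h8 : N * (1 - (T / (a + T)) ^ M - M * δ) ≤
      N * (a * (1 + θ ^ M) + (CM / η₀) * (2 * δ)) := by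
    linarith
  have h9 := le_of_mul_le_mul_left h8 hNpos
  have h10 : a * (1 + θ ^ M) ≤ (1 - ε) * 1 + 1 * (ε / 8) := by
    have h11 : a * (1 + θ ^ M) = a * 1 + a * θ ^ M := by ring
    rw [h11]
    have h12 : a * θ ^ M ≤ 1 * (ε / 8) := by
      have := hM2.le
      have h13 : 0 ≤ θ ^ M := by positivity
      gcongr
    have := ha.2
    linarith
  linarith

end Pool.Agent.H218R3.Sd
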