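import Pool.Agent.H218R3.Sd1

set_option autoImplicit false
set_option linter.unusedVariables false

open Polynomial

namespace Pool.Agent.H218R3.Sd

/-- from the polynomial formulation to the abstract data -/
lemma exists_CE' {m : ℕ} {a : ℝ} (ha0 : 0 ≤ a) (ha1 : a ≤ 1) {z : Fin m → ℂ}
    (hz : ∀ j, ‖z j‖ ≤ 1)
    (hna : (a : ℂ) ∉ (derivative ((X - C (a : ℂ)) * ∏ j, (X - C (z j)))).roots)
    (hI : (((derivative ((X - C (a : ℂ)) * ∏ j, (X - C (z j)))).roots).map
          (fun w : ℂ => (‖w - (a : ℂ)‖ ^ 2)⁻¹)).sum ≤ m) :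
    ∃ w : Fin m → ℂ, CE a m z w ∧ ∑ k, (‖w k - (a : ℂ)‖ ^ 2)⁻¹ =
      (((derivative ((X - C (a : ℂ)) * ∏ j, (X - C (z j)))).roots).map
          (fun w : ℂ => (‖w - (a : ℂ)‖ ^ 2)⁻¹)).sum := by
  set P : ℂ[X] := (X - C (a : ℂ)) * ∏ j, (X - C (z j)) with hP
  have hPmonic : P.Monic := (monic_X_sub_C _).mul (monic_prod_of_monic _ _ (fun j _ => monic_X_sub_C _))
  have hPdeg : P.natDegree = m + 1 := by
    rw [hP, (monic_X_sub_C _).natDegree_mul (monic_prod_of_monic _ _ (fun j _ => monic_X_sub_C _)),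
      natDegree_X_sub_C, natDegree_prod_of_monic _ _ (fun j _ => monic_X_sub_C _)]
    simp [add_comm]
  have hP0 : P ≠ 0 := hPmonic.ne_zero
  have hcoeff : (derivative P).coeff m = (m + 1 : ℂ) := by
    rw [coeff_derivative]
    have : P.coeff (m + 1) = 1 := by
      rw [← hPdeg]
      exact hPmonic
    rw [this]
    ring
  have hm1 : (m + 1 : ℂ) ≠ 0 := by exact_mod_cast Nat.succ_ne_zero m
  have hdeg : (derivative P).natDegree = m := by
    refine natDegree_eq_of_le_of_coeff_ne_zero ?_ (by rw [hcoeff]; exact hm1)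
    have := natDegree_derivative_le P
    rw [hPdeg] at this
    simpa using this
  have hlead : (derivative P).leadingCoeff = (m + 1 : ℂ) := by
    rw [leadingCoeff, hdeg, hcoeff]
  have hd0 : derivative P ≠ 0 := by
    intro h0
    rw [h0, leadingCoeff_zero] at hlead
    have : (m + 1 : ℂ) ≠ 0 := by exact_mod_cast Nat.succ_ne_zero m
    exact this hlead.symm
  have hcard : Multiset.card (derivative P).roots = m := by
    rw [← hdeg]
    exact (splits_iff_card_roots.mp (IsAlgClosed.splits (derivative P)))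
  have hfac := C_leadingCoeff_mul_prod_multiset_X_sub_C (p := derivative P) (by rw [hcard, hdeg])
  -- Gauss-Lucas
  have hGL : ∀ u ∈ (derivative P).roots, ‖u‖ ≤ 1 := by
    intro u hu
    have h1 : u ∈ (derivative P).rootSet ℂ := by
      rw [mem_rootSet]
      refine ⟨hd0, ?_⟩
      have := (mem_roots hd0).mp hu
      simpa [IsRoot] using this
    have h2 : 0 < P.degree := by
      rw [degree_eq_natDegree hP0, hPdeg]
      exact_mod_cast Nat.succ_pos m
    have h3 := rootSet_derivative_subset_convexHull_rootSet h2 h1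
    have h4 : P.rootSet ℂ ⊆ Metric.closedBall (0 : ℂ) 1 := by
      intro v hv
      rw [mem_rootSet] at hv
      have h5 : P.eval v = 0 := by simpa using hv.2
      rw [hP, eval_mul, eval_prod, mul_eq_zero, Finset.prod_eq_zero_iff] at h5
      rw [mem_closedBall_zero_iff]
      rcases h5 with h5 | ⟨j, _, h5⟩
      · simp only [eval_sub, eval_X, eval_C] at h5
        rw [sub_eq_zero.mp h5, Complex.norm_real, Real.norm_of_nonneg ha0]
        exact ha1
      · simp only [eval_sub, eval_X, eval_C] at h5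
        rw [sub_eq_zero.mp h5]
        exact hz j
    have h5 := convexHull_min h4 (convex_closedBall (0 : ℂ) 1) h3
    rwa [mem_closedBall_zero_iff] at h5
  -- list the roots
  obtain ⟨w, hw⟩ : ∃ w : Fin m → ℂ, (derivative P).roots = (List.ofFn w : Multiset ℂ) := by
    obtain ⟨L, hL⟩ := Quot.exists_rep (derivative P).roots
    have hL' : (L : Multiset ℂ) = (derivative P).roots := hL
    have hlen : L.length = m := by
      rw [← hcard, ← hL', Multiset.coe_card]
    subst hlen
    exact ⟨L.get, by rw [List.ofFn_get, hL']⟩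
  have hsum : ∑ k, (‖w k - (a : ℂ)‖ ^ 2)⁻¹ =
      (((derivative P).roots).map (fun w : ℂ => (‖w - (a : ℂ)‖ ^ 2)⁻¹)).sum := by
    rw [hw, Multiset.map_coe, Multiset.sum_coe, List.map_ofFn, List.sum_ofFn]
    rfl
  refine ⟨w, ⟨hz, ?_, ?_, ?_, ?_⟩, hsum⟩
  · intro k
    apply hGL
    rw [hw]
    simp [List.mem_ofFn]
  · intro k hc
    apply hna
    rw [hw, ← hc]
    simp [List.mem_ofFn]
  · intro ζ
    have h1 := P.hasDerivAt ζ
    have h2 : (fun x => P.eval x) = fun ζ : ℂ => (ζ - a) * ∏ j, (ζ - z j) := by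
      funext x
      rw [hP, eval_mul, eval_prod]
      simp
    have h3 : (derivative P).eval ζ = (m + 1 : ℂ) * ∏ k, (ζ - w k) := by
      rw [← hfac, hlead, hw]
      rw [eval_mul, eval_C, Multiset.map_coe, Multiset.prod_coe, List.map_ofFn, List.prod_ofFn,
        eval_prod]
      simp
    rw [h3] at h1
    have h4 : (fun x => P.eval x) = fun ζ : ℂ => (ζ - a) * ∏ j, (ζ - z j) := h2
    rw [← h4]
    exact h1
  · rw [hsum]
    exact hI

lemma exists_CE {m : ℕ} {a : ℝ} (ha0 : 0 ≤ a) (ha1 : a ≤ 1) {z : Fin m → ℂ}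
    (hz : ∀ j, ‖z j‖ ≤ 1)
    (hna : (a : ℂ) ∉ (derivative ((X - C (a : ℂ)) * ∏ j, (X - C (z j)))).roots)
    (hI : (((derivative ((X - C (a : ℂ)) * ∏ j, (X - C (z j)))).roots).map
          (fun w : ℂ => (‖w - (a : ℂ)‖ ^ 2)⁻¹)).sum ≤ m) :
    ∃ w : Fin m → ℂ, CE a m z w := by
  obtain ⟨w, hw, -⟩ := exists_CE' ha0 ha1 hz hna hI
  exact ⟨w, hw⟩

end Pool.Agent.H218R3.Sd
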