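import Pool.Agent.H218R3.Skel

set_option autoImplicit false
open Filter Topology Set Metric

namespace Pool.Agent.H218R3.Ser

noncomputable section

/-- exponents -/
def m (n : ℕ) : ℕ := 2 * n + 20

lemma m_succ (n : ℕ) : m (n + 1) = m n + 2 := by unfold m; ring

/-- powers of two -/
def p (n : ℕ) : ℝ := 2 ^ m n

lemma p_succ (n : ℕ) : p (n + 1) = 4 * p n := by
  unfold p
  rw [m_succ, pow_add]
  ring

lemma p_ge (n : ℕ) : 1048576 ≤ p n := by
  unfold p m
  calc (1048576 : ℝ) = 2 ^ 20 := by norm_num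
    _ ≤ 2 ^ (2 * n + 20) := pow_le_pow_right₀ (by norm_num) (by omega)

lemma p_pos (n : ℕ) : 0 < p n := by linarith [p_ge n]

variable (a b : ℕ → ℝ)

/-- ratios of successive scales -/
def lam : ℕ → ℝ
  | 0 => p 0 ^ 12
  | n + 1 => |b n| * lam n ^ (m n + 2) / 64

/-- scales -/
def zt : ℕ → ℝ
  | 0 => 1
  | n + 1 => lam b n * zt n

/-- coefficients -/
def G : ℕ → ℝ
  | 0 => p 0 ^ 3 * lam b 0
  | n + 1 => b n * G n * lam b n ^ (m n + 2)

/-- the parameters -/
structure Par : Prop where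
  ha : ∀ n, |a n| ≤ 2
  hb : ∀ n, 1 / 2 ≤ |b n|
  hb1 : ∀ n, |b n| ≤ 1

def T (n : ℕ) (z : ℂ) : ℂ := (G b n : ℂ) * (z / zt b n) ^ m n

def u (n : ℕ) (z : ℂ) : ℂ := T b n z * (1 + a n * (z / zt b n))

def Q (n : ℕ) (x : ℂ) : ℂ := 1 + a n * x + b n * x ^ 2

def F (z : ℂ) : ℂ := ∑' n, u a b n z

def PS (n : ℕ) (z : ℂ) : ℂ := ∑ k ∈ Finset.range n, u a b k z

variable {a b} (H : Par a b)

include H

lemma lam_succ_ge (n : ℕ) (hn : p n ^ 12 ≤ lam b n) : lam b n ^ (m n + 1) ≤ lam b (n + 1) := by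
  have h1 := p_ge n
  have h2 : (128 : ℝ) ≤ p n ^ 12 := by
    calc (128 : ℝ) ≤ p n := by linarith
      _ = p n ^ 1 := (pow_one _).symm
      _ ≤ p n ^ 12 := pow_le_pow_right₀ (by linarith) (by norm_num)
  have h3 : 0 < lam b n := by linarith
  show _ ≤ |b n| * lam b n ^ (m n + 2) / 64
  have h4 := H.hb n
  rw [show m n + 2 = m n + 1 + 1 by ring, pow_succ (lam b n) (m n + 1)]
  have h5 : 0 < lam b n ^ (m n + 1) := by positivity
  rw [le_div_iff₀ (by norm_num)]
  have h6 : 128 ≤ lam b n := by linarith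
  calc lam b n ^ (m n + 1) * 64 = (1 / 2) * (lam b n ^ (m n + 1) * 128) := by ring
    _ ≤ |b n| * (lam b n ^ (m n + 1) * lam b n) := by gcongr

lemma lam_ge (n : ℕ) : p n ^ 12 ≤ lam b n := by
  induction n with
  | zero => exact le_rfl
  | succ n ih =>
    have h1 := p_ge n
    refine le_trans ?_ (lam_succ_ge H n ih)
    rw [p_succ]
    have h2 : (p n ^ 12) ^ 2 ≤ lam b n ^ 2 := by gcongr
    have h3 : 1 ≤ lam b n := by
      refine le_trans ?_ ih
      exact one_le_pow₀ (by linarith)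
    have h4 : lam b n ^ 2 ≤ lam b n ^ (m n + 1) := pow_le_pow_right₀ h3 (by unfold m; omega)
    refine le_trans ?_ (h2.trans h4)
    rw [mul_pow]
    have h5 : (4 : ℝ) ^ 12 ≤ p n ^ 12 := by
      apply pow_le_pow_left₀ (by norm_num)
      linarith
    calc (4 : ℝ) ^ 12 * p n ^ 12 ≤ p n ^ 12 * p n ^ 12 := by gcongr
      _ = (p n ^ 12) ^ 2 := by ring

lemma lam_ge' (n : ℕ) : 1048576 ≤ lam b n := by
  have h1 := p_ge n
  have h2 := lam_ge H n
  have h3 : p n ^ 1 ≤ p n ^ 12 := pow_le_pow_right₀ (by linarith) (by norm_num)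
  rw [pow_one] at h3
  linarith

lemma zt_pos (n : ℕ) : 0 < zt b n := by
  induction n with
  | zero => exact one_pos
  | succ n ih =>
    have := lam_ge' H n
    exact mul_pos (by linarith) ih

omit H in
lemma zt_succ (n : ℕ) : zt b (n + 1) = lam b n * zt b n := rfl

lemma zt_le_lam (n : ℕ) : zt b n ≤ lam b n := by
  induction n with
  | zero =>
    have := lam_ge' H 0
    show (1 : ℝ) ≤ _
    linarith
  | succ n ih =>
    have h1 := lam_ge' H n
    rw [zt_succ]
    have h2 : lam b n ^ 2 ≤ lam b n ^ (m n + 1) :=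
      pow_le_pow_right₀ (by linarith) (by unfold m; omega)
    calc lam b n * zt b n ≤ lam b n * lam b n := by gcongr
      _ = lam b n ^ 2 := by ring
      _ ≤ _ := h2.trans (lam_succ_ge H n (lam_ge H n))

lemma zt_pow (n : ℕ) : zt b n ^ n ≤ zt b (n + 1) := by
  cases n with
  | zero =>
    have h1 := lam_ge' H 0
    rw [pow_zero, zt_succ]
    show (1 : ℝ) ≤ lam b 0 * 1
    linarith
  | succ n =>
    have h1 := lam_ge' H n
    have h2 := lam_ge' H (n + 1)
    have h3 := zt_le_lam H n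
    have h4 := zt_pos H n
    have h5 := zt_pos H (n + 1)
    have h6 : zt b (n + 1) ^ (n + 1) ≤ lam b (n + 1) := by
      calc zt b (n + 1) ^ (n + 1) ≤ (lam b n ^ 2) ^ (n + 1) := by
            apply pow_le_pow_left₀ h5.le
            rw [zt_succ, pow_two]
            gcongr
        _ = lam b n ^ (2 * (n + 1)) := by rw [← pow_mul]
        _ ≤ lam b n ^ (m n + 1) := pow_le_pow_right₀ (by linarith) (by unfold m; omega)
        _ ≤ _ := lam_succ_ge H n (lam_ge H n)
    have h7 : 1 ≤ zt b (n + 1) := by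
      have h8 : ∀ k, 1 ≤ zt b k := by
        intro k
        induction k with
        | zero => exact le_rfl
        | succ k ih =>
          rw [zt_succ]
          have := lam_ge' H k
          nlinarith
      exact h8 _
    rw [zt_succ (n + 1)]
    nlinarith

lemma abs_G (n : ℕ) : |G b n| = p n ^ 3 * zt b (n + 1) := by
  induction n with
  | zero =>
    have h1 := lam_ge' H 0
    have h2 := p_pos 0
    show |p 0 ^ 3 * lam b 0| = p 0 ^ 3 * (lam b 0 * 1)
    rw [mul_one, abs_of_pos (by positivity)]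
  | succ n ih =>
    have h1 := lam_ge' H n
    show |b n * G b n * lam b n ^ (m n + 2)| = _
    rw [abs_mul, abs_mul, ih, abs_of_pos (by positivity : 0 < lam b n ^ (m n + 2)), p_succ,
      zt_succ (n + 1)]
    show _ = (4 * p n) ^ 3 * (|b n| * lam b n ^ (m n + 2) / 64 * zt b (n + 1))
    ring

lemma T_succ (n : ℕ) (z : ℂ) : T b (n + 1) z = b n * (z / zt b n) ^ 2 * T b n z := by
  have h1 := lam_ge' H n
  have h2 := zt_pos H n
  unfold T
  show ((b n * G b n * lam b n ^ (m n + 2) : ℝ) : ℂ) * (z / ((lam b n * zt b n : ℝ) : ℂ)) ^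
    (m (n + 1)) = _
  rw [m_succ]
  have h3 : (lam b n : ℂ) ≠ 0 := by
    exact_mod_cast (by linarith : lam b n ≠ 0)
  have h4 : (zt b n : ℂ) ≠ 0 := by
    exact_mod_cast h2.ne'
  push_cast
  rw [div_pow, div_pow, div_pow, mul_pow]
  field_simp
  ring

lemma norm_ratio (n : ℕ) (z : ℂ) : ‖z / (zt b n : ℂ)‖ = ‖z‖ / zt b n := by
  rw [norm_div, Complex.norm_real, Real.norm_eq_abs, abs_of_pos (zt_pos H n)]

lemma norm_T (n : ℕ) (z : ℂ) : ‖T b n z‖ = p n ^ 3 * zt b (n + 1) * (‖z‖ / zt b n) ^ m n := by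
  unfold T
  rw [norm_mul, norm_pow, norm_ratio H, Complex.norm_real, Real.norm_eq_abs, abs_G H]

lemma norm_T_succ (n : ℕ) (z : ℂ) :
    ‖T b (n + 1) z‖ = |b n| * (‖z‖ / zt b n) ^ 2 * ‖T b n z‖ := by
  rw [T_succ H, norm_mul, norm_mul, norm_pow, norm_ratio H, Complex.norm_real, Real.norm_eq_abs]

lemma norm_u_le (n : ℕ) (z : ℂ) : ‖u a b n z‖ ≤ ‖T b n z‖ * (1 + 2 * (‖z‖ / zt b n)) := by
  unfold u
  rw [norm_mul]
  apply mul_le_mul_of_nonneg_left _ (norm_nonneg _)
  refine (norm_add_le _ _).trans ?_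
  rw [norm_one, norm_mul, norm_ratio H, Complex.norm_real, Real.norm_eq_abs]
  have h1 := zt_pos H n
  have h2 := H.ha n
  gcongr

lemma norm_T_add (N j : ℕ) (z : ℂ) :
    ‖T b (N + j) z‖ ≤ ((‖z‖ / zt b N) ^ 2) ^ j * ‖T b N z‖ := by
  induction j with
  | zero => simp
  | succ j ih =>
    have h1 := zt_pos H N
    have h2 := zt_pos H (N + j)
    have h3 : zt b N ≤ zt b (N + j) := by
      clear ih h2
      induction j with
      | zero => exact le_rfl
      | succ j ih =>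
        have := lam_ge' H (N + j)
        have h4 := zt_pos H (N + j)
        rw [show N + (j + 1) = N + j + 1 by ring, zt_succ]
        nlinarith
    rw [show N + (j + 1) = N + j + 1 by ring, norm_T_succ H, pow_succ]
    have h5 : ‖z‖ / zt b (N + j) ≤ ‖z‖ / zt b N := by gcongr
    have h6 := H.hb1 (N + j)
    calc |b (N + j)| * (‖z‖ / zt b (N + j)) ^ 2 * ‖T b (N + j) z‖
        ≤ 1 * (‖z‖ / zt b N) ^ 2 * (((‖z‖ / zt b N) ^ 2) ^ j * ‖T b N z‖) := by gcongr
      _ = _ := by ring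

lemma norm_u_add (N j : ℕ) (z : ℂ) (hz : ‖z‖ ≤ zt b N / 8) :
    ‖u a b (N + j) z‖ ≤ 5 / 4 * ((‖z‖ / zt b N) ^ 2) ^ j * ‖T b N z‖ := by
  have h1 := zt_pos H N
  have h3 : zt b N ≤ zt b (N + j) := by
    induction j with
    | zero => exact le_rfl
    | succ j ih =>
      have := lam_ge' H (N + j)
      have h4 := zt_pos H (N + j)
      rw [show N + (j + 1) = N + j + 1 by ring, zt_succ]
      nlinarith
  refine (norm_u_le H _ z).trans ?_
  have h4 := norm_T_add H N j z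
  have h5 : ‖z‖ / zt b (N + j) ≤ 1 / 8 := by
    rw [div_le_iff₀ (by linarith)]
    linarith
  have h6 : 0 ≤ ‖z‖ / zt b (N + j) := div_nonneg (norm_nonneg _) (by linarith)
  calc ‖T b (N + j) z‖ * (1 + 2 * (‖z‖ / zt b (N + j)))
      ≤ (((‖z‖ / zt b N) ^ 2) ^ j * ‖T b N z‖) * (1 + 2 * (1 / 8)) := by gcongr
    _ = _ := by ring

lemma zt_tendsto : Tendsto (zt b) atTop atTop := by
  have h : ∀ n, (2 : ℝ) ^ n ≤ zt b n := by
    intro n
    induction n with
    | zero => exact le_rfl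
    | succ n ih =>
      have := lam_ge' H n
      have h4 := zt_pos H n
      rw [zt_succ, pow_succ]
      nlinarith
  exact tendsto_atTop_mono h (tendsto_pow_atTop_atTop_of_one_lt (by norm_num))

lemma exists_N (z : ℂ) : ∃ N, ‖z‖ ≤ zt b N / 8 := by
  obtain ⟨N, hN⟩ := ((zt_tendsto H).eventually_ge_atTop (8 * ‖z‖)).exists
  exact ⟨N, by linarith⟩

lemma summable_u (z : ℂ) : Summable (fun n => u a b n z) := by
  obtain ⟨N, hN⟩ := exists_N H z
  have h1 := zt_pos H N
  rw [← summable_nat_add_iff N]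
  have h2 : ‖z‖ / zt b N ≤ 1 / 8 := by
    rw [div_le_iff₀ h1]
    linarith
  have h3 : (‖z‖ / zt b N) ^ 2 < 1 := by
    have : 0 ≤ ‖z‖ / zt b N := by positivity
    nlinarith
  have h4 : Summable (fun j : ℕ => 5 / 4 * ((‖z‖ / zt b N) ^ 2) ^ j * ‖T b N z‖) :=
    ((summable_geometric_of_lt_one (by positivity) h3).mul_left _).mul_right _
  apply Summable.of_norm_bounded h4
  intro j
  rw [add_comm j N]
  exact norm_u_add H N j z hN

lemma F_eq (N : ℕ) (z : ℂ) : F a b z = PS a b N z + ∑' j, u a b (N + j) z := by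
  unfold F PS
  rw [← (summable_u H z).sum_add_tsum_nat_add N]
  congr 2
  ext j
  rw [add_comm]

lemma tail (N : ℕ) (z : ℂ) (hz : ‖z‖ ≤ zt b N / 8) :
    ‖F a b z - PS a b N z - T b N z‖ ≤ 3 * (‖z‖ / zt b N) * ‖T b N z‖ := by
  have h1 := zt_pos H N
  have h2 : ‖z‖ / zt b N ≤ 1 / 8 := by
    rw [div_le_iff₀ h1]
    linarith
  have h20 : 0 ≤ ‖z‖ / zt b N := by positivity
  have h3 : (‖z‖ / zt b N) ^ 2 ≤ 1 / 64 := by nlinarith
  have h4 : ∀ j, ‖u a b (N + 1 + j) z‖ ≤ 5 / 4 * (‖z‖ / zt b N) ^ 2 * ‖T b N z‖ * (1 / 64) ^ j := by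
    intro j
    have h5 := norm_u_add H N (1 + j) z hz
    rw [← add_assoc] at h5
    refine h5.trans ?_
    rw [pow_add, pow_one]
    calc 5 / 4 * ((‖z‖ / zt b N) ^ 2 * ((‖z‖ / zt b N) ^ 2) ^ j) * ‖T b N z‖
        ≤ 5 / 4 * ((‖z‖ / zt b N) ^ 2 * (1 / 64) ^ j) * ‖T b N z‖ := by gcongr
      _ = _ := by ring
  have h6 : HasSum (fun j : ℕ => 5 / 4 * (‖z‖ / zt b N) ^ 2 * ‖T b N z‖ * (1 / 64 : ℝ) ^ j)
      (5 / 4 * (‖z‖ / zt b N) ^ 2 * ‖T b N z‖ * (1 - 1 / 64)⁻¹) :=
    (hasSum_geometric_of_lt_one (by norm_num) (by norm_num)).mul_left _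
  have h7 : ‖∑' j, u a b (N + 1 + j) z‖ ≤ _ := tsum_of_norm_bounded h6 h4
  have h8 : F a b z - PS a b N z - T b N z =
      T b N z * (a N * (z / zt b N)) + ∑' j, u a b (N + 1 + j) z := by
    rw [F_eq H (N + 1) z]
    unfold PS
    rw [Finset.sum_range_succ]
    unfold u
    ring
  rw [h8]
  refine (norm_add_le _ _).trans ?_
  rw [norm_mul, norm_mul, norm_ratio H, Complex.norm_real, Real.norm_eq_abs]
  have h9 := H.ha N
  have h10 : ‖T b N z‖ * (|a N| * (‖z‖ / zt b N)) ≤ ‖T b N z‖ * (2 * (‖z‖ / zt b N)) := by gcongr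
  have h11 : 5 / 4 * (‖z‖ / zt b N) ^ 2 * ‖T b N z‖ * (1 - 1 / 64)⁻¹ ≤
      (‖z‖ / zt b N) * ‖T b N z‖ := by
    have h12 : (1 - 1 / 64 : ℝ)⁻¹ = 64 / 63 := by norm_num
    rw [h12]
    calc 5 / 4 * (‖z‖ / zt b N) ^ 2 * ‖T b N z‖ * (64 / 63)
        = (5 / 4 * (64 / 63) * (‖z‖ / zt b N)) * ((‖z‖ / zt b N) * ‖T b N z‖) := by ring
      _ ≤ 1 * ((‖z‖ / zt b N) * ‖T b N z‖) := by
          gcongr
          linarith
      _ = _ := by ring
  linarith

omit H in
variable (b) in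
def th : ℕ → ℝ
  | 0 => 0
  | n + 1 => 16 / lam b n

lemma th_le (n : ℕ) : th b n ≤ 1 / 1000 := by
  cases n with
  | zero => show (0 : ℝ) ≤ _; norm_num
  | succ n =>
    have := lam_ge' H n
    show 16 / lam b n ≤ _
    rw [div_le_iff₀ (by linarith)]
    linarith

lemma th_nonneg (n : ℕ) : 0 ≤ th b n := by
  cases n with
  | zero => exact le_rfl
  | succ n =>
    have := lam_ge' H n
    show 0 ≤ 16 / lam b n
    positivity

lemma lower (n : ℕ) : ∀ z : ℂ, zt b n / 2 ≤ ‖z‖ → ‖PS a b n z‖ ≤ th b n * ‖T b n z‖ := by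
  induction n with
  | zero =>
    intro z _
    simp [PS, th]
  | succ n ih =>
    intro z hz
    have h1 := lam_ge' H n
    have h2 := zt_pos H n
    rw [zt_succ] at hz
    have h3 := ih z (by nlinarith)
    have h4 := norm_u_le H n z
    have h5 : PS a b (n + 1) z = PS a b n z + u a b n z := by
      unfold PS
      rw [Finset.sum_range_succ]
    rw [h5]
    refine (norm_add_le _ _).trans ?_
    set X := ‖z‖ / zt b n with hX
    have h6 : lam b n / 2 ≤ X := by
      rw [hX, le_div_iff₀ h2]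
      linarith
    have h7 := norm_T_succ H n z
    rw [← hX] at h7
    have h8 := th_le H n
    have h9 := norm_nonneg (T b n z)
    have h10 := H.hb n
    have h11 : ‖PS a b n z‖ + ‖u a b n z‖ ≤ ‖T b n z‖ * (3 * X) := by
      have : th b n * ‖T b n z‖ ≤ 1 * ‖T b n z‖ := by gcongr; linarith
      nlinarith
    refine h11.trans ?_
    show _ ≤ 16 / lam b n * ‖T b (n + 1) z‖
    rw [h7, div_mul_eq_mul_div, le_div_iff₀ (by linarith)]
    have hX0 : 0 < X := by linarith
    calc ‖T b n z‖ * (3 * X) * lam b n ≤ ‖T b n z‖ * (3 * X) * (2 * X) := by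
          gcongr
          linarith
      _ = 12 * (1 / 2 * X ^ 2 * ‖T b n z‖) := by ring
      _ ≤ 16 * (|b n| * X ^ 2 * ‖T b n z‖) := by
          gcongr
          norm_num

/-- The main approximation. -/
lemma approx (n : ℕ) (z : ℂ) (h1 : zt b n / 2 ≤ ‖z‖) (h2 : ‖z‖ ≤ zt b (n + 1) / 8) :
    ‖F a b z - T b n z * Q a b n (z / zt b n)‖ ≤
      ‖T b n z‖ * (th b n + 3 * (‖z‖ / zt b n) ^ 3 / lam b n) := by
  have h3 := tail H (n + 1) z h2
  have h4 := lower H n z h1
  have h5 : F a b z - T b n z * Q a b n (z / zt b n) =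
      (F a b z - PS a b (n + 1) z - T b (n + 1) z) + PS a b n z := by
    have : PS a b (n + 1) z = PS a b n z + u a b n z := by
      unfold PS
      rw [Finset.sum_range_succ]
    rw [this, T_succ H]
    unfold Q u
    ring
  rw [h5]
  refine (norm_add_le _ _).trans ?_
  have h6 := lam_ge' H n
  have h7 := zt_pos H n
  have h8 : 3 * (‖z‖ / zt b (n + 1)) * ‖T b (n + 1) z‖ ≤
      ‖T b n z‖ * (3 * (‖z‖ / zt b n) ^ 3 / lam b n) := by
    rw [norm_T_succ H, zt_succ]
    have h9 : ‖z‖ / (lam b n * zt b n) = (‖z‖ / zt b n) / lam b n := by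
      field_simp
    rw [h9]
    have h10 := H.hb1 n
    calc 3 * (‖z‖ / zt b n / lam b n) * (|b n| * (‖z‖ / zt b n) ^ 2 * ‖T b n z‖)
        ≤ 3 * (‖z‖ / zt b n / lam b n) * (1 * (‖z‖ / zt b n) ^ 2 * ‖T b n z‖) := by gcongr
      _ = _ := by ring
  nlinarith

lemma differentiable_F : Differentiable ℂ (F a b) := by
  intro z
  obtain ⟨N, hN⟩ := ((zt_tendsto H).eventually_gt_atTop (8 * ‖z‖)).exists
  have h1 := zt_pos H N
  set R : ℝ := zt b N / 8 with hR
  have hRn : ‖(R : ℂ)‖ = R := by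
    rw [Complex.norm_real, Real.norm_eq_abs, abs_of_pos (by positivity)]
  have hmono : ∀ i, ∀ w ∈ ball (0 : ℂ) R, ‖u a b i w‖ ≤
      ‖T b i R‖ * (1 + 2 * (‖(R : ℂ)‖ / zt b i)) := by
    intro i w hw
    rw [mem_ball_zero_iff] at hw
    refine (norm_u_le H i w).trans ?_
    have h2 := zt_pos H i
    have h3 := zt_pos H (i + 1)
    have h4 := p_pos i
    rw [norm_T H, norm_T H, hRn]
    gcongr
  have hsum : Summable (fun i => ‖T b i R‖ * (1 + 2 * (‖(R : ℂ)‖ / zt b i))) := by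
    rw [← summable_nat_add_iff N]
    have h4 : Summable (fun j : ℕ => 5 / 4 * ((‖(R : ℂ)‖ / zt b N) ^ 2) ^ j * ‖T b N R‖) := by
      refine ((summable_geometric_of_lt_one (by positivity) ?_).mul_left _).mul_right _
      rw [hRn, hR]
      have : zt b N / 8 / zt b N = 1 / 8 := by field_simp
      rw [this]
      norm_num
    refine Summable.of_nonneg_of_le (fun j => ?_) (fun j => ?_) h4
    · have := zt_pos H (j + N)
      positivity
    · rw [add_comm j N]
      have h3 : zt b N ≤ zt b (N + j) := by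
        induction j with
        | zero => exact le_rfl
        | succ j ih =>
          have := lam_ge' H (N + j)
          have h4 := zt_pos H (N + j)
          rw [show N + (j + 1) = N + j + 1 by ring, zt_succ]
          nlinarith
      have h4 := norm_T_add H N j (R : ℂ)
      have h5 : ‖(R : ℂ)‖ / zt b (N + j) ≤ 1 / 8 := by
        rw [hRn, div_le_iff₀ (by linarith)]
        linarith
      have h6 : 0 ≤ ‖(R : ℂ)‖ / zt b (N + j) := div_nonneg (norm_nonneg _) (by linarith)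
      calc ‖T b (N + j) R‖ * (1 + 2 * (‖(R : ℂ)‖ / zt b (N + j)))
          ≤ (((‖(R : ℂ)‖ / zt b N) ^ 2) ^ j * ‖T b N R‖) * (1 + 2 * (1 / 8)) := by gcongr
        _ = _ := by ring
  have hd : ∀ i, DifferentiableOn ℂ (u a b i) (ball 0 R) := by
    intro i
    apply Differentiable.differentiableOn
    unfold u T
    fun_prop
  have h2 := Complex.differentiableOn_tsum_of_summable_norm hsum hd isOpen_ball hmono
  have hz : z ∈ ball (0 : ℂ) R := by
    rw [mem_ball_zero_iff]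
    linarith
  exact (h2 z hz).differentiableAt (isOpen_ball.mem_nhds hz)

omit H in
lemma F_zero : F a b 0 = 0 := by
  unfold F
  have : ∀ n, u a b n 0 = 0 := by
    intro n
    unfold u T m
    simp
  simp [this]

end

end Pool.Agent.H218R3.Ser
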