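import Pool.Agent.H218R3.Fatou

set_option autoImplicit false
open Filter Topology Set Metric

namespace Pool.Agent.H218R3.Fat

noncomputable section

/-- The round annuli of the construction. -/
def Ann (ζ : ℕ → ℝ) (n : ℕ) : Set ℂ := {z | 2 * ζ n < ‖z‖ ∧ ‖z‖ < ζ (n + 1) / 64}

/-- The abstract mapping properties of the functions which we construct. -/
structure Skel (f : ℂ → ℂ) (ζ ε : ℕ → ℝ) (C : Set ℂ) : Prop where
  diff : Differentiable ℂ f
  f0 : f 0 = 0
  openMap : IsOpenMap f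
  zeta_one : 1 ≤ ζ 0
  zeta_grow : ∀ n, 1000 * ζ n ≤ ζ (n + 1)
  eps_pos : ∀ n, 0 < ε n
  eps_lt : ∀ n, ε n ≤ 1 / 100
  C_real : ∀ c ∈ C, c = 1 ∨ c = -1
  ann_map : ∀ n z, z ∈ Ann ζ n → f z ∈ Ann ζ (n + 1)
  grow1 : ∀ n z, z ∈ Ann ζ n → (‖z‖ / ζ n) ^ 2 ≤ ‖f z‖ / ζ (n + 1)
  grow2 : ∀ n z, z ∈ Ann ζ n → ‖z‖ ^ n ≤ ‖f z‖
  bridge : ∀ n z, ζ n / 2 ≤ ‖z‖ → ‖z‖ ≤ 2 * ζ n → (∀ c ∈ C, ε n * ζ n ≤ ‖z - c * ζ n‖) →
    f z ∈ Ann ζ (n + 1)
  radial : ∀ n (z c : ℂ) (t : ℝ), c ∈ C → ‖z - c * ζ n‖ ≤ ε n * ζ n → 8 * ζ (n + 1) ≤ ‖f z‖ →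
    1 ≤ t → ‖(t : ℂ) * (z - c * ζ n)‖ ≤ ε n * ζ n →
    f (c * ζ n + (t : ℂ) * (z - c * ζ n)) ∈ Ann ζ (n + 1)
  center : ∀ n, ∀ c ∈ C, ‖f (c * ζ n)‖ < 8 * ζ (n + 1)

lemma isOpen_Ann (ζ : ℕ → ℝ) (n : ℕ) : IsOpen (Ann ζ n) :=
  (isOpen_lt continuous_const continuous_norm).inter (isOpen_lt continuous_norm continuous_const)

lemma isPreconnected_Ann (ζ : ℕ → ℝ) (n : ℕ) (h : 0 < ζ n) : IsPreconnected (Ann ζ n) := by
  by_cases h1 : 0 < ζ (n + 1)
  swap
  · have : Ann ζ n = ∅ := by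
      ext z
      simp only [Ann, mem_ofPred_eq, mem_empty_iff_false, iff_false, not_and]
      intro h2 h3
      have := norm_nonneg z
      push Not at h1
      linarith
    rw [this]
    exact isPreconnected_empty
  have hconv : Convex ℝ {z : ℂ | Real.log (2 * ζ n) < z.re ∧ z.re < Real.log (ζ (n + 1) / 64)} :=
    (convex_halfSpace_re_gt _).inter (convex_halfSpace_re_lt _)
  have : Ann ζ n = Complex.exp ''
      {z : ℂ | Real.log (2 * ζ n) < z.re ∧ z.re < Real.log (ζ (n + 1) / 64)} := by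
    ext z
    simp only [Ann, mem_ofPred_eq, mem_image]
    constructor
    · rintro ⟨h2, h3⟩
      have hz : 0 < ‖z‖ := by linarith
      refine ⟨Complex.log z, ⟨?_, ?_⟩, Complex.exp_log (norm_pos_iff.mp hz)⟩
      · rw [Complex.log_re]
        exact Real.log_lt_log (by linarith) h2
      · rw [Complex.log_re]
        exact Real.log_lt_log hz h3
    · rintro ⟨w, ⟨h2, h3⟩, rfl⟩
      rw [Complex.norm_exp]
      exact ⟨(Real.log_lt_iff_lt_exp (by linarith)).mp h2,
        (Real.lt_log_iff_exp_lt (by positivity)).mp h3⟩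
  rw [this]
  exact hconv.isPreconnected.image _ Complex.continuous_exp.continuousOn

/-- A preconnected set which meets a ball but not its boundary sphere lies in the ball. -/
lemma subset_ball_of_disjoint_sphere {S : Set ℂ} (hS : IsPreconnected S) {c : ℂ} {r : ℝ}
    (hd : ∀ z ∈ S, ‖z - c‖ ≠ r) {p : ℂ} (hp : p ∈ S) (hpb : ‖p - c‖ < r) : S ⊆ ball c r := by
  apply hS.subset_left_of_subset_union (v := {z | r < ‖z - c‖}) isOpen_ball
    (isOpen_lt continuous_const (continuous_id.sub continuous_const).norm)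
  · rw [Set.disjoint_left]
    intro z hz hz2
    rw [mem_ball_iff_norm] at hz
    simp only [mem_ofPred_eq] at hz2
    linarith
  · intro z hz
    rcases lt_trichotomy (‖z - c‖) r with h | h | h
    · exact Or.inl (mem_ball_iff_norm.mpr h)
    · exact absurd h (hd z hz)
    · exact Or.inr h
  · exact ⟨p, hp, mem_ball_iff_norm.mpr hpb⟩

namespace Skel

variable {f : ℂ → ℂ} {ζ ε : ℕ → ℝ} {C : Set ℂ}

lemma zeta_ge (S : Skel f ζ ε C) (n : ℕ) : (1000 : ℝ) ^ n ≤ ζ n := by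
  induction n with
  | zero => simpa using S.zeta_one
  | succ n ih =>
    rw [pow_succ]
    linarith [S.zeta_grow n]

lemma zeta_ge_one (S : Skel f ζ ε C) (n : ℕ) : 1 ≤ ζ n :=
  (one_le_pow₀ (by norm_num)).trans (S.zeta_ge n)

lemma zeta_pos (S : Skel f ζ ε C) (n : ℕ) : 0 < ζ n := lt_of_lt_of_le one_pos (S.zeta_ge_one n)

lemma zeta_tendsto (S : Skel f ζ ε C) : Tendsto ζ atTop atTop :=
  tendsto_atTop_mono S.zeta_ge (tendsto_pow_atTop_atTop_of_one_lt (by norm_num))

lemma iter_ann (S : Skel f ζ ε C) (k : ℕ) : ∀ {n : ℕ} {z : ℂ}, z ∈ Ann ζ n →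
    f^[k] z ∈ Ann ζ (n + k) := by
  induction k with
  | zero => intro n z hz; simpa using hz
  | succ k ih =>
    intro n z hz
    rw [Function.iterate_succ_apply']
    exact S.ann_map _ _ (ih hz)

lemma escAt_of_ann (S : Skel f ζ ε C) {n : ℕ} {z : ℂ} (hz : z ∈ Ann ζ n) : EscAt f z := by
  obtain ⟨r, hr, hb⟩ := Metric.isOpen_iff.mp (isOpen_Ann ζ n) z hz
  refine ⟨r, hr, fun M => ?_⟩
  have h1 : Tendsto (fun k => ζ (n + k)) atTop atTop := by
    have := S.zeta_tendsto.comp (tendsto_add_atTop_nat n)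
    refine this.congr fun k => ?_
    simp [add_comm]
  filter_upwards [h1.eventually_gt_atTop M] with k hk w hw
  have h2 := (S.iter_ann k (hb hw)).1
  have := S.zeta_pos (n + k)
  linarith

lemma escAt_of_good (S : Skel f ζ ε C) {n : ℕ} {z : ℂ} (hz : f z ∈ Ann ζ n) : EscAt f z :=
  escAt_of_image S.diff.continuous (S.escAt_of_ann hz)

end Skel

/-- The multiply connected Fatou components. -/
def UU (f : ℂ → ℂ) (ζ : ℕ → ℝ) (n : ℕ) : Set ℂ := comp f ((3 * ζ n : ℝ) : ℂ)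

namespace Skel

variable {f : ℂ → ℂ} {ζ ε : ℕ → ℝ} {C : Set ℂ}

lemma base_mem (S : Skel f ζ ε C) (n : ℕ) : ((3 * ζ n : ℝ) : ℂ) ∈ Ann ζ n := by
  have h1 := S.zeta_pos n
  have h2 := S.zeta_grow n
  simp only [Ann, mem_ofPred_eq, Complex.norm_real, Real.norm_eq_abs]
  rw [abs_of_pos (by linarith)]
  constructor <;> linarith

lemma isOpen_UU (n : ℕ) : IsOpen (UU f ζ n) := isOpen_comp _ _

lemma isPreconnected_UU (n : ℕ) : IsPreconnected (UU f ζ n) := isPreconnected_connectedComponentIn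

lemma UU_subset (n : ℕ) : UU f ζ n ⊆ FatouSet f := connectedComponentIn_subset _ _

lemma escAt_UU (S : Skel f ζ ε C) {n : ℕ} {z : ℂ} (hz : z ∈ UU f ζ n) : EscAt f z :=
  escAt_of_comp (S.escAt_of_ann (S.base_mem n)) hz

lemma comp_eq_UU {n : ℕ} {z : ℂ} (hz : z ∈ UU f ζ n) : comp f z = UU f ζ n :=
  (connectedComponentIn_eq hz).symm

lemma sub_UU {n : ℕ} {T : Set ℂ} (hT : IsPreconnected T) (hF : T ⊆ FatouSet f) {p : ℂ}
    (hp : p ∈ T) (hpU : p ∈ UU f ζ n) : T ⊆ UU f ζ n := by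
  rw [← comp_eq_UU hpU]
  exact hT.subset_connectedComponentIn hp hF

lemma base_mem_UU (S : Skel f ζ ε C) (n : ℕ) : ((3 * ζ n : ℝ) : ℂ) ∈ UU f ζ n :=
  mem_connectedComponentIn (S.escAt_of_ann (S.base_mem n)).mem_FatouSet

lemma ann_subset_UU (S : Skel f ζ ε C) (n : ℕ) : Ann ζ n ⊆ UU f ζ n :=
  sub_UU (isPreconnected_Ann ζ n (S.zeta_pos n)) (fun _ hz => (S.escAt_of_ann hz).mem_FatouSet)
    (S.base_mem n) (S.base_mem_UU n)

lemma map_UU (S : Skel f ζ ε C) (n : ℕ) {z : ℂ} (hz : z ∈ UU f ζ n) : f z ∈ UU f ζ (n + 1) := by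
  have h1 : f '' UU f ζ n ⊆ UU f ζ (n + 1) := by
    apply sub_UU ((isPreconnected_UU n).image _ S.diff.continuous.continuousOn) (p :=
      f ((3 * ζ n : ℝ) : ℂ))
    · rintro _ ⟨w, hw, rfl⟩
      exact (escAt_image S.openMap (S.escAt_UU hw)).mem_FatouSet
    · exact mem_image_of_mem _ (S.base_mem_UU n)
    · exact S.ann_subset_UU _ (S.ann_map _ _ (S.base_mem n))
  exact h1 (mem_image_of_mem _ hz)

lemma iter_UU (S : Skel f ζ ε C) (k : ℕ) : ∀ {n : ℕ} {z : ℂ}, z ∈ UU f ζ n →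
    f^[k] z ∈ UU f ζ (n + k) := by
  induction k with
  | zero => intro n z hz; simpa using hz
  | succ k ih =>
    intro n z hz
    rw [Function.iterate_succ_apply']
    exact S.map_UU _ (ih hz)

lemma diff_iter (S : Skel f ζ ε C) (k : ℕ) : Differentiable ℂ (f^[k]) := by
  induction k with
  | zero => exact differentiable_id
  | succ k ih =>
    rw [Function.iterate_succ]
    exact ih.comp S.diff

/-- The components are pairwise distinct. -/
lemma UU_ne_aux (S : Skel f ζ ε C) {n m : ℕ} (hnm : n < m) : UU f ζ n ≠ UU f ζ m := by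
  intro heq
  obtain ⟨j, rfl⟩ : ∃ j, m = n + (j + 1) := ⟨m - n - 1, by omega⟩
  set a : ℂ := ((3 * ζ n : ℝ) : ℂ) with ha
  have haU : a ∈ UU f ζ n := S.base_mem_UU n
  have haA : a ∈ Ann ζ n := S.base_mem n
  have hbU : f^[j + 1] a ∈ UU f ζ n := by
    rw [heq]
    exact S.iter_UU _ haU
  obtain ⟨c, hc, hC⟩ := harnack_chain (isPreconnected_UU n) (isOpen_UU n) (g := fun k => f^[k])
    (fun k => (S.diff_iter k).differentiableOn)
    (fun z hz => by
      obtain ⟨r, hr, h⟩ := S.escAt_UU hz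
      exact ⟨r, hr, h 1⟩) haU hbU
  obtain ⟨N, hN⟩ := exists_nat_gt c
  obtain ⟨k, hk1, hk2⟩ := (hC.and (eventually_ge_atTop N)).exists
  have hmem : ∀ i, f^[i] a ∈ Ann ζ (n + i) := fun i => S.iter_ann i haA
  have hbig : ∀ i, 1 < ‖f^[i] a‖ := fun i => by
    have := (hmem i).1
    have := S.zeta_ge_one (n + i)
    linarith
  have hmono : ∀ i, Real.log ‖f^[k + 1] a‖ ≤ Real.log ‖f^[k + 1 + i] a‖ := by
    intro i
    apply Real.log_le_log (by linarith [hbig (k + 1)])
    induction i with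
    | zero => simp
    | succ i ih =>
      refine ih.trans ?_
      have h1 := (hmem (k + 1 + i)).2
      have h2 := (hmem (k + 1 + i + 1)).1
      have h3 := S.zeta_pos (n + (k + 1 + i) + 1)
      have h4 : n + (k + 1 + i) + 1 = n + (k + 1 + i + 1) := by omega
      rw [h4] at h1 h3
      have h5 : k + 1 + (i + 1) = k + 1 + i + 1 := by omega
      rw [h5]
      linarith
  have h1 : ‖f^[k] a‖ ^ (n + k) ≤ ‖f^[k + 1] a‖ := by
    have := S.grow2 _ _ (hmem k)
    rwa [Function.iterate_succ_apply']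
  have h2 : (n + k : ℕ) * Real.log ‖f^[k] a‖ ≤ Real.log ‖f^[k + 1] a‖ := by
    rw [← Real.log_pow]
    exact Real.log_le_log (pow_pos (by linarith [hbig k]) _) h1
  have h3 : f^[k] (f^[j + 1] a) = f^[k + 1 + j] a := by
    have h9 : k + 1 + j = k + (j + 1) := by omega
    rw [h9, Function.iterate_add_apply f k (j + 1) a]
  simp only [h3] at hk1
  have h4 := hmono j
  have h5 : 0 < Real.log ‖f^[k] a‖ := Real.log_pos (hbig k)
  have h6 : (N : ℝ) ≤ ((n + k : ℕ) : ℝ) := by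
    exact_mod_cast (hk2.trans (Nat.le_add_left k n))
  nlinarith

lemma UU_ne (S : Skel f ζ ε C) {n m : ℕ} (hnm : n ≠ m) : UU f ζ n ≠ UU f ζ m := by
  rcases lt_or_gt_of_ne hnm with h | h
  · exact S.UU_ne_aux h
  · exact (S.UU_ne_aux h).symm

lemma UU_disj (S : Skel f ζ ε C) {n m : ℕ} (hnm : n ≠ m) {z : ℂ} (h1 : z ∈ UU f ζ n)
    (h2 : z ∈ UU f ζ m) : False := by
  apply S.UU_ne hnm
  rw [← comp_eq_UU h1, comp_eq_UU h2]

/-- The components lie outside the inner annulus. -/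
lemma UU_ge (S : Skel f ζ ε C) {n : ℕ} {z : ℂ} (hz : z ∈ UU f ζ (n + 1)) :
    ζ (n + 1) / 64 ≤ ‖z‖ := by
  by_contra hcon
  push Not at hcon
  have h0 := S.zeta_pos n
  have h1 := S.zeta_grow n
  set r := (max ‖z‖ (3 * ζ n) + ζ (n + 1) / 64) / 2 with hr
  have hr1 : max ‖z‖ (3 * ζ n) < ζ (n + 1) / 64 := max_lt hcon (by linarith)
  have hr2 := le_max_left ‖z‖ (3 * ζ n)
  have hr3 := le_max_right ‖z‖ (3 * ζ n)
  have hb := subset_ball_of_disjoint_sphere (isPreconnected_UU (f := f) (ζ := ζ) (n + 1)) (c := 0)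
    (r := r) (p := z) ?_ hz ?_
  · have h2 := hb (S.base_mem_UU (n + 1))
    rw [mem_ball_zero_iff, Complex.norm_real, Real.norm_eq_abs, abs_of_pos (by linarith)] at h2
    linarith
  · intro w hw h2
    rw [sub_zero] at h2
    have h3 : w ∈ Ann ζ n := by
      refine ⟨?_, ?_⟩ <;> rw [h2] <;> linarith
    exact S.UU_disj (by omega) hw (S.ann_subset_UU n h3)
  · rw [sub_zero]
    linarith

lemma iter_ge (S : Skel f ζ ε C) {n : ℕ} {z : ℂ} (hz : z ∈ UU f ζ (n + 1)) (k : ℕ) :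
    ζ (n + 1 + k) / 64 ≤ ‖f^[k] z‖ := by
  have h1 := S.iter_UU k hz
  have h2 : n + 1 + k = n + k + 1 := by omega
  rw [h2] at h1 ⊢
  exact S.UU_ge h1

lemma zero_not_mem (S : Skel f ζ ε C) (n : ℕ) : (0 : ℂ) ∉ UU f ζ n := by
  intro h
  obtain ⟨r, hr, h1⟩ := S.escAt_UU h
  obtain ⟨k, hk⟩ := (h1 0).exists
  have h2 := hk 0 (mem_ball_self hr)
  have h3 : f^[k] 0 = 0 := Function.iterate_fixed S.f0 k
  rw [h3, norm_zero] at h2
  exact lt_irrefl _ h2

lemma hole_subset (S : Skel f ζ ε C) (n : ℕ) {T : Set ℂ} (hT : IsPreconnected T)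
    (hsub : T ⊆ (UU f ζ n)ᶜ) {p : ℂ} (hp : p ∈ T) (hpn : ‖p‖ < 3 * ζ n) :
    T ⊆ ball 0 (3 * ζ n) := by
  apply subset_ball_of_disjoint_sphere hT (p := p) _ hp (by rwa [sub_zero])
  intro w hw h2
  rw [sub_zero] at h2
  have h3 : w ∈ Ann ζ n := by
    have h1 := S.zeta_pos n
    have h4 := S.zeta_grow n
    refine ⟨?_, ?_⟩ <;> rw [h2] <;> linarith
  exact hsub hw (S.ann_subset_UU n h3)

/-- The complement has a bounded component. -/
lemma bounded_hole (S : Skel f ζ ε C) (n : ℕ) :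
    Bornology.IsBounded (connectedComponentIn (UU f ζ n)ᶜ 0) := by
  apply isBounded_ball.subset (S.hole_subset n isPreconnected_connectedComponentIn
    (connectedComponentIn_subset _ _) (mem_connectedComponentIn (S.zero_not_mem n)) _)
  rw [norm_zero]
  linarith [S.zeta_pos n]

/-- The complement is not connected. -/
lemma compl_not_preconnected (S : Skel f ζ ε C) (n : ℕ) : ¬ IsPreconnected (UU f ζ n)ᶜ := by
  intro h
  have h1 := S.hole_subset n h le_rfl (S.zero_not_mem n) (by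
    rw [norm_zero]
    linarith [S.zeta_pos n])
  have h2 : ((3 * ζ (n + 1) : ℝ) : ℂ) ∈ (UU f ζ n)ᶜ := fun h3 =>
    S.UU_disj (by omega) h3 (S.base_mem_UU (n + 1))
  have h3 := h1 h2
  have h4 := S.zeta_pos n
  have h5 := S.zeta_grow n
  rw [mem_ball_zero_iff, Complex.norm_real, Real.norm_eq_abs, abs_of_pos (by linarith)] at h3
  linarith

/-- The function is not a polynomial. -/
lemma not_poly (S : Skel f ζ ε C) : ¬ ∃ p : Polynomial ℂ, ∀ z, f z = p.eval z := by
  rintro ⟨p, hp⟩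
  set A : ℝ := ∑ i ∈ Finset.range (p.natDegree + 1), ‖p.coeff i‖ with hA
  have hbound : ∀ z : ℂ, 1 ≤ ‖z‖ → ‖f z‖ ≤ A * ‖z‖ ^ p.natDegree := by
    intro z hz
    rw [hp z, Polynomial.eval_eq_sum_range, hA, Finset.sum_mul]
    refine (norm_sum_le _ _).trans (Finset.sum_le_sum fun i hi => ?_)
    rw [norm_mul, norm_pow]
    apply mul_le_mul_of_nonneg_left _ (norm_nonneg _)
    exact pow_le_pow_right₀ hz (by rw [Finset.mem_range] at hi; omega)
  obtain ⟨m, hm1, hm2⟩ := ((S.zeta_tendsto.eventually_gt_atTop A).and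
    (eventually_ge_atTop (p.natDegree + 1))).exists
  have h1 := S.base_mem m
  have h2 := S.grow2 _ _ h1
  have h0 := S.zeta_ge_one m
  have h3 : ‖((3 * ζ m : ℝ) : ℂ)‖ = 3 * ζ m := by
    rw [Complex.norm_real, Real.norm_eq_abs, abs_of_pos (by linarith)]
  have h4 := hbound _ (by rw [h3]; linarith : 1 ≤ ‖((3 * ζ m : ℝ) : ℂ)‖)
  rw [h3] at h2 h4
  have h5 : (3 * ζ m) ^ (p.natDegree + 1) ≤ (3 * ζ m) ^ m :=
    pow_le_pow_right₀ (by linarith) hm2
  have h6 : 0 < (3 * ζ m) ^ p.natDegree := by positivity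
  rw [pow_succ] at h5
  have h7 : (3 * ζ m) ^ p.natDegree * (3 * ζ m) ≤ A * (3 * ζ m) ^ p.natDegree :=
    h5.trans (h2.trans h4)
  have h8 : (3 * ζ m) ^ p.natDegree * A < (3 * ζ m) ^ p.natDegree * (3 * ζ m) :=
    mul_lt_mul_of_pos_left (by linarith) h6
  linarith

/-- Points at the boundary of the pinching discs. -/
lemma good_real (S : Skel f ζ ε C) (n : ℕ) {c : ℂ} (hc : c ∈ C) {t : ℝ} (h1 : 1 + ε n ≤ t)
    (h2 : t ≤ 3) : EscAt f ((t : ℂ) * (c * ζ n)) := by
  have h3 := S.zeta_pos n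
  have h4 := S.zeta_grow n
  have h5 := S.eps_pos n
  have h6 := S.eps_lt n
  have hc1 : ‖c‖ = 1 := by
    rcases S.C_real c hc with rfl | rfl <;> simp
  have hn : ‖(t : ℂ) * (c * ζ n)‖ = t * ζ n := by
    rw [norm_mul, norm_mul, hc1, Complex.norm_real, Complex.norm_real, Real.norm_eq_abs,
      Real.norm_eq_abs, abs_of_pos (by linarith), abs_of_pos h3, one_mul]
  by_cases h7 : 2 < t
  · apply S.escAt_of_ann (n := n)
    refine ⟨?_, ?_⟩ <;> rw [hn] <;> nlinarith
  · push Not at h7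
    apply S.escAt_of_good (n := n + 1)
    apply S.bridge n
    · rw [hn]; nlinarith
    · rw [hn]; nlinarith
    · intro c' hc'
      have : (t : ℂ) * (c * ζ n) - c' * ζ n = ((t : ℂ) * c - c') * ζ n := by ring
      rw [this, norm_mul, Complex.norm_real, Real.norm_eq_abs, abs_of_pos h3]
      apply mul_le_mul_of_nonneg_right _ h3.le
      rcases S.C_real c hc with rfl | rfl <;> rcases S.C_real c' hc' with rfl | rfl
      · have : (t : ℂ) * 1 - 1 = ((t - 1 : ℝ) : ℂ) := by push_cast; ring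
        rw [this, Complex.norm_real, Real.norm_eq_abs, abs_of_nonneg (by linarith)]
        linarith
      · have : (t : ℂ) * 1 - -1 = ((t + 1 : ℝ) : ℂ) := by push_cast; ring
        rw [this, Complex.norm_real, Real.norm_eq_abs, abs_of_nonneg (by linarith)]
        linarith
      · have : (t : ℂ) * -1 - 1 = ((-(t + 1) : ℝ) : ℂ) := by push_cast; ring
        rw [this, Complex.norm_real, Real.norm_eq_abs, abs_neg, abs_of_nonneg (by linarith)]
        linarith
      · have : (t : ℂ) * -1 - -1 = ((-(t - 1) : ℝ) : ℂ) := by push_cast; ring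
        rw [this, Complex.norm_real, Real.norm_eq_abs, abs_neg, abs_of_nonneg (by linarith)]
        linarith

lemma norm_c (S : Skel f ζ ε C) {c : ℂ} (hc : c ∈ C) : ‖c‖ = 1 := by
  rcases S.C_real c hc with rfl | rfl <;> simp

lemma real_mem_UU (S : Skel f ζ ε C) (n : ℕ) {c : ℂ} (hc : c ∈ C) :
    ((1 + ε n : ℝ) : ℂ) * (c * ζ n) ∈ UU f ζ n := by
  have h3 := S.zeta_pos n
  have h4 := S.zeta_grow n
  have h5 := S.eps_pos n
  have h6 := S.eps_lt n
  have hpre : IsPreconnected ((fun t : ℝ => (t : ℂ) * (c * ζ n)) '' Icc (1 + ε n) 3) :=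
    isPreconnected_Icc.image _ (by fun_prop)
  have hmem3 : ((3 : ℝ) : ℂ) * (c * ζ n) ∈ UU f ζ n := by
    apply S.ann_subset_UU
    have : ‖((3 : ℝ) : ℂ) * (c * ζ n)‖ = 3 * ζ n := by
      rw [norm_mul, norm_mul, S.norm_c hc, Complex.norm_real, Complex.norm_real, Real.norm_eq_abs,
        Real.norm_eq_abs, abs_of_pos (by norm_num), abs_of_pos h3, one_mul]
    refine ⟨?_, ?_⟩ <;> rw [this] <;> linarith
  apply sub_UU hpre _ _ hmem3
  · exact mem_image_of_mem (fun t : ℝ => (t : ℂ) * (c * ζ n)) (left_mem_Icc.mpr (by linarith))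
  · rintro _ ⟨t, ht, rfl⟩
    exact (S.good_real n hc ht.1 ht.2).mem_FatouSet
  · exact mem_image_of_mem (fun t : ℝ => (t : ℂ) * (c * ζ n)) (right_mem_Icc.mpr (by linarith))

lemma sphere_subset (S : Skel f ζ ε C) (n : ℕ) {c : ℂ} (hc : c ∈ C) :
    sphere (c * ζ n) (ε n * ζ n) ⊆ UU f ζ n := by
  have h3 := S.zeta_pos n
  have h4 := S.zeta_grow n
  have h5 := S.eps_pos n
  have h6 := S.eps_lt n
  have hpre : IsPreconnected (sphere (c * ζ n) (ε n * ζ n)) :=
    isPreconnected_sphere (by rw [Complex.rank_real_complex]; exact Cardinal.one_lt_two) _ _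
  have hcn : ‖c * (ζ n : ℂ)‖ = ζ n := by
    rw [norm_mul, S.norm_c hc, Complex.norm_real, Real.norm_eq_abs, abs_of_pos h3, one_mul]
  apply sub_UU hpre _ _ (S.real_mem_UU n hc)
  · intro z hz
    rw [mem_sphere_iff_norm] at hz
    have h7 : ‖z‖ ≤ ζ n + ε n * ζ n := by
      calc ‖z‖ = ‖c * ζ n + (z - c * ζ n)‖ := by congr 1; ring
        _ ≤ _ := (norm_add_le _ _).trans (by rw [hcn, hz])
    have h8 : ζ n - ε n * ζ n ≤ ‖z‖ := by
      have := norm_sub_norm_le (c * (ζ n : ℂ)) (c * (ζ n : ℂ) - z)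
      rw [norm_sub_rev (c * (ζ n : ℂ)) z, hz, hcn] at this
      simpa using this
    apply EscAt.mem_FatouSet
    apply S.escAt_of_good (n := n + 1)
    apply S.bridge n
    · nlinarith
    · nlinarith
    · intro c' hc'
      by_cases hcc : c' = c
      · rw [hcc, hz]
      · have h9 : ‖(c - c') * (ζ n : ℂ)‖ = 2 * ζ n := by
          rw [norm_mul, Complex.norm_real, Real.norm_eq_abs, abs_of_pos h3]
          congr 1
          rcases S.C_real c hc with rfl | rfl <;> rcases S.C_real c' hc' with rfl | rfl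
          · exact absurd rfl hcc
          · norm_num
          · norm_num
          · exact absurd rfl hcc
        have h10 := norm_sub_norm_le ((c - c') * (ζ n : ℂ)) (-(z - c * ζ n))
        have h11 : (c - c') * (ζ n : ℂ) - -(z - c * ζ n) = z - c' * ζ n := by ring
        rw [h11, norm_neg, h9, hz] at h10
        nlinarith
  · rw [mem_sphere_iff_norm]
    have : ((1 + ε n : ℝ) : ℂ) * (c * ζ n) - c * ζ n = (ε n : ℂ) * (c * ζ n) := by
      push_cast; ring
    rw [this, norm_mul, hcn, Complex.norm_real, Real.norm_eq_abs, abs_of_pos h5]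

/-- The key step: a preimage component either reaches the boundary circle or is mapped onto. -/
lemma prop_step (S : Skel f ζ ε C) {n : ℕ} {c : ℂ} (hc : c ∈ C) {z : ℂ}
    (hz : z ∈ closedBall (c * ζ n) (ε n * ζ n)) (hfz : f z ∈ UU f ζ (n + 1)) : z ∈ UU f ζ n := by
  set V : Set ℂ := f ⁻¹' UU f ζ (n + 1) with hV
  have hVo : IsOpen V := (isOpen_UU (n + 1)).preimage S.diff.continuous
  set W : Set ℂ := connectedComponentIn V z with hW
  have hWo : IsOpen W := hVo.connectedComponentIn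
  have hWpre : IsPreconnected W := isPreconnected_connectedComponentIn
  have hzW : z ∈ W := mem_connectedComponentIn hfz
  have hWV : W ⊆ V := connectedComponentIn_subset _ _
  have hWF : W ⊆ FatouSet f := fun w hw =>
    (escAt_of_image S.diff.continuous (S.escAt_UU (hWV hw))).mem_FatouSet
  have h0 := S.zeta_pos n
  have h1 := S.zeta_pos (n + 1)
  have he := S.eps_pos n
  by_cases hcase : ∃ w ∈ W, ‖w - c * ζ n‖ = ε n * ζ n
  · obtain ⟨w, hw, hws⟩ := hcase
    exact sub_UU hWpre hWF hw (S.sphere_subset n hc (mem_sphere_iff_norm.mpr hws)) hzW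
  push Not at hcase
  have hWb : W ⊆ ball (c * ζ n) (ε n * ζ n) := by
    apply subset_ball_of_disjoint_sphere hWpre hcase hzW
    have h2 := mem_closedBall_iff_norm.mp hz
    exact lt_of_le_of_ne h2 (hcase z hzW)
  have hsurj : UU f ζ (n + 1) ⊆ f '' W := by
    have hopen : IsOpen (f '' W) := S.openMap _ hWo
    have hclK : IsCompact (closure W) :=
      (isCompact_closedBall (c * (ζ n : ℂ)) (ε n * ζ n)).of_isClosed_subset isClosed_closure
        (closure_minimal (hWb.trans ball_subset_closedBall) isClosed_closedBall)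
    have hcl : IsClosed (f '' closure W) := (hclK.image S.diff.continuous).isClosed
    have hkey : ∀ w ∈ closure W, f w ∈ UU f ζ (n + 1) → w ∈ W := by
      intro w hw hfw
      have h2 : IsOpen (connectedComponentIn V w) := hVo.connectedComponentIn
      have h3 : w ∈ connectedComponentIn V w := mem_connectedComponentIn hfw
      obtain ⟨v, hv1, hv2⟩ := mem_closure_iff.mp hw _ h2 h3
      rw [hW, connectedComponentIn_eq hv2, ← connectedComponentIn_eq hv1]
      exact h3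
    have hsub : UU f ζ (n + 1) ⊆ f '' W ∪ (f '' closure W)ᶜ := by
      intro y hy
      by_cases hy2 : y ∈ f '' closure W
      · obtain ⟨w, hw, rfl⟩ := hy2
        exact Or.inl ⟨w, hkey w hw hy, rfl⟩
      · exact Or.inr hy2
    apply (isPreconnected_UU (f := f) (ζ := ζ) (n + 1)).subset_left_of_subset_union hopen
      hcl.isOpen_compl _ hsub ⟨f z, hfz, mem_image_of_mem _ hzW⟩
    rw [Set.disjoint_compl_right_iff_subset]
    exact image_mono subset_closure
  have hq : ((9 * ζ (n + 1) : ℝ) : ℂ) ∈ Ann ζ (n + 1) := by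
    have h2 := S.zeta_grow (n + 1)
    have : ‖((9 * ζ (n + 1) : ℝ) : ℂ)‖ = 9 * ζ (n + 1) := by
      rw [Complex.norm_real, Real.norm_eq_abs, abs_of_pos (by linarith)]
    refine ⟨?_, ?_⟩ <;> rw [this] <;> linarith
  obtain ⟨w, hw, hwq⟩ := hsurj (S.ann_subset_UU _ hq)
  have hwn : 8 * ζ (n + 1) ≤ ‖f w‖ := by
    rw [hwq, Complex.norm_real, Real.norm_eq_abs, abs_of_pos (by linarith)]
    linarith
  have hwb := mem_ball_iff_norm.mp (hWb hw)
  have hwne : 0 < ‖w - c * ζ n‖ := by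
    rw [norm_pos_iff]
    intro h2
    have h3 := S.center n c hc
    rw [sub_eq_zero.mp h2] at hwn
    linarith
  set T : ℝ := ε n * ζ n / ‖w - c * ζ n‖ with hT
  have hT1 : 1 ≤ T := by
    rw [hT, le_div_iff₀ hwne]
    linarith
  have hpath : IsPreconnected ((fun t : ℝ => c * (ζ n : ℂ) + (t : ℂ) * (w - c * ζ n)) '' Icc 1 T) :=
    isPreconnected_Icc.image _ (by fun_prop)
  have hw1 : w ∈ (fun t : ℝ => c * (ζ n : ℂ) + (t : ℂ) * (w - c * ζ n)) '' Icc 1 T :=
    ⟨1, left_mem_Icc.mpr hT1, by simp⟩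
  have hnT : ‖(T : ℂ) * (w - c * ζ n)‖ = ε n * ζ n := by
    rw [norm_mul, Complex.norm_real, Real.norm_eq_abs, abs_of_pos (by linarith), hT,
      div_mul_cancel₀ _ hwne.ne']
  have hsph : c * (ζ n : ℂ) + (T : ℂ) * (w - c * ζ n) ∈ UU f ζ n := by
    apply S.sphere_subset n hc
    rw [mem_sphere_iff_norm, add_sub_cancel_left, hnT]
  have hpF : (fun t : ℝ => c * (ζ n : ℂ) + (t : ℂ) * (w - c * ζ n)) '' Icc 1 T ⊆ FatouSet f := by
    rintro _ ⟨t, ht, rfl⟩
    apply EscAt.mem_FatouSet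
    apply S.escAt_of_good (n := n + 1)
    apply S.radial n w c t hc hwb.le hwn ht.1
    rw [← hnT, norm_mul, norm_mul, Complex.norm_real, Complex.norm_real, Real.norm_eq_abs,
      Real.norm_eq_abs, abs_of_pos (by linarith [ht.1]), abs_of_pos (by linarith [hT1])]
    exact mul_le_mul_of_nonneg_right ht.2 (norm_nonneg _)
  have hwU : w ∈ UU f ζ n := sub_UU hpath hpF
    (mem_image_of_mem (fun t : ℝ => c * (ζ n : ℂ) + (t : ℂ) * (w - c * ζ n))
      (right_mem_Icc.mpr hT1)) hsph hw1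
  exact sub_UU hWpre hWF hw hwU hzW

/-- Points following an itinerary and ending on a boundary circle are in the component. -/
lemma prop_C (S : Skel f ζ ε C) (k : ℕ) : ∀ (n : ℕ) (c : ℕ → ℂ) (z : ℂ), (∀ j, c j ∈ C) →
    (∀ j ≤ k, f^[j] z ∈ closedBall (c j * ζ (n + j)) (ε (n + j) * ζ (n + j))) →
    f^[k] z ∈ sphere (c k * ζ (n + k)) (ε (n + k) * ζ (n + k)) → z ∈ UU f ζ n := by
  induction k with
  | zero =>
    intro n c z hc _ hz
    simp only [Function.iterate_zero, id_eq, add_zero] at hz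
    exact S.sphere_subset n (hc 0) hz
  | succ k ih =>
    intro n c z hc hD hz
    have h0 := hD 0 (by omega)
    simp only [Function.iterate_zero, id_eq, add_zero] at h0
    apply S.prop_step (hc 0) h0
    apply ih (n + 1) (fun j => c (j + 1)) (f z) (fun j => hc _)
    · intro j hj
      have h1 := hD (j + 1) (by omega)
      have h2 : n + (j + 1) = n + 1 + j := by omega
      rwa [h2, Function.iterate_succ_apply] at h1
    · have h2 : n + (k + 1) = n + 1 + k := by omega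
      rwa [h2, Function.iterate_succ_apply] at hz

/-- Complementary components of points with an itinerary. -/
lemma itin (S : Skel f ζ ε C) {n : ℕ} {c : ℕ → ℂ} {p : ℂ} (hc : ∀ j, c j ∈ C)
    (hp : ∀ j, f^[j] p ∈ closedBall (c j * ζ (n + j)) (ε (n + j) * ζ (n + j)))
    {K : Set ℂ} (hK : IsPreconnected K) (hKU : K ⊆ (UU f ζ n)ᶜ)
    (hpK : p ∈ K) (k : ℕ) : ∀ z ∈ K,
    f^[k] z ∈ closedBall (c k * ζ (n + k)) (ε (n + k) * ζ (n + k)) := by
  induction k using Nat.strong_induction_on with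
  | _ k ih =>
    have him : IsPreconnected (f^[k] '' K) :=
      hK.image _ (S.diff_iter k).continuous.continuousOn
    have hns : ∀ y ∈ f^[k] '' K, ‖y - c k * ζ (n + k)‖ ≠ ε (n + k) * ζ (n + k) := by
      rintro _ ⟨z, hz, rfl⟩ heq
      apply hKU hz
      apply S.prop_C k n c z hc _ (mem_sphere_iff_norm.mpr heq)
      intro j hj
      rcases Nat.lt_or_eq_of_le hj with h | h
      · exact ih j h z hz
      · rw [h]
        exact mem_closedBall_iff_norm.mpr heq.le
    have hb := subset_ball_of_disjoint_sphere him hns (mem_image_of_mem _ hpK)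
      (lt_of_le_of_ne (mem_closedBall_iff_norm.mp (hp k)) (hns _ (mem_image_of_mem _ hpK)))
    intro z hz
    exact ball_subset_closedBall (hb (mem_image_of_mem _ hz))

lemma ratio_ann (S : Skel f ζ ε C) {n : ℕ} {b : ℂ} (hb : b ∈ Ann ζ n) (k : ℕ) :
    (2 : ℝ) ^ (k + 1) * ζ (n + k) ≤ ‖f^[k] b‖ := by
  induction k with
  | zero =>
    simp only [Function.iterate_zero, id_eq, add_zero, zero_add, pow_one]
    exact hb.1.le
  | succ k ih =>
    have h1 := S.iter_ann k hb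
    have h2 := S.grow1 _ _ h1
    have h3 := S.zeta_pos (n + k)
    have h4 := S.zeta_pos (n + (k + 1))
    rw [Function.iterate_succ_apply']
    rw [le_div_iff₀ (S.zeta_pos _)] at h2
    refine le_trans ?_ h2
    have h5 : n + (k + 1) = n + k + 1 := by omega
    rw [h5]
    apply mul_le_mul_of_nonneg_right _ (S.zeta_pos _).le
    have h6 : (2 : ℝ) ^ (k + 1) ≤ ‖f^[k] b‖ / ζ (n + k) := by
      rwa [le_div_iff₀ h3]
    have h7 : (2 : ℝ) ≤ 2 ^ (k + 1) := by
      calc (2 : ℝ) = 2 ^ 1 := by norm_num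
        _ ≤ 2 ^ (k + 1) := pow_le_pow_right₀ (by norm_num) (by omega)
    calc (2 : ℝ) ^ (k + 1 + 1) = 2 ^ (k + 1) * 2 := pow_succ _ _
      _ ≤ 2 ^ (k + 1) * 2 ^ (k + 1) := by gcongr
      _ = (2 ^ (k + 1)) ^ 2 := by ring
      _ ≤ _ := by gcongr

/-- Points of the component escape relative to the scale. -/
lemma ratio_UU (S : Skel f ζ ε C) {n : ℕ} {z : ℂ} (hz : z ∈ UU f ζ (n + 1)) (M : ℝ) :
    ∀ᶠ k in atTop, M * ζ (n + 1 + k) < ‖f^[k] z‖ := by
  have h1 : ∀ k, 0 < ζ (n + 1 + k) := fun k => S.zeta_pos _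
  have hnorm : ∀ k w, ‖(65 / ζ (n + 1 + k) : ℂ) * f^[k] w‖ = 65 / ζ (n + 1 + k) * ‖f^[k] w‖ := by
    intro k w
    rw [norm_mul, norm_div, Complex.norm_real, Real.norm_eq_abs, abs_of_pos (h1 k)]
    norm_num
  obtain ⟨c, hc, hC⟩ := harnack_chain (isPreconnected_UU (n + 1)) (isOpen_UU (n + 1))
    (g := fun k w => (65 / ζ (n + 1 + k) : ℂ) * f^[k] w)
    (fun k => ((S.diff_iter k).const_mul _).differentiableOn)
    (fun w hw => by
      obtain ⟨r, hr, hb⟩ := Metric.isOpen_iff.mp (isOpen_UU (f := f) (ζ := ζ) (n + 1)) w hw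
      refine ⟨r, hr, Eventually.of_forall fun k v hv => ?_⟩
      rw [hnorm]
      have h2 := S.iter_ge (hb hv) k
      rw [div_mul_eq_mul_div, lt_div_iff₀ (h1 k)]
      linarith [h1 k]) hz (S.base_mem_UU (n + 1))
  simp only [hnorm] at hC
  have hlog : ∀ k : ℕ, (k : ℝ) * Real.log 2 ≤
      Real.log (65 / ζ (n + 1 + k) * ‖f^[k] ((3 * ζ (n + 1) : ℝ) : ℂ)‖) := by
    intro k
    have h2 := S.ratio_ann (S.base_mem (n + 1)) k
    rw [← Real.log_pow]
    apply Real.log_le_log (by positivity)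
    rw [div_mul_eq_mul_div, le_div_iff₀ (h1 k)]
    rw [pow_succ] at h2
    have := norm_nonneg (f^[k] ((3 * ζ (n + 1) : ℝ) : ℂ))
    nlinarith [h1 k]
  have htend : Tendsto (fun k : ℕ => (k : ℝ) * Real.log 2 / c) atTop atTop :=
    (tendsto_natCast_atTop_atTop.atTop_mul_const (Real.log_pos (by norm_num))).atTop_div_const hc
  filter_upwards [hC, htend.eventually_gt_atTop (Real.log (65 * max M 1))] with k h2 h3
  have h4 := hlog k
  have h5 : Real.log (65 * max M 1) < Real.log (65 / ζ (n + 1 + k) * ‖f^[k] z‖) := by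
    rw [lt_div_iff₀ hc] at h3
    nlinarith
  have h6 : 0 < 65 / ζ (n + 1 + k) * ‖f^[k] z‖ := by
    have := S.iter_ge hz k
    have := h1 k
    have : 0 < ‖f^[k] z‖ := by linarith
    positivity
  have h7 := (Real.log_lt_log_iff (by positivity) h6).mp h5
  rw [div_mul_eq_mul_div, lt_div_iff₀ (h1 k)] at h7
  have := le_max_left M 1
  nlinarith [h1 k]

end Skel

end

end Pool.Agent.H218R3.Fat
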