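import Pool.Agent.H218R3.Ser

set_option autoImplicit false
open Filter Topology Set Metric

namespace Pool.Agent.H218R3.Ser

open Pool.Agent.H218R3.Fat

noncomputable section

/-- radii of the pinching discs -/
def ep (n : ℕ) : ℝ := 4 / p n

/-- properties of the quadratic polynomials -/
structure QP (a b : ℕ → ℝ) (C : Set ℂ) : Prop where
  par : Par a b
  creal : ∀ c ∈ C, c = 1 ∨ c = -1
  q1 : ∀ n (x : ℂ), 2 ≤ ‖x‖ → ‖x‖ ^ 2 / 8 ≤ ‖Q a b n x‖
  q2 : ∀ n (x : ℂ), 1 / 2 ≤ ‖x‖ → ‖x‖ ≤ 2 → (∀ c ∈ C, ep n ≤ ‖x - c‖) →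
    8 / p n ^ 2 ≤ ‖Q a b n x‖
  q4 : ∀ n (x c : ℂ) (t : ℝ), c ∈ C → ‖x - c‖ ≤ ep n → 7 / p n ^ 3 ≤ ‖Q a b n x‖ → 1 ≤ t →
    ‖(t : ℂ) * (x - c)‖ ≤ ep n → 4 / p n ^ 3 ≤ ‖Q a b n (c + t * (x - c))‖
  q5 : ∀ n, ∀ c ∈ C, ‖Q a b n c‖ ≤ 2 / p n ^ 3

lemma ep_pos (n : ℕ) : 0 < ep n := div_pos (by norm_num) (p_pos n)

lemma ep_le (n : ℕ) : ep n ≤ 1 / 100000 := by
  have := p_ge n
  unfold ep
  rw [div_le_div_iff₀ (p_pos n) (by norm_num)]
  linarith

lemma nat_bound (k : ℕ) (hk : 20 ≤ k) : 4000 * k ≤ 2 ^ k := by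
  induction k, hk using Nat.le_induction with
  | base => norm_num
  | succ k hk ih =>
    rw [pow_succ]
    omega

lemma m_ep (n : ℕ) : (m n : ℝ) * ep n ≤ 1 / 1000 := by
  have h1 : 4000 * m n ≤ 2 ^ m n := nat_bound _ (by unfold m; omega)
  have h2 : (4000 : ℝ) * m n ≤ p n := by
    unfold p
    exact_mod_cast h1
  unfold ep
  rw [mul_div_assoc', div_le_div_iff₀ (p_pos n) (by norm_num)]
  linarith

lemma pow_low (n : ℕ) {x : ℝ} (hx : 1 - ep n ≤ x) : 99 / 100 ≤ x ^ m n := by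
  have h1 := ep_le n
  have h2 := m_ep n
  have h3 := one_add_mul_le_pow (a := -ep n) (by linarith) (m n)
  have h4 : (1 + -ep n) ^ m n ≤ x ^ m n := pow_le_pow_left₀ (by linarith) (by linarith) _
  linarith

lemma pow_up (n : ℕ) {x : ℝ} (hx0 : 0 ≤ x) (hx : x ≤ 1 + ep n) : x ^ m n ≤ 101 / 100 := by
  have h1 := ep_le n
  have h2 := m_ep n
  have h3 := one_add_mul_le_pow (a := -ep n) (by linarith) (m n)
  have h4 : x ^ m n ≤ (1 + ep n) ^ m n := pow_le_pow_left₀ hx0 hx _
  have h5 : (1 + ep n) ^ m n * (1 + -ep n) ^ m n ≤ 1 := by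
    rw [← mul_pow]
    apply pow_le_one₀
    · nlinarith [ep_pos n]
    · nlinarith [ep_pos n]
  have h6 : 0 < (1 + ep n) ^ m n := by
    have := ep_pos n
    positivity
  nlinarith

variable {a b : ℕ → ℝ}

lemma norm_Q_le (H : Par a b) (n : ℕ) (x : ℂ) : ‖Q a b n x‖ ≤ (1 + ‖x‖) ^ 2 := by
  unfold Q
  refine (norm_add₃_le).trans ?_
  rw [norm_mul, norm_mul, norm_pow, Complex.norm_real, Complex.norm_real, Real.norm_eq_abs,
    Real.norm_eq_abs, norm_one]
  have h1 := H.ha n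
  have h2 := H.hb1 n
  calc 1 + |a n| * ‖x‖ + |b n| * ‖x‖ ^ 2 ≤ 1 + 2 * ‖x‖ + 1 * ‖x‖ ^ 2 := by gcongr
    _ = _ := by ring

lemma th_small (H : Par a b) (n : ℕ) : th b n + 24 / lam b n ≤ 1 / (100000 * p n ^ 9) := by
  have h1 := lam_ge H n
  have h2 := p_ge n
  have h0 := p_pos n
  have h3 : 24 / lam b n ≤ 24 / p n ^ 12 := by gcongr
  have h4 : th b n ≤ 16 * 4 ^ 12 / p n ^ 12 := by
    cases n with
    | zero => show (0 : ℝ) ≤ _; positivity
    | succ k =>
      have h5 := lam_ge H k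
      have h6 := p_pos k
      show 16 / lam b k ≤ _
      rw [p_succ]
      calc 16 / lam b k ≤ 16 / p k ^ 12 := by gcongr
        _ = _ := by field_simp
  have h5 : (10 : ℝ) ^ 18 ≤ p n ^ 3 := by
    calc (10 : ℝ) ^ 18 = (10 ^ 6) ^ 3 := by norm_num
      _ ≤ p n ^ 3 := by
        apply pow_le_pow_left₀ (by norm_num)
        linarith
  have h6 : (16 * 4 ^ 12 + 24) / p n ^ 12 ≤ 1 / (100000 * p n ^ 9) := by
    rw [div_le_div_iff₀ (by positivity) (by positivity)]
    have h7 : p n ^ 12 = p n ^ 3 * p n ^ 9 := by ring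
    rw [h7]
    have h8 : 0 < p n ^ 9 := by positivity
    nlinarith
  rw [add_div] at h6
  linarith

lemma approx_small (H : Par a b) (n : ℕ) (z : ℂ) (h1 : zt b n / 2 ≤ ‖z‖)
    (h2 : ‖z‖ ≤ 2 * zt b n) :
    ‖F a b z - T b n z * Q a b n (z / zt b n)‖ ≤ ‖T b n z‖ * (1 / (100000 * p n ^ 9)) := by
  have h3 := lam_ge' H n
  have h4 := zt_pos H n
  refine (approx H n z h1 ?_).trans ?_
  · rw [zt_succ]
    nlinarith
  · apply mul_le_mul_of_nonneg_left _ (norm_nonneg _)
    refine le_trans ?_ (th_small H n)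
    have h5 : ‖z‖ / zt b n ≤ 2 := by
      rw [div_le_iff₀ h4]
      linarith
    have h6 : (‖z‖ / zt b n) ^ 3 ≤ 2 ^ 3 := by gcongr
    have h7 : 3 * (‖z‖ / zt b n) ^ 3 / lam b n ≤ 24 / lam b n := by
      gcongr
      linarith
    linarith

lemma F_low (H : Par a b) (n : ℕ) (z : ℂ) (h1 : zt b n / 2 ≤ ‖z‖)
    (h2 : ‖z‖ ≤ 2 * zt b n) :
    ‖T b n z‖ * (‖Q a b n (z / zt b n)‖ - 1 / (100000 * p n ^ 9)) ≤ ‖F a b z‖ := by
  have h3 := approx_small H n z h1 h2
  have h4 := norm_sub_norm_le (T b n z * Q a b n (z / zt b n))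
    (T b n z * Q a b n (z / zt b n) - F a b z)
  rw [norm_sub_rev (T b n z * Q a b n (z / zt b n)) (F a b z)] at h4
  have h5 : T b n z * Q a b n (z / zt b n) - (T b n z * Q a b n (z / zt b n) - F a b z) =
    F a b z := by ring
  rw [h5, norm_mul] at h4
  linarith

lemma F_up (H : Par a b) (n : ℕ) (z : ℂ) (h1 : zt b n / 2 ≤ ‖z‖)
    (h2 : ‖z‖ ≤ 2 * zt b n) :
    ‖F a b z‖ ≤ ‖T b n z‖ * (‖Q a b n (z / zt b n)‖ + 1 / (100000 * p n ^ 9)) := by
  have h3 := approx_small H n z h1 h2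
  have h4 : ‖F a b z‖ ≤ ‖F a b z - T b n z * Q a b n (z / zt b n)‖ +
      ‖T b n z * Q a b n (z / zt b n)‖ := by
    refine le_trans (le_of_eq ?_) (norm_add_le _ _)
    congr 1
    ring
  rw [norm_mul] at h4
  linarith

lemma err_ann (H : Par a b) (n : ℕ) {z : ℂ} (hz : z ∈ Ann (zt b) n) :
    ‖F a b z - T b n z * Q a b n (z / zt b n)‖ ≤ ‖T b n z‖ * ((‖z‖ / zt b n) ^ 2 / 16) := by
  have h3 := lam_ge' H n
  have h4 := zt_pos H n
  obtain ⟨h1, h2⟩ := hz
  refine (approx H n z (by linarith) ?_).trans ?_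
  · have := zt_pos H (n + 1)
    linarith
  · apply mul_le_mul_of_nonneg_left _ (norm_nonneg _)
    have h5 : 2 ≤ ‖z‖ / zt b n := by
      rw [le_div_iff₀ h4]
      linarith
    have h6 : ‖z‖ / zt b n ≤ lam b n / 64 := by
      rw [div_le_iff₀ h4]
      rw [zt_succ] at h2
      linarith
    have h7 := th_le H n
    have h8 : 3 * (‖z‖ / zt b n) ^ 3 / lam b n ≤ 3 / 64 * (‖z‖ / zt b n) ^ 2 := by
      rw [div_le_iff₀ (by linarith)]
      have : (‖z‖ / zt b n) ^ 3 = (‖z‖ / zt b n) ^ 2 * (‖z‖ / zt b n) := by ring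
      rw [this]
      have h9 : 0 ≤ (‖z‖ / zt b n) ^ 2 := by positivity
      nlinarith
    nlinarith

lemma ann_low {C : Set ℂ} (H : QP a b C) (n : ℕ) {z : ℂ} (hz : z ∈ Ann (zt b) n) :
    p n ^ 3 * zt b (n + 1) * (‖z‖ / zt b n) ^ (m n + 2) / 16 ≤ ‖F a b z‖ := by
  have h1 := err_ann H.par n hz
  have h4 := zt_pos H.par n
  have h5 : 2 ≤ ‖z / (zt b n : ℂ)‖ := by
    rw [norm_ratio H.par, le_div_iff₀ h4]
    exact hz.1.le
  have h2 := H.q1 n _ h5
  rw [norm_ratio H.par] at h2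
  have h6 := norm_sub_norm_le (T b n z * Q a b n (z / zt b n))
    (T b n z * Q a b n (z / zt b n) - F a b z)
  rw [norm_sub_rev (T b n z * Q a b n (z / zt b n)) (F a b z)] at h6
  have h7 : T b n z * Q a b n (z / zt b n) - (T b n z * Q a b n (z / zt b n) - F a b z) =
    F a b z := by ring
  rw [h7, norm_mul] at h6
  have h8 : ‖T b n z‖ * ((‖z‖ / zt b n) ^ 2 / 8) ≤ ‖T b n z‖ * ‖Q a b n (z / zt b n)‖ := by
    gcongr
  have h9 : p n ^ 3 * zt b (n + 1) * (‖z‖ / zt b n) ^ (m n + 2) / 16 =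
      ‖T b n z‖ * ((‖z‖ / zt b n) ^ 2 / 16) := by
    rw [norm_T H.par]
    ring
  rw [h9]
  linarith

lemma ann_up {C : Set ℂ} (H : QP a b C) (n : ℕ) {z : ℂ} (hz : z ∈ Ann (zt b) n) :
    ‖F a b z‖ ≤ 4 * p n ^ 3 * zt b (n + 1) * (‖z‖ / zt b n) ^ (m n + 2) := by
  have h1 := err_ann H.par n hz
  have h4 := zt_pos H.par n
  have h5 : 2 ≤ ‖z‖ / zt b n := by
    rw [le_div_iff₀ h4]
    exact hz.1.le
  have h2 := norm_Q_le H.par n (z / (zt b n : ℂ))
  rw [norm_ratio H.par] at h2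
  have h6 : ‖F a b z‖ ≤ ‖F a b z - T b n z * Q a b n (z / zt b n)‖ +
      ‖T b n z * Q a b n (z / zt b n)‖ := by
    refine le_trans (le_of_eq ?_) (norm_add_le _ _)
    congr 1
    ring
  rw [norm_mul] at h6
  have h8 : ‖T b n z‖ * ‖Q a b n (z / zt b n)‖ ≤ ‖T b n z‖ * (1 + ‖z‖ / zt b n) ^ 2 := by
    gcongr
  have h9 : 4 * p n ^ 3 * zt b (n + 1) * (‖z‖ / zt b n) ^ (m n + 2) =
      ‖T b n z‖ * (4 * (‖z‖ / zt b n) ^ 2) := by
    rw [norm_T H.par]
    ring
  rw [h9]
  have h10 : (1 + ‖z‖ / zt b n) ^ 2 + (‖z‖ / zt b n) ^ 2 / 16 ≤ 4 * (‖z‖ / zt b n) ^ 2 := by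
    nlinarith
  have h11 := mul_le_mul_of_nonneg_left h10 (norm_nonneg (T b n z))
  linarith

lemma zt_ratio (H : Par a b) (n : ℕ) : (p n ^ 12) * zt b n ≤ zt b (n + 1) := by
  rw [zt_succ]
  have := lam_ge H n
  have := zt_pos H n
  gcongr

lemma ratio_bound (H : Par a b) (n : ℕ) (x : ℝ) (hx : x ≤ 10 * p n ^ 4 * zt b (n + 1)) :
    x < zt b (n + 2) / 64 := by
  have h1 := zt_ratio H (n + 1)
  have h2 := p_ge n
  have h3 := zt_pos H (n + 1)
  rw [p_succ] at h1
  have h4 : 10 * p n ^ 4 * 64 < (4 * p n) ^ 12 := by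
    have h5 : p n ^ 4 * 1 ≤ p n ^ 4 * p n ^ 8 := by
      gcongr
      exact one_le_pow₀ (by linarith)
    have h6 : 0 < p n ^ 4 := by positivity
    calc 10 * p n ^ 4 * 64 < 4 ^ 12 * (p n ^ 4 * 1) := by nlinarith
      _ ≤ 4 ^ 12 * (p n ^ 4 * p n ^ 8) := by gcongr
      _ = _ := by ring
  have h7 := mul_lt_mul_of_pos_right h4 h3
  linarith

lemma T_near (H : Par a b) (n : ℕ) {z c : ℂ} (hc : ‖c‖ = 1) (hz : ‖z / zt b n - c‖ ≤ ep n) :
    99 / 100 * (p n ^ 3 * zt b (n + 1)) ≤ ‖T b n z‖ ∧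
      ‖T b n z‖ ≤ 101 / 100 * (p n ^ 3 * zt b (n + 1)) ∧ zt b n / 2 ≤ ‖z‖ ∧ ‖z‖ ≤ 2 * zt b n := by
  have h0 := zt_pos H n
  have h1 := zt_pos H (n + 1)
  have h2 := p_pos n
  have h3 := ep_le n
  have h4 : 1 - ep n ≤ ‖z‖ / zt b n := by
    rw [← norm_ratio H, ← hc]
    have := norm_sub_norm_le c (c - z / zt b n)
    rw [norm_sub_rev c (z / zt b n)] at this
    have h5 : c - (c - z / zt b n) = z / zt b n := by ring
    rw [h5] at this
    linarith
  have h5 : ‖z‖ / zt b n ≤ 1 + ep n := by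
    rw [← norm_ratio H, ← hc]
    calc ‖z / (zt b n : ℂ)‖ = ‖c + (z / zt b n - c)‖ := by congr 1; ring
      _ ≤ _ := (norm_add_le _ _).trans (by linarith)
  have h6 := pow_low n h4
  have h7 := pow_up n (by positivity) h5
  rw [norm_T H]
  have h8 : 0 < p n ^ 3 * zt b (n + 1) := by positivity
  refine ⟨by nlinarith, by nlinarith, ?_, ?_⟩
  · rw [le_div_iff₀ h0] at h4
    nlinarith
  · rw [div_le_iff₀ h0] at h5
    nlinarith

/-- The skeleton properties. -/
theorem skel {C : Set ℂ} (H : QP a b C) (hopen : IsOpenMap (F a b)) :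
    Skel (F a b) (zt b) ep C where
  diff := differentiable_F H.par
  f0 := F_zero
  openMap := hopen
  zeta_one := le_rfl
  zeta_grow n := by
    have := lam_ge' H.par n
    have := zt_pos H.par n
    rw [zt_succ]
    nlinarith
  eps_pos := ep_pos
  eps_lt n := by
    have := ep_le n
    linarith
  C_real := H.creal
  ann_map n z hz := by
    have h1 := ann_low H n hz
    have h2 := ann_up H n hz
    have h0 := zt_pos H.par n
    have h3 := zt_pos H.par (n + 1)
    have h4 := p_ge n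
    have h5 := lam_ge' H.par n
    have h6 : 2 ≤ ‖z‖ / zt b n := by
      rw [le_div_iff₀ h0]
      exact hz.1.le
    have h7 : ‖z‖ / zt b n < lam b n / 64 := by
      rw [div_lt_iff₀ h0]
      have := hz.2
      rw [zt_succ] at this
      linarith
    constructor
    · have h8 : 1 ≤ (‖z‖ / zt b n) ^ (m n + 2) := one_le_pow₀ (by linarith)
      have h9 : p n ^ 1 ≤ p n ^ 3 := pow_le_pow_right₀ (by linarith) (by norm_num)
      have h10 : 64 * zt b (n + 1) * 1 ≤ p n ^ 3 * zt b (n + 1) * (‖z‖ / zt b n) ^ (m n + 2) := by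
        gcongr
        linarith
      linarith
    · refine lt_of_le_of_lt h2 ?_
      have h8 : (‖z‖ / zt b n) ^ (m n + 2) ≤ (lam b n / 64) ^ (m n + 2) := by gcongr
      have h9 : lam b (n + 1) = |b n| * lam b n ^ (m n + 2) / 64 := rfl
      have h10 := H.par.hb n
      have h11 : lam b n ^ (m n + 2) ≤ 128 * lam b (n + 1) := by
        rw [h9]
        have : 0 ≤ lam b n ^ (m n + 2) := by positivity
        nlinarith
      have h12 : (64 : ℝ) ^ (m n + 2) = 4096 * (p n ^ 3) ^ 2 := by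
        unfold p
        rw [pow_add, ← pow_mul, ← pow_mul, show m n * (3 * 2) = 6 * m n by ring, pow_mul]
        norm_num
        ring
      have h13 : 0 < p n ^ 3 := by positivity
      calc 4 * p n ^ 3 * zt b (n + 1) * (‖z‖ / zt b n) ^ (m n + 2)
          ≤ 4 * p n ^ 3 * zt b (n + 1) * (lam b n / 64) ^ (m n + 2) := by gcongr
        _ = 4 * p n ^ 3 * zt b (n + 1) * (lam b n ^ (m n + 2) / (4096 * (p n ^ 3) ^ 2)) := by
            rw [div_pow, h12]
        _ ≤ 4 * p n ^ 3 * zt b (n + 1) * (128 * lam b (n + 1) / (4096 * (p n ^ 3) ^ 2)) := by gcongr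
        _ = zt b (n + 2) * (1 / (8 * p n ^ 3)) := by
            rw [zt_succ (n + 1)]
            field_simp
            ring
        _ < zt b (n + 2) * (1 / 64) := by
            apply mul_lt_mul_of_pos_left _ (zt_pos H.par _)
            rw [div_lt_div_iff₀ (by positivity) (by norm_num)]
            have : p n ^ 1 ≤ p n ^ 3 := pow_le_pow_right₀ (by linarith) (by norm_num)
            linarith
        _ = _ := by ring
  grow1 n z hz := by
    have h1 := ann_low H n hz
    have h0 := zt_pos H.par n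
    have h3 := zt_pos H.par (n + 1)
    have h4 := p_ge n
    have h6 : 2 ≤ ‖z‖ / zt b n := by
      rw [le_div_iff₀ h0]
      exact hz.1.le
    rw [le_div_iff₀ h3]
    refine le_trans ?_ h1
    have h8 : (‖z‖ / zt b n) ^ 2 ≤ (‖z‖ / zt b n) ^ (m n + 2) :=
      pow_le_pow_right₀ (by linarith) (by omega)
    have h9 : p n ^ 1 ≤ p n ^ 3 := pow_le_pow_right₀ (by linarith) (by norm_num)
    have h10 : 16 * zt b (n + 1) * (‖z‖ / zt b n) ^ 2 ≤
        p n ^ 3 * zt b (n + 1) * (‖z‖ / zt b n) ^ (m n + 2) := by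
      gcongr
      linarith
    linarith
  grow2 n z hz := by
    have h1 := ann_low H n hz
    have h0 := zt_pos H.par n
    have h3 := zt_pos H.par (n + 1)
    have h4 := p_ge n
    have h6 : 2 ≤ ‖z‖ / zt b n := by
      rw [le_div_iff₀ h0]
      exact hz.1.le
    refine le_trans ?_ h1
    have h7 := zt_pow H.par n
    have h8 : (‖z‖ / zt b n) ^ n ≤ (‖z‖ / zt b n) ^ (m n + 2) :=
      pow_le_pow_right₀ (by linarith) (by unfold m; omega)
    have h9 : p n ^ 1 ≤ p n ^ 3 := pow_le_pow_right₀ (by linarith) (by norm_num)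
    have h10 : ‖z‖ ^ n = (‖z‖ / zt b n) ^ n * zt b n ^ n := by
      rw [← mul_pow, div_mul_cancel₀ _ h0.ne']
    rw [h10]
    have h11 : (‖z‖ / zt b n) ^ n * zt b n ^ n ≤ (‖z‖ / zt b n) ^ (m n + 2) * zt b (n + 1) := by
      gcongr
    refine h11.trans ?_
    have h12 : 0 ≤ (‖z‖ / zt b n) ^ (m n + 2) * zt b (n + 1) := by positivity
    nlinarith
  bridge n z h1 h2 h3 := by
    have H' := H.par
    have h0 := zt_pos H' n
    have h4 := zt_pos H' (n + 1)
    have hp := p_ge n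
    have hp0 := p_pos n
    have hx1 : 1 / 2 ≤ ‖z / (zt b n : ℂ)‖ := by
      rw [norm_ratio H', le_div_iff₀ h0]
      linarith
    have hx2 : ‖z / (zt b n : ℂ)‖ ≤ 2 := by
      rw [norm_ratio H', div_le_iff₀ h0]
      linarith
    have h5 : ∀ c ∈ C, ep n ≤ ‖z / (zt b n : ℂ) - c‖ := by
      intro c hc
      have h6 : z / (zt b n : ℂ) - c = (z - c * zt b n) / (zt b n : ℂ) := by
        have : (zt b n : ℂ) ≠ 0 := by exact_mod_cast h0.ne'
        field_simp
      rw [h6, norm_div, Complex.norm_real, Real.norm_eq_abs, abs_of_pos h0, le_div_iff₀ h0]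
      exact h3 c hc
    have h6 := H.q2 n _ hx1 hx2 h5
    have h7 := F_low H' n z h1 h2
    have h8 := F_up H' n z h1 h2
    have h9 := norm_Q_le H' n (z / (zt b n : ℂ))
    have h10 : ‖Q a b n (z / zt b n)‖ ≤ 9 := by
      refine h9.trans ?_
      nlinarith [norm_nonneg (z / (zt b n : ℂ))]
    have h11 : p n ^ 2 * zt b (n + 1) ≤ ‖T b n z‖ := by
      rw [norm_T H', ← norm_ratio H']
      have h12 : (1 / 2 : ℝ) ^ m n ≤ ‖z / (zt b n : ℂ)‖ ^ m n := by gcongr
      have h13 : (1 / 2 : ℝ) ^ m n = 1 / p n := by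
        unfold p
        rw [one_div_pow]
      rw [h13] at h12
      calc p n ^ 2 * zt b (n + 1) = p n ^ 3 * zt b (n + 1) * (1 / p n) := by
            field_simp
        _ ≤ _ := by gcongr
    have h12 : ‖T b n z‖ ≤ p n ^ 4 * zt b (n + 1) := by
      rw [norm_T H', ← norm_ratio H']
      have h12 : ‖z / (zt b n : ℂ)‖ ^ m n ≤ p n := by
        unfold p
        gcongr
      calc p n ^ 3 * zt b (n + 1) * ‖z / (zt b n : ℂ)‖ ^ m n
          ≤ p n ^ 3 * zt b (n + 1) * p n := by gcongr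
        _ = _ := by ring
    have h13 : 1 / (100000 * p n ^ 9) ≤ 1 / p n ^ 2 := by
      apply one_div_le_one_div_of_le (by positivity)
      have h14 : p n ^ 2 ≤ p n ^ 9 := pow_le_pow_right₀ (by linarith) (by norm_num)
      have h15 : 0 < p n ^ 9 := by positivity
      linarith
    have h14 : 1 / p n ^ 2 ≤ 1 := by
      rw [div_le_one (by positivity)]
      exact one_le_pow₀ (by linarith)
    constructor
    · refine lt_of_lt_of_le ?_ h7
      calc 2 * zt b (n + 1) < 7 * zt b (n + 1) := by linarith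
        _ = (p n ^ 2 * zt b (n + 1)) * (8 / p n ^ 2 - 1 / p n ^ 2) := by
            field_simp
            ring
        _ ≤ ‖T b n z‖ * (8 / p n ^ 2 - 1 / p n ^ 2) := by
            apply mul_le_mul_of_nonneg_right h11
            rw [← sub_div]
            positivity
        _ ≤ _ := by
            apply mul_le_mul_of_nonneg_left _ (norm_nonneg _)
            linarith
    · apply ratio_bound H'
      refine h8.trans ?_
      calc ‖T b n z‖ * (‖Q a b n (z / zt b n)‖ + 1 / (100000 * p n ^ 9))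
          ≤ (p n ^ 4 * zt b (n + 1)) * (9 + 1) := by
            gcongr
            linarith
        _ = _ := by ring
  radial n z c t hc h1 h2 h3 h4 := by
    have H' := H.par
    have h0 := zt_pos H' n
    have h5 := zt_pos H' (n + 1)
    have hp := p_ge n
    have hp0 := p_pos n
    have hc1 : ‖c‖ = 1 := by
      rcases H.creal c hc with rfl | rfl <;> simp
    have hzc : (zt b n : ℂ) ≠ 0 := by exact_mod_cast h0.ne'
    have hx : ‖z / (zt b n : ℂ) - c‖ ≤ ep n := by
      have h6 : z / (zt b n : ℂ) - c = (z - c * zt b n) / (zt b n : ℂ) := by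
        field_simp
      rw [h6, norm_div, Complex.norm_real, Real.norm_eq_abs, abs_of_pos h0, div_le_iff₀ h0]
      exact h1
    obtain ⟨h7, h8, h9, h10⟩ := T_near H' n hc1 hx
    have hsm : 1 / (100000 * p n ^ 9) ≤ 1 / 10 / p n ^ 3 := by
      rw [div_div]
      apply one_div_le_one_div_of_le (by positivity)
      have h14 : p n ^ 3 ≤ p n ^ 9 := pow_le_pow_right₀ (by linarith) (by norm_num)
      have h15 : 0 < p n ^ 3 := by positivity
      linarith
    have hQ : 7 / p n ^ 3 ≤ ‖Q a b n (z / zt b n)‖ := by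
      have h11 := (h2.trans (F_up H' n z h9 h10)).trans
        (mul_le_mul_of_nonneg_right h8 (by positivity))
      have h12 : 8 * zt b (n + 1) ≤ 101 / 100 * (p n ^ 3 * zt b (n + 1)) *
          (‖Q a b n (z / zt b n)‖ + 1 / 10 / p n ^ 3) := by
        refine h11.trans ?_
        gcongr
      rw [div_le_iff₀ (by positivity)]
      have h13 : 101 / 100 * (p n ^ 3 * zt b (n + 1)) *
          (‖Q a b n (z / zt b n)‖ + 1 / 10 / p n ^ 3) = zt b (n + 1) *
          (101 / 100 * (‖Q a b n (z / zt b n)‖ * p n ^ 3) + 101 / 1000) := by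
        field_simp
        ring
      rw [h13] at h12
      have h14 : zt b (n + 1) * 8 ≤ zt b (n + 1) *
          (101 / 100 * (‖Q a b n (z / zt b n)‖ * p n ^ 3) + 101 / 1000) := by linarith
      have h15 := le_of_mul_le_mul_left h14 h5
      linarith
    set z' : ℂ := c * zt b n + (t : ℂ) * (z - c * zt b n) with hz'
    have hz'x : z' / (zt b n : ℂ) = c + t * (z / zt b n - c) := by
      rw [hz']
      field_simp
    have htx : ‖(t : ℂ) * (z / (zt b n : ℂ) - c)‖ ≤ ep n := by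
      have h6 : (t : ℂ) * (z / (zt b n : ℂ) - c) = (t * (z - c * zt b n)) / (zt b n : ℂ) := by
        field_simp
      rw [h6, norm_div, Complex.norm_real, Real.norm_eq_abs, abs_of_pos h0, div_le_iff₀ h0]
      exact h4
    have hQ2 := H.q4 n _ c t hc hx hQ h3 htx
    rw [← hz'x] at hQ2
    have hx' : ‖z' / (zt b n : ℂ) - c‖ ≤ ep n := by
      rw [hz'x, add_sub_cancel_left]
      exact htx
    obtain ⟨h11, h12, h13, h14⟩ := T_near H' n hc1 hx'
    have h15 := F_low H' n z' h13 h14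
    have h16 := F_up H' n z' h13 h14
    have h17 := norm_Q_le H' n (z' / (zt b n : ℂ))
    have h18 : ‖z' / (zt b n : ℂ)‖ ≤ 2 := by
      rw [norm_ratio H', div_le_iff₀ h0]
      exact h14
    have h19 : ‖Q a b n (z' / zt b n)‖ ≤ 9 := by
      refine h17.trans ?_
      nlinarith [norm_nonneg (z' / (zt b n : ℂ))]
    have h20 : 1 / 10 / p n ^ 3 ≤ 1 / 10 := by
      rw [div_le_iff₀ (by positivity)]
      have : 1 ≤ p n ^ 3 := one_le_pow₀ (by linarith)
      linarith
    constructor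
    · refine lt_of_lt_of_le ?_ h15
      calc 2 * zt b (n + 1) < 99 / 100 * (39 / 10) * zt b (n + 1) := by nlinarith
        _ = (99 / 100 * (p n ^ 3 * zt b (n + 1))) * (4 / p n ^ 3 - 1 / 10 / p n ^ 3) := by
            field_simp
            ring
        _ ≤ ‖T b n z'‖ * (4 / p n ^ 3 - 1 / 10 / p n ^ 3) := by
            apply mul_le_mul_of_nonneg_right h11
            rw [← sub_div]
            positivity
        _ ≤ _ := by
            apply mul_le_mul_of_nonneg_left _ (norm_nonneg _)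
            linarith
    · apply ratio_bound H'
      refine h16.trans ?_
      have h21 : p n ^ 3 ≤ p n ^ 4 := pow_le_pow_right₀ (by linarith) (by norm_num)
      calc ‖T b n z'‖ * (‖Q a b n (z' / zt b n)‖ + 1 / (100000 * p n ^ 9))
          ≤ (101 / 100 * (p n ^ 3 * zt b (n + 1))) * (9 + 1 / 10) :=
            mul_le_mul h12 (add_le_add h19 (by linarith)) (by positivity) (by positivity)
        _ ≤ (101 / 100 * (p n ^ 4 * zt b (n + 1))) * (9 + 1 / 10) := by gcongr
        _ ≤ _ := by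
            have : 0 < p n ^ 4 * zt b (n + 1) := by positivity
            nlinarith
  center n c hc := by
    have H' := H.par
    have h0 := zt_pos H' n
    have h5 := zt_pos H' (n + 1)
    have hp := p_ge n
    have hp0 := p_pos n
    have hc1 : ‖c‖ = 1 := by
      rcases H.creal c hc with rfl | rfl <;> simp
    have hzc : (zt b n : ℂ) ≠ 0 := by exact_mod_cast h0.ne'
    have hx0 : c * (zt b n : ℂ) / (zt b n : ℂ) = c := by field_simp
    have hx : ‖c * (zt b n : ℂ) / (zt b n : ℂ) - c‖ ≤ ep n := by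
      rw [hx0, sub_self, norm_zero]
      exact (ep_pos n).le
    obtain ⟨h7, h8, h9, h10⟩ := T_near H' n hc1 hx
    have h11 := F_up H' n _ h9 h10
    rw [hx0] at h11
    have h12 := H.q5 n c hc
    have hsm : 1 / (100000 * p n ^ 9) ≤ 1 / 10 / p n ^ 3 := by
      rw [div_div]
      apply one_div_le_one_div_of_le (by positivity)
      have h14 : p n ^ 3 ≤ p n ^ 9 := pow_le_pow_right₀ (by linarith) (by norm_num)
      have h15 : 0 < p n ^ 3 := by positivity
      linarith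
    calc ‖F a b (c * zt b n)‖ ≤ _ := h11
      _ ≤ (101 / 100 * (p n ^ 3 * zt b (n + 1))) * (2 / p n ^ 3 + 1 / 10 / p n ^ 3) := by gcongr
      _ = 101 / 100 * (21 / 10) * zt b (n + 1) := by
          field_simp
          ring
      _ < 8 * zt b (n + 1) := by nlinarith

end

end Pool.Agent.H218R3.Ser
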